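import Pool.Agent.Lib.MP_e426f4_ag.Basic

/-! Integers of a residue class in an interval; linear congruences. -/

namespace CubicHP

open Finset

theorem ncard_AP (a b : ℝ) (hab : a ≤ b) (M : ℕ) (hM : 1 ≤ M) (r : ℤ) :
    {x : ℤ | a ≤ x ∧ (x : ℝ) ≤ b ∧ (M : ℤ) ∣ x - r}.Finite ∧
    (b - a) / M - 1 ≤ (Set.ncard {x : ℤ | a ≤ x ∧ (x : ℝ) ≤ b ∧ (M : ℤ) ∣ x - r} : ℝ) ∧
    (Set.ncard {x : ℤ | a ≤ x ∧ (x : ℝ) ≤ b ∧ (M : ℤ) ∣ x - r} : ℝ) ≤ (b - a) / M + 1 := by
  have hM' : (0 : ℝ) < M := by exact_mod_cast hM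
  obtain ⟨α, hα⟩ : ∃ α : ℝ, α = (a - r) / M := ⟨_, rfl⟩
  obtain ⟨β, hβ⟩ : ∃ β : ℝ, β = (b - r) / M := ⟨_, rfl⟩
  have hset : {x : ℤ | a ≤ x ∧ (x : ℝ) ≤ b ∧ (M : ℤ) ∣ x - r} =
      (fun k : ℤ => r + M * k) '' ((Finset.Icc ⌈α⌉ ⌊β⌋ : Finset ℤ) : Set ℤ) := by
    ext x
    simp only [Set.mem_image, Finset.coe_Icc, Set.mem_Icc, Int.ceil_le, Int.le_floor]
    constructor
    · rintro ⟨h1, h2, k, hk⟩
      have hx : x = r + M * k := by linarith
      refine ⟨k, ⟨?_, ?_⟩, hx.symm⟩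
      · rw [hα, div_le_iff₀ hM']
        rw [hx] at h1
        push_cast at h1
        linarith
      · rw [hβ, le_div_iff₀ hM']
        rw [hx] at h2
        push_cast at h2
        linarith
    · rintro ⟨k, ⟨h1, h2⟩, rfl⟩
      rw [hα, div_le_iff₀ hM'] at h1
      rw [hβ, le_div_iff₀ hM'] at h2
      refine ⟨?_, ?_, ⟨k, by ring⟩⟩
      · push_cast
        linarith
      · push_cast
        linarith
  have hinj : Function.Injective (fun k : ℤ => r + M * k) := by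
    intro k k' h
    have hM0 : (M : ℤ) ≠ 0 := by exact_mod_cast (by omega : M ≠ 0)
    have h1 : (M : ℤ) * k = M * k' := by simpa using h
    exact mul_left_cancel₀ hM0 h1
  have hcard : Set.ncard {x : ℤ | a ≤ x ∧ (x : ℝ) ≤ b ∧ (M : ℤ) ∣ x - r} =
      (⌊β⌋ + 1 - ⌈α⌉).toNat := by
    rw [hset, Set.ncard_image_of_injective _ hinj, Set.ncard_coe_finset, Int.card_Icc]
  have hba : (b - a) / M = β - α := by
    rw [hα, hβ]
    field_simp
    ring
  have hβα : 0 ≤ β - α := by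
    rw [← hba]
    exact div_nonneg (by linarith) hM'.le
  refine ⟨by rw [hset]; exact (Finset.finite_toSet _).image _, ?_, ?_⟩
  · rw [hcard, hba]
    have h1 : (⌊β⌋ + 1 - ⌈α⌉ : ℤ) ≤ ((⌊β⌋ + 1 - ⌈α⌉).toNat : ℤ) := Int.self_le_toNat _
    have h2 : ((⌊β⌋ + 1 - ⌈α⌉ : ℤ) : ℝ) ≤ (((⌊β⌋ + 1 - ⌈α⌉).toNat : ℤ) : ℝ) := by
      exact_mod_cast h1
    have h3 := Int.lt_floor_add_one β
    have h4 := Int.ceil_lt_add_one α
    push_cast at h2 ⊢
    linarith
  · rw [hcard, hba]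
    rcases le_or_gt 0 (⌊β⌋ + 1 - ⌈α⌉) with h | h
    · have h2 : (((⌊β⌋ + 1 - ⌈α⌉).toNat : ℤ) : ℝ) = ((⌊β⌋ + 1 - ⌈α⌉ : ℤ) : ℝ) := by
        rw [Int.toNat_of_nonneg h]
      have h3 := Int.floor_le β
      have h4 := Int.le_ceil α
      rw [Int.cast_natCast] at h2
      rw [h2]
      push_cast
      linarith
    · rw [Int.toNat_of_nonpos h.le]
      push_cast
      linarith

/-- a linear congruence with unimodular coefficients has at most `N^(m-1)` solutions -/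
theorem card_lin_congr_le {ι : Type} [Fintype ι] [DecidableEq ι] (N : ℕ) (hN : 0 < N) (v : ι → ℤ)
    (hv : ∃ c : ι → ℤ, IsCoprime (∑ i, c i * v i) (N : ℤ)) (b : ℤ) :
    (Set.ncard {A : ι → ℤ | (∀ i, 0 ≤ A i ∧ A i < N) ∧ (N : ℤ) ∣ ∑ i, A i * v i - b}) * N ≤
      N ^ Fintype.card ι := by
  classical
  have hN' : (0 : ℤ) < N := by exact_mod_cast hN
  obtain ⟨c, s₀, t₀, hst⟩ := hv
  let u : ι → ℤ := fun i => s₀ * c i
  have hu : ∑ i, u i * v i = 1 - t₀ * N := by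
    have : ∑ i, u i * v i = s₀ * ∑ i, c i * v i := by
      rw [Finset.mul_sum]
      exact Finset.sum_congr rfl fun i _ => by simp only [u]; ring
    rw [this]
    linarith
  let Box : Finset (ι → ℤ) := Fintype.piFinset fun _ => Finset.Ico 0 (N : ℤ)
  let Sol : Finset (ι → ℤ) := Box.filter fun A => (N : ℤ) ∣ ∑ i, A i * v i - b
  have hSol : {A : ι → ℤ | (∀ i, 0 ≤ A i ∧ A i < N) ∧ (N : ℤ) ∣ ∑ i, A i * v i - b} = Sol := by
    ext A
    simp [Sol, Box, Fintype.mem_piFinset]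
  have hBox : Box.card = N ^ Fintype.card ι := by
    rw [Fintype.card_piFinset]
    simp
  rw [hSol, Set.ncard_coe_finset, ← hBox]
  have h1 : Sol.card * N = (Sol ×ˢ Finset.Ico 0 (N : ℤ)).card := by
    rw [Finset.card_product, Int.card_Ico]
    simp
  rw [h1]
  refine Finset.card_le_card_of_injOn (fun p i => (p.1 i + p.2 * u i) % N) ?_ ?_
  · intro p _
    simp only [Box, Finset.mem_coe, Fintype.mem_piFinset, Finset.mem_Ico]
    intro i
    exact ⟨Int.emod_nonneg _ hN'.ne', Int.emod_lt_of_pos _ hN'⟩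
  · rintro ⟨A, s⟩ hp ⟨A', s'⟩ hp' heq
    simp only [Finset.coe_product, Set.mem_prod, Finset.mem_coe, Sol, Finset.mem_filter, Box,
      Fintype.mem_piFinset, Finset.mem_Ico] at hp hp'
    have hcong : ∀ i, (N : ℤ) ∣ (A i + s * u i) - (A' i + s' * u i) := by
      intro i
      exact Int.ModEq.dvd (Eq.symm (congrFun heq i))
    have hsum : (N : ℤ) ∣ ∑ i, ((A i + s * u i) - (A' i + s' * u i)) * v i :=
      Finset.dvd_sum fun i _ => Dvd.dvd.mul_right (hcong i) _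
    have h2 : ∑ i, ((A i + s * u i) - (A' i + s' * u i)) * v i =
        (∑ i, A i * v i - b) - (∑ i, A' i * v i - b) + (s - s') * ∑ i, u i * v i := by
      rw [Finset.mul_sum]
      have : ∀ i, ((A i + s * u i) - (A' i + s' * u i)) * v i =
          A i * v i - A' i * v i + (s - s') * (u i * v i) := fun i => by ring
      simp only [this, Finset.sum_add_distrib, Finset.sum_sub_distrib]
      ring
    rw [h2, hu] at hsum
    have h3 : (N : ℤ) ∣ (s - s') * (1 - t₀ * N) := by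
      have h4 := dvd_sub hp.1.2 hp'.1.2
      have h5 := dvd_sub hsum h4
      simpa using h5
    have h4 : (N : ℤ) ∣ s - s' := by
      have h5 : (s - s') * (1 - t₀ * N) = (s - s') - N * ((s - s') * t₀) := by ring
      rw [h5] at h3
      have h6 := dvd_add h3 (Dvd.intro _ rfl : (N : ℤ) ∣ N * ((s - s') * t₀))
      simpa using h6
    have h5 : s = s' := by
      have h6 := Int.eq_zero_of_abs_lt_dvd h4 (by
        rw [abs_lt]
        constructor <;> linarith [hp.2.1, hp.2.2, hp'.2.1, hp'.2.2])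
      linarith
    subst h5
    have h6 : A = A' := by
      ext i
      have h7 := hcong i
      have h8 : (A i + s * u i) - (A' i + s * u i) = A i - A' i := by ring
      rw [h8] at h7
      have h9 := Int.eq_zero_of_abs_lt_dvd h7 (by
        rw [abs_lt]
        constructor <;> linarith [(hp.1.1 i).1, (hp.1.1 i).2, (hp'.1.1 i).1, (hp'.1.1 i).2])
      linarith
    rw [h6]

end CubicHP
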