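import Pool.Agent.Lib.MP_e426f4_ag.T3Lin

/-! Module ALG: algebra of cubic forms. -/

namespace CubicHP
open Finset
theorem mon_mk3 {R : Type*} [CommRing R] (x : Fin 4 → R) (a b c : Fin 4) :
    mon x (mk3 a b c) = x a * x b * x c := by
  have h : ∀ a b c : Fin 4, ((mk3 a b c).1 = (a, b, c)) ∨ ((mk3 a b c).1 = (a, c, b)) ∨
      ((mk3 a b c).1 = (b, a, c)) ∨ ((mk3 a b c).1 = (b, c, a)) ∨ ((mk3 a b c).1 = (c, a, b)) ∨
      ((mk3 a b c).1 = (c, b, a)) := by decide
  unfold mon
  rcases h a b c with h | h | h | h | h | h <;> rw [h] <;> ring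

theorem F_T3 {R : Type*} [CommRing R] (l m n x : Fin 4 → R) :
    F (T3 l m n) x = (∑ a, l a * x a) * (∑ b, m b * x b) * (∑ c, n c * x c) := by
  unfold F T3
  calc ∑ t, (∑ a, ∑ b, ∑ c, if mk3 a b c = t then l a * m b * n c else 0) * mon x t
      = ∑ a, ∑ b, ∑ c, ∑ t, (if mk3 a b c = t then l a * m b * n c else 0) * mon x t := by
        simp only [Finset.sum_mul]
        rw [Finset.sum_comm]
        refine Finset.sum_congr rfl fun a _ => ?_
        rw [Finset.sum_comm]
        refine Finset.sum_congr rfl fun b _ => ?_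
        rw [Finset.sum_comm]
    _ = ∑ a, ∑ b, ∑ c, (l a * x a) * (m b * x b) * (n c * x c) := by
        refine Finset.sum_congr rfl fun a _ => Finset.sum_congr rfl fun b _ =>
          Finset.sum_congr rfl fun c _ => ?_
        rw [Finset.sum_eq_single (mk3 a b c)]
        · rw [if_pos rfl, mon_mk3]; ring
        · intro t _ ht
          rw [if_neg (Ne.symm ht), zero_mul]
        · simp
    _ = _ := by
        rw [Finset.sum_mul_sum, Finset.sum_mul]
        refine Finset.sum_congr rfl fun a _ => ?_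
        rw [Finset.sum_mul]
        refine Finset.sum_congr rfl fun b _ => ?_
        rw [Finset.mul_sum]

theorem F_add {R : Type*} [CommRing R] (A B : Idx → R) (x : Fin 4 → R) :
    F (fun t => A t + B t) x = F A x + F B x := by
  simp only [F, add_mul, Finset.sum_add_distrib]

theorem F_smul {R : Type*} [CommRing R] (c : R) (A : Idx → R) (x : Fin 4 → R) :
    F (fun t => c * A t) x = c * F A x := by
  simp only [F, mul_assoc, Finset.mul_sum]

theorem F_scale {R : Type*} [CommRing R] (c : R) (A : Idx → R) (x : Fin 4 → R) :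
    F A (fun i => c * x i) = c ^ 3 * F A x := by
  simp only [F, mon, Finset.mul_sum]
  refine Finset.sum_congr rfl fun t _ => ?_
  ring

theorem D_scale {R : Type*} [CommRing R] (c : R) (A : Idx → R) (x : Fin 4 → R) (j : Fin 4) :
    D A (fun i => c * x i) j = c ^ 2 * D A x j := by
  simp only [D, dmon, Finset.mul_sum]
  refine Finset.sum_congr rfl fun t _ => ?_
  split_ifs <;> ring

/-- Euler's identity for a monomial -/
theorem sum_dmon {R : Type*} [CommRing R] (x h : Fin 4 → R) (t : Idx) :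
    ∑ j, dmon x j t * h j = h t.1.1 * x t.1.2.1 * x t.1.2.2 + x t.1.1 * h t.1.2.1 * x t.1.2.2
      + x t.1.1 * x t.1.2.1 * h t.1.2.2 := by
  simp only [dmon, add_mul, ite_mul, zero_mul, Finset.sum_add_distrib, Finset.sum_ite_eq,
    Finset.mem_univ, if_true]
  ring

/-- Euler's identity -/
theorem euler {R : Type*} [CommRing R] (A : Idx → R) (x : Fin 4 → R) :
    ∑ j, x j * D A x j = 3 * F A x := by
  simp only [D, F, Finset.mul_sum]
  rw [Finset.sum_comm]
  refine Finset.sum_congr rfl fun t _ => ?_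
  have := sum_dmon x x t
  calc ∑ j, x j * (A t * dmon x j t) = A t * ∑ j, dmon x j t * x j := by
        rw [Finset.mul_sum]; exact Finset.sum_congr rfl fun j _ => by ring
    _ = _ := by rw [this, mon]; ring

/-- Taylor expansion with divisible remainder. -/
theorem F_add_smul {R : Type*} [CommRing R] (A : Idx → R) (x h : Fin 4 → R) (c : R) :
    ∃ r : R, F A (fun i => x i + c * h i) = F A x + c * (∑ j, D A x j * h j) + c ^ 2 * r := by
  refine ⟨∑ t, A t * (x t.1.1 * h t.1.2.1 * h t.1.2.2 + h t.1.1 * x t.1.2.1 * h t.1.2.2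
    + h t.1.1 * h t.1.2.1 * x t.1.2.2 + c * (h t.1.1 * h t.1.2.1 * h t.1.2.2)), ?_⟩
  have h1 : ∑ j, D A x j * h j = ∑ t, A t * (h t.1.1 * x t.1.2.1 * x t.1.2.2
      + x t.1.1 * h t.1.2.1 * x t.1.2.2 + x t.1.1 * x t.1.2.1 * h t.1.2.2) := by
    simp only [D, Finset.sum_mul]
    rw [Finset.sum_comm]
    refine Finset.sum_congr rfl fun t _ => ?_
    rw [← sum_dmon x h t, Finset.mul_sum]
    exact Finset.sum_congr rfl fun j _ => by ring
  rw [h1]
  simp only [F, mon, Finset.mul_sum]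
  rw [← Finset.sum_add_distrib, ← Finset.sum_add_distrib]
  refine Finset.sum_congr rfl fun t _ => ?_
  ring

theorem dvd_mul_sub_mul (n a b a' b' : ℤ) (h : n ∣ a - a') (h' : n ∣ b - b') :
    n ∣ a * b - a' * b' := by
  obtain ⟨u, hu⟩ := h
  obtain ⟨v, hv⟩ := h'
  exact ⟨u * b + a' * v, by linear_combination b * hu + a' * hv⟩

theorem F_congr_mod (n : ℤ) (A A' : Idx → ℤ) (x x' : Fin 4 → ℤ) (hA : ∀ m, n ∣ A m - A' m)
    (hx : ∀ i, n ∣ x i - x' i) : n ∣ F A x - F A' x' := by
  simp only [F, mon]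
  rw [← Finset.sum_sub_distrib]
  refine Finset.dvd_sum fun t _ => ?_
  exact dvd_mul_sub_mul _ _ _ _ _ (hA t) (dvd_mul_sub_mul _ _ _ _ _
    (dvd_mul_sub_mul _ _ _ _ _ (hx _) (hx _)) (hx _))

theorem D_congr_mod (n : ℤ) (A A' : Idx → ℤ) (x x' : Fin 4 → ℤ) (j : Fin 4)
    (hA : ∀ m, n ∣ A m - A' m) (hx : ∀ i, n ∣ x i - x' i) : n ∣ D A x j - D A' x' j := by
  simp only [D, dmon]
  rw [← Finset.sum_sub_distrib]
  refine Finset.dvd_sum fun t _ => ?_
  refine dvd_mul_sub_mul _ _ _ _ _ (hA t) ?_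
  have h1 := dvd_mul_sub_mul _ _ _ _ _ (hx t.1.2.1) (hx t.1.2.2)
  have h2 := dvd_mul_sub_mul _ _ _ _ _ (hx t.1.1) (hx t.1.2.2)
  have h3 := dvd_mul_sub_mul _ _ _ _ _ (hx t.1.1) (hx t.1.2.1)
  have key : ∀ (p : Prop) [Decidable p] (a b : ℤ), n ∣ a - b →
      n ∣ (if p then a else 0) - (if p then b else 0) := by
    intro p _ a b hab
    split_ifs
    · exact hab
    · simp
  have e1 := key (t.1.1 = j) _ _ h1
  have e2 := key (t.1.2.1 = j) _ _ h2
  have e3 := key (t.1.2.2 = j) _ _ h3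
  have := dvd_add (dvd_add e1 e2) e3
  refine this.trans (dvd_of_eq ?_)
  ring

theorem F_cast (A : Idx → ℤ) (x : Fin 4 → ℤ) :
    F (fun t => (A t : ℝ)) (fun i => (x i : ℝ)) = ((F A x : ℤ) : ℝ) := by
  simp only [F, mon]
  push_cast
  rfl

theorem T3_cast (l m n : Fin 4 → ℤ) (t : Idx) :
    T3 (fun i => (l i : ℝ)) (fun i => (m i : ℝ)) (fun i => (n i : ℝ)) t =
      ((T3 l m n t : ℤ) : ℝ) := by
  simp only [T3]
  push_cast
  rfl

end CubicHP
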