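import Pool.Agent.Lib.MP_e426f4_ag.Alg

/-! Module ALR: real estimates for cubic forms. -/

namespace CubicHP

open Finset

theorem card_Idx : Fintype.card Idx = 20 := by decide

theorem sum_Idx_le (f : Idx → ℝ) (C : ℝ) (h : ∀ t, |f t| ≤ C) : |∑ t, f t| ≤ 20 * C := by
  calc |∑ t, f t| ≤ ∑ t, |f t| := Finset.abs_sum_le_sum_abs _ _
    _ ≤ ∑ _t : Idx, C := Finset.sum_le_sum fun t _ => h t
    _ = 20 * C := by rw [Finset.sum_const, Finset.card_univ, card_Idx]; norm_num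

theorem abs_mul3_le (a b c X Y Z : ℝ) (ha : |a| ≤ X) (hb : |b| ≤ Y) (hc : |c| ≤ Z) :
    |a * b * c| ≤ X * Y * Z := by
  have hX : 0 ≤ X := (abs_nonneg _).trans ha
  have hY : 0 ≤ Y := (abs_nonneg _).trans hb
  rw [abs_mul, abs_mul]
  exact mul_le_mul (mul_le_mul ha hb (abs_nonneg _) hX) hc (abs_nonneg _) (mul_nonneg hX hY)

theorem abs_mul2_le (a b X Y : ℝ) (ha : |a| ≤ X) (hb : |b| ≤ Y) : |a * b| ≤ X * Y := by
  rw [abs_mul]
  exact mul_le_mul ha hb (abs_nonneg _) ((abs_nonneg _).trans ha)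

theorem F_abs_le (A : Idx → ℝ) (x : Fin 4 → ℝ) (a X : ℝ) (hA : ∀ m, |A m| ≤ a)
    (hx : ∀ i, |x i| ≤ X) : |F A x| ≤ 20 * a * X ^ 3 := by
  have h := sum_Idx_le (fun t => A t * mon x t) (a * X ^ 3) fun t => by
    refine (abs_mul2_le _ _ a (X ^ 3) (hA t) ?_)
    refine (abs_mul3_le _ _ _ X X X (hx _) (hx _) (hx _)).trans (le_of_eq (by ring))
  calc |F A x| ≤ 20 * (a * X ^ 3) := h
    _ = _ := by ring

theorem abs_ite_le (p : Prop) [Decidable p] (a C : ℝ) (hC : |a| ≤ C) :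
    |if p then a else 0| ≤ C := by
  split_ifs
  · exact hC
  · simpa using (abs_nonneg _).trans hC

theorem D_abs_le (A : Idx → ℝ) (x : Fin 4 → ℝ) (j : Fin 4) (a X : ℝ) (hA : ∀ m, |A m| ≤ a)
    (hx : ∀ i, |x i| ≤ X) : |D A x j| ≤ 60 * a * X ^ 2 := by
  have h := sum_Idx_le (fun t => A t * dmon x j t) (a * (3 * X ^ 2)) fun t => by
    refine (abs_mul2_le _ _ a (3 * X ^ 2) (hA t) ?_)
    unfold dmon
    have h1 : ∀ i k, |x i * x k| ≤ X ^ 2 := fun i k =>
      (abs_mul2_le _ _ X X (hx _) (hx _)).trans (le_of_eq (by ring))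
    refine (abs_add_three _ _ _).trans ?_
    have e1 := abs_ite_le (t.1.1 = j) _ _ (h1 t.1.2.1 t.1.2.2)
    have e2 := abs_ite_le (t.1.2.1 = j) _ _ (h1 t.1.1 t.1.2.2)
    have e3 := abs_ite_le (t.1.2.2 = j) _ _ (h1 t.1.1 t.1.2.1)
    linarith
  calc |D A x j| ≤ 20 * (a * (3 * X ^ 2)) := h
    _ = _ := by ring

theorem F_taylor_real (A : Idx → ℝ) (x y : Fin 4 → ℝ) (a X Y : ℝ) (hA : ∀ m, |A m| ≤ a)
    (hx : ∀ i, |x i| ≤ X) (hy : ∀ i, |y i| ≤ Y) :
    |F A (fun i => x i + y i) - F A x - ∑ j, D A x j * y j| ≤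
      20 * a * (3 * X * Y ^ 2 + Y ^ 3) := by
  have h1 : ∑ j, D A x j * y j = ∑ t, A t * (y t.1.1 * x t.1.2.1 * x t.1.2.2
      + x t.1.1 * y t.1.2.1 * x t.1.2.2 + x t.1.1 * x t.1.2.1 * y t.1.2.2) := by
    simp only [D, Finset.sum_mul]
    rw [Finset.sum_comm]
    refine Finset.sum_congr rfl fun t _ => ?_
    rw [← sum_dmon x y t, Finset.mul_sum]
    exact Finset.sum_congr rfl fun j _ => by ring
  have h2 : F A (fun i => x i + y i) - F A x - ∑ j, D A x j * y j =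
      ∑ t, A t * (x t.1.1 * y t.1.2.1 * y t.1.2.2 + y t.1.1 * x t.1.2.1 * y t.1.2.2
        + y t.1.1 * y t.1.2.1 * x t.1.2.2 + y t.1.1 * y t.1.2.1 * y t.1.2.2) := by
    rw [h1]
    simp only [F, mon]
    rw [← Finset.sum_sub_distrib, ← Finset.sum_sub_distrib]
    refine Finset.sum_congr rfl fun t _ => ?_
    ring
  rw [h2]
  have h := sum_Idx_le (fun t => A t * (x t.1.1 * y t.1.2.1 * y t.1.2.2
        + y t.1.1 * x t.1.2.1 * y t.1.2.2
        + y t.1.1 * y t.1.2.1 * x t.1.2.2 + y t.1.1 * y t.1.2.1 * y t.1.2.2))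
        (a * (3 * X * Y ^ 2 + Y ^ 3)) fun t => by
    refine (abs_mul2_le _ _ a _ (hA t) ?_)
    have e1 := abs_mul3_le _ _ _ X Y Y (hx t.1.1) (hy t.1.2.1) (hy t.1.2.2)
    have e2 := abs_mul3_le _ _ _ Y X Y (hy t.1.1) (hx t.1.2.1) (hy t.1.2.2)
    have e3 := abs_mul3_le _ _ _ Y Y X (hy t.1.1) (hy t.1.2.1) (hx t.1.2.2)
    have e4 := abs_mul3_le _ _ _ Y Y Y (hy t.1.1) (hy t.1.2.1) (hy t.1.2.2)
    calc _ ≤ |x t.1.1 * y t.1.2.1 * y t.1.2.2 + y t.1.1 * x t.1.2.1 * y t.1.2.2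
        + y t.1.1 * y t.1.2.1 * x t.1.2.2| + |y t.1.1 * y t.1.2.1 * y t.1.2.2| := abs_add_le _ _
      _ ≤ _ := by
        have := abs_add_three (x t.1.1 * y t.1.2.1 * y t.1.2.2)
          (y t.1.1 * x t.1.2.1 * y t.1.2.2) (y t.1.1 * y t.1.2.1 * x t.1.2.2)
        nlinarith
  calc _ ≤ 20 * (a * (3 * X * Y ^ 2 + Y ^ 3)) := h
    _ = _ := by ring

theorem abs_ite_sub_le (p : Prop) [Decidable p] (a b C : ℝ) (hC : |a - b| ≤ C) :
    |(if p then a else 0) - (if p then b else 0)| ≤ C := by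
  split_ifs
  · exact hC
  · simpa using (abs_nonneg _).trans hC

theorem D_taylor_real (A : Idx → ℝ) (x y : Fin 4 → ℝ) (j : Fin 4) (a X Y : ℝ)
    (hA : ∀ m, |A m| ≤ a) (hx : ∀ i, |x i| ≤ X) (hy : ∀ i, |y i| ≤ Y) :
    |D A (fun i => x i + y i) j - D A x j| ≤ 20 * a * (6 * X * Y + 3 * Y ^ 2) := by
  have h2 : D A (fun i => x i + y i) j - D A x j =
      ∑ t, A t * (dmon (fun i => x i + y i) j t - dmon x j t) := by
    simp only [D]
    rw [← Finset.sum_sub_distrib]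
    exact Finset.sum_congr rfl fun t _ => by ring
  rw [h2]
  have h3 : ∀ i k, |(x i + y i) * (x k + y k) - x i * x k| ≤ 2 * X * Y + Y ^ 2 := by
    intro i k
    have : (x i + y i) * (x k + y k) - x i * x k = x i * y k + y i * x k + y i * y k := by ring
    rw [this]
    have e1 := abs_mul2_le _ _ X Y (hx i) (hy k)
    have e2 := abs_mul2_le _ _ Y X (hy i) (hx k)
    have e3 := abs_mul2_le _ _ Y Y (hy i) (hy k)
    have := abs_add_three (x i * y k) (y i * x k) (y i * y k)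
    nlinarith
  have h := sum_Idx_le (fun t => A t * (dmon (fun i => x i + y i) j t - dmon x j t))
        (a * (6 * X * Y + 3 * Y ^ 2)) fun t => by
    refine (abs_mul2_le _ _ a _ (hA t) ?_)
    unfold dmon
    have e1 := abs_ite_sub_le (t.1.1 = j) _ _ _ (h3 t.1.2.1 t.1.2.2)
    have e2 := abs_ite_sub_le (t.1.2.1 = j) _ _ _ (h3 t.1.1 t.1.2.2)
    have e3 := abs_ite_sub_le (t.1.2.2 = j) _ _ _ (h3 t.1.1 t.1.2.1)
    have := abs_add_three _ _ _ |>.trans (add_le_add (add_le_add e1 e2) e3)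
    refine le_trans (le_of_eq ?_) (this.trans (le_of_eq (by ring)))
    congr 1
    ring
  calc _ ≤ 20 * (a * (6 * X * Y + 3 * Y ^ 2)) := h
    _ = _ := by ring

/-- derivative of `F A` along the `j`-th coordinate direction -/
theorem hasDerivAt_F_line (A : Idx → ℝ) (x : Fin 4 → ℝ) (j : Fin 4) (t : ℝ) :
    HasDerivAt (fun s : ℝ => F A (Function.update x j s)) (D A (Function.update x j t) j) t := by
  have h0 : ∀ i : Fin 4, HasDerivAt (fun s : ℝ => Function.update x j s i)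
      (if i = j then 1 else 0) t := by
    intro i
    by_cases h : i = j
    · subst h
      simp only [Function.update_self, if_true]
      exact hasDerivAt_id' t
    · simp only [Function.update_of_ne h, if_neg h]
      exact hasDerivAt_const _ _
  unfold F D mon
  refine HasDerivAt.fun_sum fun m _ => ?_
  refine HasDerivAt.const_mul _ ?_
  have := ((h0 m.1.1).mul (h0 m.1.2.1)).mul (h0 m.1.2.2)
  refine this.congr_deriv ?_
  unfold dmon
  split_ifs <;> simp <;> ring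

theorem T3_abs_single (l : Fin 4 → ℝ) (b c : Fin 4) (mu : ℝ) (h : ∀ i, |l i| ≤ mu) (m : Idx) :
    |T3 l (Pi.single b 1) (Pi.single c 1) m| ≤ 4 * mu := by
  have h1 : T3 l (Pi.single b 1) (Pi.single c 1) m = ∑ a, if mk3 a b c = m then l a else 0 := by
    unfold T3
    refine Finset.sum_congr rfl fun a _ => ?_
    rw [Finset.sum_eq_single b, Finset.sum_eq_single c]
    · simp
    · intro c' _ hc'; simp [Pi.single_eq_of_ne hc']
    · simp
    · intro b' _ hb'; simp [Pi.single_eq_of_ne hb']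
    · simp
  rw [h1]
  calc _ ≤ ∑ a, |if mk3 a b c = m then l a else 0| := Finset.abs_sum_le_sum_abs _ _
    _ ≤ ∑ _a : Fin 4, mu := Finset.sum_le_sum fun a _ => abs_ite_le _ _ _ (h a)
    _ = 4 * mu := by simp

theorem T3_abs_pair (l l' : Fin 4 → ℝ) (c : Fin 4) (mu : ℝ) (h : ∀ i, |l i| ≤ mu)
    (h' : ∀ i, |l' i| ≤ mu) (m : Idx) :
    |T3 l l' (Pi.single c 1) m| ≤ 16 * mu ^ 2 := by
  have h1 : T3 l l' (Pi.single c 1) m = ∑ a, ∑ b, if mk3 a b c = m then l a * l' b else 0 := by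
    unfold T3
    refine Finset.sum_congr rfl fun a _ => Finset.sum_congr rfl fun b _ => ?_
    rw [Finset.sum_eq_single c]
    · simp
    · intro c' _ hc'; simp [Pi.single_eq_of_ne hc']
    · simp
  rw [h1]
  calc _ ≤ ∑ a, |∑ b, if mk3 a b c = m then l a * l' b else 0| := Finset.abs_sum_le_sum_abs _ _
    _ ≤ ∑ _a : Fin 4, ∑ _b : Fin 4, mu ^ 2 := by
        refine Finset.sum_le_sum fun a _ => (Finset.abs_sum_le_sum_abs _ _).trans ?_
        refine Finset.sum_le_sum fun b _ => abs_ite_le _ _ _ ?_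
        exact (abs_mul2_le _ _ mu mu (h a) (h' b)).trans (le_of_eq (by ring))
    _ = 16 * mu ^ 2 := by simp; ring

end CubicHP
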