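import Pool.Agent.Lib.MP_e426f4_ag.Defs

/-! Finiteness of the basic sets. -/

namespace CubicHP

open Finset

theorem finite_of_abs_le {ι : Type*} [Finite ι] (S : Set (ι → ℤ)) (C : ℝ)
    (h : ∀ x ∈ S, ∀ i, |(x i : ℝ)| ≤ C) : S.Finite := by
  have : Fintype ι := Fintype.ofFinite ι
  refine (Set.Finite.pi' (fun _ : ι => Set.finite_Icc (-⌈C⌉) ⌈C⌉)).subset ?_
  intro x hx i
  have h1 := h x hx i
  rw [abs_le] at h1
  have h2 : (x i : ℝ) ≤ (⌈C⌉ : ℝ) := h1.2.trans (Int.le_ceil C)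
  have h3 : (-(⌈C⌉ : ℝ)) ≤ (x i : ℝ) := (neg_le_neg (Int.le_ceil C)).trans h1.1
  exact ⟨by exact_mod_cast h3, by exact_mod_cast h2⟩

theorem Cl_finite (d : Par) (r : ℝ) (H : ℕ) : (d.Cl r H).Finite := by
  obtain ⟨C, hC⟩ : ∃ C : ℝ, ∀ m, |(H : ℝ) * d.AC m| ≤ C := by
    refine ⟨∑ m, |(H : ℝ) * d.AC m|, fun m => ?_⟩
    exact Finset.single_le_sum (f := fun m => |(H : ℝ) * d.AC m|) (fun _ _ => abs_nonneg _)
      (Finset.mem_univ m)
  refine finite_of_abs_le _ (C + r * H) ?_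
  intro A hA m
  have h1 := hA.1 m
  calc |(A m : ℝ)| = |H * d.AC m + ((A m : ℝ) - H * d.AC m)| := by ring_nf
    _ ≤ |(H : ℝ) * d.AC m| + |(A m : ℝ) - H * d.AC m| := abs_add_le _ _
    _ ≤ C + r * H := add_le_add (hC m) h1

theorem Reg_finite (xi : Fin 4 → ℝ) (j : Fin 4) (kap : ℝ) (B : ℕ) : (Reg xi j kap B).Finite := by
  obtain ⟨C, hC⟩ : ∃ C : ℝ, ∀ m, |(B : ℝ) * xi m| + |(if m = j then kap else kap ^ 2) * B| ≤ C := by
    refine ⟨∑ m, (|(B : ℝ) * xi m| + |(if m = j then kap else kap ^ 2) * B|), fun m => ?_⟩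
    exact Finset.single_le_sum
      (f := fun m => |(B : ℝ) * xi m| + |(if m = j then kap else kap ^ 2) * B|)
      (fun _ _ => by positivity) (Finset.mem_univ m)
  refine finite_of_abs_le _ C ?_
  intro x hx i
  have h1 := hx i
  calc |(x i : ℝ)| = |B * xi i + ((x i : ℝ) - B * xi i)| := by ring_nf
    _ ≤ |(B : ℝ) * xi i| + |(x i : ℝ) - B * xi i| := abs_add_le _ _
    _ ≤ |(B : ℝ) * xi i| + |(if i = j then kap else kap ^ 2) * B| :=
        add_le_add le_rfl (h1.trans (le_abs_self _))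
    _ ≤ C := hC i

theorem XX_finite (d : Par) (B : ℕ) : (d.XX B).Finite :=
  (Reg_finite d.xi d.j d.kap B).subset fun _ hx => hx.1

theorem GG_finite (d : Par) (K : ℝ) (B : ℕ) : (d.GG K B).Finite :=
  (XX_finite d B).subset fun _ hx => hx.1

theorem GG_subset_XX (d : Par) (K : ℝ) (B : ℕ) : d.GG K B ⊆ d.XX B := fun _ hx => hx.1

theorem Pairs_finite (d : Par) (r K : ℝ) (H : ℕ) : (d.Pairs r K H).Finite :=
  ((Cl_finite d r H).prod (GG_finite d K (Bf H))).subset fun _ hq => ⟨hq.1, hq.2.1⟩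

theorem LP_finite (d : Par) (r th : ℝ) (n : ℕ) (S : Set (Fin 4 → ℤ)) (hS : S.Finite) (H : ℕ) :
    (d.LP r th n S H).Finite :=
  ((Cl_finite d r H).prod hS).subset fun _ hq => ⟨hq.1, hq.2.1⟩

theorem TBad_finite (d : Par) (K : ℝ) (G : ℕ) (tau : ℝ) (H : ℕ) : (d.TBad K G tau H).Finite :=
  ((Cl_finite d d.rho H).prod ((GG_finite d K (Bf H)).prod (GG_finite d K (Bf H)))).subset
    fun _ hq => ⟨hq.1, hq.2.1, hq.2.2.1⟩

theorem TMain_finite (d : Par) (K : ℝ) (G : ℕ) (tau : ℝ) (H : ℕ) : (d.TMain K G tau H).Finite :=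
  ((Cl_finite d d.rho H).prod ((GG_finite d K (Bf H)).prod (GG_finite d K (Bf H)))).subset
    fun _ hq => ⟨hq.1, hq.2.1, hq.2.2.1⟩

theorem box_finite (H : ℕ) (p : (Idx → ℤ) → Prop) : {A : Idx → ℤ | A ∈ box H ∧ p A}.Finite :=
  (box H).finite_toSet.subset fun _ hA => hA.1

theorem mem_box {H : ℕ} {A : Idx → ℤ} : A ∈ box H ↔ ∀ m, |A m| ≤ H := by
  simp [box, Fintype.mem_piFinset, abs_le]

theorem mem_box4 {n : ℕ} {x : Fin 4 → ℤ} : x ∈ box4 n ↔ ∀ i, |x i| ≤ n := by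
  simp [box4, Fintype.mem_piFinset, abs_le]

theorem card_box (H : ℕ) : (box H).card = (2 * H + 1) ^ 20 := by
  have h1 : Fintype.card Idx = 20 := by decide
  rw [box, Fintype.card_piFinset]
  simp only [Int.card_Icc, Finset.prod_const, Finset.card_univ, h1]
  congr 1
  omega

theorem card_box4 (n : ℕ) : (box4 n).card = (2 * n + 1) ^ 4 := by
  rw [box4, Fintype.card_piFinset]
  simp only [Int.card_Icc, Finset.prod_const, Finset.card_univ, Fintype.card_fin]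
  congr 1
  omega

end CubicHP
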