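import Pool.Agent.Lib.MP_e426f4_ag.Defs
import Pool.Agent.Lib.MP_e426f4_ag.Basic

/-!
# A `p`-adic zero gives a primitive approximate integer zero (EP2)
-/

namespace CubicHP

open Finset

private theorem F_map_aux {R S : Type*} [CommRing R] [CommRing S] (f : R →+* S) (A : Idx → R)
    (x : Fin 4 → R) : f (F A x) = F (fun t => f (A t)) (fun i => f (x i)) := by
  simp [F, mon, map_sum, map_mul]

private theorem F_smul_aux {R : Type*} [CommRing R] (A : Idx → R) (x : Fin 4 → R) (c : R) :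
    F A (fun i => c * x i) = c ^ 3 * F A x := by
  simp only [F, mon, Finset.mul_sum]
  exact Finset.sum_congr rfl fun t _ => by ring

/-- EP2 -/
theorem exists_approx_zero (p k : ℕ) [Fact p.Prime] (A : Idx → ℤ)
    (h : ∃ x : Fin 4 → ℚ_[p], x ≠ 0 ∧ F (fun t => (A t : ℚ_[p])) x = 0) :
    ∃ x : Fin 4 → ℤ, (∃ i, ¬ (p : ℤ) ∣ x i) ∧ ((p : ℤ) ^ (2 * k)) ∣ F A x := by
  obtain ⟨x, hx, hF⟩ := h
  obtain ⟨i, -, hi⟩ := Finset.exists_max_image (univ : Finset (Fin 4)) (fun i => ‖x i‖) ⟨0, mem_univ 0⟩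
  have hxi : x i ≠ 0 := by
    intro h0
    apply hx
    funext j
    have := hi j (mem_univ j)
    rw [h0, norm_zero] at this
    simpa using this
  -- the normalised zero
  have hle : ∀ j, ‖(x i)⁻¹ * x j‖ ≤ 1 := by
    intro j
    rw [norm_mul, norm_inv]
    have hpos : 0 < ‖x i‖ := norm_pos_iff.mpr hxi
    rw [inv_mul_le_iff₀ hpos, mul_one]
    exact hi j (mem_univ j)
  let z : Fin 4 → ℤ_[p] := fun j => ⟨(x i)⁻¹ * x j, hle j⟩
  have hz : F (fun t => (A t : ℤ_[p])) z = 0 := by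
    have h1 : (PadicInt.Coe.ringHom (p := p)) (F (fun t => (A t : ℤ_[p])) z) = 0 := by
      rw [F_map_aux]
      have h2 : (fun i => (PadicInt.Coe.ringHom (p := p)) (z i)) = fun j => (x i)⁻¹ * x j := rfl
      have h3 : (fun t => (PadicInt.Coe.ringHom (p := p)) ((A t : ℤ) : ℤ_[p])) =
          fun t => ((A t : ℤ) : ℚ_[p]) := by
        funext t; simp
      rw [h2, h3, F_smul_aux, hF, mul_zero]
    have h4 : ((F (fun t => (A t : ℤ_[p])) z : ℤ_[p]) : ℚ_[p]) = 0 := h1
    exact Subtype.ext h4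
  have hzi : z i = 1 := by
    apply Subtype.ext
    change (x i)⁻¹ * x i = 1
    exact inv_mul_cancel₀ hxi
  -- integer lifts
  let m : ℕ := 2 * k + 1
  have hlift : ∀ j, ∃ n : ℤ, ((n : ℤ) : ZMod (p ^ m)) = PadicInt.toZModPow m (z j) := fun j =>
    ZMod.intCast_surjective _
  choose n hn using hlift
  have hFn : (((F A n : ℤ)) : ZMod (p ^ m)) = 0 := by
    have h1 : (Int.castRingHom (ZMod (p ^ m))) (F A n) =
        PadicInt.toZModPow m (F (fun t => (A t : ℤ_[p])) z) := by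
      rw [F_map_aux, F_map_aux]
      congr 1
      · funext t; simp
      · funext j; simpa using hn j
    rw [hz, map_zero] at h1
    simpa using h1
  refine ⟨n, ⟨i, ?_⟩, ?_⟩
  · intro hdvd
    have h1 : ((n i : ℤ) : ZMod (p ^ m)) = 1 := by rw [hn i, hzi, map_one]
    have h2 : ((n i - 1 : ℤ) : ZMod (p ^ m)) = 0 := by push_cast; rw [h1]; ring
    rw [ZMod.intCast_zmod_eq_zero_iff_dvd] at h2
    have h3 : (p : ℤ) ∣ n i - 1 := by
      refine dvd_trans ?_ h2
      push_cast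
      exact dvd_pow_self _ (by omega)
    have h4 : (p : ℤ) ∣ 1 := by
      have := dvd_sub hdvd h3
      simpa using this
    have hp := (Fact.out : p.Prime)
    have h5 : (p : ℤ) ∣ ((1 : ℕ) : ℤ) := by simpa using h4
    rw [Int.natCast_dvd_natCast] at h5
    exact hp.one_lt.ne' (Nat.dvd_one.mp h5)
  · rw [ZMod.intCast_zmod_eq_zero_iff_dvd] at hFn
    refine dvd_trans ?_ hFn
    push_cast
    exact pow_dvd_pow _ (by omega)

end CubicHP
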