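import Pool.Agent.Lib.MP_e426f4_ag.NotGood
import Pool.Agent.Lib.MP_e426f4_ag.CardShort

/-! Most points are well-rounded. -/

namespace CubicHP

open Finset

theorem few_not_good (eps : ℝ) (heps : 0 < eps) :
    ∃ K0 : ℝ, 1 ≤ K0 ∧ ∀ K, K0 ≤ K → ∀ B : ℕ, 1 ≤ B →
      (Set.ncard {x : Fin 4 → ℤ | x ∈ box4 (2 * B) ∧ ¬ Good K B x} : ℝ) ≤
        eps * (B : ℝ) ^ 4 := by
  refine ⟨max 576 ((13824 * 10 ^ 5 / eps) ^ 2), le_trans (by norm_num) (le_max_left _ _), ?_⟩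
  intro K hK B hB
  have hK1 : (576 : ℝ) ≤ K := le_trans (le_max_left _ _) hK
  have hK2 : (13824 * 10 ^ 5 / eps) ^ 2 ≤ K := le_trans (le_max_right _ _) hK
  have hK0 : (0 : ℝ) ≤ K := by linarith
  set s : ℝ := Real.sqrt K with hs
  have hs24 : (24 : ℝ) ≤ s := by
    rw [hs]
    apply Real.le_sqrt_of_sq_le
    norm_num
    exact hK1
  have hs0 : (0 : ℝ) < s := by linarith
  have hs2 : 13824 * 10 ^ 5 / eps ≤ s := Real.le_sqrt_of_sq_le hK2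
  have hBr : (1 : ℝ) ≤ (B : ℝ) := by exact_mod_cast hB
  set b : ℝ := (B : ℝ) ^ (1 / 3 : ℝ) with hb
  have hb3 : b ^ 3 = B := by
    rw [hb, ← Real.rpow_natCast, ← Real.rpow_mul (by linarith)]
    norm_num
  have hb1 : 1 ≤ b := by
    rw [hb]
    exact Real.one_le_rpow hBr (by norm_num)
  have hbB : b ≤ B := by
    rw [← hb3]
    nlinarith [mul_le_mul hb1 hb1 (by norm_num) (by linarith), sq_nonneg b]
  set Y : ℕ := ⌊24 * b / s⌋₊ with hY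
  have hY1 : (Y : ℝ) ≤ 24 * b / s := Nat.floor_le (by positivity)
  have hY2 : Y ≤ B := by
    have : (Y : ℝ) ≤ (B : ℝ) := by
      refine hY1.trans ?_
      rw [div_le_iff₀ hs0]
      nlinarith
    exact_mod_cast this
  have hsub : {x : Fin 4 → ℤ | x ∈ box4 (2 * B) ∧ ¬ Good K B x} ⊆
      {x : Fin 4 → ℤ | x ∈ box4 (2 * B) ∧ ∃ l : Fin 4 → ℤ, l ≠ 0 ∧
      (∀ i, |l i| ≤ Y) ∧ ∑ i, l i * x i = 0} := by
    rintro x ⟨hx, hg⟩
    refine ⟨hx, ?_⟩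
    have hx2 : ∀ i, |(x i : ℝ)| ≤ 2 * B := by
      intro i
      have := (mem_box4.mp hx) i
      exact_mod_cast this
    obtain ⟨l, hl, hlx, hls⟩ := short_of_not_good K (by linarith) B hB x hx2 hg
    refine ⟨l, hl, fun i => ?_, hlx⟩
    have h1 := hls i
    have h2 : |(l i : ℝ)| ≤ 24 * b / s := by
      rw [le_div_iff₀ hs0]
      exact h1
    have h3 : ((l i).natAbs : ℝ) ≤ 24 * b / s := by
      rw [Nat.cast_natAbs, Int.cast_abs]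
      exact h2
    have h4 : (l i).natAbs ≤ Y := Nat.le_floor h3
    rw [Int.abs_eq_natAbs]
    exact_mod_cast h4
  have hfin : {x : Fin 4 → ℤ | x ∈ box4 (2 * B) ∧ ∃ l : Fin 4 → ℤ, l ≠ 0 ∧
      (∀ i, |l i| ≤ Y) ∧ ∑ i, l i * x i = 0}.Finite :=
    (box4 (2 * B)).finite_toSet.subset fun _ h => h.1
  have h1 : (Set.ncard {x : Fin 4 → ℤ | x ∈ box4 (2 * B) ∧ ¬ Good K B x} : ℝ) ≤
      10 ^ 5 * (B : ℝ) ^ 3 * (Y : ℝ) ^ 3 :=
    le_trans (by exact_mod_cast Set.ncard_le_ncard hsub hfin) (card_short_le B Y hY2)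
  refine h1.trans ?_
  have h2 : (Y : ℝ) ^ 3 ≤ (24 * b / s) ^ 3 := pow_le_pow_left₀ (by positivity) hY1 3
  have h3 : (24 * b / s) ^ 3 = 13824 * B / s ^ 3 := by
    rw [div_pow, mul_pow, hb3]
    norm_num
  rw [h3] at h2
  have h4 : 10 ^ 5 * (B : ℝ) ^ 3 * (Y : ℝ) ^ 3 ≤ 10 ^ 5 * (B : ℝ) ^ 3 * (13824 * B / s ^ 3) :=
    mul_le_mul_of_nonneg_left h2 (by positivity)
  refine h4.trans ?_
  have h5 : 10 ^ 5 * (B : ℝ) ^ 3 * (13824 * B / s ^ 3) = (13824 * 10 ^ 5 / s ^ 3) * (B : ℝ) ^ 4 := by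
    ring
  rw [h5]
  refine mul_le_mul_of_nonneg_right ?_ (by positivity)
  rw [div_le_iff₀ (by positivity)]
  rw [div_le_iff₀ heps] at hs2
  have h6 : s ≤ s ^ 3 := by
    nlinarith [mul_le_mul hs24 hs24 (by norm_num) (by linarith)]
  calc (13824 * 10 ^ 5 : ℝ) ≤ s * eps := hs2
    _ ≤ s ^ 3 * eps := mul_le_mul_of_nonneg_right h6 heps.le
    _ = eps * s ^ 3 := by ring

end CubicHP
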