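import Pool.Agent.Lib.MP_e426f4_ag.AP
import Pool.Agent.Lib.MP_e426f4_ag.Alg

/-! Upper bound for the local count of forms through a point. -/

namespace CubicHP

open Finset

/-- one coordinate: integers in a residue class and in an interval -/
theorem ol_coord (cc r : ℝ) (hr : 0 ≤ r) (M : ℕ) (hM : 1 ≤ M) (s : ℤ) :
    {x : ℤ | |(x : ℝ) - cc| ≤ r ∧ (M : ℤ) ∣ x - s}.Finite ∧
    (Set.ncard {x : ℤ | |(x : ℝ) - cc| ≤ r ∧ (M : ℤ) ∣ x - s} : ℝ) ≤ 2 * r / M + 1 := by
  have h := ncard_AP (cc - r) (cc + r) (by linarith) M hM s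
  have he : {x : ℤ | |(x : ℝ) - cc| ≤ r ∧ (M : ℤ) ∣ x - s} =
      {x : ℤ | cc - r ≤ x ∧ (x : ℝ) ≤ cc + r ∧ (M : ℤ) ∣ x - s} := by
    ext x
    simp only [Set.mem_setOf_eq, abs_le]
    constructor
    · rintro ⟨⟨h1, h2⟩, h3⟩
      exact ⟨by linarith, by linarith, h3⟩
    · rintro ⟨h1, h2, h3⟩
      exact ⟨⟨by linarith, by linarith⟩, h3⟩
  rw [he]
  refine ⟨h.1, h.2.2.trans (le_of_eq ?_)⟩
  ring

theorem ol_card_Idx : Fintype.card Idx = 20 := by decide

/-- forms in one residue class modulo `M` -/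
theorem ol_fiber (B : ℕ) (hB : 1 ≤ B) (M : ℕ) (hM : 1 ≤ M) (x : Fin 4 → ℤ)
    (i0 : Fin 4) (hi0 : (B : ℝ) / 2 ≤ |(x i0 : ℝ)|) (c : Idx → ℝ) (r eta : ℝ) (hr : 0 ≤ r)
    (heta : 0 ≤ eta) (R : Idx → ℤ) (s : Finset (Idx → ℤ))
    (hs : ∀ A ∈ s, (∀ m, |(A m : ℝ) - c m| ≤ r) ∧ (∀ m, (M : ℤ) ∣ A m - R m) ∧
      |((F A x : ℤ) : ℝ)| ≤ eta) :
    (s.card : ℝ) ≤ (2 * r / (M : ℝ) + 1) ^ 19 * (16 * eta / ((B : ℝ) ^ 3 * M) + 1) := by
  classical
  have hMR : (0 : ℝ) < M := by exact_mod_cast hM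
  have hBR : (0 : ℝ) < B := by exact_mod_cast hB
  have hxpos : 0 < |(x i0 : ℝ)| := by linarith [half_pos hBR]
  set m0 : Idx := mk3 i0 i0 i0 with hm0
  have hmon : mon x m0 = x i0 ^ 3 := by
    rw [hm0, mon_mk3]; ring
  set a1 : ℕ := ⌊2 * r / (M : ℝ) + 1⌋₊ with ha1
  set a2 : ℕ := ⌊16 * eta / ((B : ℝ) ^ 3 * M) + 1⌋₊ with ha2
  have ha1' : (a1 : ℝ) ≤ 2 * r / (M : ℝ) + 1 := Nat.floor_le (by positivity)
  have ha2' : (a2 : ℝ) ≤ 16 * eta / ((B : ℝ) ^ 3 * M) + 1 := Nat.floor_le (by positivity)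
  let g : (Idx → ℤ) → (Idx → ℤ) := fun A => Function.update A m0 0
  let X : Idx → Finset ℤ := fun m =>
    (ol_coord (c m) r hr M hM (R m)).1.toFinset
  have hX : ∀ m, (X m).card ≤ a1 := by
    intro m
    apply Nat.le_floor
    have := (ol_coord (c m) r hr M hM (R m)).2
    rw [Set.ncard_eq_toFinset_card _ (ol_coord (c m) r hr M hM (R m)).1] at this
    exact this
  have himg : s.image g ⊆ Fintype.piFinset (fun m => if m = m0 then {0} else X m) := by
    intro A' hA'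
    rw [Finset.mem_image] at hA'
    obtain ⟨A, hA, rfl⟩ := hA'
    rw [Fintype.mem_piFinset]
    intro m
    by_cases hm : m = m0
    · subst hm
      simp [g]
    · simp only [hm, if_false, g, Function.update_of_ne hm]
      simp only [X, Set.Finite.mem_toFinset, Set.mem_setOf_eq]
      exact ⟨(hs A hA).1 m, (hs A hA).2.1 m⟩
  have himgc : (s.image g).card ≤ a1 ^ 19 := by
    refine (Finset.card_le_card himg).trans ?_
    rw [Fintype.card_piFinset]
    rw [← Finset.mul_prod_erase univ _ (Finset.mem_univ m0)]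
    simp only [if_true, Finset.card_singleton, one_mul]
    refine (Finset.prod_le_pow_card _ _ a1 ?_).trans ?_
    · intro m hm
      rw [Finset.mem_erase] at hm
      simp only [hm.1, if_false]
      exact hX m
    · rw [Finset.card_erase_of_mem (Finset.mem_univ m0), Finset.card_univ, ol_card_Idx]
  have hfib : ∀ a ∈ s.image g, (s.filter fun A => g A = a).card ≤ a2 := by
    intro a _
    rcases (s.filter fun A => g A = a).eq_empty_or_nonempty with he | ⟨A1, hA1⟩
    · rw [he]; simp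
    · -- the rest of the form
      set K : ℤ := ∑ t ∈ univ.erase m0, A1 t * mon x t with hK
      have hF : ∀ A ∈ s.filter (fun A => g A = a), F A x = A m0 * x i0 ^ 3 + K := by
        intro A hA
        rw [Finset.mem_filter] at hA hA1
        have hgg : g A = g A1 := hA.2.trans hA1.2.symm
        have hcoord : ∀ t, t ≠ m0 → A t = A1 t := by
          intro t ht
          have := congrFun hgg t
          simpa [g, Function.update_of_ne ht] using this
        unfold F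
        rw [← Finset.add_sum_erase univ _ (Finset.mem_univ m0), hmon, hK]
        congr 1
        refine Finset.sum_congr rfl fun t ht => ?_
        rw [hcoord t (Finset.ne_of_mem_erase ht)]
      set y : ℝ := (x i0 : ℝ) with hy
      have hy3 : 0 < |y| ^ 3 := by positivity
      have hyne : y ^ 3 ≠ 0 := by
        intro h0
        have : |y| ^ 3 = 0 := by rw [← abs_pow, h0, abs_zero]
        linarith
      have hrr : 0 ≤ eta / |y| ^ 3 := by positivity
      obtain ⟨hfin, hcard⟩ := ol_coord (-(K : ℝ) / y ^ 3) (eta / |y| ^ 3) hrr M hM (R m0)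
      have hinj : (s.filter fun A => g A = a).card ≤ hfin.toFinset.card := by
        refine Finset.card_le_card_of_injOn (fun A => A m0) ?_ ?_
        · intro A hA
          have hA' : A ∈ s.filter (fun A => g A = a) := hA
          have h1 := hF A hA'
          have h2 := (hs A (Finset.mem_filter.mp hA').1)
          have h3 := h2.2.2
          have h4 := h2.2.1 m0
          simp only [Finset.mem_coe, Set.Finite.mem_toFinset, Set.mem_setOf_eq]
          refine ⟨?_, h4⟩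
          rw [h1] at h3
          push_cast at h3
          rw [← hy] at h3
          have h5 : (A m0 : ℝ) - -(K : ℝ) / y ^ 3 = ((A m0 : ℝ) * y ^ 3 + K) / y ^ 3 := by
            rw [eq_div_iff hyne, sub_mul, div_mul_cancel₀ _ hyne]
            ring
          rw [h5, abs_div, abs_pow]
          exact div_le_div_of_nonneg_right h3 hy3.le
        · intro A hA A' hA' hAA
          have hA2 := Finset.mem_filter.mp (show A ∈ s.filter (fun A => g A = a) from hA)
          have hA3 := Finset.mem_filter.mp (show A' ∈ s.filter (fun A => g A = a) from hA')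
          have hgg : g A = g A' := hA2.2.trans hA3.2.symm
          funext t
          by_cases ht : t = m0
          · rw [ht]; exact hAA
          · have := congrFun hgg t
            simpa [g, Function.update_of_ne ht] using this
      refine hinj.trans ?_
      apply Nat.le_floor
      rw [Set.ncard_eq_toFinset_card _ hfin] at hcard
      refine hcard.trans ?_
      have h8 : eta / |y| ^ 3 ≤ 8 * eta / (B : ℝ) ^ 3 := by
        rw [div_le_div_iff₀ hy3 (by positivity)]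
        have h9 : ((B : ℝ) / 2) ^ 3 ≤ |y| ^ 3 := pow_le_pow_left₀ (by positivity) hi0 3
        have h10 : (B : ℝ) ^ 3 ≤ 8 * |y| ^ 3 := by
          have : ((B : ℝ) / 2) ^ 3 = (B : ℝ) ^ 3 / 8 := by ring
          linarith
        nlinarith
      have h11 : 2 * (eta / |y| ^ 3) / (M : ℝ) ≤ 2 * (8 * eta / (B : ℝ) ^ 3) / M := by
        apply div_le_div_of_nonneg_right _ hMR.le
        linarith
      have h12 : 2 * (8 * eta / (B : ℝ) ^ 3) / M = 16 * eta / ((B : ℝ) ^ 3 * M) := by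
        field_simp
        ring
      linarith
  have hmain := Finset.card_le_mul_card_image s a2 hfib
  have h1 : (s.card : ℝ) ≤ (a2 : ℝ) * (a1 : ℝ) ^ 19 := by
    have : s.card ≤ a2 * a1 ^ 19 := hmain.trans (Nat.mul_le_mul_left _ himgc)
    exact_mod_cast this
  refine h1.trans ?_
  rw [mul_comm]
  exact mul_le_mul (pow_le_pow_left₀ (by positivity) ha1' 19) ha2' (by positivity) (by positivity)

theorem omega_loc_le (B : ℕ) (hB : 1 ≤ B) (W Q n : ℕ) (hW : 0 < W) (hQ : Q ∣ W ^ n)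
    (A0 : Idx → ℤ) (x : Fin 4 → ℤ) (hx : ∃ c : Fin 4 → ℤ, IsCoprime (∑ i, c i * x i) (W : ℤ))
    (i0 : Fin 4) (hi0 : (B : ℝ) / 2 ≤ |(x i0 : ℝ)|) (c : Idx → ℝ) (r eta : ℝ) (hr : 0 ≤ r)
    (heta : 0 ≤ eta) :
    (Set.ncard {A : Idx → ℤ | (∀ m, |(A m : ℝ) - c m| ≤ r) ∧ (∀ m, (Q : ℤ) ∣ A m - A0 m) ∧
      ((W : ℤ) ^ n) ∣ F A x ∧ |((F A x : ℤ) : ℝ)| ≤ eta} : ℝ) ≤
      (((W ^ n / Q : ℕ) : ℝ)) ^ 19 * (2 * r / (W : ℝ) ^ n + 1) ^ 19 *
        (16 * eta / ((B : ℝ) ^ 3 * (W : ℝ) ^ n) + 1) := by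
  classical
  set S : Set (Idx → ℤ) := {A : Idx → ℤ | (∀ m, |(A m : ℝ) - c m| ≤ r) ∧
    (∀ m, (Q : ℤ) ∣ A m - A0 m) ∧ ((W : ℤ) ^ n) ∣ F A x ∧ |((F A x : ℤ) : ℝ)| ≤ eta} with hS
  have hM0 : 0 < W ^ n := pow_pos hW n
  obtain ⟨N, hN⟩ := hQ
  have hQ0 : 0 < Q := Nat.pos_of_ne_zero (by rintro rfl; rw [zero_mul] at hN; omega)
  have hN0 : 0 < N := Nat.pos_of_ne_zero (by rintro rfl; rw [mul_zero] at hN; omega)
  have hdiv : W ^ n / Q = N := by rw [hN]; exact Nat.mul_div_cancel_left _ hQ0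
  rw [hdiv]
  have hWn : (W : ℤ) ^ n = (Q : ℤ) * N := by exact_mod_cast hN
  have hWnR : (W : ℝ) ^ n = ((W ^ n : ℕ) : ℝ) := by push_cast; rfl
  have hfin : S.Finite := by
    obtain ⟨C, hC⟩ : ∃ C : ℝ, ∀ m, |c m| ≤ C := by
      refine ⟨∑ m, |c m|, fun m => ?_⟩
      exact Finset.single_le_sum (f := fun m => |c m|) (fun _ _ => abs_nonneg _)
        (Finset.mem_univ m)
    refine finite_of_abs_le _ (C + r) ?_
    intro A hA m
    have h1 := hA.1 m
    calc |(A m : ℝ)| = |c m + ((A m : ℝ) - c m)| := by ring_nf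
      _ ≤ |c m| + |(A m : ℝ) - c m| := abs_add_le _ _
      _ ≤ C + r := add_le_add (hC m) h1
  rcases S.eq_empty_or_nonempty with he | ⟨A1, hA1⟩
  · rw [he]
    simp only [Set.ncard_empty, Nat.cast_zero]
    positivity
  set s : Finset (Idx → ℤ) := hfin.toFinset with hs
  have hmem : ∀ A, A ∈ s ↔ A ∈ S := fun A => by rw [hs, Set.Finite.mem_toFinset]
  rw [Set.ncard_eq_toFinset_card _ hfin, ← hs]
  let ρ : (Idx → ℤ) → (Idx → ℤ) := fun A m => ((A m - A0 m) / Q) % N
  set b : ℤ := ∑ m, ((A1 m - A0 m) / Q) * mon x m with hb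
  set T : Set (Idx → ℤ) := {R : Idx → ℤ | (∀ i, 0 ≤ R i ∧ R i < N) ∧
    (N : ℤ) ∣ ∑ i, R i * mon x i - b} with hT
  have hTfin : T.Finite := by
    refine (Set.Finite.pi' (fun _ : Idx => Set.finite_Ico (0 : ℤ) N)).subset ?_
    intro R hR i
    exact ⟨(hR.1 i).1, (hR.1 i).2⟩
  have hTcard : T.ncard ≤ N ^ 19 := by
    have hv : ∃ c' : Idx → ℤ, IsCoprime (∑ i, c' i * mon x i) (N : ℤ) := by
      obtain ⟨c', hc'⟩ := hx
      refine ⟨T3 c' c' c', ?_⟩
      have h1 : ∑ i, T3 c' c' c' i * mon x i = (∑ i, c' i * x i) ^ 3 := by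
        have := F_T3 c' c' c' x
        unfold F at this
        rw [this]; ring
      rw [h1]
      have h2 : IsCoprime ((∑ i, c' i * x i) ^ 3) ((W : ℤ) ^ n) := (hc'.pow_left).pow_right
      refine h2.of_isCoprime_of_dvd_right ?_
      rw [hWn]
      exact dvd_mul_left _ _
    have h2 := card_lin_congr_le N hN0 (fun i => mon x i) hv b
    rw [ol_card_Idx] at h2
    have h3 : T.ncard * N ≤ N ^ 19 * N := by
      rw [← pow_succ]; exact h2
    exact Nat.le_of_mul_le_mul_right h3 hN0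
  have himg : s.image ρ ⊆ hTfin.toFinset := by
    intro R hR
    rw [Finset.mem_image] at hR
    obtain ⟨A, hA, rfl⟩ := hR
    rw [Set.Finite.mem_toFinset]
    rw [hmem] at hA
    have hNZ : (0 : ℤ) < N := by exact_mod_cast hN0
    refine ⟨fun i => ⟨Int.emod_nonneg _ hNZ.ne', Int.emod_lt_of_pos _ hNZ⟩, ?_⟩
    -- F A x - F A1 x = Q * sum
    have hsub : F A x - F A1 x = Q * (∑ i, ((A i - A0 i) / Q) * mon x i - b) := by
      rw [hb, ← Finset.sum_sub_distrib, Finset.mul_sum]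
      unfold F
      rw [← Finset.sum_sub_distrib]
      refine Finset.sum_congr rfl fun m _ => ?_
      have e1 : (Q : ℤ) * ((A m - A0 m) / Q) = A m - A0 m := Int.mul_ediv_cancel' (hA.2.1 m)
      have e2 : (Q : ℤ) * ((A1 m - A0 m) / Q) = A1 m - A0 m := Int.mul_ediv_cancel' (hA1.2.1 m)
      calc A m * mon x m - A1 m * mon x m
          = ((A m - A0 m) - (A1 m - A0 m)) * mon x m := by ring
        _ = (Q * ((A m - A0 m) / Q) - Q * ((A1 m - A0 m) / Q)) * mon x m := by rw [e1, e2]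
        _ = _ := by ring
    have hdvd : (Q : ℤ) * N ∣ Q * (∑ i, ((A i - A0 i) / Q) * mon x i - b) := by
      rw [← hsub, ← hWn]
      exact dvd_sub hA.2.2.1 hA1.2.2.1
    have hQZ : (Q : ℤ) ≠ 0 := by exact_mod_cast hQ0.ne'
    have hdvd' : (N : ℤ) ∣ ∑ i, ((A i - A0 i) / Q) * mon x i - b :=
      (mul_dvd_mul_iff_left hQZ).mp hdvd
    have hdiff : (N : ℤ) ∣ ∑ i, ρ A i * mon x i - ∑ i, ((A i - A0 i) / Q) * mon x i := by
      rw [← Finset.sum_sub_distrib]
      refine Finset.dvd_sum fun i _ => ?_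
      rw [← sub_mul]
      refine Dvd.dvd.mul_right ?_ _
      have : ρ A i - (A i - A0 i) / Q = -(N * (((A i - A0 i) / Q) / N)) := by
        have := Int.emod_add_mul_ediv ((A i - A0 i) / Q) N
        simp only [ρ]
        linarith
      rw [this]
      exact (dvd_mul_right _ _).neg_right
    have := dvd_add hdiff hdvd'
    simpa using this
  have himgc : (s.image ρ).card ≤ N ^ 19 := by
    refine (Finset.card_le_card himg).trans ?_
    rw [← Set.ncard_eq_toFinset_card _ hTfin]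
    exact hTcard
  set a3 : ℕ := ⌊(2 * r / ((W ^ n : ℕ) : ℝ) + 1) ^ 19 *
    (16 * eta / ((B : ℝ) ^ 3 * ((W ^ n : ℕ) : ℝ)) + 1)⌋₊ with ha3
  have ha3' : (a3 : ℝ) ≤ (2 * r / ((W ^ n : ℕ) : ℝ) + 1) ^ 19 *
    (16 * eta / ((B : ℝ) ^ 3 * ((W ^ n : ℕ) : ℝ)) + 1) := Nat.floor_le (by positivity)
  have hfib : ∀ R ∈ s.image ρ, (s.filter fun A => ρ A = R).card ≤ a3 := by
    intro R _
    apply Nat.le_floor
    refine ol_fiber B hB (W ^ n) hM0 x i0 hi0 c r eta hr heta (fun m => A0 m + Q * R m)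
      (s.filter fun A => ρ A = R) ?_
    intro A hA
    rw [Finset.mem_filter, hmem] at hA
    refine ⟨hA.1.1, ?_, hA.1.2.2.2⟩
    intro m
    have e1 : (Q : ℤ) * ((A m - A0 m) / Q) = A m - A0 m := Int.mul_ediv_cancel' (hA.1.2.1 m)
    have e2 : ρ A m = R m := congrFun hA.2 m
    have e3 := Int.emod_add_mul_ediv ((A m - A0 m) / Q) N
    have e4 : ((A m - A0 m) / Q) % N = R m := e2
    rw [e4] at e3
    push_cast
    rw [hWn]
    refine ⟨((A m - A0 m) / Q) / N, ?_⟩
    calc A m - (A0 m + Q * R m) = (A m - A0 m) - Q * R m := by ring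
      _ = Q * ((A m - A0 m) / Q) - Q * R m := by rw [e1]
      _ = Q * (((A m - A0 m) / Q) - R m) := by ring
      _ = Q * (N * (((A m - A0 m) / Q) / N)) := by
          congr 1
          linarith
      _ = _ := by ring
  have hmain := Finset.card_le_mul_card_image s a3 hfib
  have h1 : (s.card : ℝ) ≤ (a3 : ℝ) * (N : ℝ) ^ 19 := by
    have : s.card ≤ a3 * N ^ 19 := hmain.trans (Nat.mul_le_mul_left _ himgc)
    exact_mod_cast this
  refine h1.trans ?_
  rw [hWnR]
  calc (a3 : ℝ) * (N : ℝ) ^ 19 ≤ ((2 * r / ((W ^ n : ℕ) : ℝ) + 1) ^ 19 *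
        (16 * eta / ((B : ℝ) ^ 3 * ((W ^ n : ℕ) : ℝ)) + 1)) * (N : ℝ) ^ 19 :=
        mul_le_mul_of_nonneg_right ha3' (by positivity)
    _ = _ := by ring

end CubicHP
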