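import Pool.Agent.Lib.MP_e426f4_ag.Heights
import Pool.Agent.Lib.MP_e426f4_ag.OmegaLoc

/-! Local pairs over few points are few. -/

namespace CubicHP

open Finset Filter Topology

theorem xx_unimod (d : Par) (eps bet : ℝ) (w : ℕ) (hd : d.Valid eps bet w) (B : ℕ)
    (x : Fin 4 → ℤ) (hx : x ∈ d.XX B) :
    ∃ c : Fin 4 → ℤ, IsCoprime (∑ i, c i * x i) (d.W : ℤ) := by
  have h1 : ∀ i, ∃ u : ℤ, x i - d.x0 i = d.P * u := fun i => hx.2 i
  choose u hu using h1
  obtain ⟨c, hc⟩ := hd.hens.2.2.2.1 u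
  refine ⟨c, ?_⟩
  have : (fun i => c i * (d.x0 i + (d.P : ℤ) * u i)) = fun i => c i * x i := by
    funext i
    rw [← hu i]; ring
  rw [this] at hc
  exact hc

/-- the local count over one point -/
theorem loc_one_le (d : Par) (eps bet : ℝ) (w : ℕ) (hd : d.Valid eps bet w) (th : ℝ)
    (hth : 0 < th) (n : ℕ) (hn : d.Q ∣ d.W ^ n) :
    ∀ᶠ H : ℕ in atTop, ∀ x ∈ d.XX (Bf H),
      (Set.ncard {A : Idx → ℤ | A ∈ d.Cl d.rho H ∧ ((d.W : ℤ) ^ n) ∣ F A x ∧
          |((F A x : ℤ) : ℝ)| ≤ th * H * (Bf H : ℝ) ^ 3} : ℝ) ≤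
        (40 * th * d.Q / (d.rho * (d.W : ℝ) ^ n)) * d.Xn H := by
  set M : ℝ := (d.W : ℝ) ^ n with hM
  have hW : 0 < d.W := hd.W_pos
  have hWR : (0 : ℝ) < d.W := by exact_mod_cast hW
  have hMpos : 0 < M := by positivity
  have hrho : 0 < d.rho := hd.rho_pos
  have hQ : (0 : ℝ) < d.Q := by exact_mod_cast hd.Q_pos
  have hB : ∀ᶠ H : ℕ in atTop, 1 ≤ Bf H := by
    have h1 := Bf_tendsto.eventually_ge_atTop 1
    filter_upwards [h1, eventually_ge_atTop 1] with H h2 h3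
    by_contra h4
    have h5 : Bf H = 0 := by omega
    rw [h5] at h2
    norm_num at h2
  have hlarge : ∀ᶠ H : ℕ in atTop, max (M * 100 / (2 * d.rho)) (M / th) ≤ (H : ℝ) :=
    tendsto_natCast_atTop_atTop.eventually_ge_atTop _
  filter_upwards [hB, hlarge, eventually_ge_atTop 1] with H hB1 hH hH1
  intro x hx
  have hHpos : (0 : ℝ) < H := by exact_mod_cast hH1
  have hBpos : (0 : ℝ) < Bf H := by exact_mod_cast hB1
  obtain ⟨i0, hi0⟩ := hd.xi_eq
  have hxi0 := (mem_XX_bounds d eps bet w hd (Bf H) x hx i0).2 hi0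
  have h1 := omega_loc_le (Bf H) hB1 d.W d.Q n hW hn d.A0 x (xx_unimod d eps bet w hd _ x hx)
    i0 hxi0 (fun m => H * d.AC m) (d.rho * H) (th * H * (Bf H : ℝ) ^ 3) (by positivity)
    (by positivity)
  have hset : {A : Idx → ℤ | A ∈ d.Cl d.rho H ∧ ((d.W : ℤ) ^ n) ∣ F A x ∧
          |((F A x : ℤ) : ℝ)| ≤ th * H * (Bf H : ℝ) ^ 3} =
      {A : Idx → ℤ | (∀ m, |(A m : ℝ) - H * d.AC m| ≤ d.rho * H) ∧
        (∀ m, (d.Q : ℤ) ∣ A m - d.A0 m) ∧
        ((d.W : ℤ) ^ n) ∣ F A x ∧ |((F A x : ℤ) : ℝ)| ≤ th * H * (Bf H : ℝ) ^ 3} := by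
    ext A
    simp only [Par.Cl, Set.mem_ofPred_eq]
    tauto
  rw [hset]
  refine h1.trans ?_
  have hdiv : (((d.W ^ n / d.Q : ℕ) : ℝ)) = M / d.Q := by
    rw [Nat.cast_div hn hQ.ne', hM]
    push_cast
    rfl
  rw [hdiv]
  have h16 : 16 * (th * H * (Bf H : ℝ) ^ 3) / ((Bf H : ℝ) ^ 3 * (d.W : ℝ) ^ n) =
      16 * th * H / M := by
    rw [← hM]
    field_simp
  rw [h16, ← hM]
  have hH1' : M * 100 / (2 * d.rho) ≤ H := (le_max_left _ _).trans hH
  have hH2' : M / th ≤ H := (le_max_right _ _).trans hH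
  rw [div_le_iff₀ (by positivity)] at hH1' hH2'
  -- `2 rho H / M + 1 ≤ (101/100) * (2 rho H / M)`
  have e1 : 2 * (d.rho * H) / M + 1 ≤ (101 / 100) * (2 * d.rho * H / M) := by
    have : 1 ≤ (1 / 100) * (2 * d.rho * H / M) := by
      rw [← mul_div_assoc, le_div_iff₀ hMpos]
      linarith
    have h3 : 2 * (d.rho * H) / M = 2 * d.rho * H / M := by ring
    rw [h3]
    linarith
  have e2 : 16 * th * H / M + 1 ≤ 40 * th * H / M := by
    rw [← sub_nonneg]
    have : 40 * th * H / M - (16 * th * H / M + 1) = (24 * th * H - M) / M := by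
      field_simp; ring
    rw [this]
    apply div_nonneg _ hMpos.le
    nlinarith
  have e3 : (2 * (d.rho * H) / M + 1) ^ 19 ≤ 2 * (2 * d.rho * H / M) ^ 19 := by
    calc (2 * (d.rho * H) / M + 1) ^ 19 ≤ ((101 / 100) * (2 * d.rho * H / M)) ^ 19 :=
          pow_le_pow_left₀ (by positivity) e1 19
      _ = (101 / 100) ^ 19 * (2 * d.rho * H / M) ^ 19 := by rw [mul_pow]
      _ ≤ 2 * (2 * d.rho * H / M) ^ 19 := by
          refine mul_le_mul_of_nonneg_right (by norm_num) (by positivity)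
  calc (M / d.Q) ^ 19 * (2 * (d.rho * H) / M + 1) ^ 19 * (16 * th * H / M + 1)
      ≤ (M / d.Q) ^ 19 * (2 * (2 * d.rho * H / M) ^ 19) * (40 * th * H / M) := by
        refine mul_le_mul (mul_le_mul_of_nonneg_left e3 (by positivity)) e2 (by positivity)
          (by positivity)
    _ = (40 * th * d.Q / (d.rho * M)) * d.Xn H := by
        unfold Par.Xn
        field_simp

theorem loc_pairs_le (d : Par) (eps bet : ℝ) (w : ℕ) (hd : d.Valid eps bet w) (th : ℝ)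
    (hth : 0 < th) (n : ℕ) (hn : d.Q ∣ d.W ^ n) :
    ∀ᶠ H : ℕ in atTop, ∀ S : Set (Fin 4 → ℤ), S ⊆ d.XX (Bf H) →
      ((d.LP d.rho th n S H).ncard : ℝ) ≤
        (S.ncard : ℝ) * (40 * th * d.Q / (d.rho * (d.W : ℝ) ^ n)) * d.Xn H := by
  classical
  filter_upwards [loc_one_le d eps bet w hd th hth n hn] with H hone
  intro S hS
  have hSfin : S.Finite := (XX_finite d (Bf H)).subset hS
  have hLfin := LP_finite d d.rho th n S hSfin H
  rw [Set.ncard_eq_toFinset_card _ hLfin, Set.ncard_eq_toFinset_card _ hSfin]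
  have hmap : ∀ q ∈ hLfin.toFinset, q.2 ∈ hSfin.toFinset := by
    intro q hq
    rw [Set.Finite.mem_toFinset] at hq ⊢
    exact hq.2.1
  rw [Finset.card_eq_sum_card_fiberwise hmap]
  push_cast
  have hfib : ∀ x ∈ hSfin.toFinset, ((hLfin.toFinset.filter (fun q => q.2 = x)).card : ℝ) ≤
      (40 * th * d.Q / (d.rho * (d.W : ℝ) ^ n)) * d.Xn H := by
    intro x hx
    rw [Set.Finite.mem_toFinset] at hx
    refine le_trans ?_ (hone x (hS hx))
    have hfin : {A : Idx → ℤ | A ∈ d.Cl d.rho H ∧ ((d.W : ℤ) ^ n) ∣ F A x ∧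
          |((F A x : ℤ) : ℝ)| ≤ th * H * (Bf H : ℝ) ^ 3}.Finite :=
      (Cl_finite d d.rho H).subset fun A hA => hA.1
    rw [Set.ncard_eq_toFinset_card _ hfin]
    refine Nat.cast_le.2 ?_
    refine Finset.card_le_card_of_injOn (fun q => q.1) ?_ ?_
    · intro q hq
      rw [Finset.mem_coe, Finset.mem_filter, Set.Finite.mem_toFinset] at hq
      rw [Finset.mem_coe, Set.Finite.mem_toFinset]
      obtain ⟨⟨h1, h2, h3, h4⟩, h5⟩ := hq
      rw [← h5]
      exact ⟨h1, h3, h4⟩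
    · intro q hq q' hq' h
      rw [Finset.mem_coe, Finset.mem_filter] at hq hq'
      exact Prod.ext h (hq.2.trans hq'.2.symm)
  refine (Finset.sum_le_sum hfib).trans ?_
  rw [Finset.sum_const, nsmul_eq_mul]
  exact le_of_eq (by ring)

end CubicHP
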