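import Pool.Agent.Lib.MP_e426f4_ag.Heights
import Pool.Agent.Lib.MP_e426f4_ag.FewNotGood
import Pool.Agent.Lib.MP_e426f4_ag.LocPairs

/-! BPa: points that are not well-rounded contribute little. -/

namespace CubicHP

open Finset Filter Topology

theorem bp_one_le_Bf {H : ℕ} (hH : 1 ≤ H) : 1 ≤ Bf H := by
  rw [Bf]
  apply Nat.le_floor
  push_cast
  exact Real.one_le_rpow (by exact_mod_cast hH) (by norm_num)

theorem bp_XX_sub_box4 (d : Par) (eps bet : ℝ) (w : ℕ) (hd : d.Valid eps bet w) (B : ℕ)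
    (x : Fin 4 → ℤ) (hx : x ∈ d.XX B) : x ∈ box4 (2 * B) := by
  rw [mem_box4]
  intro i
  have h1 := (mem_XX_bounds d eps bet w hd B x hx i).1
  have h2 : ((|x i| : ℤ) : ℝ) ≤ ((2 * B : ℕ) : ℝ) := by
    push_cast
    exact h1
  exact_mod_cast h2

/-- the comparison of the error term with the main term -/
theorem bp_few_points_le (d : Par) (eps bet : ℝ) (w : ℕ) (hd : d.Valid eps bet w) :
    ∃ e : ℝ, 0 < e ∧ ∀ th : ℝ, 0 < th → ∀ n : ℕ, d.Q ∣ d.W ^ n →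
      ∀ᶠ H : ℕ in atTop, ∀ S : Set (Fin 4 → ℤ), S ⊆ d.XX (Bf H) →
        (S.ncard : ℝ) ≤ e * (Bf H : ℝ) ^ 4 →
        ((d.LP d.rho th n S H).ncard : ℝ) ≤ eps / 2 * d.MT th n H := by
  have hg : 0 < |d.gam| := lt_of_lt_of_le hd.bet_pos hd.gam_ge
  have hP : (0 : ℝ) < d.P := by exact_mod_cast hd.P_pos
  have hQ : (0 : ℝ) < d.Q := by exact_mod_cast hd.Q_pos
  have hW : (0 : ℝ) < d.W := by exact_mod_cast hd.W_pos
  have hk := hd.kap_pos
  have hr := hd.rho_pos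
  have he := hd.eps_pos
  refine ⟨eps * d.kap ^ 6 * d.rho / (5 * |d.gam| * (d.P : ℝ) ^ 4), by positivity, ?_⟩
  intro th hth n hn
  filter_upwards [loc_pairs_le d eps bet w hd th hth n hn] with H hH S hS hcard
  refine (hH S hS).trans ?_
  have hX : 0 ≤ d.Xn H := by
    rw [Par.Xn]
    positivity
  have h1 : eps / 2 * d.MT th n H =
      (eps * d.kap ^ 6 * d.rho / (5 * |d.gam| * (d.P : ℝ) ^ 4) * (Bf H : ℝ) ^ 4) *
        (40 * th * d.Q / (d.rho * (d.W : ℝ) ^ n)) * d.Xn H := by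
    rw [Par.MT, Vol]
    field_simp
    ring
  rw [h1]
  apply mul_le_mul_of_nonneg_right _ hX
  apply mul_le_mul_of_nonneg_right hcard
  positivity

/-- BPa (BadA.lean): points that are not well-rounded -/
theorem bad_not_good (d : Par) (eps bet : ℝ) (w : ℕ) (hd : d.Valid eps bet w) :
    ∃ K0 : ℝ, 1 ≤ K0 ∧ ∀ K, K0 ≤ K → ∀ th : ℝ, 0 < th → ∀ n : ℕ, d.Q ∣ d.W ^ n →
      ∀ᶠ H : ℕ in atTop,
        ((d.LP d.rho th n {x | x ∈ d.XX (Bf H) ∧ ¬ Good K (Bf H) x} H).ncard : ℝ) ≤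
          eps / 2 * d.MT th n H := by
  obtain ⟨e, he, hfew⟩ := bp_few_points_le d eps bet w hd
  obtain ⟨K0, hK0, hK⟩ := few_not_good e he
  refine ⟨K0, hK0, ?_⟩
  intro K hKK th hth n hn
  filter_upwards [hfew th hth n hn, eventually_ge_atTop 1] with H hH hH1
  refine hH _ (fun x hx => hx.1) ?_
  refine le_trans ?_ (hK K hKK (Bf H) (bp_one_le_Bf hH1))
  have hfin : {x : Fin 4 → ℤ | x ∈ box4 (2 * Bf H) ∧ ¬ Good K (Bf H) x}.Finite :=
    (box4 (2 * Bf H)).finite_toSet.subset fun x hx => hx.1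
  have hsub : {x | x ∈ d.XX (Bf H) ∧ ¬ Good K (Bf H) x} ⊆
      {x : Fin 4 → ℤ | x ∈ box4 (2 * Bf H) ∧ ¬ Good K (Bf H) x} :=
    fun x hx => ⟨bp_XX_sub_box4 d eps bet w hd _ x hx.1, hx.2⟩
  exact_mod_cast Set.ncard_le_ncard hsub hfin

end CubicHP
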