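import Pool.Agent.Lib.MP_e426f4_ag.AP

/-! Module CU: number of forms in a class. -/

namespace CubicHP

open Finset Filter Topology

theorem card_Cl (d : Par) (hQ : 0 < d.Q) (r eps : ℝ) (hr : 0 < r) (he : 0 < eps) :
    ∀ᶠ H : ℕ in atTop,
      (1 - eps) * (2 * r * H / d.Q) ^ 20 ≤ ((d.Cl r H).ncard : ℝ) ∧
      ((d.Cl r H).ncard : ℝ) ≤ (1 + eps) * (2 * r * H / d.Q) ^ 20 := by
  have hQ' : (0 : ℝ) < d.Q := by exact_mod_cast hQ
  -- asymptotics
  have hlim : Tendsto (fun t : ℝ => (1 - 1 / t) ^ 20) atTop (𝓝 1) := by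
    have h1 : Tendsto (fun t : ℝ => 1 / t) atTop (𝓝 0) := by
      simpa using tendsto_inv_atTop_zero (𝕜 := ℝ)
    have h2 : Tendsto (fun t : ℝ => (1 - 1 / t) ^ 20) atTop (𝓝 ((1 - 0) ^ 20)) :=
      (tendsto_const_nhds.sub h1).pow 20
    simpa using h2
  have hlim' : Tendsto (fun t : ℝ => (1 + 1 / t) ^ 20) atTop (𝓝 1) := by
    have h1 : Tendsto (fun t : ℝ => 1 / t) atTop (𝓝 0) := by
      simpa using tendsto_inv_atTop_zero (𝕜 := ℝ)
    have h2 : Tendsto (fun t : ℝ => (1 + 1 / t) ^ 20) atTop (𝓝 ((1 + 0) ^ 20)) :=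
      (tendsto_const_nhds.add h1).pow 20
    simpa using h2
  have hT : Tendsto (fun H : ℕ => 2 * r * (H : ℝ) / d.Q) atTop atTop := by
    have : (fun H : ℕ => 2 * r * (H : ℝ) / d.Q) = fun H : ℕ => (2 * r / d.Q) * (H : ℝ) := by
      funext H; ring
    rw [this]
    exact Tendsto.const_mul_atTop (by positivity) tendsto_natCast_atTop_atTop
  have ev1 : ∀ᶠ t : ℝ in atTop, 1 - eps ≤ (1 - 1 / t) ^ 20 :=
    (hlim.eventually (lt_mem_nhds (by linarith : 1 - eps < 1))).mono fun t ht => ht.le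
  have ev2 : ∀ᶠ t : ℝ in atTop, (1 + 1 / t) ^ 20 ≤ 1 + eps :=
    (hlim'.eventually (gt_mem_nhds (by linarith : 1 < 1 + eps))).mono fun t ht => ht.le
  have ev3 := hT.eventually (ev1.and (ev2.and (eventually_ge_atTop (1 : ℝ))))
  refine ev3.mono fun H hH => ?_
  obtain ⟨h1, h2, h3⟩ := hH
  set t : ℝ := 2 * r * (H : ℝ) / d.Q with ht
  have ht0 : 0 < t := by linarith
  -- the coordinate sets
  set S : Idx → Set ℤ := fun m => {a : ℤ | H * d.AC m - r * H ≤ a ∧
    (a : ℝ) ≤ H * d.AC m + r * H ∧ (d.Q : ℤ) ∣ a - d.A0 m} with hS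
  have hrH : 0 ≤ r * H := by positivity
  have hAP : ∀ m, (S m).Finite ∧ t - 1 ≤ ((S m).ncard : ℝ) ∧ ((S m).ncard : ℝ) ≤ t + 1 := by
    intro m
    have h := ncard_AP (H * d.AC m - r * H) (H * d.AC m + r * H) (by linarith) d.Q hQ (d.A0 m)
    have e : (H * d.AC m + r * H - (H * d.AC m - r * H)) / d.Q = t := by
      rw [ht]; ring
    rw [e] at h
    exact h
  have hfin : ∀ m, (S m).Finite := fun m => (hAP m).1
  have hcl : d.Cl r H = ↑(Fintype.piFinset fun m => (hfin m).toFinset) := by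
    ext A
    rw [Finset.mem_coe, Fintype.mem_piFinset]
    simp only [Set.Finite.mem_toFinset]
    change ((∀ m, |(A m : ℝ) - H * d.AC m| ≤ r * H) ∧ ∀ m, (d.Q : ℤ) ∣ A m - d.A0 m) ↔
      ∀ m, H * d.AC m - r * H ≤ A m ∧ (A m : ℝ) ≤ H * d.AC m + r * H ∧ (d.Q : ℤ) ∣ A m - d.A0 m
    constructor
    · rintro ⟨ha, hb⟩ m
      have := ha m
      rw [abs_le] at this
      exact ⟨by linarith [this.1], by linarith [this.2], hb m⟩
    · intro h
      refine ⟨fun m => ?_, fun m => (h m).2.2⟩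
      rw [abs_le]
      exact ⟨by linarith [(h m).1], by linarith [(h m).2.1]⟩
  have hcard : ((d.Cl r H).ncard : ℝ) = ∏ m, ((S m).ncard : ℝ) := by
    rw [hcl, Set.ncard_coe_finset, Fintype.card_piFinset]
    push_cast
    refine Finset.prod_congr rfl fun m _ => ?_
    rw [Set.ncard_eq_toFinset_card _ (hfin m)]
  have h20 : (univ : Finset Idx).card = 20 := by decide
  rw [hcard]
  constructor
  · calc (1 - eps) * t ^ 20 ≤ (1 - 1 / t) ^ 20 * t ^ 20 :=
          mul_le_mul_of_nonneg_right h1 (by positivity)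
      _ = (t - 1) ^ 20 := by
        rw [← mul_pow]; congr 1; field_simp
      _ = ∏ _m : Idx, (t - 1) := by rw [Finset.prod_const, h20]
      _ ≤ ∏ m, ((S m).ncard : ℝ) :=
        Finset.prod_le_prod (fun _ _ => by linarith) fun m _ => (hAP m).2.1
  · calc ∏ m, ((S m).ncard : ℝ) ≤ ∏ _m : Idx, (t + 1) :=
          Finset.prod_le_prod (fun _ _ => by positivity) fun m _ => (hAP m).2.2
      _ = (t + 1) ^ 20 := by rw [Finset.prod_const, h20]
      _ = (1 + 1 / t) ^ 20 * t ^ 20 := by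
        rw [← mul_pow]; congr 1; field_simp
      _ ≤ (1 + eps) * t ^ 20 := mul_le_mul_of_nonneg_right h2 (by positivity)

end CubicHP
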