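import Mathlib

/-! A function with almost constant derivative takes small values exactly on an interval. -/

namespace CubicHP

theorem interval_of_deriv_pos (f f' : ℝ → ℝ) (kap gam del th : ℝ) (hkap : 0 < kap)
    (hgam : 0 < gam) (hdel : 0 ≤ del) (hdel1 : del < 1) (hth : 0 < th)
    (hf : ∀ t, HasDerivAt f (f' t) t)
    (hf' : ∀ t, |t| ≤ kap → |f' t - gam| ≤ del * gam)
    (hk : |f 0| + th < (1 - del) * gam * kap) :
    ∃ u v : ℝ, -kap < u ∧ u ≤ v ∧ v < kap ∧ (∀ t, |t| ≤ kap → (|f t| ≤ th ↔ u ≤ t ∧ t ≤ v)) ∧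
      2 * th / ((1 + del) * gam) ≤ v - u ∧ v - u ≤ 2 * th / ((1 - del) * gam) := by
  have h1d : 0 < (1 - del) * gam := mul_pos (by linarith) hgam
  have h2d : 0 < (1 + del) * gam := mul_pos (by linarith) hgam
  have hcont : Continuous f := by
    rw [continuous_iff_continuousAt]
    exact fun t => (hf t).continuousAt
  have hdiff : Differentiable ℝ f := fun t => (hf t).differentiableAt
  have hlow : ∀ x ∈ Set.Icc (-kap) kap, ∀ y ∈ Set.Icc (-kap) kap, x ≤ y →
      (1 - del) * gam * (y - x) ≤ f y - f x := by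
    refine (convex_Icc (-kap) kap).mul_sub_le_image_sub_of_le_deriv hcont.continuousOn
      hdiff.differentiableOn ?_
    intro t ht
    rw [interior_Icc] at ht
    rw [(hf t).deriv]
    have h3 := hf' t (abs_le.2 ⟨ht.1.le, ht.2.le⟩)
    rw [abs_le] at h3
    linarith [h3.1]
  have hupp : ∀ x ∈ Set.Icc (-kap) kap, ∀ y ∈ Set.Icc (-kap) kap, x ≤ y →
      f y - f x ≤ (1 + del) * gam * (y - x) := by
    refine (convex_Icc (-kap) kap).image_sub_le_mul_sub_of_deriv_le hcont.continuousOn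
      hdiff.differentiableOn ?_
    intro t ht
    rw [interior_Icc] at ht
    rw [(hf t).deriv]
    have h3 := hf' t (abs_le.2 ⟨ht.1.le, ht.2.le⟩)
    rw [abs_le] at h3
    linarith [h3.2]
  have hmono : StrictMonoOn f (Set.Icc (-kap) kap) := by
    intro x hx y hy hxy
    have h3 := hlow x hx y hy hxy.le
    have h4 : 0 < (1 - del) * gam * (y - x) := mul_pos h1d (by linarith)
    linarith
  have hm : (-kap) ∈ Set.Icc (-kap) kap := ⟨le_rfl, by linarith⟩
  have h0 : (0 : ℝ) ∈ Set.Icc (-kap) kap := ⟨by linarith, by linarith⟩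
  have hp : kap ∈ Set.Icc (-kap) kap := ⟨by linarith, le_rfl⟩
  have hfp : th < f kap := by
    have h3 := hlow 0 h0 kap hp hkap.le
    have h4 := neg_abs_le (f 0)
    rw [sub_zero] at h3
    linarith
  have hfm : f (-kap) < -th := by
    have h3 := hlow (-kap) hm 0 h0 (by linarith)
    have h4 := le_abs_self (f 0)
    have h5 : (1 - del) * gam * (0 - -kap) = (1 - del) * gam * kap := by ring
    rw [h5] at h3
    linarith
  obtain ⟨u, hu, hfu⟩ := intermediate_value_Icc (by linarith : -kap ≤ kap) hcont.continuousOn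
    (show -th ∈ Set.Icc (f (-kap)) (f kap) from ⟨hfm.le, by linarith⟩)
  obtain ⟨v, hv, hfv⟩ := intermediate_value_Icc (by linarith : -kap ≤ kap) hcont.continuousOn
    (show th ∈ Set.Icc (f (-kap)) (f kap) from ⟨by linarith, hfp.le⟩)
  have hu1 : -kap < u := (hmono.lt_iff_lt hm hu).1 (by rw [hfu]; exact hfm)
  have hv1 : v < kap := (hmono.lt_iff_lt hv hp).1 (by rw [hfv]; exact hfp)
  have huv : u ≤ v := (hmono.le_iff_le hu hv).1 (by rw [hfu, hfv]; linarith)
  refine ⟨u, v, hu1, huv, hv1, ?_, ?_, ?_⟩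
  · intro t ht
    have ht' : t ∈ Set.Icc (-kap) kap := abs_le.1 ht
    rw [← hmono.le_iff_le hu ht', ← hmono.le_iff_le ht' hv, hfu, hfv, abs_le]
  · rw [div_le_iff₀ h2d]
    have h3 := hupp u hu v hv huv
    rw [hfu, hfv] at h3
    linarith
  · rw [le_div_iff₀ h1d]
    have h3 := hlow u hu v hv huv
    rw [hfu, hfv] at h3
    linarith

/-- RE1 -/
theorem interval_of_deriv (f f' : ℝ → ℝ) (kap gam del th : ℝ) (hkap : 0 < kap)
    (hgam : gam ≠ 0) (hdel : 0 ≤ del) (hdel1 : del < 1) (hth : 0 < th)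
    (hf : ∀ t, HasDerivAt f (f' t) t)
    (hf' : ∀ t, |t| ≤ kap → |f' t - gam| ≤ del * |gam|)
    (hk : |f 0| + th < (1 - del) * |gam| * kap) :
    ∃ u v : ℝ, -kap < u ∧ u ≤ v ∧ v < kap ∧ (∀ t, |t| ≤ kap → (|f t| ≤ th ↔ u ≤ t ∧ t ≤ v)) ∧
      2 * th / ((1 + del) * |gam|) ≤ v - u ∧ v - u ≤ 2 * th / ((1 - del) * |gam|) := by
  rcases lt_or_gt_of_ne hgam with h | h
  · rw [abs_of_neg h] at hf' hk ⊢
    obtain ⟨u, v, h1, h2, h3, h4, h5, h6⟩ := interval_of_deriv_pos (fun t => - f t)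
      (fun t => - f' t) kap (-gam) del th hkap (by linarith) hdel hdel1 hth
      (fun t => (hf t).neg)
      (fun t ht => by
        have h7 := hf' t ht
        have h8 : -f' t - -gam = -(f' t - gam) := by ring
        rw [h8, abs_neg]
        exact h7)
      (by rw [abs_neg]; exact hk)
    refine ⟨u, v, h1, h2, h3, ?_, h5, h6⟩
    intro t ht
    rw [← h4 t ht, abs_neg]
  · rw [abs_of_pos h] at hf' hk ⊢
    exact interval_of_deriv_pos f f' kap gam del th hkap h hdel hdel1 hth hf hf' hk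

end CubicHP
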