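import Pool.Agent.Lib.MP_e426f4_ag.BadB
import Pool.Agent.Lib.MP_e426f4_ag.RealCount
import Pool.Agent.Lib.MP_e426f4_ag.CardCl
import Pool.Agent.Lib.MP_e426f4_ag.NLoc

/-! BPc: points divisible by a medium prime contribute little. -/

namespace CubicHP

open Finset Filter Topology

theorem bp_le_Bf {H : ℕ} (hH : 1 ≤ H) : H ≤ Bf H := by
  rw [Bf]
  apply Nat.le_floor
  have h1 : (1 : ℝ) ≤ H := by exact_mod_cast hH
  calc (H : ℝ) = (H : ℝ) ^ (1 : ℝ) := (Real.rpow_one _).symm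
    _ ≤ (H : ℝ) ^ (5 / 4 : ℝ) := Real.rpow_le_rpow_of_exponent_le h1 (by norm_num)

theorem bp_coprime_of_gt (d : Par) (eps bet : ℝ) (w : ℕ) (hd : d.Valid eps bet w) (p : ℕ)
    (hp : p.Prime) (hpw : w < p) : Nat.Coprime p d.W := by
  rw [Nat.Prime.coprime_iff_not_dvd hp]
  intro h
  have := (hd.W_primes p hp).1 h
  omega

theorem bp_Cl_near (d : Par) (eps bet : ℝ) (w : ℕ) (hd : d.Valid eps bet w) (r : ℝ) (H : ℕ)
    (hr : r ≤ 2 * d.rho) (A : Idx → ℤ) (hA : A ∈ d.Cl r H) (m : Idx) :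
    |(A m : ℝ) - H * d.Ainf m| ≤ 3 * d.rho * H := by
  have hH : (0 : ℝ) ≤ H := Nat.cast_nonneg H
  calc |(A m : ℝ) - H * d.Ainf m| = |((A m : ℝ) - H * d.AC m) + H * (d.AC m - d.Ainf m)| := by
        ring_nf
    _ ≤ |(A m : ℝ) - H * d.AC m| + |H * (d.AC m - d.Ainf m)| := abs_add_le _ _
    _ ≤ r * H + H * d.rho := by
        refine add_le_add (hA.1 m) ?_
        rw [abs_mul, abs_of_nonneg hH]
        exact mul_le_mul_of_nonneg_left (hd.AC_near m) hH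
    _ ≤ 3 * d.rho * H := by nlinarith

/-- BPc (BadC.lean): points divisible by a prime in `(w, z]` -/
theorem bad_medium_prime (d : Par) (eps bet : ℝ) (w : ℕ) (hd : d.Valid eps bet w) (z : ℕ)
    (th : ℝ) (hth : 0 < th) (hth2 : th ≤ d.kap * bet / 4) (n : ℕ) (hn : d.Q ∣ d.W ^ n) :
    ∀ᶠ H : ℕ in atTop,
      ((d.LP d.rho th n {x | x ∈ d.XX (Bf H) ∧ ∃ p : ℕ, p.Prime ∧ w < p ∧ p ≤ z ∧
          ∀ i, (p : ℤ) ∣ x i} H).ncard : ℝ) ≤ 2 / w * d.MT th n H := by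
  classical
  have hg : 0 < |d.gam| := lt_of_lt_of_le hd.bet_pos hd.gam_ge
  have hP : (0 : ℝ) < d.P := by exact_mod_cast hd.P_pos
  have hQ : (0 : ℝ) < d.Q := by exact_mod_cast hd.Q_pos
  have hW : (0 : ℝ) < d.W := by exact_mod_cast hd.W_pos
  have hk := hd.kap_pos
  have hr := hd.rho_pos
  have he := hd.eps_pos
  have he1 := hd.eps_le
  have hw2 := hd.w_two
  let PP : Finset ℕ := (Finset.Ioc w z).filter Nat.Prime
  have hall : ∀ p ∈ PP, ∀ᶠ H : ℕ in atTop, ∀ A ∈ d.Cl d.rho H,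
      (Set.ncard {x : Fin 4 → ℤ | x ∈ d.XX (Bf H) ∧ ((d.W : ℤ) ^ n) ∣ F A x ∧
          |((F A x : ℤ) : ℝ)| ≤ th * H * (Bf H : ℝ) ^ 3 ∧ ∀ i, (p : ℤ) ∣ x i - 0} : ℝ) ≤
        (1 + eps) * (Vol d.gam d.kap th (Bf H) * d.Q / ((d.P : ℝ) ^ 4 * (d.W : ℝ) ^ n)) /
          (p : ℝ) ^ 4 := by
    intro p hp
    simp only [PP, Finset.mem_filter, Finset.mem_Ioc] at hp
    obtain ⟨B0, hB0⟩ := nloc d eps bet w hd th hth hth2 n hn p hp.2.pos
      (bp_coprime_of_gt d eps bet w hd p hp.2 hp.1.1)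
    filter_upwards [eventually_ge_atTop (B0 + 1)] with H hH A hA
    have hH1 : 1 ≤ H := by omega
    have hBH := bp_le_Bf hH1
    have hHpos : (0 : ℝ) < H := by exact_mod_cast hH1
    exact (hB0 (Bf H) (by omega) H hHpos A (fun m => bp_Cl_near d eps bet w hd d.rho H
      (by linarith) A hA m) hA.2 (fun _ => 0)).2
  have hall' := (Filter.eventually_all_finset PP).2 hall
  filter_upwards [hall', card_Cl d hd.Q_pos d.rho eps hr he] with H hH hCl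
  have hXn : 0 ≤ d.Xn H := by
    rw [Par.Xn]
    positivity
  have hCl2 : ((d.Cl d.rho H).ncard : ℝ) ≤ (1 + eps) * d.Xn H := hCl.2
  obtain ⟨T, hT⟩ : ∃ T, T = Vol d.gam d.kap th (Bf H) * d.Q / ((d.P : ℝ) ^ 4 * (d.W : ℝ) ^ n) :=
    ⟨_, rfl⟩
  have hT0 : 0 ≤ T := by
    rw [hT, Vol]
    positivity
  rw [← hT] at hH
  let U : ℕ → Set ((Idx → ℤ) × (Fin 4 → ℤ)) := fun p =>
    {q | q.1 ∈ d.Cl d.rho H ∧ q.2 ∈ d.XX (Bf H) ∧ ((d.W : ℤ) ^ n) ∣ F q.1 q.2 ∧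
      |((F q.1 q.2 : ℤ) : ℝ)| ≤ th * H * (Bf H : ℝ) ^ 3 ∧ ∀ i, (p : ℤ) ∣ q.2 i - 0}
  have hUfin : ∀ p, (U p).Finite := fun p =>
    ((Cl_finite d d.rho H).prod (XX_finite d (Bf H))).subset fun q hq => ⟨hq.1, hq.2.1⟩
  have hU : ∀ p ∈ PP, ((U p).ncard : ℝ) ≤ (1 + eps) * T / (p : ℝ) ^ 4 * (d.Cl d.rho H).ncard := by
    intro p hp
    refine (ncard_fiber_bounds (U p) (hUfin p) Prod.fst (d.Cl d.rho H) (Cl_finite d d.rho H)
      (fun q hq => hq.1) 0 _ ?_).2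
    intro A hA
    refine ⟨Nat.cast_nonneg _, ?_⟩
    have hset : {q | q ∈ U p ∧ q.1 = A} = (fun x : Fin 4 → ℤ => (A, x)) ''
        {x : Fin 4 → ℤ | x ∈ d.XX (Bf H) ∧ ((d.W : ℤ) ^ n) ∣ F A x ∧
          |((F A x : ℤ) : ℝ)| ≤ th * H * (Bf H : ℝ) ^ 3 ∧ ∀ i, (p : ℤ) ∣ x i - 0} := by
      ext q
      constructor
      · rintro ⟨⟨h1, h2⟩, rfl⟩
        exact ⟨q.2, h2, rfl⟩
      · rintro ⟨x, hx, rfl⟩
        exact ⟨⟨hA, hx⟩, rfl⟩
    rw [hset, Set.ncard_image_of_injective _ (fun x y hxy => (Prod.mk.inj hxy).2)]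
    exact hH p hp A hA
  have hsub : d.LP d.rho th n {x | x ∈ d.XX (Bf H) ∧ ∃ p : ℕ, p.Prime ∧ w < p ∧ p ≤ z ∧
      ∀ i, (p : ℤ) ∣ x i} H ⊆
      ((PP.biUnion fun p => (hUfin p).toFinset : Finset ((Idx → ℤ) × (Fin 4 → ℤ))) :
        Set ((Idx → ℤ) × (Fin 4 → ℤ))) := by
    rintro q ⟨h1, ⟨h2, p, hp, hwp, hpz, hpx⟩, h3, h4⟩
    rw [Finset.mem_coe, Finset.mem_biUnion]
    refine ⟨p, ?_, ?_⟩
    · simp only [PP, Finset.mem_filter, Finset.mem_Ioc]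
      exact ⟨⟨hwp, hpz⟩, hp⟩
    · rw [Set.Finite.mem_toFinset]
      exact ⟨h1, h2, h3, h4, fun i => by rw [sub_zero]; exact hpx i⟩
  have h1 := Set.ncard_le_ncard hsub (Finset.finite_toSet _)
  rw [Set.ncard_coe_finset] at h1
  have h2 : ((PP.biUnion fun p => (hUfin p).toFinset).card : ℝ) ≤ ∑ p ∈ PP, ((U p).ncard : ℝ) := by
    have h3 : ((PP.biUnion fun p => (hUfin p).toFinset).card : ℝ) ≤
        ∑ p ∈ PP, (((hUfin p).toFinset).card : ℝ) := by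
      exact_mod_cast Finset.card_biUnion_le
    refine h3.trans (le_of_eq ?_)
    refine Finset.sum_congr rfl fun p _ => ?_
    rw [Set.ncard_eq_toFinset_card _ (hUfin p)]
  have h4 : ∑ p ∈ PP, (1 : ℝ) / (p : ℝ) ^ 4 ≤ 1 / w := by
    refine le_trans ?_ (bp_sum_inv_four_le w z (by omega))
    refine Finset.sum_le_sum_of_subset_of_nonneg (Finset.filter_subset _ _) ?_
    intro p _ _
    positivity
  have hMT : d.MT th n H = T * d.Xn H := by rw [Par.MT, hT]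
  rw [hMT]
  have hw' : (0 : ℝ) < w := by exact_mod_cast (by omega : 0 < w)
  calc ((d.LP d.rho th n {x | x ∈ d.XX (Bf H) ∧ ∃ p : ℕ, p.Prime ∧ w < p ∧ p ≤ z ∧
          ∀ i, (p : ℤ) ∣ x i} H).ncard : ℝ)
      ≤ ((PP.biUnion fun p => (hUfin p).toFinset).card : ℝ) := by exact_mod_cast h1
    _ ≤ ∑ p ∈ PP, ((U p).ncard : ℝ) := h2
    _ ≤ ∑ p ∈ PP, (1 + eps) * T / (p : ℝ) ^ 4 * (d.Cl d.rho H).ncard := Finset.sum_le_sum hU
    _ = (1 + eps) * T * (d.Cl d.rho H).ncard * ∑ p ∈ PP, (1 : ℝ) / (p : ℝ) ^ 4 := by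
        rw [Finset.mul_sum]
        refine Finset.sum_congr rfl fun p _ => ?_
        ring
    _ ≤ (1 + eps) * T * (d.Cl d.rho H).ncard * (1 / w) :=
        mul_le_mul_of_nonneg_left h4 (by positivity)
    _ ≤ (1 + eps) * T * ((1 + eps) * d.Xn H) * (1 / w) := by
        apply mul_le_mul_of_nonneg_right _ (by positivity)
        exact mul_le_mul_of_nonneg_left hCl2 (by positivity)
    _ = (1 + eps) ^ 2 * (T * d.Xn H * (1 / w)) := by ring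
    _ ≤ 2 * (T * d.Xn H * (1 / w)) := by
        apply mul_le_mul_of_nonneg_right _ (by positivity)
        nlinarith
    _ = 2 / w * (T * d.Xn H) := by ring

end CubicHP
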