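import Pool.Agent.Lib.MP_e426f4_ag.Alg

/-! Module MG: elementary facts on minors. -/

namespace CubicHP

open Finset

theorem mg_dvd_minor (x y : Fin 4 → ℤ) (a b : Fin 4) : (mg x y : ℤ) ∣ minor x y a b := by
  have h : mg x y ∣ (minor x y a b).natAbs :=
    Finset.gcd_dvd (f := fun p : Fin 4 × Fin 4 => (minor x y p.1 p.2).natAbs)
      (Finset.mem_univ ((a, b) : Fin 4 × Fin 4))
  exact Int.natCast_dvd.mpr h

theorem dvd_mg (x y : Fin 4 → ℤ) (q : ℤ) (h : ∀ a b, q ∣ minor x y a b) : q ∣ (mg x y : ℤ) := by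
  have : q.natAbs ∣ mg x y := by
    refine Finset.dvd_gcd fun p _ => ?_
    exact Int.natAbs_dvd_natAbs.mpr (h p.1 p.2)
  exact Int.dvd_natCast.mpr this

theorem minor_le_dl (x y : Fin 4 → ℤ) (a b : Fin 4) : (minor x y a b).natAbs ≤ dl x y :=
  Finset.le_sup (f := fun p : Fin 4 × Fin 4 => (minor x y p.1 p.2).natAbs)
    (Finset.mem_univ ((a, b) : Fin 4 × Fin 4))

theorem exists_minor_eq_dl (x y : Fin 4 → ℤ) : ∃ a b, (minor x y a b).natAbs = dl x y := by
  obtain ⟨p, _, hp⟩ := Finset.exists_mem_eq_sup (univ : Finset (Fin 4 × Fin 4))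
    Finset.univ_nonempty (fun p : Fin 4 × Fin 4 => (minor x y p.1 p.2).natAbs)
  exact ⟨p.1, p.2, hp.symm⟩

theorem exists_minor_ne_zero (x y : Fin 4 → ℤ) (h : 0 < dl x y) : ∃ a b, minor x y a b ≠ 0 := by
  obtain ⟨a, b, hab⟩ := exists_minor_eq_dl x y
  refine ⟨a, b, fun h0 => ?_⟩
  rw [h0] at hab
  simp at hab
  omega

/-- congruence `y ≡ l x` from divisibility of all minors -/
theorem exists_mod_of_dvd_minor (x y : Fin 4 → ℤ) (hx : Prim x) (q : ℤ)
    (hq : ∀ a b, q ∣ minor x y a b) : ∃ l : ℤ, ∀ i, q ∣ y i - l * x i := by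
  obtain ⟨c, hc⟩ := hx
  refine ⟨∑ i, c i * y i, fun j => ?_⟩
  have : y j - (∑ i, c i * y i) * x j = ∑ i, c i * minor x y i j := by
    calc y j - (∑ i, c i * y i) * x j = (∑ i, c i * x i) * y j - (∑ i, c i * y i) * x j := by
          rw [hc]; ring
      _ = _ := by
        rw [Finset.sum_mul, Finset.sum_mul, ← Finset.sum_sub_distrib]
        refine Finset.sum_congr rfl fun i _ => ?_
        unfold minor
        ring
  rw [this]
  exact Finset.dvd_sum fun i _ => Dvd.dvd.mul_left (hq i j) _

/-- If `q` divides all minors and `x` is primitive, `y` is a multiple of `x` modulo `q`. -/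
theorem exists_mod_of_dvd_mg (x y : Fin 4 → ℤ) (hx : Prim x) (q : ℕ) (hq : q ∣ mg x y) :
    ∃ l : ℤ, ∀ i, (q : ℤ) ∣ y i - l * x i :=
  exists_mod_of_dvd_minor x y hx q fun a b =>
    (Int.natCast_dvd_natCast.mpr hq).trans (mg_dvd_minor x y a b)

theorem mg_pos_of_dl_pos (x y : Fin 4 → ℤ) (h : 0 < dl x y) : 0 < mg x y := by
  obtain ⟨a, b, hab⟩ := exists_minor_ne_zero x y h
  rcases Nat.eq_zero_or_pos (mg x y) with h0 | h0
  · exfalso
    have := mg_dvd_minor x y a b
    rw [h0] at this
    exact hab (by simpa using this)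
  · exact h0

/-- Two primitive vectors which are not equal or opposite are independent. -/
theorem dl_pos (x y : Fin 4 → ℤ) (hx : Prim x) (hy : Prim y) (h1 : y ≠ x) (h2 : y ≠ -x) :
    0 < dl x y := by
  by_contra h0
  have h0 : dl x y = 0 := by omega
  have hm : ∀ a b, (0 : ℤ) ∣ minor x y a b := by
    intro a b
    have := minor_le_dl x y a b
    rw [h0] at this
    have : minor x y a b = 0 := by
      rw [← Int.natAbs_eq_zero]; omega
    rw [this]
  obtain ⟨l, hl⟩ := exists_mod_of_dvd_minor x y hx 0 hm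
  have hl' : ∀ i, y i = l * x i := by
    intro i
    have := hl i
    rw [zero_dvd_iff] at this
    linarith
  obtain ⟨c, hc⟩ := hy
  have hu : l * (∑ i, c i * x i) = 1 := by
    rw [← hc, Finset.mul_sum]
    refine Finset.sum_congr rfl fun i _ => ?_
    rw [hl' i]; ring
  have hl1 : IsUnit l := IsUnit.of_mul_eq_one _ hu
  rcases Int.isUnit_iff.mp hl1 with h | h
  · apply h1
    funext i
    rw [hl' i, h, one_mul]
  · apply h2
    funext i
    rw [hl' i, h]
    simp

theorem F_single {R : Type*} [CommRing R] (m : Idx) (c : R) (x : Fin 4 → R) :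
    F (Pi.single m c) x = c * mon x m := by
  unfold F
  rw [Finset.sum_eq_single m]
  · simp
  · intro t _ ht
    rw [Pi.single_eq_of_ne ht, zero_mul]
  · simp

/-- The minors of the vectors of monomials generate the same ideal (we need one inclusion). -/
theorem exists_vec_mg (x y : Fin 4 → ℤ) (hx : Prim x) (hy : Prim y) (h : 0 < dl x y) :
    ∃ t : Idx → ℤ, F t x = 0 ∧ F t y = mg x y := by
  -- the subgroup of values
  let I : Ideal ℤ :=
    { carrier := {z | ∃ t : Idx → ℤ, F t x = 0 ∧ F t y = z}
      add_mem' := by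
        rintro a b ⟨t, ht, ht'⟩ ⟨s, hs, hs'⟩
        exact ⟨fun m => t m + s m, by rw [F_add, ht, hs, add_zero], by rw [F_add, ht', hs']⟩
      zero_mem' := ⟨fun _ => 0, by simp [F], by simp [F]⟩
      smul_mem' := by
        rintro c a ⟨t, ht, ht'⟩
        exact ⟨fun m => c * t m, by rw [F_smul, ht, mul_zero], by rw [F_smul, ht', smul_eq_mul]⟩ }
  have hIg : I = Ideal.span {Submodule.IsPrincipal.generator I} :=
    (Ideal.span_singleton_generator I).symm
  set g := Submodule.IsPrincipal.generator I with hg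
  have hmem : ∀ z, z ∈ I ↔ g ∣ z := by
    intro z
    conv_lhs => rw [hIg]
    exact Ideal.mem_span_singleton
  -- minors of the monomial vectors
  have hmin : ∀ m m' : Idx, g ∣ mon x m * mon y m' - mon x m' * mon y m := by
    intro m m'
    rw [← hmem]
    refine ⟨fun t => mon x m * (Pi.single m' 1 : Idx → ℤ) t
      + (-mon x m') * (Pi.single m 1 : Idx → ℤ) t, ?_, ?_⟩
    · rw [F_add, F_smul, F_smul, F_single, F_single]; ring
    · rw [F_add, F_smul, F_smul, F_single, F_single]; ring
  obtain ⟨c, hc⟩ := hx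
  obtain ⟨c', hc'⟩ := hy
  -- the constant
  set L : ℤ := F (T3 c c c) y with hL
  have hT : F (T3 c c c) x = 1 := by rw [F_T3, hc]; norm_num
  have hLam : ∀ m : Idx, g ∣ mon y m - L * mon x m := by
    intro m
    have : mon y m - L * mon x m
        = ∑ t, T3 c c c t * (mon x t * mon y m - mon x m * mon y t) := by
      calc mon y m - L * mon x m = F (T3 c c c) x * mon y m - L * mon x m := by rw [hT]; ring
        _ = _ := by
          rw [hL, F, F, Finset.sum_mul, Finset.sum_mul, ← Finset.sum_sub_distrib]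
          exact Finset.sum_congr rfl fun t _ => by ring
    rw [this]
    exact Finset.dvd_sum fun t _ => Dvd.dvd.mul_left (hmin t m) _
  have hLam3 : ∀ a b d : Fin 4, g ∣ y a * y b * y d - L * (x a * x b * x d) := by
    intro a b d
    have := hLam (mk3 a b d)
    rwa [mon_mk3, mon_mk3] at this
  have hgm : ∀ a b, g ∣ minor x y a b := by
    intro a b
    have h1 : ∀ d e, g ∣ minor x y a b * (y d * y e) := by
      intro d e
      have e1 := hLam3 b d e
      have e2 := hLam3 a d e
      have : minor x y a b * (y d * y e) = x a * (y b * y d * y e - L * (x b * x d * x e))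
          - x b * (y a * y d * y e - L * (x a * x d * x e)) := by
        unfold minor; ring
      rw [this]
      exact dvd_sub (Dvd.dvd.mul_left e1 _) (Dvd.dvd.mul_left e2 _)
    have h2 : minor x y a b = ∑ d, ∑ e, c' d * c' e * (minor x y a b * (y d * y e)) := by
      have : ∑ d, ∑ e, c' d * c' e * (minor x y a b * (y d * y e))
          = minor x y a b * ((∑ d, c' d * y d) * (∑ e, c' e * y e)) := by
        rw [Finset.sum_mul_sum, Finset.mul_sum]
        refine Finset.sum_congr rfl fun d _ => ?_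
        rw [Finset.mul_sum]
        exact Finset.sum_congr rfl fun e _ => by ring
      rw [this, hc']; ring
    rw [h2]
    exact Finset.dvd_sum fun d _ => Finset.dvd_sum fun e _ => Dvd.dvd.mul_left (h1 d e) _
  exact (hmem _).mpr (dvd_mg x y g hgm)

/-- A non-primitive integer vector is divisible by a prime. -/
theorem exists_prime_of_not_prim (x : Fin 4 → ℤ) (hx : ¬ Prim x) :
    ∃ p : ℕ, p.Prime ∧ ∀ i, (p : ℤ) ∣ x i := by
  have h1 : Ideal.span (Set.range x) ≠ ⊤ := by
    intro h
    have : (1 : ℤ) ∈ Ideal.span (Set.range x) := by rw [h]; trivial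
    rw [Ideal.mem_span_range_iff_exists_fun] at this
    exact hx this
  obtain ⟨M, hM, hle⟩ := Ideal.exists_le_maximal _ h1
  have hMg : M = Ideal.span {Submodule.IsPrincipal.generator M} :=
    (Ideal.span_singleton_generator M).symm
  set g := Submodule.IsPrincipal.generator M with hg
  by_cases h0 : g = 0
  · refine ⟨2, Nat.prime_two, fun i => ?_⟩
    have : x i ∈ M := hle (Ideal.subset_span ⟨i, rfl⟩)
    rw [hMg, h0, Ideal.mem_span_singleton, zero_dvd_iff] at this
    rw [this]; exact dvd_zero _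
  · have hprime : Prime g := by
      have : M.IsPrime := hM.isPrime
      rw [hMg] at this
      exact (Ideal.span_singleton_prime h0).mp this
    refine ⟨g.natAbs, Int.prime_iff_natAbs_prime.mp hprime, fun i => ?_⟩
    have : x i ∈ M := hle (Ideal.subset_span ⟨i, rfl⟩)
    rw [hMg, Ideal.mem_span_singleton] at this
    exact Int.natAbs_dvd.mpr this

end CubicHP
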