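import Pool.Agent.Lib.MP_e426f4_ag.BadC
import Pool.Agent.Lib.MP_e426f4_ag.Minors

/-! BP: all bad points. -/

namespace CubicHP

open Finset Filter Topology

theorem bp_lt_of_dvd_XX (d : Par) (eps bet : ℝ) (w : ℕ) (hd : d.Valid eps bet w) (B : ℕ)
    (x : Fin 4 → ℤ) (hx : x ∈ d.XX B) (p : ℕ) (hp : p.Prime) (hpx : ∀ i, (p : ℤ) ∣ x i) :
    w < p := by
  by_contra hcon
  push Not at hcon
  have hpW : p ∣ d.W := (hd.W_primes p hp).2 hcon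
  have hu : ∀ i, ∃ u : ℤ, x i = d.x0 i + d.P * u := by
    intro i
    obtain ⟨u, hu⟩ := hx.2 i
    exact ⟨u, by linarith⟩
  choose u hu using hu
  obtain ⟨c, hc⟩ := hd.hens.2.2.2.1 u
  have h1 : (p : ℤ) ∣ ∑ i, c i * (d.x0 i + d.P * u i) := by
    refine Finset.dvd_sum fun i _ => ?_
    rw [← hu i]
    exact Dvd.dvd.mul_left (hpx i) _
  have h2 : (p : ℤ) ∣ (d.W : ℤ) := by exact_mod_cast hpW
  have h3 := hc.isUnit_of_dvd' h1 h2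
  rw [Int.isUnit_iff] at h3
  have := hp.two_le
  omega

/-- BP (BadPoints.lean): all bad points -/
theorem bad_points (d : Par) (eps bet : ℝ) (w : ℕ) (hd : d.Valid eps bet w) :
    ∃ K0 : ℝ, 1 ≤ K0 ∧ ∀ K, K0 ≤ K → ∀ th : ℝ, 0 < th → th ≤ d.kap * bet / 4 →
      ∀ n : ℕ, d.Q ∣ d.W ^ n → ∀ᶠ H : ℕ in atTop,
        ((d.LP d.rho th n (d.XX (Bf H) \ d.GG K (Bf H)) H).ncard : ℝ) ≤
          (eps + 2 / w) * d.MT th n H := by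
  obtain ⟨K0, hK0, hK⟩ := bad_not_good d eps bet w hd
  obtain ⟨z, hz⟩ := bad_large_prime d eps bet w hd
  refine ⟨K0, hK0, ?_⟩
  intro K hKK th hth hth2 n hn
  filter_upwards [hK K hKK th hth n hn, hz th hth n hn,
    bad_medium_prime d eps bet w hd z th hth hth2 n hn] with H h1 h2 h3
  have hXX := XX_finite d (Bf H)
  have hsub : d.LP d.rho th n (d.XX (Bf H) \ d.GG K (Bf H)) H ⊆
      (d.LP d.rho th n {x | x ∈ d.XX (Bf H) ∧ ¬ Good K (Bf H) x} H ∪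
      d.LP d.rho th n {x | x ∈ d.XX (Bf H) ∧ ∃ p : ℕ, p.Prime ∧ z < p ∧ ∀ i, (p : ℤ) ∣ x i} H) ∪
      d.LP d.rho th n {x | x ∈ d.XX (Bf H) ∧ ∃ p : ℕ, p.Prime ∧ w < p ∧ p ≤ z ∧
          ∀ i, (p : ℤ) ∣ x i} H := by
    rintro q ⟨hq1, ⟨hq2, hq3⟩, hq4, hq5⟩
    by_cases hgood : Good K (Bf H) q.2
    · have hprim : ¬ Prim q.2 := fun h => hq3 ⟨hq2, h, hgood⟩
      obtain ⟨p, hp, hpx⟩ := exists_prime_of_not_prim q.2 hprim
      have hwp := bp_lt_of_dvd_XX d eps bet w hd (Bf H) q.2 hq2 p hp hpx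
      rcases le_or_gt p z with hpz | hpz
      · exact Or.inr ⟨hq1, ⟨hq2, p, hp, hwp, hpz, hpx⟩, hq4, hq5⟩
      · exact Or.inl (Or.inr ⟨hq1, ⟨hq2, p, hp, hpz, hpx⟩, hq4, hq5⟩)
    · exact Or.inl (Or.inl ⟨hq1, ⟨hq2, hgood⟩, hq4, hq5⟩)
  have hf1 := LP_finite d d.rho th n {x | x ∈ d.XX (Bf H) ∧ ¬ Good K (Bf H) x}
    (hXX.subset fun x hx => hx.1) H
  have hf2 := LP_finite d d.rho th n {x | x ∈ d.XX (Bf H) ∧ ∃ p : ℕ, p.Prime ∧ z < p ∧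
    ∀ i, (p : ℤ) ∣ x i} (hXX.subset fun x hx => hx.1) H
  have hf3 := LP_finite d d.rho th n {x | x ∈ d.XX (Bf H) ∧ ∃ p : ℕ, p.Prime ∧ w < p ∧ p ≤ z ∧
    ∀ i, (p : ℤ) ∣ x i} (hXX.subset fun x hx => hx.1) H
  have h4 := Set.ncard_le_ncard hsub ((hf1.union hf2).union hf3)
  have h5 := h4.trans (Set.ncard_union_le _ _)
  have h6 := h5.trans (Nat.add_le_add_right (Set.ncard_union_le _ _) _)
  have h7 : ((d.LP d.rho th n (d.XX (Bf H) \ d.GG K (Bf H)) H).ncard : ℝ) ≤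
      ((d.LP d.rho th n {x | x ∈ d.XX (Bf H) ∧ ¬ Good K (Bf H) x} H).ncard : ℝ) +
      ((d.LP d.rho th n {x | x ∈ d.XX (Bf H) ∧ ∃ p : ℕ, p.Prime ∧ z < p ∧ ∀ i, (p : ℤ) ∣ x i}
        H).ncard : ℝ) +
      ((d.LP d.rho th n {x | x ∈ d.XX (Bf H) ∧ ∃ p : ℕ, p.Prime ∧ w < p ∧ p ≤ z ∧
          ∀ i, (p : ℤ) ∣ x i} H).ncard : ℝ) := by
    exact_mod_cast h6
  refine h7.trans ?_
  have h8 : (eps + 2 / w) * d.MT th n H = eps / 2 * d.MT th n H + eps / 2 * d.MT th n H +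
      2 / w * d.MT th n H := by ring
  rw [h8]
  linarith

end CubicHP
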