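import Pool.Agent.Lib.MP_e426f4_ag.Basic

/-! Auxiliary facts for the first moment. -/

namespace CubicHP

open Finset Filter Topology

theorem ncard_pairs_eq {α β : Type*} (C : Set α) (hC : C.Finite) (S : Set β) (hS : S.Finite)
    (p : α → β → Prop) :
    ((Set.ncard {q : α × β | q.1 ∈ C ∧ q.2 ∈ S ∧ p q.1 q.2} : ℕ) : ℝ) =
      ∑ A ∈ hC.toFinset, ((Set.ncard {x : β | x ∈ S ∧ p A x} : ℕ) : ℝ) := by
  classical
  have e1 : Set.ncard {q : α × β | q.1 ∈ C ∧ q.2 ∈ S ∧ p q.1 q.2} =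
      ((hC.toFinset ×ˢ hS.toFinset).filter (fun q => p q.1 q.2)).card := by
    rw [← Set.ncard_coe_finset]
    congr 1
    ext q
    simp only [Finset.coe_filter, Finset.mem_product, Set.mem_ofPred_eq, Set.Finite.mem_toFinset]
    tauto
  have e2 : ∀ A, Set.ncard {x : β | x ∈ S ∧ p A x} = (hS.toFinset.filter (fun x => p A x)).card := by
    intro A
    rw [← Set.ncard_coe_finset]
    congr 1
    ext q
    simp only [Finset.coe_filter, Set.mem_ofPred_eq, Set.Finite.mem_toFinset]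
  rw [e1, Finset.card_filter]
  push_cast
  rw [Finset.sum_product]
  refine Finset.sum_congr rfl fun A _ => ?_
  rw [e2, Finset.card_filter]
  push_cast
  rfl

theorem le_ncard_pairs {α β : Type*} (C : Set α) (hC : C.Finite) (S : Set β) (hS : S.Finite)
    (p : α → β → Prop) (a : ℝ)
    (h : ∀ A ∈ C, a ≤ ((Set.ncard {x : β | x ∈ S ∧ p A x} : ℕ) : ℝ)) :
    (C.ncard : ℝ) * a ≤ ((Set.ncard {q : α × β | q.1 ∈ C ∧ q.2 ∈ S ∧ p q.1 q.2} : ℕ) : ℝ) := by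
  rw [ncard_pairs_eq C hC S hS p, Set.ncard_eq_toFinset_card C hC, ← nsmul_eq_mul]
  exact Finset.card_nsmul_le_sum _ _ _ fun A hA => h A ((Set.Finite.mem_toFinset hC).1 hA)

theorem ncard_pairs_le {α β : Type*} (C : Set α) (hC : C.Finite) (S : Set β) (hS : S.Finite)
    (p : α → β → Prop) (b : ℝ)
    (h : ∀ A ∈ C, ((Set.ncard {x : β | x ∈ S ∧ p A x} : ℕ) : ℝ) ≤ b) :
    ((Set.ncard {q : α × β | q.1 ∈ C ∧ q.2 ∈ S ∧ p q.1 q.2} : ℕ) : ℝ) ≤ (C.ncard : ℝ) * b := by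
  rw [ncard_pairs_eq C hC S hS p, Set.ncard_eq_toFinset_card C hC, ← nsmul_eq_mul]
  exact Finset.sum_le_card_nsmul _ _ _ fun A hA => h A ((Set.Finite.mem_toFinset hC).1 hA)

theorem Lev_pos (th : ℝ) (M H : ℕ) : 0 < Lev th M H := by
  unfold Lev
  positivity

theorem Lev_upper (eps th : ℝ) (hth : 0 ≤ th) (M H : ℕ)
    (hy : 1 ≤ eps * (2 * (th * H * (Bf H : ℝ) ^ 3 / M))) :
    Lev th M H ≤ (1 + eps) * (2 * (th * H * (Bf H : ℝ) ^ 3 / M)) := by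
  have h1 : (⌊th * H * (Bf H : ℝ) ^ 3 / M⌋₊ : ℝ) ≤ th * H * (Bf H : ℝ) ^ 3 / M :=
    Nat.floor_le (by positivity)
  unfold Lev
  linarith

theorem Lev_lower (eps th : ℝ) (M H : ℕ)
    (hy : 1 ≤ eps * (2 * (th * H * (Bf H : ℝ) ^ 3 / M))) :
    (1 - eps) * (2 * (th * H * (Bf H : ℝ) ^ 3 / M)) ≤ Lev th M H := by
  have h1 : th * H * (Bf H : ℝ) ^ 3 / M < (⌊th * H * (Bf H : ℝ) ^ 3 / M⌋₊ : ℝ) + 1 :=
    Nat.lt_floor_add_one _
  unfold Lev
  linarith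

/-- `T' = T * 2 θ H B^3 / M` -/
theorem main_term_eq (d : Par) (th : ℝ) (n H : ℕ) (hH : 0 < H) (hW : 0 < d.W) :
    Vol d.gam d.kap th (Bf H) * d.Q / ((d.P : ℝ) ^ 4 * (d.W : ℝ) ^ n) =
      2 * (th * H * (Bf H : ℝ) ^ 3 / (d.W : ℝ) ^ n) * d.TT H := by
  have hH' : (0 : ℝ) < H := by exact_mod_cast hH
  have hW' : (0 : ℝ) < d.W := by exact_mod_cast hW
  unfold Vol Par.TT
  by_cases hg : |d.gam| = 0
  · rw [hg]
    simp
  by_cases hP : (d.P : ℝ) = 0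
  · rw [hP]
    simp
  field_simp
  ring

theorem near_Ainf (d : Par) (eps bet : ℝ) (w : ℕ) (hd : d.Valid eps bet w) (r : ℝ) (H : ℕ)
    (hr : r ≤ 2 * d.rho) (A : Idx → ℤ) (hA : A ∈ d.Cl r H) :
    ∀ m, |(A m : ℝ) - H * d.Ainf m| ≤ 3 * d.rho * H := by
  intro m
  have hH0 : (0 : ℝ) ≤ H := Nat.cast_nonneg H
  have h1 := hA.1 m
  have h2 := hd.AC_near m
  calc |(A m : ℝ) - H * d.Ainf m| = |((A m : ℝ) - H * d.AC m) + H * (d.AC m - d.Ainf m)| := by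
        ring_nf
    _ ≤ |(A m : ℝ) - H * d.AC m| + |(H : ℝ) * (d.AC m - d.Ainf m)| := abs_add_le _ _
    _ = |(A m : ℝ) - H * d.AC m| + H * |d.AC m - d.Ainf m| := by
        rw [abs_mul, abs_of_nonneg hH0]
    _ ≤ r * H + H * d.rho := add_le_add h1 (mul_le_mul_of_nonneg_left h2 hH0)
    _ ≤ 3 * d.rho * H := by nlinarith

end CubicHP
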