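import Pool.Agent.Lib.MP_e426f4_ag.Minors

/-! Module BF: the height function and the points of a class. -/

namespace CubicHP

open Finset Filter Topology

theorem Bf_le (H : ℕ) : (Bf H : ℝ) ≤ (H : ℝ) ^ (5 / 4 : ℝ) :=
  Nat.floor_le (by positivity)

theorem lt_Bf_add_one (H : ℕ) : (H : ℝ) ^ (5 / 4 : ℝ) < (Bf H : ℝ) + 1 :=
  Nat.lt_floor_add_one _

theorem Bf_tendsto : Tendsto (fun H : ℕ => (Bf H : ℝ) / H) atTop atTop := by
  have h1 : Tendsto (fun H : ℕ => (H : ℝ) ^ (1 / 4 : ℝ) - 1) atTop atTop := by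
    have := (tendsto_rpow_atTop (show (0 : ℝ) < 1 / 4 by norm_num)).comp
      (tendsto_natCast_atTop_atTop (R := ℝ))
    exact tendsto_atTop_add_const_right _ (-1) this
  refine tendsto_atTop_mono' _ ?_ h1
  filter_upwards [eventually_ge_atTop 1] with H hH
  have hH' : (1 : ℝ) ≤ H := by exact_mod_cast hH
  have hH0 : (0 : ℝ) < H := by linarith
  rw [le_div_iff₀ hH0]
  have h2 : (H : ℝ) ^ (5 / 4 : ℝ) = (H : ℝ) ^ (1 / 4 : ℝ) * H := by
    rw [show (5 / 4 : ℝ) = 1 / 4 + 1 by norm_num, Real.rpow_add hH0, Real.rpow_one]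
  have h3 := lt_Bf_add_one H
  rw [h2] at h3
  nlinarith

theorem Bf_tendsto_atTop : Tendsto (fun H : ℕ => (Bf H : ℝ)) atTop atTop := by
  refine tendsto_atTop_mono' _ ?_ Bf_tendsto
  filter_upwards [eventually_ge_atTop 1] with H hH
  have hH' : (1 : ℝ) ≤ H := by exact_mod_cast hH
  exact div_le_self (by positivity) hH'

theorem Bf_tendsto_nat : Tendsto Bf atTop atTop :=
  tendsto_natCast_atTop_iff.mp Bf_tendsto_atTop

theorem Bf_small (c : ℝ) : ∀ᶠ H : ℕ in atTop, c * (Bf H : ℝ) ^ (2 / 3 : ℝ) ≤ H := by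
  have h1 : Tendsto (fun H : ℕ => (H : ℝ) ^ (1 / 6 : ℝ)) atTop atTop :=
    (tendsto_rpow_atTop (show (0 : ℝ) < 1 / 6 by norm_num)).comp
      (tendsto_natCast_atTop_atTop (R := ℝ))
  filter_upwards [h1.eventually_ge_atTop |c|, eventually_ge_atTop 1] with H hH hH1
  have hH' : (1 : ℝ) ≤ H := by exact_mod_cast hH1
  have hH0 : (0 : ℝ) < H := by linarith
  have h2 : (Bf H : ℝ) ^ (2 / 3 : ℝ) ≤ (H : ℝ) ^ (5 / 6 : ℝ) := by
    calc (Bf H : ℝ) ^ (2 / 3 : ℝ) ≤ ((H : ℝ) ^ (5 / 4 : ℝ)) ^ (2 / 3 : ℝ) :=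
          Real.rpow_le_rpow (by positivity) (Bf_le H) (by norm_num)
      _ = (H : ℝ) ^ (5 / 6 : ℝ) := by
        rw [← Real.rpow_mul hH0.le]; norm_num
  calc c * (Bf H : ℝ) ^ (2 / 3 : ℝ) ≤ |c| * (Bf H : ℝ) ^ (2 / 3 : ℝ) :=
        mul_le_mul_of_nonneg_right (le_abs_self c) (by positivity)
    _ ≤ (H : ℝ) ^ (1 / 6 : ℝ) * (H : ℝ) ^ (5 / 6 : ℝ) :=
        mul_le_mul hH h2 (by positivity) (by positivity)
    _ = H := by
      rw [← Real.rpow_add hH0]; norm_num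

theorem mem_XX_bounds (d : Par) (eps bet : ℝ) (w : ℕ) (hd : d.Valid eps bet w) (B : ℕ)
    (x : Fin 4 → ℤ) (hx : x ∈ d.XX B) :
    ∀ i, |(x i : ℝ)| ≤ 2 * B ∧ (|d.xi i| = 1 → (B : ℝ) / 2 ≤ |(x i : ℝ)|) := by
  intro i
  have h1 := hx.1 i
  have hk1 := hd.kap_pos
  have hk2 := hd.kap_le
  have hB : (0 : ℝ) ≤ B := by positivity
  have h2 : |(x i : ℝ) - B * d.xi i| ≤ 1 / 10 * B := by
    refine h1.trans (mul_le_mul_of_nonneg_right ?_ hB)
    split_ifs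
    · exact hk2
    · nlinarith
  have h3 : |(B : ℝ) * d.xi i| = B * |d.xi i| := by
    rw [abs_mul, abs_of_nonneg hB]
  constructor
  · have h4 : |(x i : ℝ)| ≤ |(x i : ℝ) - B * d.xi i| + |(B : ℝ) * d.xi i| := by
      have := abs_add_le ((x i : ℝ) - B * d.xi i) (B * d.xi i)
      simpa using this
    rw [h3] at h4
    have := mul_le_mul_of_nonneg_left (hd.xi_le i) hB
    linarith
  · intro h
    have h4 : |(B : ℝ) * d.xi i| ≤ |(x i : ℝ) - B * d.xi i| + |(x i : ℝ)| := by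
      have := abs_sub_abs_le_abs_sub ((B : ℝ) * d.xi i) (x i)
      rw [abs_sub_comm] at this
      linarith
    rw [h3, h] at h4
    linarith

theorem dl_pos_of_mem_GG (d : Par) (eps bet : ℝ) (w : ℕ) (hd : d.Valid eps bet w) (K : ℝ) (B : ℕ)
    (hB : 1 ≤ B) (x y : Fin 4 → ℤ) (hx : x ∈ d.GG K B) (hy : y ∈ d.GG K B) (h : x ≠ y) :
    0 < dl x y := by
  refine dl_pos x y hx.2.1 hy.2.1 (Ne.symm h) ?_
  intro hyx
  obtain ⟨i, hi⟩ := hd.xi_eq
  have hB' : (1 : ℝ) ≤ B := by exact_mod_cast hB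
  have hk1 := hd.kap_pos
  have hk2 := hd.kap_le
  have hk : (if i = d.j then d.kap else d.kap ^ 2) ≤ 1 / 10 := by
    split_ifs
    · exact hk2
    · nlinarith
  have h1 := (hx.1.1 i).trans (mul_le_mul_of_nonneg_right hk (by positivity))
  have h2 := (hy.1.1 i).trans (mul_le_mul_of_nonneg_right hk (by positivity))
  rw [hyx] at h2
  rw [abs_le] at h1 h2
  simp only [Pi.neg_apply, Int.cast_neg] at h2
  rcases (abs_eq (by norm_num : (0 : ℝ) ≤ 1)).mp hi with h3 | h3 <;> rw [h3] at h1 h2 <;>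
    linarith [h1.1, h1.2, h2.1, h2.2]

end CubicHP
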