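import Pool.Agent.Lib.MP_e426f4_ag.Alg

/-! Module SPAN1: real spanning vectors, one point. -/

namespace CubicHP

open Finset

/-- the linear functional `u ↦ ∑ u i * x i` -/
def dotf (x : Fin 4 → ℝ) : (Fin 4 → ℝ) →ₗ[ℝ] ℝ where
  toFun u := ∑ i, u i * x i
  map_add' u v := by simp [add_mul, Finset.sum_add_distrib]
  map_smul' c u := by simp [Finset.mul_sum, mul_assoc]

@[simp] theorem dotf_apply (x u : Fin 4 → ℝ) : dotf x u = ∑ i, u i * x i := rfl

/-- three independent vectors orthogonal to `x ≠ 0` span the orthogonal space -/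
theorem mem_span_of_ortho (x : Fin 4 → ℝ) (hx : x ≠ 0) (l : Fin 3 → Fin 4 → ℝ)
    (hl : LinearIndependent ℝ l) (hlx : ∀ k, ∑ i, l k i * x i = 0) (u : Fin 4 → ℝ)
    (hu : ∑ i, u i * x i = 0) : u ∈ Submodule.span ℝ (Set.range l) := by
  have hsurj : Function.Surjective (dotf x) := by
    obtain ⟨i, hi⟩ : ∃ i, x i ≠ 0 := by
      by_contra h
      push Not at h
      exact hx (funext h)
    intro r
    refine ⟨Pi.single i (r / x i), ?_⟩
    rw [dotf_apply, Finset.sum_eq_single i]
    · simp [hi]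
    · intro j _ hj
      rw [Pi.single_eq_of_ne hj, zero_mul]
    · simp
  have hker : Module.finrank ℝ (LinearMap.ker (dotf x)) = 3 := by
    have h1 := LinearMap.finrank_range_add_finrank_ker (dotf x)
    rw [LinearMap.range_eq_top.mpr hsurj, finrank_top, Module.finrank_self] at h1
    simp at h1
    omega
  have hle : Submodule.span ℝ (Set.range l) ≤ LinearMap.ker (dotf x) := by
    rw [Submodule.span_le]
    rintro _ ⟨k, rfl⟩
    exact hlx k
  have hspan : Module.finrank ℝ (Submodule.span ℝ (Set.range l)) = 3 := by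
    rw [finrank_span_eq_card hl]; simp
  have heq : Submodule.span ℝ (Set.range l) = LinearMap.ker (dotf x) :=
    Submodule.eq_of_le_of_finrank_eq hle (by rw [hspan, hker])
  rw [heq]
  exact hu

/-- if `u` is in the span of the `l k`, then `T3 u m n` is in the span of the
`T3 (l k) e_b e_c` -/
theorem T3_mem_span_single (l : Fin 3 → Fin 4 → ℝ) (u : Fin 4 → ℝ)
    (hu : u ∈ Submodule.span ℝ (Set.range l)) (m n : Fin 4 → ℝ) :
    T3 u m n ∈ Submodule.span ℝ (Set.range fun p : Fin 3 × Fin 4 × Fin 4 =>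
      T3 (l p.1) (Pi.single p.2.1 (1 : ℝ)) (Pi.single p.2.2 1)) := by
  set S := Submodule.span ℝ (Set.range fun p : Fin 3 × Fin 4 × Fin 4 =>
      T3 (l p.1) (Pi.single p.2.1 (1 : ℝ)) (Pi.single p.2.2 1)) with hS
  -- reduce to `u = l k`
  refine Submodule.span_induction (p := fun u _ => T3 u m n ∈ S) ?_ ?_ ?_ ?_ hu
  · rintro _ ⟨k, rfl⟩
    have hm : m = ∑ b, m b • (Pi.single b (1 : ℝ) : Fin 4 → ℝ) := by
      funext i; simp [Finset.sum_apply, Pi.single_apply]
    have hn : n = ∑ b, n b • (Pi.single b (1 : ℝ) : Fin 4 → ℝ) := by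
      funext i; simp [Finset.sum_apply, Pi.single_apply]
    rw [← T3L_apply, hm, hn]
    simp only [map_sum, map_smul, LinearMap.sum_apply, LinearMap.smul_apply]
    refine Submodule.sum_mem _ fun b _ => Submodule.smul_mem _ _ ?_
    refine Submodule.sum_mem _ fun c _ => Submodule.smul_mem _ _ ?_
    exact Submodule.subset_span ⟨(k, c, b), rfl⟩
  · have : T3 (0 : Fin 4 → ℝ) m n = 0 := by
      rw [← T3L_apply]; simp
    rw [this]; exact Submodule.zero_mem _
  · intro a b _ _ ha hb
    rw [T3_add_left]; exact Submodule.add_mem _ ha hb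
  · intro r a _ ha
    rw [T3_smul_left]; exact Submodule.smul_mem _ _ ha

theorem span_single (x : Fin 4 → ℝ) (hx : x ≠ 0) (l : Fin 3 → Fin 4 → ℝ)
    (hl : LinearIndependent ℝ l) (hlx : ∀ k, ∑ i, l k i * x i = 0) (A : Idx → ℝ)
    (hA : F A x = 0) :
    ∃ r : Fin 3 → Fin 4 → Fin 4 → ℝ, ∀ m, A m =
      ∑ k, ∑ b, ∑ c, r k b c * T3 (l k) (Pi.single b 1) (Pi.single c 1) m := by
  set S := Submodule.span ℝ (Set.range fun p : Fin 3 × Fin 4 × Fin 4 =>
      T3 (l p.1) (Pi.single p.2.1 (1 : ℝ)) (Pi.single p.2.2 1)) with hS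
  obtain ⟨i0, hi0⟩ : ∃ i, x i ≠ 0 := by
    by_contra h
    push Not at h
    exact hx (funext h)
  set lam : Fin 4 → ℝ := Pi.single i0 (1 / x i0) with hlam
  have hlamx : ∑ i, lam i * x i = 1 := by
    rw [Finset.sum_eq_single i0]
    · simp [hlam, hi0]
    · intro j _ hj
      rw [hlam, Pi.single_eq_of_ne hj, zero_mul]
    · simp
  -- decomposition of the basis vectors
  set q : Fin 4 → Fin 4 → ℝ := fun a => Pi.single a (1 : ℝ) - x a • lam with hq
  have hqx : ∀ a, ∑ i, q a i * x i = 0 := by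
    intro a
    have : ∑ i, q a i * x i = (∑ i, (Pi.single a (1 : ℝ) : Fin 4 → ℝ) i * x i)
        - x a * ∑ i, lam i * x i := by
      rw [Finset.mul_sum, ← Finset.sum_sub_distrib]
      refine Finset.sum_congr rfl fun i _ => ?_
      simp only [hq, Pi.sub_apply, Pi.smul_apply, smul_eq_mul]
      ring
    rw [this, hlamx]
    simp [Pi.single_apply]
  have hdec : ∀ a, (Pi.single a (1 : ℝ) : Fin 4 → ℝ) = x a • lam + q a := by
    intro a; simp [hq]
  have hqS : ∀ a m n, T3 (q a) m n ∈ S := fun a m n =>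
    T3_mem_span_single l (q a) (mem_span_of_ortho x hx l hl hlx (q a) (hqx a)) m n
  -- expansion
  have hexp : ∀ a b c : Fin 4, T3 (Pi.single a (1 : ℝ)) (Pi.single b 1) (Pi.single c 1)
      - (x a * x b * x c) • T3 lam lam lam ∈ S := by
    intro a b c
    have e : T3 (Pi.single a (1 : ℝ)) (Pi.single b 1) (Pi.single c 1)
        - (x a * x b * x c) • T3 lam lam lam =
        T3 (q a) (Pi.single b 1) (Pi.single c 1)
        + x a • T3 (q b) lam (Pi.single c 1)
        + (x a * x b) • T3 (q c) lam lam := by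
      have e1 : T3 (Pi.single a (1 : ℝ)) (Pi.single b 1) (Pi.single c 1) =
          x a • T3 lam (Pi.single b 1) (Pi.single c 1)
            + T3 (q a) (Pi.single b 1) (Pi.single c 1) := by
        conv_lhs => rw [hdec a]
        rw [T3_add_left, T3_smul_left]
      have e2 : T3 lam (Pi.single b (1 : ℝ)) (Pi.single c 1) =
          x b • T3 lam lam (Pi.single c 1) + T3 (q b) lam (Pi.single c 1) := by
        conv_lhs => rw [hdec b]
        rw [T3_add_mid, T3_smul_mid, T3_swap12 (q b) lam]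
      have e3 : T3 lam lam (Pi.single c (1 : ℝ)) =
          x c • T3 lam lam lam + T3 (q c) lam lam := by
        conv_lhs => rw [hdec c]
        rw [T3_add_right, T3_smul_right, ← T3_swap23 lam lam (q c), T3_swap12 (q c) lam lam]
      rw [e1, e2, e3]
      module
    rw [e]
    exact Submodule.add_mem _ (Submodule.add_mem _ (hqS _ _ _) (Submodule.smul_mem _ _ (hqS _ _ _)))
      (Submodule.smul_mem _ _ (hqS _ _ _))
  have hAS : A ∈ S := by
    have e : A = ∑ t : Idx, A t • (T3 (Pi.single t.1.1 (1 : ℝ)) (Pi.single t.1.2.1 1)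
      (Pi.single t.1.2.2 1) - (x t.1.1 * x t.1.2.1 * x t.1.2.2) • T3 lam lam lam) := by
      have h1 : ∑ t : Idx, A t • ((x t.1.1 * x t.1.2.1 * x t.1.2.2) • T3 lam lam lam) = 0 := by
        simp only [smul_smul]
        rw [← Finset.sum_smul]
        have : ∑ t : Idx, A t * (x t.1.1 * x t.1.2.1 * x t.1.2.2) = F A x := rfl
        rw [this, hA, zero_smul]
      simp only [smul_sub]
      rw [Finset.sum_sub_distrib, h1, sub_zero]
      exact eq_sum_T3 A
    rw [e]
    exact Submodule.sum_mem _ fun t _ => Submodule.smul_mem _ _ (hexp _ _ _)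
  rw [hS, Submodule.mem_span_range_iff_exists_fun] at hAS
  obtain ⟨r, hr⟩ := hAS
  refine ⟨fun k b c => r (k, b, c), fun m => ?_⟩
  rw [← hr, Finset.sum_apply]
  simp only [Pi.smul_apply, smul_eq_mul]
  rw [Fintype.sum_prod_type]
  refine Finset.sum_congr rfl fun k _ => ?_
  rw [Fintype.sum_prod_type]

end CubicHP
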