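import Pool.Agent.Lib.MP_e426f4_ag.Alg
import Pool.Agent.Lib.MP_e426f4_ag.AlgReal
import Pool.Agent.Lib.MP_e426f4_ag.Minors
import Pool.Agent.Lib.MP_e426f4_ag.Span1

/-! Module B1: short vectors for one point. -/

namespace CubicHP

open Finset

/-- `F` is linear in the coefficient vector. -/
theorem F_sub_sum {R : Type*} [CommRing R] {ι : Type*} [Fintype ι] (V : ι → Idx → R)
    (t0 : Idx → R) (c : ι → R) (y : Fin 4 → R) :
    F (fun m => t0 m - ∑ i, c i * V i m) y = F t0 y - ∑ i, c i * F (V i) y := by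
  simp only [F, sub_mul, Finset.sum_sub_distrib, Finset.sum_mul, Finset.mul_sum]
  congr 1
  rw [Finset.sum_comm]
  refine Finset.sum_congr rfl fun i _ => Finset.sum_congr rfl fun t _ => ?_
  ring

/-- rounding along a finite family of integer vectors -/
theorem round_family {ι : Type*} [Fintype ι] (V : ι → Idx → ℤ) (b : ℝ)
    (hV : ∀ i m, |(V i m : ℝ)| ≤ b) (t0 : Idx → ℤ) (tR : Idx → ℝ) (r : ι → ℝ)
    (h : ∀ m, (t0 m : ℝ) - tR m = ∑ i, r i * V i m) :
    ∃ t : Idx → ℤ, (∀ y : Fin 4 → ℤ, (∀ i, F (V i) y = 0) → F t y = F t0 y) ∧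
      ∀ m, |(t m : ℝ)| ≤ |tR m| + Fintype.card ι * b := by
  refine ⟨fun m => t0 m - ∑ i, ⌊r i⌋ * V i m, ?_, ?_⟩
  · intro y hy
    rw [F_sub_sum, Finset.sum_eq_zero, sub_zero]
    intro i _
    rw [hy i, mul_zero]
  · intro m
    have h1 : ((t0 m - ∑ i, ⌊r i⌋ * V i m : ℤ) : ℝ) = tR m + ∑ i, Int.fract (r i) * V i m := by
      have h2 := h m
      push_cast
      simp only [Int.fract, sub_mul, Finset.sum_sub_distrib]
      linarith
    rw [h1]
    refine (abs_add_le _ _).trans ?_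
    gcongr
    refine (Finset.abs_sum_le_sum_abs _ _).trans ?_
    calc ∑ i, |Int.fract (r i) * (V i m : ℝ)| ≤ ∑ _i : ι, b := by
          refine Finset.sum_le_sum fun i _ => ?_
          rw [abs_mul, abs_of_nonneg (Int.fract_nonneg _)]
          calc Int.fract (r i) * |(V i m : ℝ)| ≤ 1 * |(V i m : ℝ)| := by
                gcongr
                exact (Int.fract_lt_one _).le
            _ ≤ b := by rw [one_mul]; exact hV i m
      _ = Fintype.card ι * b := by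
          rw [Finset.sum_const, Finset.card_univ, nsmul_eq_mul]

theorem cast_single (b : Fin 4) :
    (fun i => (((Pi.single b 1 : Fin 4 → ℤ) i : ℤ) : ℝ)) = (Pi.single b 1 : Fin 4 → ℝ) := by
  funext i
  by_cases h : i = b
  · subst h; simp
  · simp [Pi.single_eq_of_ne h]

theorem T3_cast_single (l : Fin 4 → ℤ) (b c : Fin 4) (m : Idx) :
    T3 (fun i => (l i : ℝ)) (Pi.single b 1) (Pi.single c 1) m =
      ((T3 l (Pi.single b 1) (Pi.single c 1) m : ℤ) : ℝ) := by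
  rw [← T3_cast, cast_single, cast_single]

theorem T3_cast_pair (l l' : Fin 4 → ℤ) (c : Fin 4) (m : Idx) :
    T3 (fun i => (l i : ℝ)) (fun i => (l' i : ℝ)) (Pi.single c 1) m =
      ((T3 l l' (Pi.single c 1) m : ℤ) : ℝ) := by
  rw [← T3_cast, cast_single]

theorem short_single (B : ℕ) (hB : 1 ≤ B) (x : Fin 4 → ℤ) (hx : Prim x) (mu : ℝ)
    (hg : Ortho mu x) (i0 : Fin 4) (hi0 : (B : ℝ) / 2 ≤ |(x i0 : ℝ)|) (s : ℤ) :
    ∃ t : Idx → ℤ, F t x = s ∧ ∀ m, |(t m : ℝ)| ≤ 8 * |(s : ℝ)| / (B : ℝ) ^ 3 + 200 * mu := by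
  obtain ⟨c, hc⟩ := hx
  obtain ⟨l, hl, hlx, hlm⟩ := hg
  have hBpos : (0 : ℝ) < B := by exact_mod_cast hB
  have hx0 : (x i0 : ℝ) ≠ 0 := by
    intro h
    rw [h, abs_zero] at hi0
    linarith
  have hmu : 0 ≤ mu := (abs_nonneg _).trans (hlm 0 0)
  obtain ⟨r, hr⟩ := span_single (fun i => (x i : ℝ)) (by intro h; exact hx0 (congrFun h i0))
    (fun k i => (l k i : ℝ)) hl (by intro k; exact_mod_cast hlx k)
    (fun m => (((fun m => s * T3 c c c m : Idx → ℤ) m : ℤ) : ℝ) -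
      (Pi.single (mk3 i0 i0 i0) ((s : ℝ) / (x i0 : ℝ) ^ 3) : Idx → ℝ) m) (by
      have h1 : F (fun m => (((fun m => s * T3 c c c m : Idx → ℤ) m : ℤ) : ℝ))
          (fun i => (x i : ℝ)) = s := by
        rw [F_cast, F_smul, F_T3, hc]
        simp
      have h2 : F (Pi.single (mk3 i0 i0 i0) ((s : ℝ) / (x i0 : ℝ) ^ 3) : Idx → ℝ)
          (fun i => (x i : ℝ)) = s := by
        rw [F_single, mon_mk3]
        field_simp
      have h3 : F (fun m => (((fun m => s * T3 c c c m : Idx → ℤ) m : ℤ) : ℝ) -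
        (Pi.single (mk3 i0 i0 i0) ((s : ℝ) / (x i0 : ℝ) ^ 3) : Idx → ℝ) m)
          (fun i => (x i : ℝ)) = F (fun m => (((fun m => s * T3 c c c m : Idx → ℤ) m : ℤ) : ℝ))
          (fun i => (x i : ℝ)) - F (Pi.single (mk3 i0 i0 i0) ((s : ℝ) / (x i0 : ℝ) ^ 3) : Idx → ℝ)
          (fun i => (x i : ℝ)) := by
        simp only [F, sub_mul, Finset.sum_sub_distrib]
      rw [h3, h1, h2, sub_self])
  obtain ⟨t, ht1, ht2⟩ := round_family (ι := Fin 3 × Fin 4 × Fin 4)
    (fun p => T3 (l p.1) (Pi.single p.2.1 1) (Pi.single p.2.2 1)) (4 * mu)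
    (by
      intro p m
      rw [← T3_cast_single]
      exact T3_abs_single _ _ _ mu (fun i => hlm p.1 i) m)
    (fun m => s * T3 c c c m) (Pi.single (mk3 i0 i0 i0) ((s : ℝ) / (x i0 : ℝ) ^ 3))
    (fun p => r p.1 p.2.1 p.2.2) (by
      intro m
      rw [hr m, Fintype.sum_prod_type]
      refine Finset.sum_congr rfl fun k _ => ?_
      rw [Fintype.sum_prod_type]
      refine Finset.sum_congr rfl fun b _ => Finset.sum_congr rfl fun c' _ => ?_
      rw [T3_cast_single])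
  refine ⟨t, ?_, fun m => (ht2 m).trans ?_⟩
  · rw [ht1 x, F_smul, F_T3, hc]
    · ring
    · intro p
      rw [F_T3, hlx, zero_mul, zero_mul]
  · have h1 : |(Pi.single (mk3 i0 i0 i0) ((s : ℝ) / (x i0 : ℝ) ^ 3) : Idx → ℝ) m| ≤
        8 * |(s : ℝ)| / (B : ℝ) ^ 3 := by
      by_cases hm : m = mk3 i0 i0 i0
      · subst hm
        rw [Pi.single_eq_same, abs_div, abs_pow, div_le_div_iff₀ (by positivity) (by positivity)]
        have h2 : (B : ℝ) ^ 3 ≤ 8 * |(x i0 : ℝ)| ^ 3 := by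
          have h3 : ((B : ℝ) / 2) ^ 3 ≤ |(x i0 : ℝ)| ^ 3 := by gcongr
          linarith [h3, show ((B : ℝ) / 2) ^ 3 = (B : ℝ) ^ 3 / 8 by ring]
        nlinarith [abs_nonneg (s : ℝ)]
      · rw [Pi.single_eq_of_ne hm, abs_zero]
        positivity
    have h2 : (Fintype.card (Fin 3 × Fin 4 × Fin 4) : ℝ) = 48 := by
      simp
    rw [h2]
    linarith

end CubicHP
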