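import Pool.Agent.Lib.MP_e426f4_ag.Alg
import Pool.Agent.Lib.MP_e426f4_ag.ShortOne
import Pool.Agent.Lib.MP_e426f4_ag.Heights

/-! Module TR: translation inequalities for pairs (form, point). -/

namespace CubicHP

open Finset Filter Topology

/-- A short form of the class `0 (mod Q)` with a prescribed value at a well-rounded point. -/
theorem short_level (d : Par) (eps bet : ℝ) (w : ℕ) (hd : d.Valid eps bet w) (K : ℝ) (hK : 1 ≤ K)
    (th : ℝ) (hth : 0 < th) :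
    ∀ᶠ H : ℕ in atTop, ∀ x ∈ d.GG K (Bf H), ∀ s : ℤ, (d.Q : ℤ) ∣ s →
      |(s : ℝ)| ≤ th * H * (Bf H : ℝ) ^ 3 →
      ∃ t : Idx → ℤ, F t x = s ∧ (∀ m, (d.Q : ℤ) ∣ t m) ∧ ∀ m, |(t m : ℝ)| ≤ 9 * th * H := by
  have h1 := Bf_small (200 * d.Q * K / th)
  have h2 := Bf_tendsto.eventually_ge_atTop 1
  filter_upwards [h1, h2, eventually_ge_atTop 1] with H h1 h2 h3 x hx s hs hsb
  have hH0 : (0 : ℝ) < H := by exact_mod_cast h3
  have hB1 : 1 ≤ Bf H := by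
    have h4 : (H : ℝ) ≤ Bf H := by
      rw [le_div_iff₀ hH0] at h2
      linarith
    have h5 : H ≤ Bf H := by exact_mod_cast h4
    omega
  have hB1r : (1 : ℝ) ≤ Bf H := by exact_mod_cast hB1
  obtain ⟨s', rfl⟩ := hs
  obtain ⟨i0, hi0⟩ := hd.xi_eq
  have hxb := (mem_XX_bounds d eps bet w hd (Bf H) x hx.1 i0).2 hi0
  obtain ⟨t, ht, htb⟩ := short_single (Bf H) hB1 x hx.2.1 (K * (Bf H : ℝ) ^ (1 / 3 : ℝ)) hx.2.2 i0
    hxb s'
  have hQ0 : (0 : ℝ) < d.Q := by exact_mod_cast hd.Q_pos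
  refine ⟨fun m => d.Q * t m, ?_, fun m => Dvd.intro _ rfl, fun m => ?_⟩
  · rw [F_smul, ht]
  · have hB0 : (0 : ℝ) < (Bf H : ℝ) ^ 3 := by positivity
    have h5 : (d.Q : ℝ) * |(s' : ℝ)| ≤ th * H * (Bf H : ℝ) ^ 3 := by
      have : |(((d.Q : ℤ) * s' : ℤ) : ℝ)| = (d.Q : ℝ) * |(s' : ℝ)| := by
        push_cast
        rw [abs_mul, Nat.abs_cast]
      rw [← this]
      exact hsb
    have h6 : (d.Q : ℝ) * (8 * |(s' : ℝ)| / (Bf H : ℝ) ^ 3) ≤ 8 * th * H := by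
      have : (d.Q : ℝ) * (8 * |(s' : ℝ)| / (Bf H : ℝ) ^ 3) =
          8 * ((d.Q : ℝ) * |(s' : ℝ)|) / (Bf H : ℝ) ^ 3 := by ring
      rw [this, div_le_iff₀ hB0]
      linarith
    have h7 : (Bf H : ℝ) ^ (1 / 3 : ℝ) ≤ (Bf H : ℝ) ^ (2 / 3 : ℝ) :=
      Real.rpow_le_rpow_of_exponent_le hB1r (by norm_num)
    have h8 : (d.Q : ℝ) * (200 * (K * (Bf H : ℝ) ^ (1 / 3 : ℝ))) ≤ th * H := by
      have h9 : 200 * d.Q * K / th * (Bf H : ℝ) ^ (2 / 3 : ℝ) * th ≤ H * th :=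
        mul_le_mul_of_nonneg_right h1 hth.le
      have h10 : 200 * d.Q * K / th * (Bf H : ℝ) ^ (2 / 3 : ℝ) * th =
          200 * d.Q * K * (Bf H : ℝ) ^ (2 / 3 : ℝ) := by
        field_simp
      rw [h10] at h9
      have h11 : 200 * (d.Q : ℝ) * K * (Bf H : ℝ) ^ (1 / 3 : ℝ) ≤
          200 * d.Q * K * (Bf H : ℝ) ^ (2 / 3 : ℝ) :=
        mul_le_mul_of_nonneg_left h7 (by positivity)
      linarith
    push_cast
    rw [abs_mul, Nat.abs_cast]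
    calc (d.Q : ℝ) * |(t m : ℝ)| ≤
        d.Q * (8 * |(s' : ℝ)| / (Bf H : ℝ) ^ 3 + 200 * (K * (Bf H : ℝ) ^ (1 / 3 : ℝ))) :=
          mul_le_mul_of_nonneg_left (htb m) hQ0.le
      _ = d.Q * (8 * |(s' : ℝ)| / (Bf H : ℝ) ^ 3) + d.Q * (200 * (K * (Bf H : ℝ) ^ (1 / 3 : ℝ))) :=
          mul_add _ _ _
      _ ≤ 9 * th * H := by linarith

/-- the levels: `k` with `|M k| ≤ X` -/
theorem level_iff (X : ℝ) (hX : 0 ≤ X) (M : ℕ) (hM : 0 < M) (k : ℤ) :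
    k ∈ Icc (-(⌊X / M⌋₊ : ℤ)) (⌊X / M⌋₊ : ℤ) ↔ |(((M : ℤ) * k : ℤ) : ℝ)| ≤ X := by
  have hM0 : (0 : ℝ) < M := by exact_mod_cast hM
  rw [Finset.mem_Icc, ← abs_le]
  push_cast
  rw [abs_mul, Nat.abs_cast]
  have h0 : 0 ≤ X / M := by positivity
  constructor
  · intro h
    have h1 : ((|k| : ℤ) : ℝ) ≤ (⌊X / M⌋₊ : ℝ) := by exact_mod_cast h
    have h2 := h1.trans (Nat.floor_le h0)
    rw [le_div_iff₀ hM0] at h2
    push_cast at h2
    linarith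
  · intro h
    have h1 : |(k : ℝ)| ≤ X / M := by
      rw [le_div_iff₀ hM0]
      linarith
    have h2 : ((k.natAbs : ℕ) : ℝ) ≤ X / M := by
      rw [Nat.cast_natAbs]
      push_cast
      exact h1
    have h3 := Nat.le_floor h2
    have h4 : (k.natAbs : ℤ) ≤ (⌊X / M⌋₊ : ℤ) := by exact_mod_cast h3
    rwa [Int.natCast_natAbs] at h4

theorem Lev_eq (th : ℝ) (M H : ℕ) : Lev th M H =
    ((Icc (-(⌊th * H * (Bf H : ℝ) ^ 3 / M⌋₊ : ℤ)) (⌊th * H * (Bf H : ℝ) ^ 3 / M⌋₊ : ℤ)).card : ℝ) := by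
  rw [Int.card_Icc, Lev]
  have : ((⌊th * H * (Bf H : ℝ) ^ 3 / M⌋₊ : ℤ) + 1 - -(⌊th * H * (Bf H : ℝ) ^ 3 / M⌋₊ : ℤ)) =
      ((2 * ⌊th * H * (Bf H : ℝ) ^ 3 / M⌋₊ + 1 : ℕ) : ℤ) := by
    push_cast
    ring
  rw [this, Int.toNat_natCast]
  push_cast
  ring

theorem trans_lower (d : Par) (eps bet : ℝ) (w : ℕ) (hd : d.Valid eps bet w) (K : ℝ) (hK : 1 ≤ K)
    (r th : ℝ) (hth : 0 < th) (n : ℕ) (hn : d.Q ∣ d.W ^ n) :
    ∀ᶠ H : ℕ in atTop,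
      ((d.LP (r - 9 * th) th n (d.GG K (Bf H)) H).ncard : ℝ) ≤
        Lev th (d.W ^ n) H * ((d.Pairs r K H).ncard : ℝ) := by
  classical
  filter_upwards [short_level d eps bet w hd K hK th hth] with H hH
  obtain ⟨M, hM⟩ : ∃ M : ℕ, M = d.W ^ n := ⟨_, rfl⟩
  have hMpos : 0 < M := by rw [hM]; exact pow_pos hd.W_pos n
  have hMz : ((d.W : ℤ) ^ n) = (M : ℤ) := by rw [hM]; push_cast; rfl
  have hQM : (d.Q : ℤ) ∣ (M : ℤ) := by
    rw [hM]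
    exact Int.natCast_dvd_natCast.2 hn
  rw [← hM, Lev_eq]
  obtain ⟨X, hX⟩ : ∃ X : ℝ, X = th * H * (Bf H : ℝ) ^ 3 := ⟨_, rfl⟩
  have hX0 : 0 ≤ X := by rw [hX]; positivity
  rw [← hX]
  have hLPfin := LP_finite d (r - 9 * th) th n (d.GG K (Bf H)) (GG_finite d K (Bf H)) H
  have hPfin := Pairs_finite d r K H
  choose! t ht using hH
  let f : ((Idx → ℤ) × (Fin 4 → ℤ)) → ((Idx → ℤ) × (Fin 4 → ℤ)) × ℤ :=
    fun q => ((fun m => q.1 m + (-1) * t q.2 (F q.1 q.2) m, q.2), F q.1 q.2 / M)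
  have hmaps : ∀ q ∈ hLPfin.toFinset, f q ∈ hPfin.toFinset ×ˢ
      Icc (-(⌊X / M⌋₊ : ℤ)) (⌊X / M⌋₊ : ℤ) := by
    intro q hq
    rw [Set.Finite.mem_toFinset] at hq
    obtain ⟨h1, h2, h3, h4⟩ := hq
    rw [hMz] at h3
    have h5 := ht q.2 h2 (F q.1 q.2) (hQM.trans h3) h4
    rw [Finset.mem_product, Set.Finite.mem_toFinset]
    refine ⟨⟨⟨fun m => ?_, fun m => ?_⟩, h2, ?_⟩, ?_⟩
    · have h6 := h1.1 m
      have h7 := h5.2.2 m
      have h8 : (((q.1 m + (-1) * t q.2 (F q.1 q.2) m : ℤ) : ℝ)) - H * d.AC m =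
          ((q.1 m : ℝ) - H * d.AC m) - (t q.2 (F q.1 q.2) m : ℝ) := by
        push_cast
        ring
      simp only [f]
      rw [h8]
      refine (abs_sub _ _).trans ?_
      have h9 : (r - 9 * th) * H + 9 * th * H = r * H := by ring
      linarith
    · have h8 : q.1 m + (-1) * t q.2 (F q.1 q.2) m - d.A0 m =
          (q.1 m - d.A0 m) - t q.2 (F q.1 q.2) m := by ring
      simp only [f]
      rw [h8]
      exact dvd_sub (h1.2 m) (h5.2.1 m)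
    · simp only [f]
      rw [F_add q.1 (fun m => (-1) * t q.2 (F q.1 q.2) m), F_smul, h5.1]
      ring
    · simp only [f]
      rw [level_iff X hX0 M hMpos, Int.mul_ediv_cancel' h3, hX]
      exact h4
  have hinj : Set.InjOn f (hLPfin.toFinset : Set ((Idx → ℤ) × (Fin 4 → ℤ))) := by
    intro q hq q' hq' hqq
    rw [Finset.mem_coe, Set.Finite.mem_toFinset] at hq hq'
    obtain ⟨h1, h2, h3, h4⟩ := hq
    obtain ⟨h1', h2', h3', h4'⟩ := hq'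
    rw [hMz] at h3 h3'
    simp only [f, Prod.mk.injEq] at hqq
    obtain ⟨⟨e1, e2⟩, e3⟩ := hqq
    have e4 : F q.1 q.2 = F q'.1 q'.2 := by
      rw [← Int.mul_ediv_cancel' h3, ← Int.mul_ediv_cancel' h3', e3]
    have e5 : q.1 = q'.1 := by
      funext m
      have h5 : q.1 m + (-1) * t q.2 (F q.1 q.2) m = q'.1 m + (-1) * t q'.2 (F q'.1 q'.2) m :=
        congrFun e1 m
      rw [e4, e2] at h5
      linarith
    exact Prod.ext e5 e2
  have hcard := Finset.card_le_card_of_injOn f hmaps hinj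
  rw [Finset.card_product, ← Set.ncard_eq_toFinset_card _ hLPfin,
    ← Set.ncard_eq_toFinset_card _ hPfin] at hcard
  calc ((d.LP (r - 9 * th) th n (d.GG K (Bf H)) H).ncard : ℝ) ≤
      (((d.Pairs r K H).ncard * (Icc (-(⌊X / M⌋₊ : ℤ)) (⌊X / M⌋₊ : ℤ)).card : ℕ) : ℝ) := by
        exact_mod_cast hcard
    _ = _ := by
        push_cast
        ring

theorem trans_upper (d : Par) (eps bet : ℝ) (w : ℕ) (hd : d.Valid eps bet w) (K : ℝ) (hK : 1 ≤ K)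
    (r th : ℝ) (hth : 0 < th) (n : ℕ) (hn : d.Q ∣ d.W ^ n) :
    ∀ᶠ H : ℕ in atTop,
      Lev th (d.W ^ n) H * ((d.Pairs r K H).ncard : ℝ) ≤
        ((d.LP (r + 9 * th) th n (d.GG K (Bf H)) H).ncard : ℝ) := by
  classical
  filter_upwards [short_level d eps bet w hd K hK th hth] with H hH
  obtain ⟨M, hM⟩ : ∃ M : ℕ, M = d.W ^ n := ⟨_, rfl⟩
  have hMpos : 0 < M := by rw [hM]; exact pow_pos hd.W_pos n
  have hMz : ((d.W : ℤ) ^ n) = (M : ℤ) := by rw [hM]; push_cast; rfl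
  have hMz0 : (M : ℤ) ≠ 0 := by exact_mod_cast hMpos.ne'
  have hQM : (d.Q : ℤ) ∣ (M : ℤ) := by
    rw [hM]
    exact Int.natCast_dvd_natCast.2 hn
  rw [← hM, Lev_eq]
  obtain ⟨X, hX⟩ : ∃ X : ℝ, X = th * H * (Bf H : ℝ) ^ 3 := ⟨_, rfl⟩
  have hX0 : 0 ≤ X := by rw [hX]; positivity
  rw [← hX]
  have hLPfin := LP_finite d (r + 9 * th) th n (d.GG K (Bf H)) (GG_finite d K (Bf H)) H
  have hPfin := Pairs_finite d r K H
  choose! t ht using hH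
  let f : ((Idx → ℤ) × (Fin 4 → ℤ)) × ℤ → ((Idx → ℤ) × (Fin 4 → ℤ)) :=
    fun q => (fun m => q.1.1 m + t q.1.2 (M * q.2) m, q.1.2)
  have hF : ∀ q ∈ hPfin.toFinset ×ˢ Icc (-(⌊X / M⌋₊ : ℤ)) (⌊X / M⌋₊ : ℤ),
      F (f q).1 (f q).2 = M * q.2 := by
    intro q hq
    rw [Finset.mem_product, Set.Finite.mem_toFinset, level_iff X hX0 M hMpos] at hq
    obtain ⟨⟨h1, h2, h3⟩, h4⟩ := hq
    have h5 := ht q.1.2 h2 (M * q.2) (hQM.trans (Dvd.intro _ rfl)) (hX ▸ h4)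
    simp only [f]
    rw [F_add q.1.1 (fun m => t q.1.2 (M * q.2) m), h3, h5.1]
    ring
  have hmaps : ∀ q ∈ hPfin.toFinset ×ˢ Icc (-(⌊X / M⌋₊ : ℤ)) (⌊X / M⌋₊ : ℤ),
      f q ∈ hLPfin.toFinset := by
    intro q hq
    have hFq := hF q hq
    rw [Finset.mem_product, Set.Finite.mem_toFinset, level_iff X hX0 M hMpos] at hq
    obtain ⟨⟨h1, h2, h3⟩, h4⟩ := hq
    have h5 := ht q.1.2 h2 (M * q.2) (hQM.trans (Dvd.intro _ rfl)) (hX ▸ h4)
    rw [Set.Finite.mem_toFinset]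
    refine ⟨⟨fun m => ?_, fun m => ?_⟩, h2, ?_, ?_⟩
    · have h6 := h1.1 m
      have h7 := h5.2.2 m
      have h8 : (((q.1.1 m + t q.1.2 (M * q.2) m : ℤ) : ℝ)) - H * d.AC m =
          ((q.1.1 m : ℝ) - H * d.AC m) + (t q.1.2 (M * q.2) m : ℝ) := by
        push_cast
        ring
      simp only [f]
      rw [h8]
      refine (abs_add_le _ _).trans ?_
      have h9 : (r + 9 * th) * H = r * H + 9 * th * H := by ring
      linarith
    · have h8 : q.1.1 m + t q.1.2 (M * q.2) m - d.A0 m =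
          (q.1.1 m - d.A0 m) + t q.1.2 (M * q.2) m := by ring
      simp only [f]
      rw [h8]
      exact dvd_add (h1.2 m) (h5.2.1 m)
    · rw [hFq, hMz]
      exact Dvd.intro _ rfl
    · rw [hFq, ← hX]
      exact h4
  have hinj : Set.InjOn f ((hPfin.toFinset ×ˢ Icc (-(⌊X / M⌋₊ : ℤ)) (⌊X / M⌋₊ : ℤ) :
      Finset (((Idx → ℤ) × (Fin 4 → ℤ)) × ℤ)) : Set (((Idx → ℤ) × (Fin 4 → ℤ)) × ℤ)) := by
    intro q hq q' hq' hqq
    have e1 := hF q hq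
    have e2 := hF q' hq'
    rw [hqq, e2] at e1
    have e3 : q.2 = q'.2 := (mul_left_cancel₀ hMz0 e1).symm
    simp only [f, Prod.mk.injEq] at hqq
    have e4 : q.1.1 = q'.1.1 := by
      funext m
      have := congrFun hqq.1 m
      simp only [e3, hqq.2] at this
      linarith
    exact Prod.ext (Prod.ext e4 hqq.2) e3
  have hcard := Finset.card_le_card_of_injOn f hmaps hinj
  rw [Finset.card_product, ← Set.ncard_eq_toFinset_card _ hLPfin,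
    ← Set.ncard_eq_toFinset_card _ hPfin] at hcard
  calc _ = (((d.Pairs r K H).ncard * (Icc (-(⌊X / M⌋₊ : ℤ)) (⌊X / M⌋₊ : ℤ)).card : ℕ) : ℝ) := by
        push_cast
        ring
    _ ≤ ((d.LP (r + 9 * th) th n (d.GG K (Bf H)) H).ncard : ℝ) := by exact_mod_cast hcard

end CubicHP
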