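import Pool.Agent.Lib.MP_e426f4_ag.NLoc
import Pool.Agent.Lib.MP_e426f4_ag.CardCl
import Pool.Agent.Lib.MP_e426f4_ag.Heights
import Pool.Agent.Lib.MP_e426f4_ag.Trans
import Pool.Agent.Lib.MP_e426f4_ag.BadPoints
import Pool.Agent.Lib.MP_e426f4_ag.FirstAux

/-! Lower bound for the first moment. -/

namespace CubicHP

open Finset Filter Topology

theorem S1_lower (d : Par) (eps bet : ℝ) (w : ℕ) (hd : d.Valid eps bet w) :
    ∃ K0 : ℝ, 1 ≤ K0 ∧ ∀ K, K0 ≤ K → ∀ᶠ H : ℕ in atTop,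
      (1 - 8 * eps - 2 / w) * d.TT H * d.Xn H ≤ ((d.Pairs d.rho K H).ncard : ℝ) := by
  have he := hd.eps_pos
  have he1 := hd.eps_le
  have hbet := hd.bet_pos
  have hkap := hd.kap_pos
  have hrho := hd.rho_pos
  have hW := hd.W_pos
  have hQ := hd.Q_pos
  have hP := hd.P_pos
  have hw : 2 ≤ w := hd.w_two
  have hwr : (2 : ℝ) ≤ w := by exact_mod_cast hw
  have hWr : (0 : ℝ) < d.W := by exact_mod_cast hW
  have hQr : (0 : ℝ) < d.Q := by exact_mod_cast hQ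
  have hPr : (0 : ℝ) < d.P := by exact_mod_cast hP
  have hgam : 0 < |d.gam| := lt_of_lt_of_le hbet hd.gam_ge
  obtain ⟨n, hn⟩ := hd.hens.2.1
  have hnQ : d.Q ∣ d.W ^ n := by rw [hn]
  obtain ⟨th, hth, hth2, hth3⟩ : ∃ th : ℝ, 0 < th ∧ th ≤ d.kap * bet / 4 ∧
      th ≤ eps * d.rho / 180 :=
    ⟨min (d.kap * bet / 4) (eps * d.rho / 180), lt_min (by positivity) (by positivity),
      min_le_left _ _, min_le_right _ _⟩
  set r9 : ℝ := d.rho - 9 * th with hr9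
  have hr9a : d.rho * (1 - eps / 20) ≤ r9 := by nlinarith
  have hr9p : 0 < r9 := by nlinarith
  have hr9b : r9 ≤ d.rho := by linarith
  obtain ⟨B0, hB0⟩ := nloc d eps bet w hd th hth hth2 n hnQ 1 one_pos (Nat.coprime_one_left _)
  obtain ⟨K0, hK0, hbad⟩ := bad_points d eps bet w hd
  refine ⟨K0, hK0, fun K hK => ?_⟩
  have hK1 : 1 ≤ K := hK0.trans hK
  have hev1 : ∀ᶠ H : ℕ in atTop, (1 : ℝ) ≤ (Bf H : ℝ) / H := Bf_tendsto.eventually_ge_atTop 1
  have hev2 : ∀ᶠ H : ℕ in atTop, (d.W : ℝ) ^ n / (2 * th * eps) ≤ (H : ℝ) :=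
    tendsto_natCast_atTop_atTop.eventually_ge_atTop _
  filter_upwards [hbad K hK th hth hth2 n hnQ,
    trans_lower d eps bet w hd K hK1 d.rho th hth n hnQ,
    card_Cl d hQ r9 eps hr9p he, hev1, hev2, eventually_ge_atTop B0,
    eventually_ge_atTop 1] with H hBP hTR hCl hB1 hH2 hHB0 hH1
  have hHr : (1 : ℝ) ≤ H := by exact_mod_cast hH1
  have hH0 : (0 : ℝ) < H := by linarith
  have hBH : (H : ℝ) ≤ Bf H := by
    rw [one_le_div hH0] at hB1
    exact hB1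
  have hBH' : H ≤ Bf H := by exact_mod_cast hBH
  have hB1' : (1 : ℝ) ≤ Bf H := hHr.trans hBH
  have hB3 : (1 : ℝ) ≤ (Bf H : ℝ) ^ 3 := one_le_pow₀ hB1'
  have hBpos : (0 : ℝ) < Bf H := by linarith
  have hy : 1 ≤ eps * (2 * (th * H * (Bf H : ℝ) ^ 3 / ((d.W ^ n : ℕ) : ℝ))) := by
    push_cast
    rw [div_le_iff₀ (by positivity)] at hH2
    have h1 : (d.W : ℝ) ^ n ≤ H * (Bf H : ℝ) ^ 3 * (2 * th * eps) := by
      calc (d.W : ℝ) ^ n ≤ H * (2 * th * eps) := hH2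
        _ = H * 1 * (2 * th * eps) := by ring
        _ ≤ H * (Bf H : ℝ) ^ 3 * (2 * th * eps) := by gcongr
    have h2 : eps * (2 * (th * H * (Bf H : ℝ) ^ 3 / (d.W : ℝ) ^ n)) =
        H * (Bf H : ℝ) ^ 3 * (2 * th * eps) / (d.W : ℝ) ^ n := by ring
    rw [h2, one_le_div (by positivity)]
    exact h1
  have hlev := Lev_upper eps th hth.le (d.W ^ n) H hy
  have hlev0 := Lev_pos th (d.W ^ n) H
  have hmt := main_term_eq d th n H (by omega) hW
  have hMT : d.MT th n H = Vol d.gam d.kap th (Bf H) * d.Q / ((d.P : ℝ) ^ 4 * (d.W : ℝ) ^ n) *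
      d.Xn H := rfl
  rw [hMT] at hBP
  set T' : ℝ := Vol d.gam d.kap th (Bf H) * d.Q / ((d.P : ℝ) ^ 4 * (d.W : ℝ) ^ n) with hT'
  have hT'nn : 0 ≤ T' := by
    rw [hT', Vol]
    positivity
  have hTT0 : 0 ≤ d.TT H := by
    simp only [Par.TT]
    positivity
  have hX0 : 0 ≤ d.Xn H := by
    simp only [Par.Xn]
    positivity
  have hP0 : (0 : ℝ) ≤ ((d.Pairs d.rho K H).ncard : ℝ) := Nat.cast_nonneg _
  -- all local pairs
  have hLP : ((d.Cl r9 H).ncard : ℝ) * ((1 - eps) * T') ≤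
      ((d.LP r9 th n (d.XX (Bf H)) H).ncard : ℝ) := by
    refine le_ncard_pairs (d.Cl r9 H) (Cl_finite d _ H) (d.XX (Bf H))
      (XX_finite d (Bf H)) (fun A x => ((d.W : ℤ) ^ n) ∣ F A x ∧
        |((F A x : ℤ) : ℝ)| ≤ th * H * (Bf H : ℝ) ^ 3) _ ?_
    intro A hA
    have h1 := (hB0 (Bf H) (hHB0.trans hBH') H hH0 A
      (near_Ainf d eps bet w hd r9 H (by linarith) A hA) hA.2 (fun _ => 0)).1
    have h2 : (((1 : ℕ) : ℝ)) ^ 4 = 1 := by norm_num
    rw [h2, div_one] at h1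
    refine le_trans h1 ?_
    have h3 : {x : Fin 4 → ℤ | x ∈ d.XX (Bf H) ∧ ((d.W : ℤ) ^ n) ∣ F A x ∧
          |((F A x : ℤ) : ℝ)| ≤ th * H * (Bf H : ℝ) ^ 3 ∧ ∀ i, ((1 : ℕ) : ℤ) ∣ x i - 0} ⊆
        {x | x ∈ d.XX (Bf H) ∧ ((d.W : ℤ) ^ n) ∣ F A x ∧
        |((F A x : ℤ) : ℝ)| ≤ th * H * (Bf H : ℝ) ^ 3} := by
      intro x hx
      exact ⟨hx.1, hx.2.1, hx.2.2.1⟩
    have h4 := Set.ncard_le_ncard h3 ((XX_finite d (Bf H)).subset fun _ hx => hx.1)
    exact_mod_cast h4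
  have hsplit : ((d.LP r9 th n (d.XX (Bf H)) H).ncard : ℝ) ≤
      ((d.LP r9 th n (d.GG K (Bf H)) H).ncard : ℝ) +
      ((d.LP d.rho th n (d.XX (Bf H) \ d.GG K (Bf H)) H).ncard : ℝ) := by
    have h1 : d.LP r9 th n (d.XX (Bf H)) H ⊆ d.LP r9 th n (d.GG K (Bf H)) H ∪
        d.LP d.rho th n (d.XX (Bf H) \ d.GG K (Bf H)) H := by
      intro q hq
      by_cases hg : q.2 ∈ d.GG K (Bf H)
      · exact Or.inl ⟨hq.1, hg, hq.2.2⟩
      · refine Or.inr ⟨⟨fun m => (hq.1.1 m).trans ?_, hq.1.2⟩, ⟨hq.2.1, hg⟩, hq.2.2⟩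
        exact mul_le_mul_of_nonneg_right hr9b hH0.le
    have h2 := Set.ncard_le_ncard h1 ((LP_finite d r9 th n _ (GG_finite d K (Bf H)) H).union
      (LP_finite d d.rho th n _ ((XX_finite d (Bf H)).subset fun _ h => h.1) H))
    have h3 := Set.ncard_union_le (d.LP r9 th n (d.GG K (Bf H)) H)
      (d.LP d.rho th n (d.XX (Bf H) \ d.GG K (Bf H)) H)
    exact_mod_cast h2.trans h3
  have hX : (1 - eps) * d.Xn H ≤ (2 * r9 * H / d.Q) ^ 20 := by
    have h1 : (1 - eps / 20) ^ 20 * d.Xn H ≤ (2 * r9 * H / d.Q) ^ 20 := by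
      simp only [Par.Xn]
      rw [← mul_pow]
      refine pow_le_pow_left₀ (mul_nonneg (by linarith) (by positivity)) ?_ 20
      rw [mul_div_assoc', div_le_div_iff_of_pos_right hQr]
      nlinarith
    have h2 : 1 - eps ≤ (1 - eps / 20) ^ 20 := by
      have := one_add_mul_le_pow (a := -(eps / 20)) (by linarith) 20
      have e : 1 + -(eps / 20) = 1 - eps / 20 := by ring
      rw [e] at this
      push_cast at this
      linarith
    exact (mul_le_mul_of_nonneg_right h2 hX0).trans h1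
  push_cast at hlev
  set y : ℝ := th * H * (Bf H : ℝ) ^ 3 / (d.W : ℝ) ^ n with hydef
  have hy0 : 0 < y := by positivity
  set v : ℝ := 2 / (w : ℝ) with hv
  have hv0 : 0 ≤ v := by positivity
  -- lower bound for the local pairs over good points
  have h5 : (1 - 4 * eps - v) * (T' * d.Xn H) ≤
      ((d.LP r9 th n (d.GG K (Bf H)) H).ncard : ℝ) := by
    have h6 : (1 - eps) * ((1 - eps) * d.Xn H) * ((1 - eps) * T') ≤
        ((d.Cl r9 H).ncard : ℝ) * ((1 - eps) * T') := by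
      refine mul_le_mul_of_nonneg_right ?_ (mul_nonneg (by linarith) hT'nn)
      exact (mul_le_mul_of_nonneg_left hX (by linarith)).trans hCl.1
    have h7 : (1 - 4 * eps - v) * (T' * d.Xn H) ≤
        (1 - eps) * ((1 - eps) * d.Xn H) * ((1 - eps) * T') - (eps + v) * (T' * d.Xn H) := by
      have h8 : 0 ≤ T' * d.Xn H := mul_nonneg hT'nn hX0
      have h9 : 1 - 4 * eps - v ≤ (1 - eps) * (1 - eps) * (1 - eps) - (eps + v) := by
        nlinarith [mul_pos he he, mul_nonneg (mul_nonneg he.le he.le) (by linarith : (0 : ℝ) ≤ 1 - eps)]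
      calc (1 - 4 * eps - v) * (T' * d.Xn H) ≤
          ((1 - eps) * (1 - eps) * (1 - eps) - (eps + v)) * (T' * d.Xn H) :=
            mul_le_mul_of_nonneg_right h9 h8
        _ = _ := by ring
    linarith
  by_cases hneg : 1 - 8 * eps - v ≤ 0
  · calc (1 - 8 * eps - v) * d.TT H * d.Xn H = (1 - 8 * eps - v) * (d.TT H * d.Xn H) := by ring
      _ ≤ 0 := mul_nonpos_of_nonpos_of_nonneg hneg (mul_nonneg hTT0 hX0)
      _ ≤ _ := hP0
  · have hpos : 0 < 1 - 8 * eps - v := not_le.1 hneg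
    refine le_of_mul_le_mul_left ?_ hlev0
    calc Lev th (d.W ^ n) H * ((1 - 8 * eps - v) * d.TT H * d.Xn H) ≤
        ((1 + eps) * (2 * y)) * ((1 - 8 * eps - v) * d.TT H * d.Xn H) :=
          mul_le_mul_of_nonneg_right hlev
            (mul_nonneg (mul_nonneg hpos.le hTT0) hX0)
      _ = ((1 + eps) * (1 - 8 * eps - v)) * (2 * y * d.TT H * d.Xn H) := by ring
      _ ≤ (1 - 4 * eps - v) * (2 * y * d.TT H * d.Xn H) := by
          refine mul_le_mul_of_nonneg_right ?_ (by positivity)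
          nlinarith [mul_nonneg he.le hv0, mul_pos he he]
      _ = (1 - 4 * eps - v) * (T' * d.Xn H) := by rw [hmt]
      _ ≤ _ := h5
      _ ≤ _ := hTR

end CubicHP
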