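import Pool.Agent.Lib.MP_e426f4_ag.NLoc
import Pool.Agent.Lib.MP_e426f4_ag.CardCl
import Pool.Agent.Lib.MP_e426f4_ag.Heights
import Pool.Agent.Lib.MP_e426f4_ag.Trans
import Pool.Agent.Lib.MP_e426f4_ag.FirstAux

/-! Upper bound for the first moment. -/

namespace CubicHP

open Finset Filter Topology

private theorem s1b_num (e : ℝ) (he : 0 < e) (he1 : e ≤ 1 / 10) :
    (1 + e) * (1 + e / 20) ^ 20 * (1 + e) ≤ (1 - e) * (1 + 8 * e) := by
  have h1 : (1 + e / 20) ^ 20 ≤ 1 + e + e ^ 2 := by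
    have h2 : 1 + e / 20 ≤ Real.exp (e / 20) := by
      have := Real.add_one_le_exp (e / 20)
      linarith
    have h3 : (1 + e / 20) ^ 20 ≤ Real.exp (e / 20) ^ 20 := pow_le_pow_left₀ (by positivity) h2 20
    rw [← Real.exp_nat_mul] at h3
    have h4 : ((20 : ℕ) : ℝ) * (e / 20) = e := by push_cast; ring
    rw [h4] at h3
    have h5 := Real.abs_exp_sub_one_sub_id_le (x := e) (by rw [abs_of_pos he]; linarith)
    rw [abs_le] at h5
    linarith
  have h2 : (1 + e) * (1 + e) ≤ 1 + 21 / 10 * e := by nlinarith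
  have h3 : 1 + e + e ^ 2 ≤ 1 + 11 / 10 * e := by nlinarith
  calc (1 + e) * (1 + e / 20) ^ 20 * (1 + e) = (1 + e) * (1 + e) * (1 + e / 20) ^ 20 := by ring
    _ ≤ (1 + 21 / 10 * e) * (1 + 11 / 10 * e) :=
        mul_le_mul h2 (h1.trans h3) (by positivity) (by positivity)
    _ ≤ (1 - e) * (1 + 8 * e) := by nlinarith

theorem S1_upper (d : Par) (eps bet : ℝ) (w : ℕ) (hd : d.Valid eps bet w) (K : ℝ) (hK : 1 ≤ K)
    (r : ℝ) (hr : d.rho ≤ r) (hr2 : r ≤ 3 / 2 * d.rho) :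
    ∀ᶠ H : ℕ in atTop,
      ((d.Pairs r K H).ncard : ℝ) ≤ (1 + 8 * eps) * d.TT H * (2 * r * H / d.Q) ^ 20 := by
  have he := hd.eps_pos
  have he1 := hd.eps_le
  have hbet := hd.bet_pos
  have hkap := hd.kap_pos
  have hrho := hd.rho_pos
  have hW := hd.W_pos
  have hQ := hd.Q_pos
  have hP := hd.P_pos
  have hWr : (0 : ℝ) < d.W := by exact_mod_cast hW
  have hQr : (0 : ℝ) < d.Q := by exact_mod_cast hQ
  have hPr : (0 : ℝ) < d.P := by exact_mod_cast hP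
  have hgam : 0 < |d.gam| := lt_of_lt_of_le hbet hd.gam_ge
  have hr0 : 0 < r := hrho.trans_le hr
  obtain ⟨n, hn⟩ := hd.hens.2.1
  have hnQ : d.Q ∣ d.W ^ n := by rw [hn]
  obtain ⟨th, hth, hth2, hth3⟩ : ∃ th : ℝ, 0 < th ∧ th ≤ d.kap * bet / 4 ∧
      th ≤ eps * d.rho / 180 :=
    ⟨min (d.kap * bet / 4) (eps * d.rho / 180), lt_min (by positivity) (by positivity),
      min_le_left _ _, min_le_right _ _⟩
  have hr9 : r + 9 * th ≤ r * (1 + eps / 20) := by nlinarith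
  have hr9b : r + 9 * th ≤ 2 * d.rho := by nlinarith
  obtain ⟨B0, hB0⟩ := nloc d eps bet w hd th hth hth2 n hnQ 1 one_pos (Nat.coprime_one_left _)
  have hev1 : ∀ᶠ H : ℕ in atTop, (1 : ℝ) ≤ (Bf H : ℝ) / H := Bf_tendsto.eventually_ge_atTop 1
  have hev2 : ∀ᶠ H : ℕ in atTop, (d.W : ℝ) ^ n / (2 * th * eps) ≤ (H : ℝ) :=
    tendsto_natCast_atTop_atTop.eventually_ge_atTop _
  filter_upwards [trans_upper d eps bet w hd K hK r th hth n hnQ,
    card_Cl d hQ (r + 9 * th) eps (by positivity) he, hev1, hev2, eventually_ge_atTop B0,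
    eventually_ge_atTop 1] with H hTR hCl hB1 hH2 hHB0 hH1
  have hHr : (1 : ℝ) ≤ H := by exact_mod_cast hH1
  have hH0 : (0 : ℝ) < H := by linarith
  have hBH : (H : ℝ) ≤ Bf H := by
    rw [one_le_div hH0] at hB1
    exact hB1
  have hBH' : H ≤ Bf H := by exact_mod_cast hBH
  have hB1' : (1 : ℝ) ≤ Bf H := hHr.trans hBH
  have hB3 : (1 : ℝ) ≤ (Bf H : ℝ) ^ 3 := one_le_pow₀ hB1'
  have hBpos : (0 : ℝ) < Bf H := by linarith
  have hy : 1 ≤ eps * (2 * (th * H * (Bf H : ℝ) ^ 3 / ((d.W ^ n : ℕ) : ℝ))) := by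
    push_cast
    rw [div_le_iff₀ (by positivity)] at hH2
    have h1 : (d.W : ℝ) ^ n ≤ H * (Bf H : ℝ) ^ 3 * (2 * th * eps) := by
      calc (d.W : ℝ) ^ n ≤ H * (2 * th * eps) := hH2
        _ = H * 1 * (2 * th * eps) := by ring
        _ ≤ H * (Bf H : ℝ) ^ 3 * (2 * th * eps) := by gcongr
    have h2 : eps * (2 * (th * H * (Bf H : ℝ) ^ 3 / (d.W : ℝ) ^ n)) =
        H * (Bf H : ℝ) ^ 3 * (2 * th * eps) / (d.W : ℝ) ^ n := by ring
    rw [h2, one_le_div (by positivity)]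
    exact h1
  have hlev := Lev_lower eps th (d.W ^ n) H hy
  have hmt := main_term_eq d th n H (by omega) hW
  set T' : ℝ := Vol d.gam d.kap th (Bf H) * d.Q / ((d.P : ℝ) ^ 4 * (d.W : ℝ) ^ n) with hT'
  have hT'nn : 0 ≤ T' := by
    rw [hT', Vol]
    positivity
  have hTT0 : 0 ≤ d.TT H := by
    simp only [Par.TT]
    positivity
  -- number of local pairs
  have hLP : ((d.LP (r + 9 * th) th n (d.GG K (Bf H)) H).ncard : ℝ) ≤
      ((d.Cl (r + 9 * th) H).ncard : ℝ) * ((1 + eps) * T') := by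
    refine ncard_pairs_le (d.Cl (r + 9 * th) H) (Cl_finite d _ H) (d.GG K (Bf H))
      (GG_finite d K (Bf H)) (fun A x => ((d.W : ℤ) ^ n) ∣ F A x ∧
        |((F A x : ℤ) : ℝ)| ≤ th * H * (Bf H : ℝ) ^ 3) _ ?_
    intro A hA
    have h1 := (hB0 (Bf H) (hHB0.trans hBH') H hH0 A
      (near_Ainf d eps bet w hd (r + 9 * th) H hr9b A hA) hA.2 (fun _ => 0)).2
    have h2 : (((1 : ℕ) : ℝ)) ^ 4 = 1 := by norm_num
    rw [h2, div_one] at h1
    refine le_trans ?_ h1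
    have h3 : {x | x ∈ d.GG K (Bf H) ∧ ((d.W : ℤ) ^ n) ∣ F A x ∧
        |((F A x : ℤ) : ℝ)| ≤ th * H * (Bf H : ℝ) ^ 3} ⊆
        {x : Fin 4 → ℤ | x ∈ d.XX (Bf H) ∧ ((d.W : ℤ) ^ n) ∣ F A x ∧
          |((F A x : ℤ) : ℝ)| ≤ th * H * (Bf H : ℝ) ^ 3 ∧ ∀ i, ((1 : ℕ) : ℤ) ∣ x i - 0} := by
      intro x hx
      exact ⟨hx.1.1, hx.2.1, hx.2.2, fun i => by simp⟩
    have h4 := Set.ncard_le_ncard h3 ((XX_finite d (Bf H)).subset fun _ hx => hx.1)
    exact_mod_cast h4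
  have hX : (2 * (r + 9 * th) * H / d.Q) ^ 20 ≤ (1 + eps / 20) ^ 20 * (2 * r * H / d.Q) ^ 20 := by
    rw [← mul_pow]
    refine pow_le_pow_left₀ (by positivity) ?_ 20
    rw [mul_div_assoc', div_le_div_iff_of_pos_right hQr]
    nlinarith
  set X : ℝ := (2 * r * H / d.Q) ^ 20 with hXdef
  have hX0 : 0 ≤ X := by positivity
  have hP0 : (0 : ℝ) ≤ ((d.Pairs r K H).ncard : ℝ) := Nat.cast_nonneg _
  push_cast at hlev
  set y : ℝ := th * H * (Bf H : ℝ) ^ 3 / (d.W : ℝ) ^ n with hydef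
  have hy0 : 0 < y := by positivity
  have h5 : (1 - eps) * (2 * y) * ((d.Pairs r K H).ncard : ℝ) ≤
      (1 - eps) * (2 * y) * ((1 + 8 * eps) * d.TT H * X) := by
    calc (1 - eps) * (2 * y) * ((d.Pairs r K H).ncard : ℝ) ≤
        Lev th (d.W ^ n) H * ((d.Pairs r K H).ncard : ℝ) := mul_le_mul_of_nonneg_right hlev hP0
      _ ≤ _ := hTR
      _ ≤ _ := hLP
      _ ≤ ((1 + eps) * (2 * (r + 9 * th) * H / d.Q) ^ 20) * ((1 + eps) * T') :=
          mul_le_mul_of_nonneg_right hCl.2 (by positivity)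
      _ ≤ ((1 + eps) * ((1 + eps / 20) ^ 20 * X)) * ((1 + eps) * T') := by gcongr
      _ = (1 + eps) * (1 + eps / 20) ^ 20 * (1 + eps) * (2 * y * d.TT H * X) := by
          rw [hmt]
          ring
      _ ≤ (1 - eps) * (1 + 8 * eps) * (2 * y * d.TT H * X) :=
          mul_le_mul_of_nonneg_right (s1b_num eps he he1) (by positivity)
      _ = _ := by ring
  have h6 : 0 < (1 - eps) * (2 * y) := mul_pos (by linarith) (by positivity)
  exact le_of_mul_le_mul_left h5 h6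

end CubicHP
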