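import Pool.Agent.Lib.MP_e426f4_ag.ShortTwo

/-! Module CP: crude count of the forms vanishing at a pair of points. -/

namespace CubicHP

open Finset

/-- counting by translation along the levels `s ∈ m ℤ`, `|s| ≤ L` -/
theorem levels_count (S T : Set (Idx → ℤ)) (hT : T.Finite) (z : Fin 4 → ℤ) (m : ℕ)
    (hm : 0 < m) (L : ℝ) (hL : 0 ≤ L) (hS : ∀ A ∈ S, F A z = 0)
    (h : ∀ s : ℤ, (m : ℤ) ∣ s → |(s : ℝ)| ≤ L →
      ∃ t : Idx → ℤ, F t z = s ∧ ∀ A ∈ S, (fun i => A i + t i) ∈ T) :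
    (S.ncard : ℝ) * (L / m) ≤ T.ncard := by
  have hm' : (0 : ℝ) < m := by exact_mod_cast hm
  set K : ℕ := ⌊L / m⌋₊ with hK
  have hK1 : (K : ℝ) ≤ L / m := Nat.floor_le (by positivity)
  have hK2 : L / m < K + 1 := Nat.lt_floor_add_one _
  have hlev : ∀ k : ℤ, ∃ t : Idx → ℤ, k ∈ Set.Icc (-(K : ℤ)) K →
      (F t z = m * k ∧ ∀ A ∈ S, (fun i => A i + t i) ∈ T) := by
    intro k
    by_cases hk : k ∈ Set.Icc (-(K : ℤ)) K
    · obtain ⟨t, h1, h2⟩ := h (m * k) (dvd_mul_right _ _) (by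
        have h3 : |(k : ℝ)| ≤ K := by
          rw [abs_le]
          exact ⟨by exact_mod_cast hk.1, by exact_mod_cast hk.2⟩
        push_cast
        rw [abs_mul, abs_of_pos hm']
        calc (m : ℝ) * |(k : ℝ)| ≤ m * (L / m) := by gcongr; linarith
          _ = L := by field_simp)
      exact ⟨t, fun _ => ⟨h1, h2⟩⟩
    · exact ⟨0, fun h => absurd h hk⟩
  choose t ht using hlev
  have hle : (S ×ˢ Set.Icc (-(K : ℤ)) K).ncard ≤ T.ncard := by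
    refine Set.ncard_le_ncard_of_injOn (fun p i => p.1 i + t p.2 i) ?_ ?_ hT
    · rintro ⟨A, k⟩ ⟨hA, hk⟩
      exact (ht k hk).2 A hA
    · rintro ⟨A, k⟩ ⟨hA, hk⟩ ⟨A', k'⟩ ⟨hA', hk'⟩ heq
      simp only at heq hA hk hA' hk'
      have e1 : F (fun i => A i + t k i) z = m * k := by
        rw [F_add, hS A hA, (ht k hk).1, zero_add]
      have e2 : F (fun i => A' i + t k' i) z = m * k' := by
        rw [F_add, hS A' hA', (ht k' hk').1, zero_add]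
      have e3 : (m : ℤ) * k = m * k' := by
        rw [← e1, ← e2, heq]
      have e4 : k = k' := mul_left_cancel₀ (by exact_mod_cast hm.ne') e3
      subst e4
      congr 1
      funext i
      have := congrFun heq i
      simpa using this
  have hcard : (Set.Icc (-(K : ℤ)) K).ncard = 2 * K + 1 := by
    rw [← Finset.coe_Icc, Set.ncard_coe_finset, Int.card_Icc]
    omega
  rw [Set.ncard_prod, hcard] at hle
  have hle' : (S.ncard : ℝ) * (2 * K + 1) ≤ T.ncard := by exact_mod_cast hle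
  refine le_trans ?_ hle'
  gcongr
  have : (0 : ℝ) ≤ K := Nat.cast_nonneg _
  linarith

theorem bdd_finite (H : ℝ) (p : (Idx → ℤ) → Prop) :
    {A : Idx → ℤ | (∀ m, |(A m : ℝ)| ≤ H) ∧ p A}.Finite :=
  finite_of_abs_le _ H fun _ hA m => hA.1 m

theorem card_bdd (H : ℝ) (hH : 1 ≤ H) :
    ({A : Idx → ℤ | ∀ m, |(A m : ℝ)| ≤ H}.ncard : ℝ) ≤ (3 * H) ^ 20 := by
  have h1 : {A : Idx → ℤ | ∀ m, |(A m : ℝ)| ≤ H} ⊆ ((box ⌊H⌋₊ : Finset (Idx → ℤ)) : Set _) := by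
    intro A hA
    rw [Finset.mem_coe, mem_box]
    intro m
    have h2 : |(A m : ℝ)| ≤ H := hA m
    have h3 : ((A m).natAbs : ℝ) ≤ H := by
      rw [Nat.cast_natAbs, Int.cast_abs]
      exact h2
    have h4 : (A m).natAbs ≤ ⌊H⌋₊ := Nat.le_floor h3
    rw [Int.abs_eq_natAbs]
    exact_mod_cast h4
  have h2 : {A : Idx → ℤ | ∀ m, |(A m : ℝ)| ≤ H}.ncard ≤ (box ⌊H⌋₊).card := by
    rw [← Set.ncard_coe_finset]
    exact Set.ncard_le_ncard h1 (Finset.finite_toSet _)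
  rw [card_box] at h2
  calc ({A : Idx → ℤ | ∀ m, |(A m : ℝ)| ≤ H}.ncard : ℝ) ≤ (((2 * ⌊H⌋₊ + 1) ^ 20 : ℕ) : ℝ) := by
        exact_mod_cast h2
    _ = (2 * (⌊H⌋₊ : ℝ) + 1) ^ 20 := by push_cast; ring
    _ ≤ (3 * H) ^ 20 := by
        have h5 := Nat.floor_le (show 0 ≤ H by linarith)
        have h6 : (0 : ℝ) ≤ (⌊H⌋₊ : ℝ) := Nat.cast_nonneg _
        exact pow_le_pow_left₀ (by linarith) (by linarith) 20

theorem crude_pair (B : ℕ) (hB : 1 ≤ B) (x y : Fin 4 → ℤ) (hx : Prim x) (hy : Prim y) (mu : ℝ)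
    (hgx : Ortho mu x) (hgy : Ortho mu y) (i0 : Fin 4)
    (hi0 : (B : ℝ) / 2 ≤ |(x i0 : ℝ)|) (hi0' : (B : ℝ) / 2 ≤ |(y i0 : ℝ)|)
    (hx2 : ∀ i, |(x i : ℝ)| ≤ 2 * B) (hy2 : ∀ i, |(y i : ℝ)| ≤ 2 * B)
    (hd : 0 < dl x y) (H : ℝ) (hH : 1 ≤ H) (h1 : 1200 * mu ^ 2 ≤ H) (h2 : 400 * mu ≤ H) :
    (Set.ncard {A : Idx → ℤ | (∀ m, |(A m : ℝ)| ≤ H) ∧ F A x = 0 ∧ F A y = 0} : ℝ) ≤
      10 ^ 24 * H ^ 18 * mg x y / ((B : ℝ) ^ 4 * dl x y) := by
  have hBpos : (0 : ℝ) < B := by exact_mod_cast hB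
  have hdpos : (0 : ℝ) < dl x y := by exact_mod_cast hd
  have hmg := mg_pos_of_dl_pos x y hd
  have hmpos : (0 : ℝ) < mg x y := by exact_mod_cast hmg
  have hHpos : 0 < H := by linarith
  have hstep1 := levels_count {A : Idx → ℤ | (∀ m, |(A m : ℝ)| ≤ H) ∧ F A x = 0 ∧ F A y = 0}
    {A : Idx → ℤ | (∀ m, |(A m : ℝ)| ≤ 2 * H) ∧ F A x = 0} (bdd_finite _ _) y (mg x y) hmg
    (H * B * dl x y / 2048) (by positivity) (fun A hA => hA.2.2) (by
      intro s hs hsL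
      obtain ⟨t, htx, hty, htm⟩ := short_pair B hB x y hx hy mu hgx hgy i0 hi0 hi0' hx2 hy2 hd s hs
      refine ⟨t, hty, fun A hA => ⟨fun m => ?_, ?_⟩⟩
      · have h3 : 1024 * |(s : ℝ)| / (B * dl x y) ≤ H / 2 := by
          rw [div_le_div_iff₀ (by positivity) (by norm_num)]
          linarith
        have h4 := htm m
        have h5 := hA.1 m
        push_cast
        refine (abs_add_le _ _).trans ?_
        linarith
      · rw [F_add, hA.2.1, htx, add_zero])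
  have hstep2 := levels_count {A : Idx → ℤ | (∀ m, |(A m : ℝ)| ≤ 2 * H) ∧ F A x = 0}
    {A : Idx → ℤ | ∀ m, |(A m : ℝ)| ≤ 3 * H}
    (finite_of_abs_le _ (3 * H) fun _ hA m => hA m) x 1 one_pos
    (H * (B : ℝ) ^ 3 / 16) (by positivity) (fun A hA => hA.2) (by
      intro s _ hsL
      obtain ⟨t, htx, htm⟩ := short_single B hB x hx mu hgx i0 hi0 s
      refine ⟨t, htx, fun A hA m => ?_⟩
      have h3 : 8 * |(s : ℝ)| / (B : ℝ) ^ 3 ≤ H / 2 := by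
        rw [div_le_div_iff₀ (by positivity) (by norm_num)]
        linarith
      have h4 := htm m
      have h5 := hA.1 m
      push_cast
      refine (abs_add_le _ _).trans ?_
      linarith)
  have hbox := card_bdd (3 * H) (by linarith)
  set N0 : ℝ := (Set.ncard {A : Idx → ℤ | (∀ m, |(A m : ℝ)| ≤ H) ∧ F A x = 0 ∧ F A y = 0} : ℝ)
  set N1 : ℝ := (Set.ncard {A : Idx → ℤ | (∀ m, |(A m : ℝ)| ≤ 2 * H) ∧ F A x = 0} : ℝ)
  set N2 : ℝ := (Set.ncard {A : Idx → ℤ | ∀ m, |(A m : ℝ)| ≤ 3 * H} : ℝ)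
  rw [Nat.cast_one, div_one] at hstep2
  have h3 : N0 * (H * B * dl x y / 2048 / mg x y) * (H * (B : ℝ) ^ 3 / 16) ≤ (9 * H) ^ 20 := by
    calc N0 * (H * B * dl x y / 2048 / mg x y) * (H * (B : ℝ) ^ 3 / 16)
        ≤ N1 * (H * (B : ℝ) ^ 3 / 16) := by gcongr
      _ ≤ N2 := hstep2
      _ ≤ (3 * (3 * H)) ^ 20 := hbox
      _ = (9 * H) ^ 20 := by ring
  rw [le_div_iff₀ (by positivity)]
  have h4 : N0 * (H * B * dl x y / 2048 / mg x y) * (H * (B : ℝ) ^ 3 / 16) =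
      N0 * ((B : ℝ) ^ 4 * dl x y) * (H ^ 2 / (32768 * mg x y)) := by
    field_simp
    ring
  rw [h4, ← le_div_iff₀ (by positivity)] at h3
  refine h3.trans ?_
  rw [div_le_iff₀ (by positivity)]
  have h5 : 10 ^ 24 * H ^ 18 * (mg x y : ℝ) * (H ^ 2 / (32768 * mg x y)) =
      10 ^ 24 / 32768 * H ^ 20 := by
    field_simp
  rw [h5, mul_pow]
  gcongr
  norm_num

end CubicHP
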