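import Pool.Agent.Lib.MP_e426f4_ag.Defs

/-! Sums over integer vectors with three coordinates (module CHP-SB1). -/

namespace CubicHP

open Finset Filter Topology

private noncomputable def sncube (k : ℕ) : Finset (Fin 3 → ℤ) :=
  Fintype.piFinset fun _ : Fin 3 => Finset.Icc (-(k : ℤ)) k

private theorem mem_sncube {k : ℕ} {z : Fin 3 → ℤ} : z ∈ sncube k ↔ n3 z ≤ k := by
  unfold sncube n3
  rw [Fintype.mem_piFinset, Finset.sup_le_iff]
  constructor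
  · intro h i _
    have := Finset.mem_Icc.1 (h i)
    omega
  · intro h i
    have := h i (Finset.mem_univ i)
    rw [Finset.mem_Icc]
    omega

private theorem card_sncube (k : ℕ) : (sncube k).card = (2 * k + 1) ^ 3 := by
  unfold sncube
  rw [Fintype.card_piFinset_const, Int.card_Icc]
  congr 1
  omega

private theorem sn_n3_pos {z : Fin 3 → ℤ} (hz : z ≠ 0) : 1 ≤ n3 z := by
  by_contra h
  have h0 : n3 z ≤ 0 := by omega
  unfold n3 at h0
  rw [Finset.sup_le_iff] at h0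
  apply hz
  funext i
  have := h0 i (Finset.mem_univ i)
  have h2 : (z i).natAbs = 0 := by omega
  simpa using h2

private theorem sn_fibre (k : ℕ) (hk : 1 ≤ k) (S : Finset (Fin 3 → ℤ)) :
    (((S.filter fun z => n3 z = k).card : ℕ) : ℝ) ≤ 26 * (k : ℝ) ^ 2 := by
  obtain ⟨j, rfl⟩ : ∃ j, k = j + 1 := ⟨k - 1, by omega⟩
  have h1 : (S.filter fun z => n3 z = j + 1) ⊆ sncube (j + 1) \ sncube j := by
    intro z hz
    rw [Finset.mem_filter] at hz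
    rw [Finset.mem_sdiff, mem_sncube, mem_sncube]
    omega
  have h2 : sncube j ⊆ sncube (j + 1) := by
    intro z hz
    rw [mem_sncube] at hz ⊢
    omega
  have h3 := Finset.card_le_card h1
  rw [Finset.card_sdiff_of_subset h2, card_sncube, card_sncube] at h3
  have h4 : (2 * (j + 1) + 1) ^ 3 - (2 * j + 1) ^ 3 = 24 * (j + 1) ^ 2 + 2 := by
    have : (2 * (j + 1) + 1) ^ 3 = (2 * j + 1) ^ 3 + (24 * (j + 1) ^ 2 + 2) := by ring
    omega
  rw [h4] at h3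
  have h5 : 24 * (j + 1) ^ 2 + 2 ≤ 26 * (j + 1) ^ 2 := by nlinarith
  exact_mod_cast h3.trans h5

/-- SB1 (SumNorm.lean) -/
theorem sum_inv_n3 (Y : ℝ) (S : Finset (Fin 3 → ℤ)) (hS : ∀ z ∈ S, z ≠ 0 ∧ (n3 z : ℝ) ≤ Y) :
    ∑ z ∈ S, (1 : ℝ) / n3 z ≤ 26 * Y ^ 2 := by
  rcases S.eq_empty_or_nonempty with h0 | ⟨z0, hz0⟩
  · rw [h0, Finset.sum_empty]
    positivity
  · have hY1 : 1 ≤ Y := by
      have h1 := (hS z0 hz0).2
      have h2 : (1 : ℝ) ≤ n3 z0 := by exact_mod_cast sn_n3_pos (hS z0 hz0).1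
      linarith
    have hY0 : 0 ≤ Y := by linarith
    have hmaps : ∀ z ∈ S, n3 z ∈ Finset.Icc 1 ⌊Y⌋₊ := by
      intro z hz
      rw [Finset.mem_Icc]
      exact ⟨sn_n3_pos (hS z hz).1, Nat.le_floor (hS z hz).2⟩
    rw [← Finset.sum_fiberwise_of_maps_to hmaps]
    have h1 : ∀ k ∈ Finset.Icc 1 ⌊Y⌋₊, ∑ z ∈ S with n3 z = k, (1 : ℝ) / n3 z ≤ 26 * Y := by
      intro k hk
      rw [Finset.mem_Icc] at hk
      have hk0 : (0 : ℝ) < k := by exact_mod_cast hk.1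
      have hkY : (k : ℝ) ≤ Y := (Nat.le_floor_iff hY0).1 hk.2
      have h2 : ∑ z ∈ S with n3 z = k, (1 : ℝ) / n3 z = ∑ z ∈ S with n3 z = k, (1 : ℝ) / k := by
        refine Finset.sum_congr rfl fun z hz => ?_
        rw [(Finset.mem_filter.1 hz).2]
      rw [h2, Finset.sum_const, nsmul_eq_mul]
      calc _ ≤ 26 * (k : ℝ) ^ 2 * (1 / k) :=
            mul_le_mul_of_nonneg_right (sn_fibre k hk.1 S) (by positivity)
        _ = 26 * k := by field_simp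
        _ ≤ 26 * Y := by linarith
    refine (Finset.sum_le_card_nsmul _ _ _ h1).trans ?_
    rw [Nat.card_Icc, nsmul_eq_mul]
    have h3 : ((⌊Y⌋₊ + 1 - 1 : ℕ) : ℝ) ≤ Y := by
      rw [Nat.add_sub_cancel]
      exact Nat.floor_le hY0
    nlinarith

private theorem sn_group (Y : ℝ) (T : Finset ℕ) (hT : ∀ m ∈ T, 1 ≤ m)
    (S : Finset (ℕ × (Fin 3 → ℤ)))
    (hS : ∀ p ∈ S, p.1 ∈ T ∧ p.2 ≠ 0 ∧ (p.1 : ℝ) * n3 p.2 ≤ Y) :
    ∑ p ∈ S, (1 : ℝ) / n3 p.2 ≤ 26 * Y ^ 2 * ∑ m ∈ T, ((m : ℝ) ^ 2)⁻¹ := by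
  have hmaps : ∀ p ∈ S, p.1 ∈ T := fun p hp => (hS p hp).1
  rw [← Finset.sum_fiberwise_of_maps_to hmaps, Finset.mul_sum]
  refine Finset.sum_le_sum fun m hm => ?_
  have hm0 : (0 : ℝ) < m := by exact_mod_cast hT m hm
  have hinj : Set.InjOn (fun p : ℕ × (Fin 3 → ℤ) => p.2) ↑(S.filter fun p => p.1 = m) := by
    intro p hp q hq hpq
    have h1 := (Finset.mem_filter.1 hp).2
    have h2 := (Finset.mem_filter.1 hq).2
    exact Prod.ext (h1.trans h2.symm) hpq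
  have h3 : ∑ p ∈ S with p.1 = m, (1 : ℝ) / n3 p.2 =
      ∑ z ∈ (S.filter fun p => p.1 = m).image (fun p => p.2), (1 : ℝ) / n3 z := by
    rw [Finset.sum_image hinj]
  rw [h3]
  refine (sum_inv_n3 (Y / m) _ ?_).trans (le_of_eq ?_)
  · intro z hz
    rw [Finset.mem_image] at hz
    obtain ⟨p, hp, rfl⟩ := hz
    rw [Finset.mem_filter] at hp
    have h4 := hS p hp.1
    refine ⟨h4.2.1, ?_⟩
    rw [le_div_iff₀ hm0, mul_comm, ← hp.2]
    exact h4.2.2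
  · rw [div_pow]
    ring

/-- SB1 (SumNorm.lean) -/
theorem sum_zm_large (G : ℕ) (hG : 1 ≤ G) (Y : ℝ) (S : Finset (ℕ × (Fin 3 → ℤ)))
    (hS : ∀ p ∈ S, G < p.1 ∧ p.2 ≠ 0 ∧ (p.1 : ℝ) * n3 p.2 ≤ Y) :
    ∑ p ∈ S, (1 : ℝ) / n3 p.2 ≤ 26 * Y ^ 2 / G := by
  rcases S.eq_empty_or_nonempty with h0 | ⟨p0, hp0⟩
  · rw [h0, Finset.sum_empty]
    positivity
  · have hY : 0 ≤ Y := le_trans (by positivity) (hS p0 hp0).2.2
    have hG0 : (0 : ℝ) < G := by exact_mod_cast hG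
    set N : ℕ := max G ⌊Y⌋₊ with hN
    have h1 := sn_group Y (Finset.Ioc G N) (fun m hm => by rw [Finset.mem_Ioc] at hm; omega) S
      (fun p hp => by
        have h2 := hS p hp
        have h3 : (1 : ℝ) ≤ n3 p.2 := by exact_mod_cast sn_n3_pos h2.2.1
        have h4 : (p.1 : ℝ) ≤ Y := by
          have h5 : (0 : ℝ) ≤ p.1 := Nat.cast_nonneg _
          have h6 := h2.2.2
          nlinarith
        refine ⟨?_, h2.2.1, h2.2.2⟩
        rw [Finset.mem_Ioc]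
        exact ⟨h2.1, (Nat.le_floor h4).trans (le_max_right _ _)⟩)
    refine h1.trans ?_
    have h7 : ∑ m ∈ Finset.Ioc G N, ((m : ℝ) ^ 2)⁻¹ ≤ (G : ℝ)⁻¹ := by
      refine (sum_Ioc_inv_sq_le_sub (by omega) (le_max_left _ _)).trans ?_
      have : (0 : ℝ) ≤ (N : ℝ)⁻¹ := by positivity
      linarith
    rw [div_eq_mul_inv]
    exact mul_le_mul_of_nonneg_left h7 (by positivity)

/-- SB1 (SumNorm.lean) -/
theorem sum_zm_all (Y : ℝ) (S : Finset (ℕ × (Fin 3 → ℤ)))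
    (hS : ∀ p ∈ S, 1 ≤ p.1 ∧ p.2 ≠ 0 ∧ (p.1 : ℝ) * n3 p.2 ≤ Y) :
    ∑ p ∈ S, (1 : ℝ) / n3 p.2 ≤ 52 * Y ^ 2 := by
  rcases S.eq_empty_or_nonempty with h0 | ⟨p0, hp0⟩
  · rw [h0, Finset.sum_empty]
    positivity
  · have hY : 0 ≤ Y := le_trans (by positivity) (hS p0 hp0).2.2
    set N : ℕ := max 1 ⌊Y⌋₊ with hN
    have hN1 : 1 ≤ N := le_max_left _ _
    have h1 := sn_group Y (Finset.Icc 1 N) (fun m hm => by rw [Finset.mem_Icc] at hm; omega) S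
      (fun p hp => by
        have h2 := hS p hp
        have h3 : (1 : ℝ) ≤ n3 p.2 := by exact_mod_cast sn_n3_pos h2.2.1
        have h4 : (p.1 : ℝ) ≤ Y := by
          have h5 : (0 : ℝ) ≤ p.1 := Nat.cast_nonneg _
          have h6 := h2.2.2
          nlinarith
        refine ⟨?_, h2.2.1, h2.2.2⟩
        rw [Finset.mem_Icc]
        exact ⟨h2.1, (Nat.le_floor h4).trans (le_max_right _ _)⟩)
    refine h1.trans ?_
    have h7 : ∑ m ∈ Finset.Icc 1 N, ((m : ℝ) ^ 2)⁻¹ ≤ 2 := by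
      have h8 : Finset.Icc 1 N = insert 1 (Finset.Ioc 1 N) := by
        rw [Finset.Icc_eq_cons_Ioc hN1, Finset.cons_eq_insert]
      rw [h8, Finset.sum_insert (by simp)]
      have h9 : ∑ m ∈ Finset.Ioc 1 N, ((m : ℝ) ^ 2)⁻¹ ≤ 1 := by
        refine (sum_Ioc_inv_sq_le_sub (by norm_num) hN1).trans ?_
        have : (0 : ℝ) ≤ (N : ℝ)⁻¹ := by positivity
        norm_num
      norm_num
      linarith
    nlinarith [sq_nonneg Y]

end CubicHP
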