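import Pool.Agent.Lib.MP_e426f4_ag.Minors
import Pool.Agent.Lib.MP_e426f4_ag.SumNorm

/-! The sum over the second point of a bad pair. -/

namespace CubicHP

open Finset

/-- Two vectors orthogonal to three independent vectors of `ℝ^4` are proportional. -/
theorem SB2_orth_prop (l : Fin 3 → Fin 4 → ℝ) (hl : LinearIndependent ℝ l) (x y : Fin 4 → ℝ)
    (hx : x ≠ 0) (hlx : ∀ k, ∑ i, l k i * x i = 0) (hly : ∀ k, ∑ i, l k i * y i = 0) :
    ∃ c : ℝ, ∀ i, y i = c * x i := by
  classical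
  set M : Matrix (Fin 3) (Fin 4) ℝ := Matrix.of l with hM
  have hrank : M.rank = 3 := by
    have h := LinearIndependent.rank_matrix (M := M) hl
    simpa using h
  have h1 : Module.finrank ℝ (LinearMap.range M.mulVecLin) = 3 := hrank
  have h2 := LinearMap.finrank_range_add_finrank_ker M.mulVecLin
  rw [h1] at h2
  have h3 : Module.finrank ℝ (Fin 4 → ℝ) = 4 := by simp
  rw [h3] at h2
  have h4 : Module.finrank ℝ (LinearMap.ker M.mulVecLin) = 1 := by omega
  have hxk : x ∈ LinearMap.ker M.mulVecLin := by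
    rw [LinearMap.mem_ker]
    ext k
    simpa [Matrix.mulVec, dotProduct, hM] using hlx k
  have hyk : y ∈ LinearMap.ker M.mulVecLin := by
    rw [LinearMap.mem_ker]
    ext k
    simpa [Matrix.mulVec, dotProduct, hM] using hly k
  have hx0 : (⟨x, hxk⟩ : LinearMap.ker M.mulVecLin) ≠ 0 := by
    intro h
    exact hx (congrArg Subtype.val h)
  obtain ⟨c, hc⟩ := (finrank_eq_one_iff_of_nonzero' _ hx0).1 h4 ⟨y, hyk⟩
  refine ⟨c, fun i => ?_⟩
  have := congrArg (fun v : LinearMap.ker M.mulVecLin => (v : Fin 4 → ℝ) i) hc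
  simpa using this.symm

theorem SB2_sum_le_fibre {α β : Type*} [DecidableEq β] (S : Finset α) (g : α → β) (f : β → ℝ)
    (hf : ∀ b ∈ S.image g, 0 ≤ f b) (N : ℕ)
    (hN : ∀ b ∈ S.image g, (S.filter fun a => g a = b).card ≤ N) :
    ∑ a ∈ S, f (g a) ≤ N * ∑ b ∈ S.image g, f b := by
  rw [Finset.sum_comp, Finset.mul_sum]
  refine Finset.sum_le_sum fun b hb => ?_
  rw [nsmul_eq_mul]
  exact mul_le_mul_of_nonneg_right (by exact_mod_cast hN b hb) (hf b hb)

theorem SB2_minor_le_dl (x y : Fin 4 → ℤ) (a b : Fin 4) : |minor x y a b| ≤ (dl x y : ℤ) := by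
  have h : (minor x y a b).natAbs ≤ dl x y :=
    Finset.le_sup (f := fun p : Fin 4 × Fin 4 => (minor x y p.1 p.2).natAbs)
      (Finset.mem_univ (a, b))
  rw [Int.abs_eq_natAbs]
  exact_mod_cast h

theorem SB2_dl_eq_zero_of (x y : Fin 4 → ℤ) (h : ∀ a b, minor x y a b = 0) : dl x y = 0 := by
  unfold dl
  apply le_antisymm _ (Nat.zero_le _)
  refine Finset.sup_le fun p _ => ?_
  rw [h p.1 p.2]
  simp

theorem SB2_n3_le (z : Fin 3 → ℤ) (C : ℝ) (h : ∀ k, |(z k : ℝ)| ≤ C) :
    (n3 z : ℝ) ≤ C := by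
  obtain ⟨k, -, hk⟩ := Finset.exists_mem_eq_sup (univ : Finset (Fin 3)) ⟨0, mem_univ _⟩
    (fun k => (z k).natAbs)
  have : n3 z = (z k).natAbs := hk
  rw [this, Nat.cast_natAbs]
  push_cast
  exact h k

theorem SB2_n3_pos (z : Fin 3 → ℤ) (h : z ≠ 0) : 0 < n3 z := by
  obtain ⟨k, hk⟩ : ∃ k, z k ≠ 0 := by
    by_contra hcon
    push Not at hcon
    exact h (funext hcon)
  have h1 : (z k).natAbs ≤ n3 z :=
    Finset.le_sup (f := fun k : Fin 3 => (z k).natAbs) (Finset.mem_univ k)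
  have h2 : 0 < (z k).natAbs := Int.natAbs_pos.2 hk
  omega

theorem SB2_n3_mul (m : ℕ) (z : Fin 3 → ℤ) : n3 (fun k => (m : ℤ) * z k) = m * n3 z := by
  unfold n3
  apply le_antisymm
  · refine Finset.sup_le fun k _ => ?_
    rw [Int.natAbs_mul, Int.natAbs_natCast]
    exact Nat.mul_le_mul_left _
      (Finset.le_sup (f := fun k : Fin 3 => (z k).natAbs) (Finset.mem_univ k))
  · obtain ⟨k, -, hk⟩ := Finset.exists_mem_eq_sup (univ : Finset (Fin 3)) ⟨0, mem_univ _⟩
      (fun k => (z k).natAbs)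
    rw [hk]
    have := Finset.le_sup (f := fun k : Fin 3 => ((m : ℤ) * z k).natAbs) (Finset.mem_univ k)
    simpa [Int.natAbs_mul] using this

/-- The linear forms of `l` at `y`, divided by the gcd of the minors. -/
theorem SB2_exists_quot (x : Fin 4 → ℤ) (hx : Prim x) (l : Fin 3 → Fin 4 → ℤ)
    (hlx : ∀ k, ∑ i, l k i * x i = 0) (y : Fin 4 → ℤ) :
    ∃ z : Fin 3 → ℤ, ∀ k, ∑ i, l k i * y i = (mg x y : ℤ) * z k := by
  obtain ⟨c, hc⟩ := exists_mod_of_dvd_mg x y hx (mg x y) dvd_rfl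
  have : ∀ k, ∃ z : ℤ, ∑ i, l k i * y i = (mg x y : ℤ) * z := by
    intro k
    have h1 : ∑ i, l k i * y i = ∑ i, l k i * (y i - c * x i) := by
      have h2 : ∑ i, l k i * (y i - c * x i) = ∑ i, l k i * y i - c * ∑ i, l k i * x i := by
        rw [Finset.mul_sum, ← Finset.sum_sub_distrib]
        exact Finset.sum_congr rfl fun i _ => by ring
      rw [h2, hlx k]
      ring
    have h3 : (mg x y : ℤ) ∣ ∑ i, l k i * y i := by
      rw [h1]
      exact Finset.dvd_sum fun i _ => Dvd.dvd.mul_left (hc i) _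
    exact h3
  choose z hz using this
  exact ⟨z, hz⟩

theorem sum_bad (K : ℝ) (hK : 1 ≤ K) (B : ℕ) (hB : 1 ≤ B) (x : Fin 4 → ℤ) (hx : Prim x)
    (hx2 : ∀ i, |(x i : ℝ)| ≤ 2 * B) (i0 : Fin 4) (hi0 : (B : ℝ) / 2 ≤ |(x i0 : ℝ)|)
    (hg : Good K B x) (G : ℕ) (hG : 1 ≤ G) (tau : ℝ) (ht : 0 < tau) (ht1 : tau ≤ 1) :
    ∑ y ∈ (box4 (2 * B)).filter
        (fun y => 0 < dl x y ∧ (G < mg x y ∨ (dl x y : ℝ) < tau * (B : ℝ) ^ 2)),
      (mg x y : ℝ) / dl x y ≤ 10 ^ 7 * K ^ 3 * (1 / G + tau ^ 2) * (B : ℝ) ^ 2 := by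
  classical
  obtain ⟨l, hl, hlx, hlmu⟩ := hg
  set mu : ℝ := K * (B : ℝ) ^ (1 / 3 : ℝ) with hmu
  have hB0 : (0 : ℝ) < B := by exact_mod_cast hB
  have hmu0 : 0 < mu := by positivity
  have hmu3 : mu ^ 3 = K ^ 3 * B := by
    rw [hmu, mul_pow, ← Real.rpow_natCast ((B : ℝ) ^ (1 / 3 : ℝ)) 3, ← Real.rpow_mul hB0.le]
    norm_num
  choose z hz using SB2_exists_quot x hx l hlx
  have hx0 : (fun i => (x i : ℝ)) ≠ 0 := by
    intro h
    have h1 := congrFun h i0
    simp only [Pi.zero_apply] at h1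
    rw [h1, abs_zero] at hi0
    linarith
  have hlxR : ∀ k, ∑ i, (l k i : ℝ) * (x i : ℝ) = 0 := fun k => by exact_mod_cast hlx k
  -- basic facts for a single point
  have hzne : ∀ y, 0 < dl x y → z y ≠ 0 := by
    intro y hy hzero
    have h1 : ∀ k, ∑ i, (l k i : ℝ) * (y i : ℝ) = 0 := by
      intro k
      have := hz y k
      rw [hzero] at this
      simp only [Pi.zero_apply, mul_zero] at this
      exact_mod_cast this
    obtain ⟨c, hc⟩ := SB2_orth_prop _ hl _ _ hx0 hlxR h1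
    have h2 : dl x y = 0 := by
      apply SB2_dl_eq_zero_of
      intro a b
      have : ((minor x y a b : ℤ) : ℝ) = 0 := by
        unfold minor
        push_cast
        rw [hc a, hc b]
        ring
      exact_mod_cast this
    omega
  have hzdl : ∀ y k, |((mg x y : ℝ) * (z y k : ℝ))| ≤ 8 * mu * dl x y / B := by
    intro y k
    have h1 : (x i0 : ℝ) * ((mg x y : ℝ) * (z y k : ℝ)) =
        ∑ a, (l k a : ℝ) * ((minor x y i0 a : ℤ) : ℝ) := by
      have h2 : ((mg x y : ℝ) * (z y k : ℝ)) = ∑ i, (l k i : ℝ) * (y i : ℝ) := by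
        have := hz y k
        have h3 : (((∑ i, l k i * y i : ℤ)) : ℝ) = (((mg x y : ℤ) * z y k : ℤ) : ℝ) := by
          rw [this]
        push_cast at h3
        exact h3.symm
      have h4 : ∑ a, (l k a : ℝ) * ((minor x y i0 a : ℤ) : ℝ) =
          (x i0 : ℝ) * ∑ i, (l k i : ℝ) * (y i : ℝ) - (y i0 : ℝ) * ∑ i, (l k i : ℝ) * (x i : ℝ) := by
        rw [Finset.mul_sum, Finset.mul_sum, ← Finset.sum_sub_distrib]
        refine Finset.sum_congr rfl fun i _ => ?_
        unfold minor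
        push_cast
        ring
      rw [h4, hlxR k, h2]
      ring
    have h5 : |(x i0 : ℝ) * ((mg x y : ℝ) * (z y k : ℝ))| ≤ 4 * mu * dl x y := by
      rw [h1]
      calc |∑ a, (l k a : ℝ) * ((minor x y i0 a : ℤ) : ℝ)|
          ≤ ∑ a : Fin 4, |(l k a : ℝ) * ((minor x y i0 a : ℤ) : ℝ)| :=
            Finset.abs_sum_le_sum_abs _ _
        _ ≤ ∑ _a : Fin 4, mu * dl x y := by
            refine Finset.sum_le_sum fun a _ => ?_
            rw [abs_mul]
            have h6 : |((minor x y i0 a : ℤ) : ℝ)| ≤ (dl x y : ℝ) := by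
              have := SB2_minor_le_dl x y i0 a
              exact_mod_cast this
            exact mul_le_mul (hlmu k a) h6 (abs_nonneg _) hmu0.le
        _ = 4 * mu * dl x y := by simp; ring
    rw [abs_mul] at h5
    have h6 : (B : ℝ) / 2 * |(mg x y : ℝ) * (z y k : ℝ)| ≤ 4 * mu * dl x y :=
      (mul_le_mul_of_nonneg_right hi0 (abs_nonneg _)).trans h5
    rw [le_div_iff₀ hB0]
    linarith
  have hn3dl : ∀ y, (mg x y : ℝ) * n3 (z y) ≤ 8 * mu * dl x y / B := by
    intro y
    have h1 : (n3 (fun k => (mg x y : ℤ) * z y k) : ℝ) ≤ 8 * mu * dl x y / B := by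
      apply SB2_n3_le
      intro k
      have := hzdl y k
      push_cast
      exact this
    rw [SB2_n3_mul] at h1
    push_cast at h1
    exact h1
  have hn3B : ∀ y ∈ box4 (2 * B), (mg x y : ℝ) * n3 (z y) ≤ 8 * mu * B := by
    intro y hy
    have h1 : (n3 (fun k => (mg x y : ℤ) * z y k) : ℝ) ≤ 8 * mu * B := by
      apply SB2_n3_le
      · intro k
        rw [← hz y k]
        push_cast
        calc |∑ i, (l k i : ℝ) * (y i : ℝ)| ≤ ∑ i : Fin 4, |(l k i : ℝ) * (y i : ℝ)| :=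
              Finset.abs_sum_le_sum_abs _ _
          _ ≤ ∑ _i : Fin 4, mu * (2 * B) := by
              refine Finset.sum_le_sum fun a _ => ?_
              rw [abs_mul]
              have h6 : |(y a : ℝ)| ≤ 2 * (B : ℝ) := by
                have := mem_box4.1 hy a
                exact_mod_cast this
              exact mul_le_mul (hlmu k a) h6 (abs_nonneg _) hmu0.le
          _ = 8 * mu * B := by simp; ring
    rw [SB2_n3_mul] at h1
    push_cast at h1
    exact h1
  -- the general estimate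
  have key : ∀ (S : Finset (Fin 4 → ℤ)), (∀ y ∈ S, y ∈ box4 (2 * B) ∧ 0 < dl x y) →
      ∑ y ∈ S, (mg x y : ℝ) / dl x y ≤ 17 * (8 * mu / B) *
        ∑ p ∈ S.image (fun y => (mg x y, z y)), (1 : ℝ) / n3 p.2 := by
    intro S hS
    have h1 : ∑ y ∈ S, (mg x y : ℝ) / dl x y ≤
        ∑ y ∈ S, (8 * mu / B) * ((1 : ℝ) / n3 (z y)) := by
      refine Finset.sum_le_sum fun y hy => ?_
      have hd := (hS y hy).2
      have hd' : (0 : ℝ) < dl x y := by exact_mod_cast hd
      have hn : (0 : ℝ) < n3 (z y) := by exact_mod_cast SB2_n3_pos _ (hzne y hd)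
      rw [mul_one_div, div_le_div_iff₀ hd' hn]
      calc (mg x y : ℝ) * n3 (z y) ≤ 8 * mu * dl x y / B := hn3dl y
        _ = 8 * mu / B * dl x y := by ring
    refine h1.trans ?_
    rw [← Finset.mul_sum]
    have h2 : ∑ y ∈ S, (1 : ℝ) / n3 (z y) ≤ (17 : ℕ) *
        ∑ p ∈ S.image (fun y => (mg x y, z y)), (1 : ℝ) / n3 p.2 := by
      refine SB2_sum_le_fibre S (fun y => (mg x y, z y)) (fun p => (1 : ℝ) / n3 p.2) ?_ 17 ?_
      · intro p _
        positivity
      · intro p hp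
        obtain ⟨y0, hy0, hyp⟩ := Finset.mem_image.1 hp
        have hsub : (S.filter fun a => (mg x a, z a) = p) ⊆
            (Finset.Icc (-8 : ℤ) 8).image (fun k => fun i => y0 i + k * x i) := by
          intro y hy
          rw [Finset.mem_filter] at hy
          obtain ⟨hyS, hyp'⟩ := hy
          rw [← hyp] at hyp'
          have hm : mg x y = mg x y0 := congrArg Prod.fst hyp'
          have hzz : z y = z y0 := congrArg Prod.snd hyp'
          have horth : ∀ k, ∑ i, (l k i : ℝ) * ((y i : ℝ) - (y0 i : ℝ)) = 0 := by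
            intro k
            have e1 := hz y k
            have e2 := hz y0 k
            rw [hm, hzz, ← e2] at e1
            have e3 : ∑ i, (l k i : ℝ) * (y i : ℝ) = ∑ i, (l k i : ℝ) * (y0 i : ℝ) := by
              exact_mod_cast e1
            have e4 : ∑ i, (l k i : ℝ) * ((y i : ℝ) - (y0 i : ℝ)) =
                ∑ i, (l k i : ℝ) * (y i : ℝ) - ∑ i, (l k i : ℝ) * (y0 i : ℝ) := by
              rw [← Finset.sum_sub_distrib]
              exact Finset.sum_congr rfl fun i _ => by ring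
            rw [e4, e3, sub_self]
          obtain ⟨c, hc⟩ := SB2_orth_prop _ hl _ (fun i => (y i : ℝ) - (y0 i : ℝ)) hx0 hlxR horth
          obtain ⟨u, hu⟩ := hx
          have hcint : c = ((∑ i, u i * (y i - y0 i) : ℤ) : ℝ) := by
            push_cast
            have e5 : ∑ i, (u i : ℝ) * ((y i : ℝ) - (y0 i : ℝ)) = c * ∑ i, (u i : ℝ) * (x i : ℝ) := by
              rw [Finset.mul_sum]
              refine Finset.sum_congr rfl fun i _ => ?_
              have := hc i
              rw [this]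
              ring
            have e6 : ∑ i, (u i : ℝ) * (x i : ℝ) = 1 := by exact_mod_cast hu
            rw [e5, e6, mul_one]
          set n : ℤ := ∑ i, u i * (y i - y0 i) with hn
          have hyx : ∀ i, y i = y0 i + n * x i := by
            intro i
            have := hc i
            rw [hcint] at this
            have e7 : ((y i : ℤ) : ℝ) = ((y0 i + n * x i : ℤ) : ℝ) := by
              push_cast
              linarith
            exact_mod_cast e7
          have hyb := mem_box4.1 (hS y hyS).1 i0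
          have hyb0 := mem_box4.1 (hS y0 hy0).1 i0
          have e8 : |(n : ℝ)| * ((B : ℝ) / 2) ≤ 4 * B := by
            calc |(n : ℝ)| * ((B : ℝ) / 2) ≤ |(n : ℝ)| * |(x i0 : ℝ)| :=
                  mul_le_mul_of_nonneg_left hi0 (abs_nonneg _)
              _ = |(n : ℝ) * (x i0 : ℝ)| := (abs_mul _ _).symm
              _ = |(y i0 : ℝ) - (y0 i0 : ℝ)| := by
                  congr 1
                  rw [hyx i0]
                  push_cast
                  ring
              _ ≤ |(y i0 : ℝ)| + |(y0 i0 : ℝ)| := abs_sub _ _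
              _ ≤ 2 * B + 2 * B := by
                  have a1 : |(y i0 : ℝ)| ≤ 2 * (B : ℝ) := by exact_mod_cast hyb
                  have a2 : |(y0 i0 : ℝ)| ≤ 2 * (B : ℝ) := by exact_mod_cast hyb0
                  linarith
              _ = 4 * B := by ring
          have e9 : |(n : ℝ)| ≤ 8 := by
            by_contra hcon
            push Not at hcon
            nlinarith
          have e10 : |n| ≤ 8 := by exact_mod_cast e9
          rw [abs_le] at e10
          rw [Finset.mem_image]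
          exact ⟨n, Finset.mem_Icc.2 e10, by ext i; exact (hyx i).symm⟩
        calc (S.filter fun a => (mg x a, z a) = p).card ≤ _ := Finset.card_le_card hsub
          _ ≤ (Finset.Icc (-8 : ℤ) 8).card := Finset.card_image_le
          _ = 17 := by rfl
    calc 8 * mu / B * ∑ y ∈ S, (1 : ℝ) / n3 (z y)
        ≤ 8 * mu / B * ((17 : ℕ) *
          ∑ p ∈ S.image (fun y => (mg x y, z y)), (1 : ℝ) / n3 p.2) :=
          mul_le_mul_of_nonneg_left h2 (by positivity)
      _ = 17 * (8 * mu / B) * ∑ p ∈ S.image (fun y => (mg x y, z y)), (1 : ℝ) / n3 p.2 := by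
          push_cast
          ring
  -- the two parts
  set S := (box4 (2 * B)).filter
        (fun y => 0 < dl x y ∧ (G < mg x y ∨ (dl x y : ℝ) < tau * (B : ℝ) ^ 2)) with hS
  set S1 := S.filter (fun y => G < mg x y) with hS1
  set S2 := S.filter (fun y => ¬ G < mg x y) with hS2
  have hsplit : ∑ y ∈ S, (mg x y : ℝ) / dl x y =
      ∑ y ∈ S1, (mg x y : ℝ) / dl x y + ∑ y ∈ S2, (mg x y : ℝ) / dl x y :=
    (Finset.sum_filter_add_sum_filter_not S (fun y => G < mg x y) _).symm
  have hG0 : (0 : ℝ) < G := by exact_mod_cast hG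
  have hb1 : ∑ y ∈ S1, (mg x y : ℝ) / dl x y ≤ 17 * (8 * mu / B) * (26 * (8 * mu * B) ^ 2 / G) := by
    refine (key S1 ?_).trans ?_
    · intro y hy
      rw [hS1, Finset.mem_filter, hS, Finset.mem_filter] at hy
      exact ⟨hy.1.1, hy.1.2.1⟩
    · refine mul_le_mul_of_nonneg_left ?_ (by positivity)
      refine sum_zm_large G hG (8 * mu * B) _ ?_
      intro p hp
      obtain ⟨y, hy, hyp⟩ := Finset.mem_image.1 hp
      rw [hS1, Finset.mem_filter, hS, Finset.mem_filter] at hy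
      subst hyp
      exact ⟨hy.2, hzne y hy.1.2.1, hn3B y hy.1.1⟩
  have hb2 : ∑ y ∈ S2, (mg x y : ℝ) / dl x y ≤ 17 * (8 * mu / B) * (52 * (8 * mu * tau * B) ^ 2) := by
    refine (key S2 ?_).trans ?_
    · intro y hy
      rw [hS2, Finset.mem_filter, hS, Finset.mem_filter] at hy
      exact ⟨hy.1.1, hy.1.2.1⟩
    · refine mul_le_mul_of_nonneg_left ?_ (by positivity)
      refine sum_zm_all (8 * mu * tau * B) _ ?_
      intro p hp
      obtain ⟨y, hy, hyp⟩ := Finset.mem_image.1 hp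
      rw [hS2, Finset.mem_filter, hS, Finset.mem_filter] at hy
      subst hyp
      have hd := hy.1.2.1
      have hm : 0 < mg x y := mg_pos_of_dl_pos x y hd
      refine ⟨hm, hzne y hd, ?_⟩
      have h1 : (dl x y : ℝ) < tau * (B : ℝ) ^ 2 := by
        rcases hy.1.2.2 with h | h
        · exact absurd h hy.2
        · exact h
      calc (mg x y : ℝ) * n3 (z y) ≤ 8 * mu * dl x y / B := hn3dl y
        _ ≤ 8 * mu * (tau * (B : ℝ) ^ 2) / B := by
            apply div_le_div_of_nonneg_right _ hB0.le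
            exact mul_le_mul_of_nonneg_left h1.le (by positivity)
        _ = 8 * mu * tau * B := by
            field_simp
  rw [hsplit]
  have e1 : 17 * (8 * mu / B) * (26 * (8 * mu * B) ^ 2 / G) = 226304 * K ^ 3 * (B : ℝ) ^ 2 / G := by
    have : 17 * (8 * mu / B) * (26 * (8 * mu * B) ^ 2 / G) = 226304 * mu ^ 3 * B / G := by
      field_simp
      ring
    rw [this, hmu3]
    ring
  have e2 : 17 * (8 * mu / B) * (52 * (8 * mu * tau * B) ^ 2) =
      452608 * K ^ 3 * tau ^ 2 * (B : ℝ) ^ 2 := by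
    have : 17 * (8 * mu / B) * (52 * (8 * mu * tau * B) ^ 2) = 452608 * mu ^ 3 * tau ^ 2 * B := by
      field_simp
      ring
    rw [this, hmu3]
    ring
  rw [e1] at hb1
  rw [e2] at hb2
  have hK0 : 0 < K := by linarith
  have e3 : 226304 * K ^ 3 * (B : ℝ) ^ 2 / G ≤ 10 ^ 7 * K ^ 3 * (1 / G) * (B : ℝ) ^ 2 := by
    have : 226304 * K ^ 3 * (B : ℝ) ^ 2 / G = 226304 * (K ^ 3 * (1 / G) * (B : ℝ) ^ 2) := by ring
    rw [this]
    have h0 : 0 ≤ K ^ 3 * (1 / (G : ℝ)) * (B : ℝ) ^ 2 := by positivity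
    nlinarith
  have e4 : 452608 * K ^ 3 * tau ^ 2 * (B : ℝ) ^ 2 ≤ 10 ^ 7 * K ^ 3 * tau ^ 2 * (B : ℝ) ^ 2 := by
    have h0 : 0 ≤ K ^ 3 * tau ^ 2 * (B : ℝ) ^ 2 := by positivity
    nlinarith
  calc _ ≤ 226304 * K ^ 3 * (B : ℝ) ^ 2 / G + 452608 * K ^ 3 * tau ^ 2 * (B : ℝ) ^ 2 :=
        add_le_add hb1 hb2
    _ ≤ 10 ^ 7 * K ^ 3 * (1 / G) * (B : ℝ) ^ 2 + 10 ^ 7 * K ^ 3 * tau ^ 2 * (B : ℝ) ^ 2 :=
        add_le_add e3 e4
    _ = 10 ^ 7 * K ^ 3 * (1 / G + tau ^ 2) * (B : ℝ) ^ 2 := by ring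

end CubicHP
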