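import Pool.Agent.Lib.MP_e426f4_ag.Basic
import Pool.Agent.Lib.MP_e426f4_ag.Crude
import Pool.Agent.Lib.MP_e426f4_ag.SumBad
import Pool.Agent.Lib.MP_e426f4_ag.Heights

/-! Module S2B: bad pairs of points contribute little to the second moment. -/

namespace CubicHP

open Finset Filter Topology

theorem Cl_abs_le (d : Par) (eps bet : ℝ) (w : ℕ) (hd : d.Valid eps bet w) (H : ℕ)
    (A : Idx → ℤ) (hA : A ∈ d.Cl d.rho H) (m : Idx) : |(A m : ℝ)| ≤ 3 * H := by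
  have h1 := hA.1 m
  have h2 := hd.AC_near m
  have h3 := hd.Ainf_le m
  have h4 := hd.rho_le
  have hH : (0 : ℝ) ≤ H := Nat.cast_nonneg H
  have h5 : |d.AC m| ≤ 1 + d.rho := by
    calc |d.AC m| = |(d.AC m - d.Ainf m) + d.Ainf m| := by ring_nf
      _ ≤ |d.AC m - d.Ainf m| + |d.Ainf m| := abs_add_le _ _
      _ ≤ 1 + d.rho := by linarith
  calc |(A m : ℝ)| = |((A m : ℝ) - H * d.AC m) + H * d.AC m| := by ring_nf
    _ ≤ |(A m : ℝ) - H * d.AC m| + |(H : ℝ) * d.AC m| := abs_add_le _ _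
    _ ≤ d.rho * H + H * (1 + d.rho) := by
        rw [abs_mul, abs_of_nonneg hH]
        exact add_le_add h1 (mul_le_mul_of_nonneg_left h5 hH)
    _ ≤ 3 * H := by nlinarith

theorem TBad_count (d : Par) (eps bet : ℝ) (w : ℕ) (hd : d.Valid eps bet w) (K : ℝ) (hK : 1 ≤ K)
    (G : ℕ) (hG : 1 ≤ G) (tau : ℝ) (ht : 0 < tau) (ht1 : tau ≤ 1) (H : ℕ) (hH : 1 ≤ H)
    (hB : 1 ≤ Bf H) (h1 : 1200 * (K * (Bf H : ℝ) ^ (1 / 3 : ℝ)) ^ 2 ≤ 3 * H)
    (h2 : 400 * (K * (Bf H : ℝ) ^ (1 / 3 : ℝ)) ≤ 3 * H) :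
    ((d.TBad K G tau H).ncard : ℝ) ≤
      625 * 10 ^ 24 * 3 ^ 18 * 10 ^ 7 * K ^ 3 * (1 / G + tau ^ 2) * (H : ℝ) ^ 18 *
        (Bf H : ℝ) ^ 2 := by
  classical
  set B := Bf H with hBdef
  obtain ⟨i0, hi0⟩ := hd.xi_eq
  have hH1 : (1 : ℝ) ≤ H := by exact_mod_cast hH
  have hB1 : (1 : ℝ) ≤ B := by exact_mod_cast hB
  set GF : Finset (Fin 4 → ℤ) := (GG_finite d K B).toFinset with hGF
  set S : Finset ((Idx → ℤ) × (Fin 4 → ℤ) × (Fin 4 → ℤ)) := (TBad_finite d K G tau H).toFinset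
    with hS
  set bound : (Fin 4 → ℤ) → (Fin 4 → ℤ) → ℝ := fun x y =>
    10 ^ 24 * (3 * (H : ℝ)) ^ 18 * mg x y / ((B : ℝ) ^ 4 * dl x y) with hbound
  have hbn : ∀ x y, 0 ≤ bound x y := fun x y => by
    simp only [hbound]; positivity
  set T : Finset ((Fin 4 → ℤ) × (Fin 4 → ℤ)) := (GF ×ˢ box4 (2 * B)).filter
    (fun b => 0 < dl b.1 b.2 ∧ (G < mg b.1 b.2 ∨ (dl b.1 b.2 : ℝ) < tau * (B : ℝ) ^ 2)) with hT
  have hmemS : ∀ q, q ∈ S ↔ q ∈ d.TBad K G tau H := fun q => by simp [hS]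
  have hxb : ∀ x ∈ d.GG K B, ∀ i, |(x i : ℝ)| ≤ 2 * B := fun x hx i =>
    (mem_XX_bounds d eps bet w hd B x hx.1 i).1
  have hmap : ∀ q ∈ S, (q.2.1, q.2.2) ∈ T := by
    intro q hq
    rw [hmemS] at hq
    obtain ⟨_, hx, hy, _, _, hne, hbad⟩ := hq
    rw [hT, Finset.mem_filter, Finset.mem_product]
    refine ⟨⟨by simpa [hGF] using hx, ?_⟩, dl_pos_of_mem_GG d eps bet w hd K B hB _ _ hx hy hne,
      hbad⟩
    rw [mem_box4]
    intro i
    have := hxb _ hy i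
    exact_mod_cast this
  have hcard : (S.card : ℝ) ≤ ∑ b ∈ T, bound b.1 b.2 := by
    rw [Finset.card_eq_sum_card_fiberwise (f := fun q => (q.2.1, q.2.2)) (t := T)
      (fun q hq => hmap q hq)]
    push_cast
    refine Finset.sum_le_sum fun b hb => ?_
    by_cases hyG : b.2 ∈ d.GG K B
    · rw [hT, Finset.mem_filter, Finset.mem_product] at hb
      obtain ⟨⟨hx, _⟩, hdl, _⟩ := hb
      have hx' : b.1 ∈ d.GG K B := by simpa [hGF] using hx
      have hcp := crude_pair B hB b.1 b.2 hx'.2.1 hyG.2.1 (K * (B : ℝ) ^ (1 / 3 : ℝ)) hx'.2.2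
        hyG.2.2 i0 ((mem_XX_bounds d eps bet w hd B _ hx'.1 i0).2 hi0)
        ((mem_XX_bounds d eps bet w hd B _ hyG.1 i0).2 hi0) (hxb _ hx') (hxb _ hyG) hdl
        (3 * H) (by linarith) h1 h2
      refine le_trans ?_ hcp
      have hfin : {A : Idx → ℤ | (∀ m, |(A m : ℝ)| ≤ 3 * H) ∧ F A b.1 = 0 ∧ F A b.2 = 0}.Finite :=
        finite_of_abs_le _ (3 * H) fun A hA i => hA.1 i
      rw [Set.ncard_eq_toFinset_card _ hfin]
      refine Nat.cast_le.mpr (Finset.card_le_card_of_injOn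
        (fun q : (Idx → ℤ) × (Fin 4 → ℤ) × (Fin 4 → ℤ) => q.1)
        (fun q hq => by
          simp only [Finset.coe_filter, Set.mem_ofPred_eq, hmemS] at hq
          obtain ⟨hq, hqb⟩ := hq
          simp only [Set.Finite.coe_toFinset, Set.mem_ofPred_eq]
          obtain ⟨hA, _, _, hF1, hF2, _, _⟩ := hq
          rw [← hqb]
          exact ⟨fun m => Cl_abs_le d eps bet w hd H _ hA m, hF1, hF2⟩)
        (fun q hq q' hq' h => by
          simp only [Finset.coe_filter, Set.mem_ofPred_eq, hmemS] at hq hq'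
          have e := hq.2.trans hq'.2.symm
          simp only [Prod.mk.injEq] at e
          exact Prod.ext h (Prod.ext e.1 e.2)))
    · have : (Finset.filter (fun a => (a.2.1, a.2.2) = b) S) = ∅ := by
        rw [Finset.filter_eq_empty_iff]
        intro q hq hqb
        rw [hmemS] at hq
        apply hyG
        rw [← hqb]
        exact hq.2.2.1
      rw [this]
      simpa using hbn _ _
  have hsumT : ∑ b ∈ T, bound b.1 b.2 ≤ ∑ _x ∈ GF, 10 ^ 24 * (3 * (H : ℝ)) ^ 18 / (B : ℝ) ^ 4 *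
      (10 ^ 7 * K ^ 3 * (1 / G + tau ^ 2) * (B : ℝ) ^ 2) := by
    rw [hT, Finset.sum_filter, Finset.sum_product]
    refine Finset.sum_le_sum fun x hx => ?_
    have hx' : x ∈ d.GG K B := by simpa [hGF] using hx
    have hsb := sum_bad K hK B hB x hx'.2.1 (hxb _ hx') i0
      ((mem_XX_bounds d eps bet w hd B _ hx'.1 i0).2 hi0) hx'.2.2 G hG tau ht ht1
    rw [← Finset.sum_filter]
    have : ∀ y, bound x y = 10 ^ 24 * (3 * (H : ℝ)) ^ 18 / (B : ℝ) ^ 4 *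
        ((mg x y : ℝ) / dl x y) := fun y => by
      simp only [hbound]
      rw [div_mul_div_comm]
    simp only [this]
    rw [← Finset.mul_sum]
    exact mul_le_mul_of_nonneg_left hsb (by positivity)
  have hGFc : (GF.card : ℝ) ≤ 625 * (B : ℝ) ^ 4 := by
    have h3 : GF ⊆ box4 (2 * B) := by
      intro x hx
      have hx' : x ∈ d.GG K B := by simpa [hGF] using hx
      rw [mem_box4]
      intro i
      have := hxb _ hx' i
      exact_mod_cast this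
    have h4 : GF.card ≤ (4 * B + 1) ^ 4 := by
      refine (Finset.card_le_card h3).trans ?_
      rw [card_box4]
      apply le_of_eq
      ring
    have h5 : (GF.card : ℝ) ≤ (4 * (B : ℝ) + 1) ^ 4 := by exact_mod_cast h4
    refine h5.trans ?_
    calc (4 * (B : ℝ) + 1) ^ 4 ≤ (5 * (B : ℝ)) ^ 4 := by
          apply pow_le_pow_left₀ (by positivity); linarith
      _ = 625 * (B : ℝ) ^ 4 := by ring
  rw [Set.ncard_eq_toFinset_card _ (TBad_finite d K G tau H)]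
  refine (hcard.trans hsumT).trans ?_
  rw [Finset.sum_const, nsmul_eq_mul]
  have hpos : (0 : ℝ) ≤ 10 ^ 24 * (3 * (H : ℝ)) ^ 18 / (B : ℝ) ^ 4 *
      (10 ^ 7 * K ^ 3 * (1 / G + tau ^ 2) * (B : ℝ) ^ 2) := by positivity
  refine (mul_le_mul_of_nonneg_right hGFc hpos).trans (le_of_eq ?_)
  have hBne : (B : ℝ) ≠ 0 := by positivity
  field_simp

theorem S2_bad (d : Par) (eps bet : ℝ) (w : ℕ) (hd : d.Valid eps bet w) (K : ℝ) (hK : 1 ≤ K) :
    ∃ (G : ℕ) (tau : ℝ), 1 ≤ G ∧ 0 < tau ∧ tau ≤ 1 ∧ ∀ᶠ H : ℕ in atTop,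
      ((d.TBad K G tau H).ncard : ℝ) ≤ eps * d.TT H ^ 2 * d.Xn H := by
  have hQ : (0 : ℝ) < d.Q := by exact_mod_cast hd.Q_pos
  have hP : (0 : ℝ) < d.P := by exact_mod_cast hd.P_pos
  have hgam : 0 < |d.gam| := lt_of_lt_of_le hd.bet_pos hd.gam_ge
  have hkap := hd.kap_pos
  have hrho := hd.rho_pos
  have heps := hd.eps_pos
  set c2 : ℝ := (8 * d.kap ^ 6 * d.Q / (|d.gam| * (d.P : ℝ) ^ 4)) ^ 2 * (2 * d.rho / d.Q) ^ 20
    with hc2
  have hc2pos : 0 < c2 := by positivity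
  set C1 : ℝ := 625 * 10 ^ 24 * 3 ^ 18 * 10 ^ 7 * K ^ 3 with hC1
  have hC1pos : 0 < C1 := by positivity
  set δ : ℝ := eps * c2 / (2 * C1) with hδ
  have hδpos : 0 < δ := by positivity
  obtain ⟨G0, hG0⟩ := exists_nat_gt (1 / δ)
  set tau : ℝ := min 1 δ with htau
  have htpos : 0 < tau := lt_min one_pos hδpos
  have ht1 : tau ≤ 1 := min_le_left _ _
  have hG0pos : (0 : ℝ) < G0 := lt_trans (by positivity) hG0
  have hG1 : 1 ≤ G0 := by
    have : 0 < G0 := by exact_mod_cast hG0pos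
    exact this
  refine ⟨G0, tau, hG1, htpos, ht1, ?_⟩
  have hkey : C1 * (1 / G0 + tau ^ 2) ≤ eps * c2 := by
    have e1 : 1 / (G0 : ℝ) ≤ δ := by
      rw [div_le_iff₀ hG0pos]
      rw [div_lt_iff₀ hδpos] at hG0
      linarith
    have e2 : tau ^ 2 ≤ δ := by
      calc tau ^ 2 = tau * tau := by ring
        _ ≤ 1 * δ := mul_le_mul ht1 (min_le_right _ _) htpos.le zero_le_one
        _ = δ := one_mul _
    calc C1 * (1 / G0 + tau ^ 2) ≤ C1 * (δ + δ) :=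
          mul_le_mul_of_nonneg_left (add_le_add e1 e2) hC1pos.le
      _ = eps * c2 := by rw [hδ]; field_simp; ring
  have hBlarge : ∀ᶠ H : ℕ in atTop, 1 ≤ Bf H := by
    filter_upwards [Bf_tendsto.eventually_ge_atTop 1, eventually_ge_atTop 1] with H h1 h2
    have hH : (0 : ℝ) < H := by exact_mod_cast h2
    rw [le_div_iff₀ hH] at h1
    have h3 : (1 : ℝ) ≤ Bf H := by
      have : (1 : ℝ) ≤ H := by exact_mod_cast h2
      linarith
    exact_mod_cast h3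
  filter_upwards [hBlarge, eventually_ge_atTop 1, Bf_small (1200 * K ^ 2), Bf_small (400 * K)]
    with H hB hH hs1 hs2
  have hH1 : (1 : ℝ) ≤ H := by exact_mod_cast hH
  have hB1 : (1 : ℝ) ≤ Bf H := by exact_mod_cast hB
  have hpow : ((Bf H : ℝ) ^ (1 / 3 : ℝ)) ^ 2 = (Bf H : ℝ) ^ (2 / 3 : ℝ) := by
    rw [← Real.rpow_natCast, ← Real.rpow_mul (by positivity)]
    norm_num
  have hpow2 : (Bf H : ℝ) ^ (1 / 3 : ℝ) ≤ (Bf H : ℝ) ^ (2 / 3 : ℝ) :=
    Real.rpow_le_rpow_of_exponent_le hB1 (by norm_num)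
  have hcount := TBad_count d eps bet w hd K hK G0 hG1 tau htpos ht1 H hH hB
    (by rw [mul_pow, hpow]; linarith)
    (by
      have : 400 * (K * (Bf H : ℝ) ^ (1 / 3 : ℝ)) ≤ 400 * K * (Bf H : ℝ) ^ (2 / 3 : ℝ) := by
        rw [mul_assoc]
        exact mul_le_mul_of_nonneg_left (mul_le_mul_of_nonneg_left hpow2 (by linarith))
          (by norm_num)
      linarith)
  refine hcount.trans ?_
  calc 625 * 10 ^ 24 * 3 ^ 18 * 10 ^ 7 * K ^ 3 * (1 / (G0 : ℝ) + tau ^ 2) * (H : ℝ) ^ 18 *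
        (Bf H : ℝ) ^ 2 = (C1 * (1 / G0 + tau ^ 2)) * ((H : ℝ) ^ 18 * (Bf H : ℝ) ^ 2) := by
        rw [hC1]; ring
    _ ≤ (eps * c2) * ((H : ℝ) ^ 18 * (Bf H : ℝ) ^ 2) :=
        mul_le_mul_of_nonneg_right hkey (by positivity)
    _ = eps * d.TT H ^ 2 * d.Xn H := by
        rw [hc2, Par.TT, Par.Xn]
        have hHne : (H : ℝ) ≠ 0 := by positivity
        field_simp

end CubicHP
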