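import Pool.Agent.Lib.MP_e426f4_ag.T3Lin
import Pool.Agent.Lib.MP_e426f4_ag.Span1

/-! Module SPAN, two points: forms vanishing at two points are spanned by products `l * l' * e_c` with `l`, `l'`
orthogonal to the first and the second point. -/

namespace CubicHP

open Finset

private theorem eq_sum_single' (m : Fin 4 → ℝ) : m = ∑ b, m b • (Pi.single b (1 : ℝ) : Fin 4 → ℝ) := by
  funext i
  simp [Finset.sum_apply, Pi.single_apply]

private theorem dot_single (z : Fin 4 → ℝ) (a : Fin 4) :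
    ∑ i, (Pi.single a (1 : ℝ) : Fin 4 → ℝ) i * z i = z a := by
  rw [Finset.sum_eq_single a]
  · simp
  · intro i _ hi
    simp [hi]
  · simp

private theorem dot_comb (z u v w : Fin 4 → ℝ) (r s t : ℝ) :
    ∑ i, (r • u + s • v + t • w) i * z i =
      r * (∑ i, u i * z i) + s * (∑ i, v i * z i) + t * ∑ i, w i * z i := by
  rw [Finset.mul_sum, Finset.mul_sum, Finset.mul_sum, ← Finset.sum_add_distrib, ← Finset.sum_add_distrib]
  refine Finset.sum_congr rfl fun i _ => ?_
  simp only [Pi.add_apply, Pi.smul_apply, smul_eq_mul]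
  ring

theorem span_pair (x y : Fin 4 → ℝ) (a b : Fin 4) (hab : x a * y b - x b * y a ≠ 0)
    (l l' : Fin 3 → Fin 4 → ℝ) (hl : LinearIndependent ℝ l) (hl' : LinearIndependent ℝ l')
    (hlx : ∀ k, ∑ i, l k i * x i = 0) (hly : ∀ k, ∑ i, l' k i * y i = 0)
    (A : Idx → ℝ) (hAx : F A x = 0) (hAy : F A y = 0) :
    ∃ r : Fin 3 → Fin 3 → Fin 4 → ℝ, ∀ m, A m =
      ∑ k, ∑ k', ∑ c, r k k' c * T3 (l k) (l' k') (Pi.single c 1) m := by
  have hx : x ≠ 0 := by
    rintro rfl
    simp at hab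
  have hy : y ≠ 0 := by
    rintro rfl
    simp at hab
  set g : Fin 3 × Fin 3 × Fin 4 → (Idx → ℝ) := fun q =>
    T3 (l q.1) (l' q.2.1) (Pi.single q.2.2 1) with hg
  set S : Submodule ℝ (Idx → ℝ) := Submodule.span ℝ (Set.range g) with hS
  have hgen : ∀ (k k' : Fin 3) (n : Fin 4 → ℝ), T3 (l k) (l' k') n ∈ S := by
    intro k k' n
    have e : T3 (l k) (l' k') n = ∑ c, n c • g (k, k', c) := by
      have h1 : T3L (l k) (l' k') n = T3L (l k) (l' k') (∑ c, n c • (Pi.single c (1 : ℝ) : Fin 4 → ℝ)) := by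
        rw [← eq_sum_single']
      rw [T3L_apply] at h1
      rw [h1, map_sum]
      refine Finset.sum_congr rfl fun c _ => ?_
      rw [map_smul, T3L_apply]
    rw [e]
    exact Submodule.sum_mem _ fun c _ => Submodule.smul_mem _ _ (Submodule.subset_span ⟨_, rfl⟩)
  have hspan2 : ∀ (k : Fin 3) (n : Fin 4 → ℝ), ∀ v ∈ Submodule.span ℝ (Set.range l'), T3 (l k) v n ∈ S := by
    intro k n v hv
    induction hv using Submodule.span_induction with
    | mem v hv =>
      obtain ⟨k', rfl⟩ := hv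
      exact hgen k k' n
    | zero =>
      have : T3 (l k) (0 : Fin 4 → ℝ) n = 0 := by
        rw [← T3L_apply, map_zero]
        rfl
      rw [this]
      exact Submodule.zero_mem _
    | add v w _ _ hv hw =>
      rw [T3_add_mid]
      exact Submodule.add_mem _ hv hw
    | smul c v _ hv =>
      rw [T3_smul_mid]
      exact Submodule.smul_mem _ _ hv
  have hspan : ∀ v ∈ Submodule.span ℝ (Set.range l'), ∀ n : Fin 4 → ℝ, ∀ u ∈ Submodule.span ℝ (Set.range l),
      T3 u v n ∈ S := by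
    intro v hv n u hu
    induction hu using Submodule.span_induction with
    | mem u hu =>
      obtain ⟨k, rfl⟩ := hu
      exact hspan2 k n v hv
    | zero =>
      have : T3 (0 : Fin 4 → ℝ) v n = 0 := by
        rw [← T3L_apply, map_zero]
        rfl
      rw [this]
      exact Submodule.zero_mem _
    | add u w _ _ hu hw =>
      rw [T3_add_left]
      exact Submodule.add_mem _ hu hw
    | smul c u _ hu =>
      rw [T3_smul_left]
      exact Submodule.smul_mem _ _ hu
  have hperp : ∀ (u v n : Fin 4 → ℝ), ∑ i, u i * x i = 0 → ∑ i, v i * y i = 0 → T3 u v n ∈ S :=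
    fun u v n hu hv => hspan v (mem_span_of_ortho y hy l' hl' hly v hv) n u (mem_span_of_ortho x hx l hl hlx u hu)
  -- the dual vectors
  set δ : ℝ := x a * y b - x b * y a with hδ
  set L0 : Fin 4 → ℝ := (y b / δ) • Pi.single a 1 + (-(y a / δ)) • Pi.single b 1 + (0 : ℝ) • 0 with hL0
  set L1 : Fin 4 → ℝ := (-(x b / δ)) • Pi.single a 1 + (x a / δ) • Pi.single b 1 + (0 : ℝ) • 0 with hL1
  have d00 : ∑ i, L0 i * x i = 1 := by
    rw [hL0, dot_comb, dot_single, dot_single]
    field_simp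
    rw [hδ]
    ring
  have d01 : ∑ i, L0 i * y i = 0 := by
    rw [hL0, dot_comb, dot_single, dot_single]
    ring
  have d10 : ∑ i, L1 i * x i = 0 := by
    rw [hL1, dot_comb, dot_single, dot_single]
    ring
  have d11 : ∑ i, L1 i * y i = 1 := by
    rw [hL1, dot_comb, dot_single, dot_single]
    field_simp
    rw [hδ]
    ring
  clear_value L0 L1
  set e : Fin 4 → (Fin 4 → ℝ) := fun c => Pi.single c 1 with he
  have dex : ∀ c, ∑ i, e c i * x i = x c := fun c => dot_single x c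
  have dey : ∀ c, ∑ i, e c i * y i = y c := fun c => dot_single y c
  have hes : ∀ A : Idx → ℝ, A = ∑ t : Idx, A t • T3 (e t.1.1) (e t.1.2.1) (e t.1.2.2) := fun A => eq_sum_T3 A
  clear_value e
  -- `m c`, `p c`, `q c`
  have hkey : ∀ a b c : Fin 4, T3 (e a) (e b) (e c) -
      (x a * x b * x c) • T3 L0 L0 L0 - (y a * y b * y c) • T3 L1 L1 L1 ∈ S := by
    intro a b c
    set ma : Fin 4 → ℝ := (1 : ℝ) • e a + (-(x a)) • L0 + (-(y a)) • L1 with hma
    set mb : Fin 4 → ℝ := (1 : ℝ) • e b + (-(x b)) • L0 + (-(y b)) • L1 with hmb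
    set qa : Fin 4 → ℝ := (1 : ℝ) • e a + (-(x a)) • L0 + (0 : ℝ) • L1 with hqa
    set pb : Fin 4 → ℝ := (1 : ℝ) • e b + (0 : ℝ) • L0 + (-(y b)) • L1 with hpb
    set qc : Fin 4 → ℝ := (1 : ℝ) • e c + (-(x c)) • L0 + (0 : ℝ) • L1 with hqc
    set pc : Fin 4 → ℝ := (1 : ℝ) • e c + (0 : ℝ) • L0 + (-(y c)) • L1 with hpc
    have hmax : ∑ i, ma i * x i = 0 := by rw [hma, dot_comb, dex, d00, d10]; ring
    have hmay : ∑ i, ma i * y i = 0 := by rw [hma, dot_comb, dey, d01, d11]; ring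
    have hmbx : ∑ i, mb i * x i = 0 := by rw [hmb, dot_comb, dex, d00, d10]; ring
    have hmby : ∑ i, mb i * y i = 0 := by rw [hmb, dot_comb, dey, d01, d11]; ring
    have hqax : ∑ i, qa i * x i = 0 := by rw [hqa, dot_comb, dex, d00, d10]; ring
    have hpby : ∑ i, pb i * y i = 0 := by rw [hpb, dot_comb, dey, d01, d11]; ring
    have hqcx : ∑ i, qc i * x i = 0 := by rw [hqc, dot_comb, dex, d00, d10]; ring
    have hpcy : ∑ i, pc i * y i = 0 := by rw [hpc, dot_comb, dey, d01, d11]; ring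
    have t1 := hperp L1 L0 (e c) d10 d01
    have t2 := hperp qa pb (e c) hqax hpby
    have t3 := hperp mb L0 (e c) hmbx d01
    have t4 := hperp L1 ma (e c) d10 hmay
    have t5 := hperp qc L0 L0 hqcx d01
    have t6 := hperp L1 pc L1 d10 hpcy
    have s1 : T3 L0 L1 (e c) = T3 L1 L0 (e c) := T3_swap12 _ _ _
    have s2 : T3 L0 (e b) (e c) = T3 (e b) L0 (e c) := T3_swap12 _ _ _
    have s3 : T3 (e a) L1 (e c) = T3 L1 (e a) (e c) := T3_swap12 _ _ _
    have s4 : T3 L0 L0 (e c) = T3 (e c) L0 L0 := by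
      rw [T3_swap23 L0 (e c) L0, T3_swap12 (e c) L0 L0]
    have s5 : T3 L1 L1 (e c) = T3 L1 (e c) L1 := T3_swap23 _ _ _
    have e1 : T3 (e a) (e b) (e c) - (x a * x b * x c) • T3 L0 L0 L0 - (y a * y b * y c) • T3 L1 L1 L1 =
        (x a * y b) • T3 L1 L0 (e c) + T3 qa pb (e c) + x a • T3 mb L0 (e c) + y b • T3 L1 ma (e c) +
          (x a * x b) • T3 qc L0 L0 + (y a * y b) • T3 L1 pc L1 := by
      rw [hma, hmb, hqa, hpb, hqc, hpc]
      simp only [← T3L_apply, map_add, map_smul, LinearMap.add_apply, LinearMap.smul_apply] at s1 s2 s3 s4 s5 ⊢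
      rw [s1, s2, s3, s4, s5]
      module
    rw [e1]
    exact Submodule.add_mem _ (Submodule.add_mem _ (Submodule.add_mem _ (Submodule.add_mem _
      (Submodule.add_mem _ (Submodule.smul_mem _ _ t1) t2) (Submodule.smul_mem _ _ t3))
      (Submodule.smul_mem _ _ t4)) (Submodule.smul_mem _ _ t5)) (Submodule.smul_mem _ _ t6)
  have hAS : A ∈ S := by
    have e2 : A = ∑ t : Idx, A t • (T3 (e t.1.1) (e t.1.2.1) (e t.1.2.2) - mon x t • T3 L0 L0 L0 -
        mon y t • T3 L1 L1 L1) := by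
      have h1 : ∑ t : Idx, A t • (T3 (e t.1.1) (e t.1.2.1) (e t.1.2.2) - mon x t • T3 L0 L0 L0 -
          mon y t • T3 L1 L1 L1) = ∑ t : Idx, A t • T3 (e t.1.1) (e t.1.2.1) (e t.1.2.2) -
            (F A x) • T3 L0 L0 L0 - (F A y) • T3 L1 L1 L1 := by
        unfold F
        rw [Finset.sum_smul, Finset.sum_smul, ← Finset.sum_sub_distrib, ← Finset.sum_sub_distrib]
        refine Finset.sum_congr rfl fun t _ => ?_
        rw [smul_sub, smul_sub, smul_smul, smul_smul]
      rw [h1, hAx, hAy, zero_smul, zero_smul, sub_zero, sub_zero]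
      exact hes A
    rw [e2]
    exact Submodule.sum_mem _ fun t _ => Submodule.smul_mem _ _ (hkey _ _ _)
  obtain ⟨r, hr⟩ := (Submodule.mem_span_range_iff_exists_fun ℝ).mp hAS
  refine ⟨fun k b c => r (k, b, c), fun m => ?_⟩
  rw [← hr, Finset.sum_apply, Fintype.sum_prod_type]
  refine Finset.sum_congr rfl fun k _ => ?_
  rw [Fintype.sum_prod_type]
  refine Finset.sum_congr rfl fun b _ => Finset.sum_congr rfl fun c _ => ?_
  rw [Pi.smul_apply, smul_eq_mul]

end CubicHP
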