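import Pool.Agent.Lib.MP_e426f4_ag.ShortOne
import Pool.Agent.Lib.MP_e426f4_ag.Span2

/-! Module B2: short vectors for two points. -/

namespace CubicHP

open Finset

/-- the largest minor is at most eight times the largest minor in the row of a large coordinate -/
theorem exists_large_minor (B : ℕ) (hB : 1 ≤ B) (x y : Fin 4 → ℤ) (i0 : Fin 4)
    (hi0 : (B : ℝ) / 2 ≤ |(x i0 : ℝ)|) (hx2 : ∀ i, |(x i : ℝ)| ≤ 2 * B) :
    ∃ l : Fin 4, (dl x y : ℝ) ≤ 8 * |((minor x y i0 l : ℤ) : ℝ)| := by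
  have hBpos : (0 : ℝ) < B := by exact_mod_cast hB
  obtain ⟨l, -, hl⟩ := Finset.exists_max_image (univ : Finset (Fin 4))
    (fun l => |((minor x y i0 l : ℤ) : ℝ)|) ⟨0, mem_univ _⟩
  obtain ⟨a, b, hab⟩ := exists_minor_eq_dl x y
  refine ⟨l, ?_⟩
  have h1 : (dl x y : ℝ) = |((minor x y a b : ℤ) : ℝ)| := by
    rw [← hab, Nat.cast_natAbs, Int.cast_abs]
  have h2 : (x i0 : ℝ) * ((minor x y a b : ℤ) : ℝ) =
      x a * ((minor x y i0 b : ℤ) : ℝ) - x b * ((minor x y i0 a : ℤ) : ℝ) := by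
    simp only [minor]
    push_cast
    ring
  have h3 : |(x i0 : ℝ)| * |((minor x y a b : ℤ) : ℝ)| ≤
      2 * B * |((minor x y i0 l : ℤ) : ℝ)| + 2 * B * |((minor x y i0 l : ℤ) : ℝ)| := by
    rw [← abs_mul, h2]
    refine (abs_sub _ _).trans ?_
    rw [abs_mul, abs_mul]
    have ha := hl a (mem_univ _)
    have hb := hl b (mem_univ _)
    exact add_le_add (mul_le_mul (hx2 a) hb (abs_nonneg _) (by positivity))
      (mul_le_mul (hx2 b) ha (abs_nonneg _) (by positivity))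
  have h4 : (B : ℝ) / 2 * |((minor x y a b : ℤ) : ℝ)| ≤
      |(x i0 : ℝ)| * |((minor x y a b : ℤ) : ℝ)| := by gcongr
  rw [h1]
  have h5 : (B : ℝ) * |((minor x y a b : ℤ) : ℝ)| ≤
      B * (8 * |((minor x y i0 l : ℤ) : ℝ)|) := by linarith
  exact le_of_mul_le_mul_left h5 hBpos

theorem short_pair (B : ℕ) (hB : 1 ≤ B) (x y : Fin 4 → ℤ) (hx : Prim x) (hy : Prim y) (mu : ℝ)
    (hgx : Ortho mu x) (hgy : Ortho mu y) (i0 : Fin 4)
    (hi0 : (B : ℝ) / 2 ≤ |(x i0 : ℝ)|) (hi0' : (B : ℝ) / 2 ≤ |(y i0 : ℝ)|)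
    (hx2 : ∀ i, |(x i : ℝ)| ≤ 2 * B) (hy2 : ∀ i, |(y i : ℝ)| ≤ 2 * B)
    (hd : 0 < dl x y) (s : ℤ) (hs : (mg x y : ℤ) ∣ s) :
    ∃ t : Idx → ℤ, F t x = 0 ∧ F t y = s ∧
      ∀ m, |(t m : ℝ)| ≤ 1024 * |(s : ℝ)| / (B * dl x y) + 600 * mu ^ 2 := by
  obtain ⟨l, hlx, hlxm⟩ : ∃ l : Fin 3 → Fin 4 → ℤ,
      LinearIndependent ℝ (fun k : Fin 3 => fun i => (l k i : ℝ)) ∧
      (∀ k, ∑ i, l k i * x i = 0) ∧ ∀ k i, |(l k i : ℝ)| ≤ mu := hgx
  obtain ⟨l', hly, hlym⟩ : ∃ l : Fin 3 → Fin 4 → ℤ,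
      LinearIndependent ℝ (fun k : Fin 3 => fun i => (l k i : ℝ)) ∧
      (∀ k, ∑ i, l k i * y i = 0) ∧ ∀ k i, |(l k i : ℝ)| ≤ mu := hgy
  have hBpos : (0 : ℝ) < B := by exact_mod_cast hB
  have hdpos : (0 : ℝ) < dl x y := by exact_mod_cast hd
  have hx0 : (x i0 : ℝ) ≠ 0 := by
    intro h
    rw [h, abs_zero] at hi0
    linarith
  have hy0 : (y i0 : ℝ) ≠ 0 := by
    intro h
    rw [h, abs_zero] at hi0'
    linarith
  obtain ⟨j, hj⟩ := exists_large_minor B hB x y i0 hi0 hx2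
  obtain ⟨t1, ht1x, ht1y⟩ := exists_vec_mg x y hx hy hd
  obtain ⟨s', hs'⟩ := hs
  -- the real solution
  set δ : ℝ := ((minor x y i0 j : ℤ) : ℝ) with hδ
  have hδ0 : δ ≠ 0 := by
    intro h
    rw [h, abs_zero] at hj
    linarith
  have hδe : δ = (x i0 : ℝ) * y j - x j * y i0 := by
    rw [hδ, minor]
    push_cast
    ring
  set tR : Idx → ℝ := fun m => (s : ℝ) / ((y i0 : ℝ) ^ 2 * δ) *
    ((Pi.single (mk3 i0 i0 j) (x i0 : ℝ) : Idx → ℝ) m
      - (Pi.single (mk3 i0 i0 i0) (x j : ℝ) : Idx → ℝ) m) with htR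
  have hFR : ∀ z : Fin 4 → ℝ, F tR z = (s : ℝ) / ((y i0 : ℝ) ^ 2 * δ) *
      (x i0 * (z i0 * z i0 * z j) - x j * (z i0 * z i0 * z i0)) := by
    intro z
    rw [htR, F_smul]
    congr 1
    have h3 : F (fun m => (Pi.single (mk3 i0 i0 j) (x i0 : ℝ) : Idx → ℝ) m
      - (Pi.single (mk3 i0 i0 i0) (x j : ℝ) : Idx → ℝ) m) z =
      F (Pi.single (mk3 i0 i0 j) (x i0 : ℝ) : Idx → ℝ) z
        - F (Pi.single (mk3 i0 i0 i0) (x j : ℝ) : Idx → ℝ) z := by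
      simp only [F, sub_mul, Finset.sum_sub_distrib]
    rw [h3, F_single, F_single, mon_mk3, mon_mk3]
  have hRx : F tR (fun i => (x i : ℝ)) = 0 := by
    rw [hFR]
    ring
  have hRy : F tR (fun i => (y i : ℝ)) = s := by
    rw [hFR]
    have : (x i0 : ℝ) * (y i0 * y i0 * y j) - x j * (y i0 * y i0 * y i0) =
        (y i0 : ℝ) ^ 2 * δ := by
      rw [hδe]
      ring
    rw [this]
    field_simp
  have hsub : ∀ z : Fin 4 → ℤ, F (fun m => (((fun m => s' * t1 m : Idx → ℤ) m : ℤ) : ℝ) - tR m)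
      (fun i => (z i : ℝ)) = ((F (fun m => s' * t1 m) z : ℤ) : ℝ) - F tR (fun i => (z i : ℝ)) := by
    intro z
    rw [← F_cast]
    simp only [F, sub_mul, Finset.sum_sub_distrib]
  have hne : (x i0 : ℝ) * y j - x j * y i0 ≠ 0 := by
    rw [← hδe]
    exact hδ0
  obtain ⟨r, hr⟩ := span_pair (fun i => (x i : ℝ)) (fun i => (y i : ℝ)) i0 j hne
    (fun k i => (l k i : ℝ)) (fun k i => (l' k i : ℝ)) hlx hly
    (by intro k; exact_mod_cast hlxm.1 k) (by intro k; exact_mod_cast hlym.1 k)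
    (fun m => (((fun m => s' * t1 m : Idx → ℤ) m : ℤ) : ℝ) - tR m)
    (by rw [hsub, hRx, F_smul, ht1x]; simp)
    (by
      rw [hsub, hRy, F_smul, ht1y, hs']
      push_cast
      ring)
  obtain ⟨t, ht1, ht2⟩ := round_family (ι := Fin 3 × Fin 3 × Fin 4)
    (fun p => T3 (l p.1) (l' p.2.1) (Pi.single p.2.2 1)) (16 * mu ^ 2)
    (by
      intro p m
      rw [← T3_cast_pair]
      exact T3_abs_pair _ _ _ mu (fun i => hlxm.2 p.1 i) (fun i => hlym.2 p.2.1 i) m)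
    (fun m => s' * t1 m) tR
    (fun p => r p.1 p.2.1 p.2.2) (by
      intro m
      rw [hr m, Fintype.sum_prod_type]
      refine Finset.sum_congr rfl fun k _ => ?_
      rw [Fintype.sum_prod_type]
      refine Finset.sum_congr rfl fun b _ => Finset.sum_congr rfl fun c' _ => ?_
      rw [T3_cast_pair])
  refine ⟨t, ?_, ?_, fun m => (ht2 m).trans ?_⟩
  · rw [ht1 x, F_smul, ht1x, mul_zero]
    intro p
    rw [F_T3, hlxm.1, zero_mul, zero_mul]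
  · rw [ht1 y, F_smul, ht1y, hs', mul_comm]
    intro p
    rw [F_T3, hlym.1, mul_zero, zero_mul]
  · have h1 : |tR m| ≤ 1024 * |(s : ℝ)| / (B * dl x y) := by
      rw [htR]
      simp only
      rw [abs_mul, abs_div, abs_mul, abs_pow]
      have hb : ∀ (m m' : Idx) (c : ℤ), |(c : ℝ)| ≤ 2 * B →
          |(Pi.single m (c : ℝ) : Idx → ℝ) m'| ≤ 2 * B := by
        intro m m' c hc
        by_cases h : m' = m
        · subst h
          rw [Pi.single_eq_same]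
          exact hc
        · rw [Pi.single_eq_of_ne h, abs_zero]
          positivity
      have h2 : |(Pi.single (mk3 i0 i0 j) (x i0 : ℝ) : Idx → ℝ) m
          - (Pi.single (mk3 i0 i0 i0) (x j : ℝ) : Idx → ℝ) m| ≤ 4 * B := by
        refine (abs_sub _ _).trans ?_
        have := hb (mk3 i0 i0 j) m (x i0) (hx2 i0)
        have := hb (mk3 i0 i0 i0) m (x j) (hx2 j)
        linarith
      have h3 : (B : ℝ) ^ 2 ≤ 4 * |(y i0 : ℝ)| ^ 2 := by
        have h3 : ((B : ℝ) / 2) ^ 2 ≤ |(y i0 : ℝ)| ^ 2 := by gcongr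
        linarith [h3, show ((B : ℝ) / 2) ^ 2 = (B : ℝ) ^ 2 / 4 by ring]
      have hy0' : 0 < |(y i0 : ℝ)| := abs_pos.mpr hy0
      have hδ' : 0 < |δ| := abs_pos.mpr hδ0
      calc |(s : ℝ)| / (|(y i0 : ℝ)| ^ 2 * |δ|) *
            |(Pi.single (mk3 i0 i0 j) (x i0 : ℝ) : Idx → ℝ) m
              - (Pi.single (mk3 i0 i0 i0) (x j : ℝ) : Idx → ℝ) m|
          ≤ |(s : ℝ)| / (|(y i0 : ℝ)| ^ 2 * |δ|) * (4 * B) := by gcongr
        _ = |(s : ℝ)| * (4 * B) / (|(y i0 : ℝ)| ^ 2 * |δ|) := by ring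
        _ ≤ 1024 * |(s : ℝ)| / (B * dl x y) := by
            rw [div_le_div_iff₀ (by positivity) (by positivity)]
            have h5 : (B : ℝ) ^ 2 * dl x y ≤ 4 * |(y i0 : ℝ)| ^ 2 * (8 * |δ|) :=
              mul_le_mul h3 hj hdpos.le (by positivity)
            have h6 : |(s : ℝ)| * ((B : ℝ) ^ 2 * dl x y) ≤
                |(s : ℝ)| * (4 * |(y i0 : ℝ)| ^ 2 * (8 * |δ|)) := by gcongr
            have h7 : 0 ≤ |(s : ℝ)| * (|(y i0 : ℝ)| ^ 2 * |δ|) := by positivity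
            nlinarith
    have h2 : (Fintype.card (Fin 3 × Fin 3 × Fin 4) : ℝ) = 36 := by
      simp
    rw [h2]
    nlinarith [sq_nonneg mu]

end CubicHP
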