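import Pool.Agent.Lib.MP_e426f4_ag.Defs
import Pool.Agent.Lib.MP_e426f4_ag.Basic
import Pool.Agent.Lib.MP_e426f4_ag.Alg
import Pool.Agent.Lib.MP_e426f4_ag.Minors
import Pool.Agent.Lib.MP_e426f4_ag.ShortTwo
import Pool.Agent.Lib.MP_e426f4_ag.Heights

/-! Translation inequality for pairs of points. -/

namespace CubicHP

open Finset Filter Topology

/-- the cofactor `q = lcm(M, Q m) / M` -/
theorem cofactor (W Q k G : ℕ) (hW : 0 < W) (hQ : ∃ n, Q = W ^ n) (hn : Q * W ^ G ∣ W ^ k)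
    (m : ℕ) (hm : 0 < m) (hmG : m ≤ G) :
    ∃ q : ℕ, 0 < q ∧ q ∣ m ∧ Nat.Coprime q W ∧ Nat.lcm (W ^ k) (Q * m) = W ^ k * q := by
  obtain ⟨t, ht⟩ := hn
  have hg : Nat.gcd (W ^ G) m ∣ m := Nat.gcd_dvd_right _ _
  obtain ⟨q, hq⟩ := hg
  have hgpos : 0 < Nat.gcd (W ^ G) m := Nat.gcd_pos_of_pos_right _ hm
  have hqpos : 0 < q := by
    rcases Nat.eq_zero_or_pos q with h | h
    · rw [h, Nat.mul_zero] at hq; omega
    · exact h
  have hcop : Nat.Coprime q W := by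
    rw [Nat.coprime_iff_gcd_eq_one]
    by_contra hne
    obtain ⟨p, hp, hpd⟩ := Nat.exists_prime_and_dvd hne
    have hpq : p ∣ q := hpd.trans (Nat.gcd_dvd_left _ _)
    have hpW : p ∣ W := hpd.trans (Nat.gcd_dvd_right _ _)
    obtain ⟨e, m', hm', hme⟩ := Nat.exists_eq_pow_mul_and_not_dvd (n := m) (by omega) p hp.ne_one
    have he1 : e < p ^ e := Nat.lt_pow_self hp.one_lt
    have he2 : p ^ e ≤ m := Nat.le_of_dvd hm ⟨m', hme⟩
    have heG : e ≤ G := by omega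
    have h1 : p ^ e ∣ W ^ G := (pow_dvd_pow p heG).trans (pow_dvd_pow_of_dvd hpW G)
    have h2 : p ^ e ∣ Nat.gcd (W ^ G) m := Nat.dvd_gcd h1 ⟨m', hme⟩
    have h3 : p ^ e * p ∣ m := by
      rw [hq]
      exact Nat.mul_dvd_mul h2 hpq
    rw [hme] at h3
    have h4 : p ∣ m' := Nat.dvd_of_mul_dvd_mul_left (pow_pos hp.pos e) h3
    exact hm' h4
  refine ⟨q, hqpos, ⟨Nat.gcd (W ^ G) m, by rw [mul_comm]; exact hq⟩, hcop, ?_⟩
  have hQpos : 0 < Q := by
    obtain ⟨n, rfl⟩ := hQ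
    exact pow_pos hW n
  -- W^k = Q * (W^G * t)
  have hWk : W ^ k = Q * (W ^ G * t) := by rw [ht, mul_assoc]
  rw [hWk, Nat.lcm_mul_left]
  rw [mul_assoc]
  congr 1
  have htk : W ^ G * t ∣ W ^ k := ⟨Q, by rw [hWk]; ring⟩
  have hc2 : Nat.Coprime q (W ^ G * t) := Nat.Coprime.coprime_dvd_right htk (hcop.pow_right k)
  have hgd : Nat.gcd (W ^ G) m ∣ W ^ G * t := (Nat.gcd_dvd_left _ _).trans (Dvd.intro _ rfl)
  apply Nat.dvd_antisymm
  · apply Nat.lcm_dvd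
    · exact Dvd.intro _ rfl
    · rw [hq]
      exact Nat.mul_dvd_mul hgd dvd_rfl
  · apply Nat.Coprime.mul_dvd_of_dvd_of_dvd hc2.symm
    · exact Nat.dvd_lcm_left _ _
    · exact (Dvd.intro_left _ hq.symm).trans (Nat.dvd_lcm_right _ _)

theorem trans_pair (d : Par) (eps bet : ℝ) (w : ℕ) (hd : d.Valid eps bet w) (K : ℝ) (hK : 1 ≤ K)
    (G : ℕ) (hG : 1 ≤ G) (tau : ℝ) (ht : 0 < tau) (ht1 : tau ≤ 1) (th : ℝ) (hth : 0 < th)
    (n : ℕ) (hn : d.Q * d.W ^ G ∣ d.W ^ n) :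
    ∀ᶠ H : ℕ in atTop, ∀ x y : Fin 4 → ℤ, x ∈ d.GG K (Bf H) → y ∈ d.GG K (Bf H) →
      mg x y ≤ G → tau * (Bf H : ℝ) ^ 2 ≤ (dl x y : ℝ) →
      ∃ q : ℕ, 0 < q ∧ q ∣ mg x y ∧ Nat.Coprime q d.W ∧
        Lev th (d.W ^ n * q) H *
          (Set.ncard {A | A ∈ d.Cl d.rho H ∧ F A x = 0 ∧ F A y = 0} : ℝ) ≤
          (Set.ncard {A | A ∈ d.Cl (d.rho + 1100 * th / tau) H ∧ F A x = 0 ∧
            ((d.W : ℤ) ^ n) ∣ F A y ∧ |((F A y : ℤ) : ℝ)| ≤ th * H * (Bf H : ℝ) ^ 3} : ℝ) := by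
  have hQpos : (0 : ℝ) < d.Q := by exact_mod_cast hd.Q_pos
  have hWpos : 0 < d.W := hd.W_pos
  have hsmall := Bf_small (600 * d.Q * K ^ 2 * tau / (76 * th))
  have hBH := Bf_tendsto.eventually_ge_atTop 1
  filter_upwards [hsmall, hBH, Filter.eventually_ge_atTop 1] with H h1 h2 h3
  intro x y hx hy hmG hdl
  have hHpos : (0 : ℝ) < H := by exact_mod_cast h3
  have hBpos' : (0 : ℝ) < Bf H := by
    have : (H : ℝ) ≤ Bf H := by
      rw [le_div_iff₀ hHpos] at h2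
      linarith
    linarith
  have hBpos : 1 ≤ Bf H := by
    have : 0 < Bf H := by exact_mod_cast hBpos'
    omega
  set B := Bf H with hB
  have hdlpos' : (0 : ℝ) < dl x y := lt_of_lt_of_le (by positivity) hdl
  have hdlpos : 0 < dl x y := by exact_mod_cast hdlpos'
  have hmpos : 0 < mg x y := mg_pos_of_dl_pos x y hdlpos
  obtain ⟨q, hqpos, hqm, hqW, hlcm⟩ := cofactor d.W d.Q n G hWpos hd.hens.2.1 hn (mg x y) hmpos hmG
  refine ⟨q, hqpos, hqm, hqW, ?_⟩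
  obtain ⟨i0, hi0⟩ := hd.xi_eq
  have hbx := mem_XX_bounds d eps bet w hd B x hx.1
  have hby := mem_XX_bounds d eps bet w hd B y hy.1
  -- the modulus
  set M : ℕ := d.W ^ n * q with hM
  have hMpos : 0 < M := Nat.mul_pos (pow_pos hWpos n) hqpos
  have hMpos' : (0 : ℝ) < M := by exact_mod_cast hMpos
  have hQm : d.Q * mg x y ∣ M := by
    rw [← hlcm]
    exact Nat.dvd_lcm_right _ _
  obtain ⟨u, hu⟩ := hQm
  set N : ℕ := ⌊th * H * (B : ℝ) ^ 3 / M⌋₊ with hN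
  have hex : ∀ j : ℤ, |j| ≤ N → ∃ t : Idx → ℤ, F t x = 0 ∧ F t y = M * j ∧
      (∀ m, (d.Q : ℤ) ∣ t m) ∧ ∀ m, |(t m : ℝ)| ≤ 1100 * th / tau * H := by
    intro j hj
    have hjM : |(M : ℝ) * j| ≤ th * H * (B : ℝ) ^ 3 := by
      rw [abs_mul, abs_of_pos hMpos']
      have hj' : |(j : ℝ)| ≤ N := by exact_mod_cast hj
      have hN' : (N : ℝ) ≤ th * H * (B : ℝ) ^ 3 / M := Nat.floor_le (by positivity)
      calc (M : ℝ) * |(j : ℝ)| ≤ M * (th * H * (B : ℝ) ^ 3 / M) := by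
            apply mul_le_mul_of_nonneg_left (hj'.trans hN') hMpos'.le
        _ = th * H * (B : ℝ) ^ 3 := by field_simp
    obtain ⟨t, ht0, hts, htb⟩ := short_pair B hBpos x y hx.2.1 hy.2.1 (K * (B : ℝ) ^ (1 / 3 : ℝ))
      hx.2.2 hy.2.2 i0 ((hbx i0).2 hi0) ((hby i0).2 hi0) (fun i => (hbx i).1)
      (fun i => (hby i).1) hdlpos ((mg x y : ℤ) * (u * j)) (Dvd.intro _ rfl)
    refine ⟨fun m => d.Q * t m, ?_, ?_, fun m => Dvd.intro _ rfl, ?_⟩
    · rw [F_smul, ht0, mul_zero]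
    · rw [F_smul, hts, hu]
      push_cast
      ring
    · intro m
      have hmu : (K * (B : ℝ) ^ (1 / 3 : ℝ)) ^ 2 = K ^ 2 * (B : ℝ) ^ (2 / 3 : ℝ) := by
        rw [mul_pow]
        congr 1
        rw [← Real.rpow_natCast ((B : ℝ) ^ (1 / 3 : ℝ)) 2, ← Real.rpow_mul hBpos'.le]
        norm_num
      have h5 := htb m
      rw [hmu] at h5
      push_cast
      rw [abs_mul, abs_of_pos hQpos]
      have h6 : (d.Q : ℝ) * |(t m : ℝ)| ≤ d.Q * (1024 * |(((mg x y : ℤ) * (u * j) : ℤ) : ℝ)| /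
          (B * dl x y) + 600 * (K ^ 2 * (B : ℝ) ^ (2 / 3 : ℝ))) :=
        mul_le_mul_of_nonneg_left h5 hQpos.le
      refine h6.trans ?_
      have h7 : (d.Q : ℝ) * |(((mg x y : ℤ) * (u * j) : ℤ) : ℝ)| = |(M : ℝ) * j| := by
        rw [hu]
        push_cast
        rw [← abs_of_pos hQpos, ← abs_mul, abs_of_pos hQpos]
        congr 1
        ring
      have h8 : (d.Q : ℝ) * (1024 * |(((mg x y : ℤ) * (u * j) : ℤ) : ℝ)| / (B * dl x y)) ≤
          1024 * th / tau * H := by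
        have : (d.Q : ℝ) * (1024 * |(((mg x y : ℤ) * (u * j) : ℤ) : ℝ)| / (B * dl x y)) =
            1024 * |(M : ℝ) * j| / (B * dl x y) := by
          rw [← h7]; ring
        rw [this]
        rw [div_le_iff₀ (by positivity)]
        calc 1024 * |(M : ℝ) * j| ≤ 1024 * (th * H * (B : ℝ) ^ 3) := by
              apply mul_le_mul_of_nonneg_left hjM (by norm_num)
          _ = 1024 * th / tau * H * (B * (tau * (B : ℝ) ^ 2)) := by
              field_simp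
          _ ≤ 1024 * th / tau * H * (B * dl x y) := by
              apply mul_le_mul_of_nonneg_left _ (by positivity)
              apply mul_le_mul_of_nonneg_left hdl hBpos'.le
      have h9 : (d.Q : ℝ) * (600 * (K ^ 2 * (B : ℝ) ^ (2 / 3 : ℝ))) ≤ 76 * th / tau * H := by
        have h10 : (600 * d.Q * K ^ 2 * tau / (76 * th)) * (B : ℝ) ^ (2 / 3 : ℝ) *
            (76 * th / tau) ≤ H * (76 * th / tau) :=
          mul_le_mul_of_nonneg_right h1 (by positivity)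
        have h11 : (600 * d.Q * K ^ 2 * tau / (76 * th)) * (B : ℝ) ^ (2 / 3 : ℝ) *
            (76 * th / tau) = (d.Q : ℝ) * (600 * (K ^ 2 * (B : ℝ) ^ (2 / 3 : ℝ))) := by
          field_simp
        rw [h11] at h10
        linarith
      calc (d.Q : ℝ) * (1024 * |(((mg x y : ℤ) * (u * j) : ℤ) : ℝ)| / (B * dl x y) +
          600 * (K ^ 2 * (B : ℝ) ^ (2 / 3 : ℝ)))
          = (d.Q : ℝ) * (1024 * |(((mg x y : ℤ) * (u * j) : ℤ) : ℝ)| / (B * dl x y)) +
            (d.Q : ℝ) * (600 * (K ^ 2 * (B : ℝ) ^ (2 / 3 : ℝ))) := by ring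
        _ ≤ 1024 * th / tau * H + 76 * th / tau * H := add_le_add h8 h9
        _ = 1100 * th / tau * H := by ring
  choose! T hT using hex
  set S1 : Set (Idx → ℤ) := {A | A ∈ d.Cl d.rho H ∧ F A x = 0 ∧ F A y = 0} with hS1
  set S2 : Set (Idx → ℤ) := {A | A ∈ d.Cl (d.rho + 1100 * th / tau) H ∧ F A x = 0 ∧
            ((d.W : ℤ) ^ n) ∣ F A y ∧ |((F A y : ℤ) : ℝ)| ≤ th * H * (B : ℝ) ^ 3} with hS2
  have hS2fin : S2.Finite := (Cl_finite d _ H).subset fun A hA => hA.1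
  have hS1fin : S1.Finite := (Cl_finite d _ H).subset fun A hA => hA.1
  have hcard : (S1 ×ˢ (Set.Icc (-(N : ℤ)) N)).ncard ≤ S2.ncard := by
    refine Set.ncard_le_ncard_of_injOn (fun p => fun m => p.1 m + T p.2 m) ?_ ?_ hS2fin
    · rintro ⟨A, j⟩ ⟨hA, hj⟩
      have hj' : |j| ≤ (N : ℤ) := abs_le.mpr ⟨hj.1, hj.2⟩
      obtain ⟨hT1, hT2, hT3, hT4⟩ := hT j hj'
      refine ⟨⟨?_, ?_⟩, ?_, ?_, ?_⟩
      · intro m
        have ha := hA.1.1 m
        have hb := hT4 m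
        have : ((A m + T j m : ℤ) : ℝ) - H * d.AC m = ((A m : ℝ) - H * d.AC m) + T j m := by
          push_cast; ring
        show |((A m + T j m : ℤ) : ℝ) - H * d.AC m| ≤ _
        rw [this]
        calc |((A m : ℝ) - H * d.AC m) + T j m| ≤ |(A m : ℝ) - H * d.AC m| + |(T j m : ℝ)| :=
              abs_add_le _ _
          _ ≤ d.rho * H + 1100 * th / tau * H := add_le_add ha hb
          _ = (d.rho + 1100 * th / tau) * H := by ring
      · intro m
        have ha := hA.1.2 m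
        show (d.Q : ℤ) ∣ A m + T j m - d.A0 m
        have : A m + T j m - d.A0 m = (A m - d.A0 m) + T j m := by ring
        rw [this]
        exact dvd_add ha (hT3 m)
      · show F (fun m => A m + T j m) x = 0
        rw [F_add, hA.2.1, hT1, add_zero]
      · show ((d.W : ℤ) ^ n) ∣ F (fun m => A m + T j m) y
        rw [F_add, hA.2.2, hT2, zero_add, hM]
        push_cast
        exact ⟨q * j, by ring⟩
      · show |((F (fun m => A m + T j m) y : ℤ) : ℝ)| ≤ th * H * (B : ℝ) ^ 3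
        rw [F_add, hA.2.2, hT2, zero_add]
        push_cast
        rw [abs_mul, abs_of_pos hMpos']
        have hj'' : |(j : ℝ)| ≤ N := by exact_mod_cast hj'
        have hN' : (N : ℝ) ≤ th * H * (B : ℝ) ^ 3 / M := Nat.floor_le (by positivity)
        calc (M : ℝ) * |(j : ℝ)| ≤ M * (th * H * (B : ℝ) ^ 3 / M) := by
              apply mul_le_mul_of_nonneg_left (hj''.trans hN') hMpos'.le
          _ = th * H * (B : ℝ) ^ 3 := by field_simp
    · rintro ⟨A, j⟩ ⟨hA, hj⟩ ⟨A', j'⟩ ⟨hA', hj'⟩ heq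
      simp only at heq hA hA' hj hj'
      have hj1 : |j| ≤ (N : ℤ) := abs_le.mpr ⟨hj.1, hj.2⟩
      have hj2 : |j'| ≤ (N : ℤ) := abs_le.mpr ⟨hj'.1, hj'.2⟩
      have h5 : F (fun m => A m + T j m) y = F (fun m => A' m + T j' m) y := by rw [heq]
      rw [F_add, F_add, hA.2.2, hA'.2.2, (hT j hj1).2.1, (hT j' hj2).2.1, zero_add, zero_add] at h5
      have hMne : (M : ℤ) ≠ 0 := by exact_mod_cast hMpos.ne'
      have hjj : j = j' := mul_left_cancel₀ hMne h5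
      subst hjj
      have : A = A' := by
        funext m
        have := congrFun heq m
        linarith
      rw [this]
  rw [Set.ncard_prod] at hcard
  have hI : (Set.Icc (-(N : ℤ)) N).ncard = 2 * N + 1 := by
    rw [← Finset.coe_Icc, Set.ncard_coe_finset, Int.card_Icc]
    omega
  rw [hI] at hcard
  have hLev : Lev th M H = ((2 * N + 1 : ℕ) : ℝ) := by
    rw [Lev, hN, hB]
    push_cast
    rfl
  rw [hLev]
  have : (S1.ncard : ℝ) * ((2 * N + 1 : ℕ) : ℝ) ≤ S2.ncard := by exact_mod_cast hcard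
  linarith

end CubicHP
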