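import Pool.Agent.Lib.MP_e426f4_ag.Minors
import Pool.Agent.Lib.MP_e426f4_ag.Heights
import Pool.Agent.Lib.MP_e426f4_ag.NLoc
import Pool.Agent.Lib.MP_e426f4_ag.FirstUpper
import Pool.Agent.Lib.MP_e426f4_ag.TransPair

/-! Main pairs of points. -/

namespace CubicHP

open Finset Filter Topology

private theorem s2m_count {α β : Type*} (C0 C1 : Finset α) (GF : Finset β) (e l : α → β → Prop)
    (m : β → β → ℕ) (good : β → β → Prop) [∀ A x, Decidable (e A x)] [∀ A x, Decidable (l A x)]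
    [∀ x y, Decidable (good x y)] (QQ : Finset ℕ) (c : ℝ) (hc : 0 ≤ c) (b : ℕ → ℝ)
    (h1 : ∀ x ∈ GF, ∀ y ∈ GF, good x y → ∃ q ∈ QQ, q ∣ m x y ∧
      ((C0.filter (fun A => e A x ∧ e A y)).card : ℝ) ≤
        c * q * ((C1.filter (fun A => e A x ∧ l A y)).card : ℝ))
    (h2 : ∀ A ∈ C1, ∀ x ∈ GF, e A x → ∀ q ∈ QQ,
      ((GF.filter (fun y => q ∣ m x y ∧ l A y)).card : ℝ) ≤ b q) :
    (((C0 ×ˢ (GF ×ˢ GF)).filter
      (fun t => e t.1 t.2.1 ∧ e t.1 t.2.2 ∧ good t.2.1 t.2.2)).card : ℝ) ≤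
      c * (∑ q ∈ QQ, (q : ℝ) * b q) * (((C1 ×ˢ GF).filter (fun p => e p.1 p.2)).card : ℝ) := by
  have e1 : (((C0 ×ˢ (GF ×ˢ GF)).filter
      (fun t => e t.1 t.2.1 ∧ e t.1 t.2.2 ∧ good t.2.1 t.2.2)).card : ℝ) =
      ∑ x ∈ GF, ∑ y ∈ GF, if good x y then
        ((C0.filter (fun A => e A x ∧ e A y)).card : ℝ) else 0 := by
    rw [Finset.card_filter]
    push_cast
    rw [Finset.sum_product, Finset.sum_comm, Finset.sum_product]
    refine Finset.sum_congr rfl fun x _ => Finset.sum_congr rfl fun y _ => ?_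
    by_cases hg : good x y
    · rw [if_pos hg, Finset.card_filter]
      push_cast
      refine Finset.sum_congr rfl fun A _ => ?_
      simp only [hg, and_true]
    · rw [if_neg hg]
      refine Finset.sum_eq_zero fun A _ => ?_
      simp only [hg, and_false, if_false]
  have e2 : ∀ x ∈ GF, ∀ y ∈ GF, (if good x y then
        ((C0.filter (fun A => e A x ∧ e A y)).card : ℝ) else 0) ≤
      ∑ q ∈ QQ, ∑ A ∈ C1, c * q * (if (e A x) then (if (q ∣ m x y ∧ l A y) then 1 else 0) else 0) := by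
    intro x hx y hy
    have hnn : ∀ q ∈ QQ, 0 ≤ ∑ A ∈ C1, c * (q : ℝ) *
        (if (e A x) then (if (q ∣ m x y ∧ l A y) then 1 else 0) else 0) := by
      intro q _
      refine Finset.sum_nonneg fun A _ => ?_
      refine mul_nonneg (mul_nonneg hc (Nat.cast_nonneg q)) ?_
      split_ifs <;> norm_num
    by_cases hg : good x y
    · rw [if_pos hg]
      obtain ⟨q, hq, hqm, hle⟩ := h1 x hx y hy hg
      refine hle.trans ?_
      refine le_trans (le_of_eq ?_) (Finset.single_le_sum hnn hq)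
      rw [Finset.card_filter, ← Finset.mul_sum]
      push_cast
      congr 1
      refine Finset.sum_congr rfl fun A _ => ?_
      by_cases h3 : e A x <;> by_cases h4 : l A y <;> simp [h3, h4, hqm]
    · rw [if_neg hg]
      exact Finset.sum_nonneg hnn
  rw [e1]
  refine (Finset.sum_le_sum fun x hx => Finset.sum_le_sum fun y hy => e2 x hx y hy).trans ?_
  have e3 : ∑ x ∈ GF, ∑ y ∈ GF, ∑ q ∈ QQ, ∑ A ∈ C1, c * (q : ℝ) *
        (if (e A x) then (if (q ∣ m x y ∧ l A y) then (1 : ℝ) else 0) else 0) =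
      ∑ q ∈ QQ, ∑ A ∈ C1, ∑ x ∈ GF, c * (q : ℝ) * (if (e A x) then
        ((GF.filter (fun y => q ∣ m x y ∧ l A y)).card : ℝ) else 0) := by
    have e4 : ∀ x ∈ GF, (∑ y ∈ GF, ∑ q ∈ QQ, ∑ A ∈ C1, c * (q : ℝ) *
        (if (e A x) then (if (q ∣ m x y ∧ l A y) then (1 : ℝ) else 0) else 0)) =
        ∑ q ∈ QQ, ∑ A ∈ C1, c * (q : ℝ) * (if (e A x) then
        ((GF.filter (fun y => q ∣ m x y ∧ l A y)).card : ℝ) else 0) := by
      intro x _
      rw [Finset.sum_comm]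
      refine Finset.sum_congr rfl fun q _ => ?_
      rw [Finset.sum_comm]
      refine Finset.sum_congr rfl fun A _ => ?_
      rw [← Finset.mul_sum]
      congr 1
      by_cases h3 : e A x
      · simp only [h3, if_true]
        rw [Finset.card_filter]
        push_cast
        rfl
      · simp only [h3, if_false, Finset.sum_const_zero]
    rw [Finset.sum_congr rfl e4, Finset.sum_comm]
    refine Finset.sum_congr rfl fun q _ => ?_
    rw [Finset.sum_comm]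
  rw [e3]
  have e5 : ∀ q ∈ QQ, ∑ A ∈ C1, ∑ x ∈ GF, c * (q : ℝ) * (if (e A x) then
        ((GF.filter (fun y => q ∣ m x y ∧ l A y)).card : ℝ) else 0) ≤
      c * (q * b q) * (((C1 ×ˢ GF).filter (fun p => e p.1 p.2)).card : ℝ) := by
    intro q hq
    rw [Finset.card_filter]
    push_cast
    rw [Finset.sum_product, Finset.mul_sum]
    refine Finset.sum_le_sum fun A hA => ?_
    rw [Finset.mul_sum]
    refine Finset.sum_le_sum fun x hx => ?_
    by_cases h3 : e A x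
    · rw [if_pos h3, if_pos h3, mul_one, ← mul_assoc]
      exact mul_le_mul_of_nonneg_left (h2 A hA x hx h3 q hq) (mul_nonneg hc (Nat.cast_nonneg q))
    · rw [if_neg h3, if_neg h3, mul_zero, mul_zero]
  refine (Finset.sum_le_sum e5).trans (le_of_eq ?_)
  rw [← Finset.sum_mul, ← Finset.mul_sum]

private theorem s2m_sum (d : Par) (eps bet : ℝ) (w : ℕ) (hd : d.Valid eps bet w) (G : ℕ) :
    ∑ q ∈ (Icc 1 G).filter (fun q => Nat.Coprime q d.W), (1 : ℝ) / (q : ℝ) ^ 2 ≤ 1 + 1 / w := by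
  have hw : 2 ≤ w := hd.w_two
  have hsub : (Icc 1 G).filter (fun q => Nat.Coprime q d.W) ⊆ insert 1 (Ioc w (max w G)) := by
    intro q hq
    rw [Finset.mem_filter, Finset.mem_Icc] at hq
    rw [Finset.mem_insert, Finset.mem_Ioc]
    by_cases h1 : q = 1
    · exact Or.inl h1
    · right
      refine ⟨?_, hq.1.2.trans (le_max_right _ _)⟩
      have hp := Nat.minFac_prime h1
      have hdv := Nat.minFac_dvd q
      have h2 : ¬ (q.minFac ∣ d.W) := fun h => by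
        have := Nat.dvd_gcd hdv h
        rw [hq.2] at this
        exact hp.one_lt.ne' (Nat.dvd_one.1 this)
      rw [hd.W_primes _ hp] at h2
      have := Nat.le_of_dvd (by omega) hdv
      omega
  refine (Finset.sum_le_sum_of_subset_of_nonneg hsub fun q _ _ => by positivity).trans ?_
  rw [Finset.sum_insert (by rw [Finset.mem_Ioc]; omega)]
  have h3 := sum_Ioc_inv_sq_le_sub (α := ℝ) (k := w) (n := max w G) (by omega) (le_max_left _ _)
  have h4 : ∑ q ∈ Ioc w (max w G), (1 : ℝ) / (q : ℝ) ^ 2 =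
      ∑ q ∈ Ioc w (max w G), ((q : ℝ) ^ 2)⁻¹ := Finset.sum_congr rfl fun q _ => one_div _
  rw [h4]
  have h5 : (0 : ℝ) ≤ ((max w G : ℕ) : ℝ)⁻¹ := by positivity
  rw [one_div (w : ℝ)]
  norm_num
  linarith

private theorem s2m_num (e v : ℝ) (he : 0 < e) (he1 : e ≤ 1 / 10) (hv : 0 ≤ v) (hv2 : v ≤ 1 / 2) :
    (1 + 2 * e) * (1 + e) * (1 + v) * ((1 + 8 * e) * (1 + e / 20) ^ 20) ≤
      1 + 40 * e + 3 * v := by
  have h1 : (1 + e / 20) ^ 20 ≤ 1 + e + e ^ 2 := by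
    have h2 : 1 + e / 20 ≤ Real.exp (e / 20) := by
      have := Real.add_one_le_exp (e / 20)
      linarith
    have h3 : (1 + e / 20) ^ 20 ≤ Real.exp (e / 20) ^ 20 := pow_le_pow_left₀ (by positivity) h2 20
    rw [← Real.exp_nat_mul] at h3
    have h4 : ((20 : ℕ) : ℝ) * (e / 20) = e := by push_cast; ring
    rw [h4] at h3
    have h5 := Real.abs_exp_sub_one_sub_id_le (x := e) (by rw [abs_of_pos he]; linarith)
    rw [abs_le] at h5
    linarith
  have h2 : (1 + 8 * e) * (1 + e / 20) ^ 20 ≤ 1 + 10 * e := by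
    calc (1 + 8 * e) * (1 + e / 20) ^ 20 ≤ (1 + 8 * e) * (1 + e + e ^ 2) :=
          mul_le_mul_of_nonneg_left h1 (by positivity)
      _ ≤ 1 + 10 * e := by nlinarith [mul_pos he he, mul_nonneg (mul_nonneg he.le he.le) he.le]
  have h3 : (1 + 2 * e) * (1 + e) ≤ 1 + 32 / 10 * e := by nlinarith
  have h4 : (1 + 2 * e) * (1 + e) * (1 + v) ≤ (1 + 32 / 10 * e) * (1 + v) :=
    mul_le_mul_of_nonneg_right h3 (by positivity)
  calc _ ≤ (1 + 32 / 10 * e) * (1 + v) * (1 + 10 * e) :=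
        mul_le_mul h4 h2 (by positivity) (by positivity)
    _ ≤ 1 + 40 * e + 3 * v := by nlinarith [mul_nonneg he.le hv, mul_nonneg (mul_nonneg he.le he.le) hv]

private theorem s2m_lev (eps th : ℝ) (he : 0 < eps) (M H : ℕ)
    (hy : (1 + 2 * eps) / (2 * eps) ≤ 2 * (th * H * (Bf H : ℝ) ^ 3 / M)) :
    2 * (th * H * (Bf H : ℝ) ^ 3 / M) ≤ (1 + 2 * eps) * Lev th M H := by
  have h1 : th * H * (Bf H : ℝ) ^ 3 / M < (⌊th * H * (Bf H : ℝ) ^ 3 / M⌋₊ : ℝ) + 1 :=
    Nat.lt_floor_add_one _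
  have h2 : 2 * (th * H * (Bf H : ℝ) ^ 3 / M) - 1 ≤ Lev th M H := by
    unfold Lev
    linarith
  rw [div_le_iff₀ (by positivity)] at hy
  have h3 := mul_le_mul_of_nonneg_left h2 (by positivity : (0 : ℝ) ≤ 1 + 2 * eps)
  nlinarith

theorem S2_main (d : Par) (eps bet : ℝ) (w : ℕ) (hd : d.Valid eps bet w) (K : ℝ) (hK : 1 ≤ K)
    (G : ℕ) (hG : 1 ≤ G) (tau : ℝ) (ht : 0 < tau) (ht1 : tau ≤ 1) :
    ∀ᶠ H : ℕ in atTop,
      ((d.TMain K G tau H).ncard : ℝ) ≤ (1 + 40 * eps + 3 / w) * d.TT H ^ 2 * d.Xn H := by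
  have he := hd.eps_pos
  have he1 := hd.eps_le
  have hbet := hd.bet_pos
  have hkap := hd.kap_pos
  have hrho := hd.rho_pos
  have hrho1 := hd.rho_le
  have hW := hd.W_pos
  have hQ := hd.Q_pos
  have hP := hd.P_pos
  have hw : 2 ≤ w := hd.w_two
  have hWr : (0 : ℝ) < d.W := by exact_mod_cast hW
  have hQr : (0 : ℝ) < d.Q := by exact_mod_cast hQ
  have hPr : (0 : ℝ) < d.P := by exact_mod_cast hP
  have hgam : 0 < |d.gam| := lt_of_lt_of_le hbet hd.gam_ge
  have hwr : (2 : ℝ) ≤ w := by exact_mod_cast hw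
  obtain ⟨n0, hn0⟩ := hd.hens.2.1
  obtain ⟨th, hth, hth2, hth3⟩ : ∃ th : ℝ, 0 < th ∧ th ≤ d.kap * bet / 4 ∧
      th ≤ eps * d.rho * tau / 22000 :=
    ⟨min (d.kap * bet / 4) (eps * d.rho * tau / 22000), lt_min (by positivity) (by positivity),
      min_le_left _ _, min_le_right _ _⟩
  set n : ℕ := n0 + G with hn
  have hnG : d.Q * d.W ^ G ∣ d.W ^ n := by
    rw [hn, pow_add, ← hn0]
  have hnQ : d.Q ∣ d.W ^ n := (Dvd.intro _ rfl).trans hnG
  set r1 : ℝ := d.rho + 1100 * th / tau with hr1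
  have hr1a : d.rho ≤ r1 := by
    have : 0 ≤ 1100 * th / tau := by positivity
    linarith
  have hr1b : r1 ≤ d.rho * (1 + eps / 20) := by
    have : 1100 * th / tau ≤ eps * d.rho / 20 := by
      rw [div_le_iff₀ ht]
      linarith
    rw [hr1]
    linarith
  have hr1c : r1 ≤ 3 / 2 * d.rho := by
    have : d.rho * (1 + eps / 20) ≤ 3 / 2 * d.rho := by nlinarith
    linarith
  set QQ : Finset ℕ := (Icc 1 G).filter (fun q => Nat.Coprime q d.W) with hQQ
  set T' : ℝ → ℕ → ℝ := fun th B => Vol d.gam d.kap th B * d.Q / ((d.P : ℝ) ^ 4 * (d.W : ℝ) ^ n)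
    with hT'
  -- uniform version of the local count
  obtain ⟨B0, hB0⟩ : ∃ B0 : ℕ, ∀ q ∈ QQ, ∀ B : ℕ, B0 ≤ B → ∀ H : ℝ, 0 < H → ∀ A : Idx → ℤ,
      (∀ m, |(A m : ℝ) - H * d.Ainf m| ≤ 3 * d.rho * H) → (∀ m, (d.Q : ℤ) ∣ A m - d.A0 m) →
      ∀ r : Fin 4 → ℤ,
      (Set.ncard {x : Fin 4 → ℤ | x ∈ d.XX B ∧ ((d.W : ℤ) ^ n) ∣ F A x ∧
          |((F A x : ℤ) : ℝ)| ≤ th * H * (B : ℝ) ^ 3 ∧ ∀ i, (q : ℤ) ∣ x i - r i} : ℝ) ≤
        (1 + eps) * T' th B / (q : ℝ) ^ 4 := by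
    have h1 : ∀ q : ℕ, ∃ B0 : ℕ, q ∈ QQ → ∀ B : ℕ, B0 ≤ B → ∀ H : ℝ, 0 < H → ∀ A : Idx → ℤ,
      (∀ m, |(A m : ℝ) - H * d.Ainf m| ≤ 3 * d.rho * H) → (∀ m, (d.Q : ℤ) ∣ A m - d.A0 m) →
      ∀ r : Fin 4 → ℤ,
      (Set.ncard {x : Fin 4 → ℤ | x ∈ d.XX B ∧ ((d.W : ℤ) ^ n) ∣ F A x ∧
          |((F A x : ℤ) : ℝ)| ≤ th * H * (B : ℝ) ^ 3 ∧ ∀ i, (q : ℤ) ∣ x i - r i} : ℝ) ≤
        (1 + eps) * T' th B / (q : ℝ) ^ 4 := by
      intro q
      by_cases hq : q ∈ QQ
      · have hq' := hq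
        rw [hQQ, Finset.mem_filter, Finset.mem_Icc] at hq'
        obtain ⟨B0, h⟩ := nloc d eps bet w hd th hth hth2 n hnQ q (by omega) hq'.2
        exact ⟨B0, fun _ B hB H hH A h1 h2 r => (h B hB H hH A h1 h2 r).2⟩
      · exact ⟨0, fun h => absurd h hq⟩
    choose f hf using h1
    refine ⟨QQ.sup f, fun q hq B hB => hf q hq B ((Finset.le_sup hq).trans hB)⟩
  have hMpos : (0 : ℝ) < (d.W : ℝ) ^ n := by positivity
  have hGr : (1 : ℝ) ≤ G := by exact_mod_cast hG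
  have hev1 : ∀ᶠ H : ℕ in atTop, (1 : ℝ) ≤ (Bf H : ℝ) / H := Bf_tendsto.eventually_ge_atTop 1
  have hev2 : ∀ᶠ H : ℕ in atTop,
      (1 + 2 * eps) / (2 * eps) * ((d.W : ℝ) ^ n * G / (2 * th)) ≤ (H : ℝ) :=
    tendsto_natCast_atTop_atTop.eventually_ge_atTop _
  filter_upwards [trans_pair d eps bet w hd K hK G hG tau ht ht1 th hth n hnG,
    S1_upper d eps bet w hd K hK r1 hr1a hr1c, hev1, hev2, eventually_ge_atTop B0,
    eventually_ge_atTop 1] with H hTP hS1 hB1 hH2 hHB0 hH1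
  have hHr : (1 : ℝ) ≤ H := by exact_mod_cast hH1
  have hH0 : (0 : ℝ) < H := by linarith
  have hBH : (H : ℝ) ≤ Bf H := by
    rw [one_le_div hH0] at hB1
    exact hB1
  have hBH' : H ≤ Bf H := by exact_mod_cast hBH
  have hB1' : (1 : ℝ) ≤ Bf H := hHr.trans hBH
  have hB3 : (1 : ℝ) ≤ (Bf H : ℝ) ^ 3 := one_le_pow₀ hB1'
  set B := Bf H with hB
  have hBpos : (0 : ℝ) < B := by linarith
  set c : ℝ := (1 + 2 * eps) * ((d.W : ℝ) ^ n / (2 * th * H * (B : ℝ) ^ 3)) with hc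
  have hc0 : 0 < c := by positivity
  -- finsets
  set C0 := (Cl_finite d d.rho H).toFinset with hC0
  set C1 := (Cl_finite d r1 H).toFinset with hC1
  set GF := (GG_finite d K B).toFinset with hGF
  have key := s2m_count C0 C1 GF (fun A x => F A x = 0)
    (fun A y => ((d.W : ℤ) ^ n) ∣ F A y ∧ |((F A y : ℤ) : ℝ)| ≤ th * H * (B : ℝ) ^ 3)
    mg (fun x y => mg x y ≤ G ∧ tau * (B : ℝ) ^ 2 ≤ (dl x y : ℝ)) QQ c hc0.le
    (fun q => q * ((1 + eps) * T' th B / (q : ℝ) ^ 4)) ?_ ?_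
  rotate_left
  · -- transference
    intro x hx y hy hg
    rw [hGF, Set.Finite.mem_toFinset] at hx hy
    obtain ⟨q, hq0, hqm, hqW, hle⟩ := hTP x y hx hy hg.1 hg.2
    have hdl : 0 < dl x y := by
      have h1 : (0 : ℝ) < tau * (B : ℝ) ^ 2 := by positivity
      have h2 := h1.trans_le hg.2
      exact_mod_cast h2
    have hmg : 0 < mg x y := mg_pos_of_dl_pos x y hdl
    have hqG : q ≤ G := (Nat.le_of_dvd hmg hqm).trans hg.1
    refine ⟨q, ?_, hqm, ?_⟩
    · rw [hQQ, Finset.mem_filter, Finset.mem_Icc]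
      exact ⟨⟨hq0, hqG⟩, hqW⟩
    · have e1 : (Set.ncard {A | A ∈ d.Cl d.rho H ∧ F A x = 0 ∧ F A y = 0} : ℝ) =
          ((C0.filter (fun A => F A x = 0 ∧ F A y = 0)).card : ℝ) := by
        rw [← Set.ncard_coe_finset]
        congr 2
        ext A
        simp only [Finset.coe_filter, Set.mem_ofPred_eq, hC0, Set.Finite.mem_toFinset]
      have e2 : (Set.ncard {A | A ∈ d.Cl r1 H ∧ F A x = 0 ∧
            ((d.W : ℤ) ^ n) ∣ F A y ∧ |((F A y : ℤ) : ℝ)| ≤ th * H * (B : ℝ) ^ 3} : ℝ) =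
          ((C1.filter (fun A => F A x = 0 ∧ (((d.W : ℤ) ^ n) ∣ F A y ∧
            |((F A y : ℤ) : ℝ)| ≤ th * H * (B : ℝ) ^ 3))).card : ℝ) := by
        rw [← Set.ncard_coe_finset]
        congr 2
        ext A
        simp only [Finset.coe_filter, Set.mem_ofPred_eq, hC1, Set.Finite.mem_toFinset]
      rw [e1, e2] at hle
      have hqr : (0 : ℝ) < q := by exact_mod_cast hq0
      have hqGr : (q : ℝ) ≤ G := by exact_mod_cast hqG
      have hlev := s2m_lev eps th he (d.W ^ n * q) H (by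
        have h1 : (1 + 2 * eps) / (2 * eps) * ((d.W : ℝ) ^ n * q / (2 * th)) ≤
            H * (B : ℝ) ^ 3 := by
          calc (1 + 2 * eps) / (2 * eps) * ((d.W : ℝ) ^ n * q / (2 * th)) ≤
              (1 + 2 * eps) / (2 * eps) * ((d.W : ℝ) ^ n * G / (2 * th)) := by gcongr
            _ ≤ H := hH2
            _ = H * 1 := (mul_one _).symm
            _ ≤ H * (B : ℝ) ^ 3 := mul_le_mul_of_nonneg_left hB3 hH0.le
        push_cast
        rw [mul_div_assoc', ← mul_assoc, ← mul_assoc] at *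
        rw [le_div_iff₀ (by positivity)]
        rw [div_le_iff₀ (by positivity)] at h1
        linarith)
      push_cast at hlev
      have hR0 : (0 : ℝ) ≤ ((C0.filter (fun A => F A x = 0 ∧ F A y = 0)).card : ℝ) :=
        Nat.cast_nonneg _
      have hy0 : (0 : ℝ) < 2 * (th * H * (B : ℝ) ^ 3 / ((d.W : ℝ) ^ n * q)) := by positivity
      have h2 : 2 * (th * H * (B : ℝ) ^ 3 / ((d.W : ℝ) ^ n * q)) *
          ((C0.filter (fun A => F A x = 0 ∧ F A y = 0)).card : ℝ) ≤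
          (1 + 2 * eps) * ((C1.filter (fun A => F A x = 0 ∧ (((d.W : ℤ) ^ n) ∣ F A y ∧
            |((F A y : ℤ) : ℝ)| ≤ th * H * (B : ℝ) ^ 3))).card : ℝ) := by
        calc _ ≤ (1 + 2 * eps) * Lev th (d.W ^ n * q) H *
              ((C0.filter (fun A => F A x = 0 ∧ F A y = 0)).card : ℝ) :=
              mul_le_mul_of_nonneg_right hlev hR0
          _ = (1 + 2 * eps) * (Lev th (d.W ^ n * q) H *
              ((C0.filter (fun A => F A x = 0 ∧ F A y = 0)).card : ℝ)) := by ring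
          _ ≤ _ := mul_le_mul_of_nonneg_left hle (by positivity)
      have h3 : c * q = (1 + 2 * eps) / (2 * (th * H * (B : ℝ) ^ 3 / ((d.W : ℝ) ^ n * q))) := by
        rw [hc]
        field_simp
      rw [h3, div_mul_eq_mul_div, le_div_iff₀ hy0]
      linarith
  · -- local count
    intro A hA x hx hAx q hq
    rw [hGF, Set.Finite.mem_toFinset] at hx
    rw [hC1, Set.Finite.mem_toFinset] at hA
    have hq' := hq
    rw [hQQ, Finset.mem_filter, Finset.mem_Icc] at hq'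
    have hq0 : 0 < q := by omega
    have hAinf : ∀ m, |(A m : ℝ) - H * d.Ainf m| ≤ 3 * d.rho * H := by
      intro m
      have h1 := hA.1 m
      have h2 := hd.AC_near m
      calc |(A m : ℝ) - H * d.Ainf m| = |((A m : ℝ) - H * d.AC m) + H * (d.AC m - d.Ainf m)| := by
            ring_nf
        _ ≤ |(A m : ℝ) - H * d.AC m| + |(H : ℝ) * (d.AC m - d.Ainf m)| := abs_add_le _ _
        _ = |(A m : ℝ) - H * d.AC m| + H * |d.AC m - d.Ainf m| := by
            rw [abs_mul, abs_of_pos hH0]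
        _ ≤ r1 * H + H * d.rho := add_le_add h1 (mul_le_mul_of_nonneg_left h2 hH0.le)
        _ ≤ 3 * d.rho * H := by nlinarith
    set Sl : ℕ → Finset (Fin 4 → ℤ) := fun l => (XX_finite d B).toFinset.filter
      (fun y => ((d.W : ℤ) ^ n) ∣ F A y ∧ |((F A y : ℤ) : ℝ)| ≤ th * H * (B : ℝ) ^ 3 ∧
        ∀ i, (q : ℤ) ∣ y i - (l : ℤ) * x i) with hSl
    have hcov : GF.filter (fun y => q ∣ mg x y ∧ (((d.W : ℤ) ^ n) ∣ F A y ∧
        |((F A y : ℤ) : ℝ)| ≤ th * H * (B : ℝ) ^ 3)) ⊆ (Finset.range q).biUnion Sl := by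
      intro y hy
      rw [Finset.mem_filter, hGF, Set.Finite.mem_toFinset] at hy
      obtain ⟨l, hl⟩ := exists_mod_of_dvd_mg x y hx.2.1 q hy.2.1
      rw [Finset.mem_biUnion]
      have hq0' : (0 : ℤ) < q := by exact_mod_cast hq0
      have h1 := Int.emod_nonneg l hq0'.ne'
      have h2 := Int.emod_lt_of_pos l hq0'
      refine ⟨(l % q).toNat, ?_, ?_⟩
      · rw [Finset.mem_range]
        omega
      · rw [hSl]
        simp only [Finset.mem_filter, Set.Finite.mem_toFinset]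
        refine ⟨hy.1.1, hy.2.2.1, hy.2.2.2, fun i => ?_⟩
        rw [Int.toNat_of_nonneg h1]
        have h3 : (q : ℤ) ∣ l - l % q := Int.dvd_self_sub_emod
        have h4 : y i - l % q * x i = (y i - l * x i) + (l - l % q) * x i := by ring
        rw [h4]
        exact dvd_add (hl i) (h3.mul_right _)
    have hcard : ∀ l ∈ Finset.range q, ((Sl l).card : ℝ) ≤ (1 + eps) * T' th B / (q : ℝ) ^ 4 := by
      intro l _
      have h1 := hB0 q hq B (hHB0.trans hBH') H hH0 A hAinf hA.2 (fun i => (l : ℤ) * x i)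
      refine le_trans (le_of_eq ?_) h1
      rw [← Set.ncard_coe_finset]
      congr 2
      ext y
      simp only [hSl, Finset.coe_filter, Set.mem_ofPred_eq, Set.Finite.mem_toFinset]
    calc ((GF.filter (fun y => q ∣ mg x y ∧ (((d.W : ℤ) ^ n) ∣ F A y ∧
        |((F A y : ℤ) : ℝ)| ≤ th * H * (B : ℝ) ^ 3))).card : ℝ) ≤
        (((Finset.range q).biUnion Sl).card : ℝ) := by exact_mod_cast Finset.card_le_card hcov
      _ ≤ ∑ l ∈ Finset.range q, ((Sl l).card : ℝ) := by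
        have := Finset.card_biUnion_le (s := Finset.range q) (t := Sl)
        exact_mod_cast this
      _ ≤ ∑ l ∈ Finset.range q, (1 + eps) * T' th B / (q : ℝ) ^ 4 := Finset.sum_le_sum hcard
      _ = q * ((1 + eps) * T' th B / (q : ℝ) ^ 4) := by
        rw [Finset.sum_const, Finset.card_range, nsmul_eq_mul]
  -- final computation
  have eL : ((d.TMain K G tau H).ncard : ℝ) = (((C0 ×ˢ (GF ×ˢ GF)).filter
      (fun t => F t.1 t.2.1 = 0 ∧ F t.1 t.2.2 = 0 ∧ (mg t.2.1 t.2.2 ≤ G ∧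
        tau * (B : ℝ) ^ 2 ≤ (dl t.2.1 t.2.2 : ℝ)))).card : ℝ) := by
    rw [← Set.ncard_coe_finset]
    congr 2
    ext t
    simp only [Par.TMain, Finset.coe_filter, Finset.mem_product, Set.mem_ofPred_eq, hC0, hGF,
      Set.Finite.mem_toFinset]
    tauto
  have eR : ((d.Pairs r1 K H).ncard : ℝ) =
      (((C1 ×ˢ GF).filter (fun p => F p.1 p.2 = 0)).card : ℝ) := by
    rw [← Set.ncard_coe_finset]
    congr 2
    ext t
    simp only [Par.Pairs, Finset.coe_filter, Finset.mem_product, Set.mem_ofPred_eq, hC1, hGF,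
      Set.Finite.mem_toFinset]
    tauto
  rw [eL]
  refine key.trans ?_
  rw [← eR]
  have hT'nn : 0 ≤ T' th B := by
    simp only [hT', Vol]
    positivity
  have hsum : ∑ q ∈ QQ, (q : ℝ) * (q * ((1 + eps) * T' th B / (q : ℝ) ^ 4)) ≤
      (1 + eps) * T' th B * (1 + 1 / w) := by
    have h1 : ∀ q ∈ QQ, (q : ℝ) * (q * ((1 + eps) * T' th B / (q : ℝ) ^ 4)) =
        (1 + eps) * T' th B * (1 / (q : ℝ) ^ 2) := by
      intro q hq
      rw [hQQ, Finset.mem_filter, Finset.mem_Icc] at hq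
      have : (q : ℝ) ≠ 0 := by
        have : q ≠ 0 := by omega
        exact_mod_cast this
      field_simp
    rw [Finset.sum_congr rfl h1, ← Finset.mul_sum]
    exact mul_le_mul_of_nonneg_left (s2m_sum d eps bet w hd G) (by positivity)
  have hcT : c * T' th B = (1 + 2 * eps) * d.TT H := by
    simp only [hc, hT', Vol, Par.TT, ← hB]
    field_simp
    ring
  have hTT0 : 0 ≤ d.TT H := by
    simp only [Par.TT]
    positivity
  have hX : (2 * r1 * H / d.Q) ^ 20 ≤ (1 + eps / 20) ^ 20 * d.Xn H := by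
    simp only [Par.Xn]
    rw [← mul_pow]
    refine pow_le_pow_left₀ (by positivity) ?_ 20
    rw [mul_div_assoc', div_le_div_iff_of_pos_right hQr]
    nlinarith
  have hXn0 : 0 ≤ d.Xn H := by
    simp only [Par.Xn]
    positivity
  have hPb : ((d.Pairs r1 K H).ncard : ℝ) ≤
      (1 + 8 * eps) * (1 + eps / 20) ^ 20 * (d.TT H * d.Xn H) := by
    refine hS1.trans ?_
    calc (1 + 8 * eps) * d.TT H * (2 * r1 * H / d.Q) ^ 20 ≤
        (1 + 8 * eps) * d.TT H * ((1 + eps / 20) ^ 20 * d.Xn H) :=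
          mul_le_mul_of_nonneg_left hX (by positivity)
      _ = _ := by ring
  have hP0 : (0 : ℝ) ≤ ((d.Pairs r1 K H).ncard : ℝ) := Nat.cast_nonneg _
  calc c * (∑ q ∈ QQ, (q : ℝ) * (q * ((1 + eps) * T' th B / (q : ℝ) ^ 4))) *
        ((d.Pairs r1 K H).ncard : ℝ) ≤
      c * ((1 + eps) * T' th B * (1 + 1 / w)) * ((d.Pairs r1 K H).ncard : ℝ) :=
        mul_le_mul_of_nonneg_right (mul_le_mul_of_nonneg_left hsum hc0.le) hP0
    _ = (c * T' th B) * ((1 + eps) * (1 + 1 / w)) * ((d.Pairs r1 K H).ncard : ℝ) := by ring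
    _ = (1 + 2 * eps) * d.TT H * ((1 + eps) * (1 + 1 / w)) * ((d.Pairs r1 K H).ncard : ℝ) := by
        rw [hcT]
    _ ≤ (1 + 2 * eps) * d.TT H * ((1 + eps) * (1 + 1 / w)) *
        ((1 + 8 * eps) * (1 + eps / 20) ^ 20 * (d.TT H * d.Xn H)) :=
        mul_le_mul_of_nonneg_left hPb (by positivity)
    _ = ((1 + 2 * eps) * (1 + eps) * (1 + 1 / w) * ((1 + 8 * eps) * (1 + eps / 20) ^ 20)) *
        (d.TT H ^ 2 * d.Xn H) := by ring
    _ ≤ (1 + 40 * eps + 3 * (1 / w)) * (d.TT H ^ 2 * d.Xn H) := by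
        refine mul_le_mul_of_nonneg_right (s2m_num eps (1 / w) he he1 (by positivity) ?_)
          (by positivity)
        exact one_div_le_one_div_of_le two_pos hwr
    _ = (1 + 40 * eps + 3 / w) * d.TT H ^ 2 * d.Xn H := by ring

end CubicHP
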