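import Pool.Agent.Lib.MP_e426f4_ag.Defs
import Pool.Agent.Lib.MP_e426f4_ag.Basic
import Pool.Agent.Lib.MP_e426f4_ag.RealCount
import Pool.Agent.Lib.MP_e426f4_ag.HensLocal
import Pool.Agent.Lib.MP_e426f4_ag.SecondMoment

/-! Module CT2: the class theorem. -/

namespace CubicHP

open Finset Filter Topology

theorem class_thm (w : ℕ) (hw : 2 ≤ w) (bet : ℝ) (hb : 0 < bet) (hb1 : bet ≤ 1) :
    ∃ rho0 : ℝ, 0 < rho0 ∧ rho0 ≤ 1 ∧ ∀ rho : ℝ, 0 < rho → rho ≤ rho0 → ∀ k : ℕ, 1 ≤ k →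
      ∀ A0 : Idx → ℤ,
      (∀ p : ℕ, p.Prime → p ≤ w → ∃ x : Fin 4 → ℤ, (∃ i, ¬ (p : ℤ) ∣ x i) ∧
        ((p : ℤ) ^ (2 * k)) ∣ F A0 x ∧ ∃ j, ¬ ((p : ℤ) ^ k ∣ D A0 x j)) →
      ∀ (AC Ainf : Idx → ℝ) (xi : Fin 4 → ℝ) (j : Fin 4), (∀ m, |Ainf m| ≤ 1) →
      (∀ m, |AC m - Ainf m| ≤ rho) → (∀ i, |xi i| ≤ 1) → (∃ i, |xi i| = 1) →
      F Ainf xi = 0 → bet ≤ |D Ainf xi j| →
      ∀ᶠ H : ℕ in atTop,
        (Set.ncard {A : Idx → ℤ | (∀ m, |(A m : ℝ) - H * AC m| ≤ rho * H) ∧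
          (∀ m, ((primorial w : ℤ) ^ (2 * k)) ∣ A m - A0 m) ∧ ¬ Soluble A} : ℝ) ≤
          30 / w * (2 * rho * H / (primorial w : ℝ) ^ (2 * k)) ^ 20 := by
  have hw0 : (0 : ℝ) < w := by
    have : 0 < w := by omega
    exact_mod_cast this
  have hw2 : (2 : ℝ) ≤ w := by exact_mod_cast hw
  set eps : ℝ := 1 / (10 * w) with heps
  have heps0 : 0 < eps := by positivity
  have heps1 : eps ≤ 1 / 10 := by
    rw [heps]
    exact one_div_le_one_div_of_le (by norm_num) (by linarith)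
  obtain ⟨kap, hkap, hkap1, rho0, hrho0, hrho01, hRC⟩ := real_count eps bet heps0 heps1 hb hb1
  refine ⟨rho0, hrho0, hrho01, fun rho hrho hrho' k hk A0 hloc AC Ainf xi j hA hAC hxi hxi1 hF hD => ?_⟩
  obtain ⟨P, x0, hP, hH⟩ := hens_of_local w k hw hk A0 hloc
  set d : Par := ⟨Ainf, AC, xi, j, kap, rho, primorial w, P, primorial w ^ (2 * k), A0, x0⟩ with hd
  have hWp : 0 < primorial w := primorial_pos w
  have hvalid : d.Valid eps bet w := by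
    refine ⟨heps0, heps1, hb, hb1, hw, hkap, hkap1, hrho, hrho'.trans hrho01, hA, hAC, hxi, hxi1, hD,
      hRC rho hrho hrho' Ainf xi j hA hxi hxi1 hF hD, hWp, ?_, pow_pos hWp _, hP, hH⟩
    intro p hp
    show p ∣ primorial w ↔ p ≤ w
    unfold primorial
    rw [Prime.dvd_finsetProd_iff hp.prime]
    constructor
    · rintro ⟨q, hq, hpq⟩
      rw [Finset.mem_filter, Finset.mem_range] at hq
      rw [Nat.prime_dvd_prime_iff_eq hp hq.2] at hpq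
      omega
    · intro hpw
      exact ⟨p, Finset.mem_filter.mpr ⟨Finset.mem_range.mpr (by omega), hp⟩, dvd_rfl⟩
  have h := second_moment d eps bet w hvalid
  refine h.mono fun H hH => ?_
  have e1 : {A : Idx → ℤ | (∀ m, |(A m : ℝ) - H * AC m| ≤ rho * H) ∧
          (∀ m, ((primorial w : ℤ) ^ (2 * k)) ∣ A m - A0 m) ∧ ¬ Soluble A} =
      {A | A ∈ d.Cl d.rho H ∧ ¬ Soluble A} := by
    ext A
    simp only [Par.Cl, hd, ← and_assoc]
    push_cast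
    rfl
  rw [e1]
  refine hH.trans ?_
  have e2 : d.Xn H = (2 * rho * H / (primorial w : ℝ) ^ (2 * k)) ^ 20 := by
    unfold Par.Xn
    rw [hd]
    push_cast
    rfl
  rw [e2]
  refine mul_le_mul_of_nonneg_right ?_ (Even.pow_nonneg (by decide) _)
  rw [heps]
  have : 100 * (1 / (10 * (w : ℝ))) = 10 / w := by field_simp; norm_num
  rw [this, ← add_div]
  exact div_le_div_of_nonneg_right (by norm_num) hw0.le

end CubicHP
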