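import Mathlib

/-!
# Cubic surfaces over `ℚ`: definitions

A cubic form in four variables is given by its coefficient vector `A : Idx → R`,
`F A x = ∑_{a ≤ b ≤ c} A_{abc} x_a x_b x_c`.
-/

namespace CubicHP

open Finset

/-- Indices of the twenty cubic monomials in four variables: triples `a ≤ b ≤ c`. -/
abbrev Idx : Type := {t : Fin 4 × Fin 4 × Fin 4 // t.1 ≤ t.2.1 ∧ t.2.1 ≤ t.2.2}

section ring
variable {R : Type*} [CommRing R]

/-- The monomial `x_a x_b x_c`. -/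
def mon (x : Fin 4 → R) (t : Idx) : R := x t.1.1 * x t.1.2.1 * x t.1.2.2

/-- The cubic form `∑_{a ≤ b ≤ c} A_{abc} x_a x_b x_c`. -/
def F (A : Idx → R) (x : Fin 4 → R) : R := ∑ t, A t * mon x t

/-- The partial derivative of the monomial `x_a x_b x_c` with respect to `x_j`. -/
def dmon (x : Fin 4 → R) (j : Fin 4) (t : Idx) : R :=
  (if t.1.1 = j then x t.1.2.1 * x t.1.2.2 else 0)
    + (if t.1.2.1 = j then x t.1.1 * x t.1.2.2 else 0)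
    + (if t.1.2.2 = j then x t.1.1 * x t.1.2.1 else 0)

/-- The partial derivative of the cubic form `F A` with respect to `x_j`. -/
def D (A : Idx → R) (x : Fin 4 → R) (j : Fin 4) : R := ∑ t, A t * dmon x j t

/-- The index of the monomial `x_a x_b x_c` (the sorted triple). -/
def mk3 (a b c : Fin 4) : Idx :=
  ⟨(min a (min b c), max (min a b) (min (max a b) c), max a (max b c)), by
    constructor
    · simp only [le_max_iff, le_min_iff, min_le_iff]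
      omega
    · simp only [le_max_iff, max_le_iff, min_le_iff]
      omega⟩

/-- The coefficient vector of the product of the three linear forms `l, m, n`. -/
def T3 (l m n : Fin 4 → R) : Idx → R :=
  fun t => ∑ a, ∑ b, ∑ c, if mk3 a b c = t then l a * m b * n c else 0

end ring

/-- Primitive integer vectors. -/
def Prim (x : Fin 4 → ℤ) : Prop := ∃ c : Fin 4 → ℤ, ∑ i, c i * x i = 1

/-- `2 × 2` minors of the pair `x, y`. -/
def minor (x y : Fin 4 → ℤ) (a b : Fin 4) : ℤ := x a * y b - x b * y a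

/-- The greatest common divisor of the `2 × 2` minors. -/
def mg (x y : Fin 4 → ℤ) : ℕ :=
  (univ : Finset (Fin 4 × Fin 4)).gcd fun p => (minor x y p.1 p.2).natAbs

/-- The largest `2 × 2` minor. -/
def dl (x y : Fin 4 → ℤ) : ℕ :=
  (univ : Finset (Fin 4 × Fin 4)).sup fun p => (minor x y p.1 p.2).natAbs

/-- `x` is orthogonal to three linearly independent integer vectors of size `≤ μ`. -/
def Ortho (μ : ℝ) (x : Fin 4 → ℤ) : Prop :=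
  ∃ l : Fin 3 → Fin 4 → ℤ, LinearIndependent ℝ (fun k : Fin 3 => fun i => (l k i : ℝ)) ∧
    (∀ k, ∑ i, l k i * x i = 0) ∧ ∀ k i, |(l k i : ℝ)| ≤ μ

/-- Well-rounded points of size `B`. -/
def Good (K : ℝ) (B : ℕ) (x : Fin 4 → ℤ) : Prop := Ortho (K * (B : ℝ) ^ (1 / 3 : ℝ)) x

/-- The box `[-n, n]^4`. -/
noncomputable def box4 (n : ℕ) : Finset (Fin 4 → ℤ) := Fintype.piFinset fun _ => Icc (-(n : ℤ)) n

/-- The box `[-H, H]^20` of coefficient vectors. -/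
noncomputable def box (H : ℕ) : Finset (Idx → ℤ) := Fintype.piFinset fun _ => Icc (-(H : ℤ)) H

/-- The cubic surface has a rational point. -/
def Soluble (A : Idx → ℤ) : Prop :=
  ∃ x : Fin 4 → ℚ, x ≠ 0 ∧ F (fun t => (A t : ℚ)) x = 0

/-- The cubic surface is everywhere locally soluble. -/
def ELS (A : Idx → ℤ) : Prop :=
  (∃ x : Fin 4 → ℝ, x ≠ 0 ∧ F (fun t => (A t : ℝ)) x = 0) ∧
    ∀ (p : ℕ) [Fact p.Prime], ∃ x : Fin 4 → ℚ_[p], x ≠ 0 ∧ F (fun t => (A t : ℚ_[p])) x = 0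

/-- The cubic surface is smooth. -/
def Smooth (A : Idx → ℤ) : Prop :=
  ∀ x : Fin 4 → ℂ, x ≠ 0 → ∃ j, D (fun t => (A t : ℂ)) x j ≠ 0

/-! ### Parameters of a local class -/

/-- Data of a local class: a real approximation and congruence conditions. -/
structure Par where
  /-- real form with a nonsingular zero `xi` -/
  Ainf : Idx → ℝ
  /-- centre of the cube of forms -/
  AC : Idx → ℝ
  /-- real zero -/
  xi : Fin 4 → ℝ
  /-- direction of large derivative -/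
  j : Fin 4
  /-- half side of the box of points -/
  kap : ℝ
  /-- half side of the cube of forms -/
  rho : ℝ
  /-- product of the small primes -/
  W : ℕ
  /-- modulus for the points -/
  P : ℕ
  /-- modulus for the forms -/
  Q : ℕ
  /-- residue class of the forms -/
  A0 : Idx → ℤ
  /-- residue class of the points -/
  x0 : Fin 4 → ℤ

/-- the derivative of the real form at the real zero -/
def Par.gam (d : Par) : ℝ := D d.Ainf d.xi d.j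

/-- Forms of the class in the cube with centre `H * AC` and half side `r * H`. -/
def Par.Cl (d : Par) (r : ℝ) (H : ℕ) : Set (Idx → ℤ) :=
  {A | (∀ m, |(A m : ℝ) - H * d.AC m| ≤ r * H) ∧ ∀ m, (d.Q : ℤ) ∣ A m - d.A0 m}

/-- The real box of integer points around `B * xi`. -/
def Reg (xi : Fin 4 → ℝ) (j : Fin 4) (kap : ℝ) (B : ℕ) : Set (Fin 4 → ℤ) :=
  {x | ∀ i, |(x i : ℝ) - B * xi i| ≤ (if i = j then kap else kap ^ 2) * B}

/-- Points of the class. -/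
def Par.XX (d : Par) (B : ℕ) : Set (Fin 4 → ℤ) :=
  {x | x ∈ Reg d.xi d.j d.kap B ∧ ∀ i, (d.P : ℤ) ∣ x i - d.x0 i}

/-- Primitive well-rounded points of the class. -/
def Par.GG (d : Par) (K : ℝ) (B : ℕ) : Set (Fin 4 → ℤ) :=
  {x | x ∈ d.XX B ∧ Prim x ∧ Good K B x}

/-- The height of the points: `H^(5/4)`. -/
noncomputable def Bf (H : ℕ) : ℕ := ⌊(H : ℝ) ^ (5 / 4 : ℝ)⌋₊

/-- Real part of the main term: `V = 16 κ^6 θ B^4 / |γ|`. -/
noncomputable def Vol (gam kap th : ℝ) (B : ℕ) : ℝ := 16 * kap ^ 6 * th * (B : ℝ) ^ 4 / |gam|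

/-- Real counting property: for all forms near `H * Ainf` the number of points of a residue class
modulo `M` in the box `Reg` with `|F A x| ≤ θ H B^3` is `(1 ± ε) V / M^4`. -/
def RC (Ainf : Idx → ℝ) (xi : Fin 4 → ℝ) (j : Fin 4) (kap rho bet eps : ℝ) : Prop :=
  ∀ th : ℝ, 0 < th → th ≤ kap * bet / 4 → ∀ M : ℕ, 1 ≤ M → ∃ B0 : ℕ, ∀ B : ℕ, B0 ≤ B →
    ∀ H : ℝ, 0 < H → ∀ A : Idx → ℤ, (∀ m, |(A m : ℝ) - H * Ainf m| ≤ 3 * rho * H) →
    ∀ r : Fin 4 → ℤ,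
    (1 - eps) * Vol (D Ainf xi j) kap th B / (M : ℝ) ^ 4 ≤
        (Set.ncard {x : Fin 4 → ℤ | x ∈ Reg xi j kap B ∧ (∀ i, (M : ℤ) ∣ x i - r i) ∧
          |((F A x : ℤ) : ℝ)| ≤ th * H * (B : ℝ) ^ 3} : ℝ) ∧
      (Set.ncard {x : Fin 4 → ℤ | x ∈ Reg xi j kap B ∧ (∀ i, (M : ℤ) ∣ x i - r i) ∧
          |((F A x : ℤ) : ℝ)| ≤ th * H * (B : ℝ) ^ 3} : ℝ) ≤
        (1 + eps) * Vol (D Ainf xi j) kap th B / (M : ℝ) ^ 4

/-- Hensel data: on the class `A ≡ A0 (Q)`, `x ≡ x0 (P)` the values `F A x` are divisible by `Q`,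
and along the direction `P * h` the quotient moves with unit speed at all primes dividing `W`. -/
def Hens (P Q W : ℕ) (A0 : Idx → ℤ) (x0 : Fin 4 → ℤ) : Prop :=
  P ∣ Q ∧ (∃ n : ℕ, Q = W ^ n) ∧
  (∀ A : Idx → ℤ, (∀ m, (Q : ℤ) ∣ A m - A0 m) → ∀ u : Fin 4 → ℤ,
    (Q : ℤ) ∣ F A (fun i => x0 i + P * u i)) ∧
  (∀ u : Fin 4 → ℤ, ∃ c : Fin 4 → ℤ, IsCoprime (∑ i, c i * (x0 i + P * u i)) (W : ℤ)) ∧
  ∃ h g : Fin 4 → ℤ, IsCoprime (∑ i, g i * h i) (W : ℤ) ∧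
    ∀ A : Idx → ℤ, (∀ m, (Q : ℤ) ∣ A m - A0 m) → ∀ u : Fin 4 → ℤ, ∀ c : ℤ, ∃ e : ℤ,
      IsCoprime e (W : ℤ) ∧
      F A (fun i => x0 i + P * (u i + c * h i)) - F A (fun i => x0 i + P * u i) = Q * c * e

/-- Validity of the data of a class. -/
structure Par.Valid (d : Par) (eps bet : ℝ) (w : ℕ) : Prop where
  eps_pos : 0 < eps
  eps_le : eps ≤ 1 / 10
  bet_pos : 0 < bet
  bet_le : bet ≤ 1
  w_two : 2 ≤ w
  kap_pos : 0 < d.kap
  kap_le : d.kap ≤ 1 / 10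
  rho_pos : 0 < d.rho
  rho_le : d.rho ≤ 1
  Ainf_le : ∀ m, |d.Ainf m| ≤ 1
  AC_near : ∀ m, |d.AC m - d.Ainf m| ≤ d.rho
  xi_le : ∀ i, |d.xi i| ≤ 1
  xi_eq : ∃ i, |d.xi i| = 1
  gam_ge : bet ≤ |d.gam|
  rc : RC d.Ainf d.xi d.j d.kap d.rho bet eps
  W_pos : 0 < d.W
  W_primes : ∀ p : ℕ, p.Prime → (p ∣ d.W ↔ p ≤ w)
  Q_pos : 0 < d.Q
  P_pos : 0 < d.P
  hens : Hens d.P d.Q d.W d.A0 d.x0

/-- Expected number of points: `T = 8 κ^6 Q B / (|γ| P^4 H)`. -/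
noncomputable def Par.TT (d : Par) (H : ℕ) : ℝ :=
  8 * d.kap ^ 6 * d.Q * (Bf H : ℝ) / (|d.gam| * (d.P : ℝ) ^ 4 * H)

/-- Expected number of forms: `X = (2 ρ H / Q)^20`. -/
noncomputable def Par.Xn (d : Par) (H : ℕ) : ℝ := (2 * d.rho * H / d.Q) ^ 20

/-- pairs (form, point) -/
def Par.Pairs (d : Par) (r K : ℝ) (H : ℕ) : Set ((Idx → ℤ) × (Fin 4 → ℤ)) :=
  {q | q.1 ∈ d.Cl r H ∧ q.2 ∈ d.GG K (Bf H) ∧ F q.1 q.2 = 0}

/-- triples (form, two distinct points) with bad pair of points -/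
def Par.TBad (d : Par) (K : ℝ) (G : ℕ) (tau : ℝ) (H : ℕ) :
    Set ((Idx → ℤ) × (Fin 4 → ℤ) × (Fin 4 → ℤ)) :=
  {q | q.1 ∈ d.Cl d.rho H ∧ q.2.1 ∈ d.GG K (Bf H) ∧ q.2.2 ∈ d.GG K (Bf H) ∧
    F q.1 q.2.1 = 0 ∧ F q.1 q.2.2 = 0 ∧ q.2.1 ≠ q.2.2 ∧
    (G < mg q.2.1 q.2.2 ∨ (dl q.2.1 q.2.2 : ℝ) < tau * (Bf H : ℝ) ^ 2)}

/-- triples (form, two points) with good pair of points -/
def Par.TMain (d : Par) (K : ℝ) (G : ℕ) (tau : ℝ) (H : ℕ) :
    Set ((Idx → ℤ) × (Fin 4 → ℤ) × (Fin 4 → ℤ)) :=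
  {q | q.1 ∈ d.Cl d.rho H ∧ q.2.1 ∈ d.GG K (Bf H) ∧ q.2.2 ∈ d.GG K (Bf H) ∧
    F q.1 q.2.1 = 0 ∧ F q.1 q.2.2 = 0 ∧
    mg q.2.1 q.2.2 ≤ G ∧ tau * (Bf H : ℝ) ^ 2 ≤ (dl q.2.1 q.2.2 : ℝ)}

/-- local pairs: forms and points with `W^n ∣ F A x` and `|F A x| ≤ θ H B^3`. -/
def Par.LP (d : Par) (r th : ℝ) (n : ℕ) (S : Set (Fin 4 → ℤ)) (H : ℕ) :
    Set ((Idx → ℤ) × (Fin 4 → ℤ)) :=
  {q | q.1 ∈ d.Cl r H ∧ q.2 ∈ S ∧ ((d.W : ℤ) ^ n) ∣ F q.1 q.2 ∧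
    |((F q.1 q.2 : ℤ) : ℝ)| ≤ th * H * (Bf H : ℝ) ^ 3}

/-- number of multiples of `M` in `[-θ H B^3, θ H B^3]` -/
noncomputable def Lev (th : ℝ) (M H : ℕ) : ℝ := 2 * (⌊th * H * (Bf H : ℝ) ^ 3 / M⌋₊ : ℝ) + 1

/-- the local main term `T' X` -/
noncomputable def Par.MT (d : Par) (th : ℝ) (n H : ℕ) : ℝ :=
  Vol d.gam d.kap th (Bf H) * d.Q / ((d.P : ℝ) ^ 4 * (d.W : ℝ) ^ n) * d.Xn H

/-- the form `x^3 + y^3 + z^3 + w^3 + 10 x^2 y` -/
def Afer : Idx → ℤ := fun t =>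
  if t.1.1 = t.1.2.1 ∧ t.1.2.1 = t.1.2.2 then 1
  else if t.1 = (0, 0, 1) then 10 else 0

/-- sup norm of an integer vector with three coordinates -/
def n3 (z : Fin 3 → ℤ) : ℕ := (univ : Finset (Fin 3)).sup fun k => (z k).natAbs

end CubicHP
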