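import Pool.Agent.Lib.MP_e426f4_ag.Alg

/-! Module EP1: forms with a bad p-adic zero are few. -/

namespace CubicHP

open Finset Filter Topology

private def epe (i : Fin 4) (t : Idx) : ℕ :=
  if t = mk3 i i i then 2 else if ∃ j, t = mk3 i i j then 1 else 0

private theorem sum_epe : ∀ i, ∑ t : Idx, epe i t = 5 := by decide

private theorem epe_le : ∀ i t, epe i t ≤ 2 := by decide

private theorem mk3_iij : ∀ i j, (mk3 i i j).1 = (i, i, j) ∨ (mk3 i i j).1 = (j, i, i) := by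
  decide

private theorem epe_iii : ∀ i, epe i (mk3 i i i) = 2 := by decide

private theorem epe_iij : ∀ i j, j ≠ i → epe i (mk3 i i j) = 1 := by decide

private theorem epe_zero : ∀ i t, t ≠ mk3 i i i → (∀ j, j ≠ i → t ≠ mk3 i i j) → epe i t = 0 := by
  decide

private theorem mk3_inj : ∀ i j j', mk3 i i j = mk3 i i j' → j = j' := by decide

private theorem dmon_iij {R : Type*} [CommRing R] (x : Fin 4 → R) (i j : Fin 4) (hj : j ≠ i) :
    dmon x j (mk3 i i j) = x i * x i := by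
  rcases mk3_iij i j with h | h <;> simp [dmon, h, Ne.symm hj]

private theorem dmon_iij' {R : Type*} [CommRing R] (x : Fin 4 → R) (i j j' : Fin 4) (hj : j ≠ i)
    (hj' : j' ≠ j) : dmon x j (mk3 i i j') = 0 := by
  rcases mk3_iij i j' with h | h <;> simp [dmon, h, Ne.symm hj, hj']

/-- the congruence conditions at a point -/
private def EPc (p k : ℕ) (A : Idx → ℤ) (x : Fin 4 → ℤ) : Prop :=
  ((p : ℤ) ^ (2 * k)) ∣ F A x ∧ ∀ j, (p : ℤ) ^ k ∣ D A x j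

private theorem ep_inj (p k : ℕ) (hp : p.Prime) (x : Fin 4 → ℤ) (i : Fin 4)
    (hi : ¬ (p : ℤ) ∣ x i) (A A' : Idx → ℤ) (hA : EPc p k A x) (hA' : EPc p k A' x)
    (h : ∀ t, A t / (p : ℤ) ^ (k * epe i t) = A' t / (p : ℤ) ^ (k * epe i t)) : A = A' := by
  have hpp : Prime (p : ℤ) := Nat.prime_iff_prime_int.mp hp
  have hcop : ∀ n : ℕ, IsCoprime ((p : ℤ) ^ n) (x i) := fun n =>
    IsCoprime.pow_left (hpp.coprime_iff_not_dvd.mpr hi)
  have hp0 : (0 : ℤ) < p := by exact_mod_cast hp.pos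
  -- equal quotients and congruent: equal
  have key : ∀ (n : ℕ) (a a' : ℤ), a / (p : ℤ) ^ n = a' / (p : ℤ) ^ n →
      (p : ℤ) ^ n ∣ a - a' → a = a' := by
    intro n a a' h1 h2
    have h3 : a % (p : ℤ) ^ n = a' % (p : ℤ) ^ n :=
      Int.emod_eq_emod_iff_emod_sub_eq_zero.mpr (Int.emod_eq_zero_of_dvd h2)
    rw [← Int.mul_ediv_add_emod a ((p : ℤ) ^ n), ← Int.mul_ediv_add_emod a' ((p : ℤ) ^ n), h1, h3]
  -- free coordinates
  have h0 : ∀ t, t ≠ mk3 i i i → (∀ j, j ≠ i → t ≠ mk3 i i j) → A t = A' t := by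
    intro t ht1 ht2
    have := h t
    rw [epe_zero i t ht1 ht2] at this
    simpa using this
  have h1 : ∀ j, j ≠ i → A (mk3 i i j) = A' (mk3 i i j) := by
    intro j hj
    have h2 := h (mk3 i i j)
    rw [epe_iij i j hj, mul_one] at h2
    refine key k _ _ h2 ?_
    have h3 : (p : ℤ) ^ k ∣ D A x j - D A' x j := dvd_sub (hA.2 j) (hA'.2 j)
    have h4 : D A x j - D A' x j = (A (mk3 i i j) - A' (mk3 i i j)) * (x i * x i) := by
      simp only [D, ← Finset.sum_sub_distrib, ← sub_mul]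
      rw [Finset.sum_eq_single (mk3 i i j)]
      · rw [dmon_iij x i j hj]
      · intro t _ ht
        by_cases h5 : t = mk3 i i i
        · rw [h5, dmon_iij' x i j i hj (Ne.symm hj), mul_zero]
        · by_cases h6 : ∀ j', j' ≠ i → t ≠ mk3 i i j'
          · rw [h0 t h5 h6, sub_self, zero_mul]
          · push Not at h6
            obtain ⟨j', -, hj'⟩ := h6
            rw [hj', dmon_iij' x i j j' hj, mul_zero]
            intro h7
            rw [h7] at hj'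
            exact ht hj'
      · intro h5; exact absurd (Finset.mem_univ _) h5
    rw [h4] at h3
    exact ((hcop k).mul_right (hcop k)).dvd_of_dvd_mul_right h3
  have h2 : A (mk3 i i i) = A' (mk3 i i i) := by
    have h2 := h (mk3 i i i)
    rw [epe_iii i, mul_comm k 2] at h2
    refine key (2 * k) _ _ h2 ?_
    have h3 : (p : ℤ) ^ (2 * k) ∣ F A x - F A' x := dvd_sub hA.1 hA'.1
    have h4 : F A x - F A' x = (A (mk3 i i i) - A' (mk3 i i i)) * (x i * x i * x i) := by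
      simp only [F, ← Finset.sum_sub_distrib, ← sub_mul]
      rw [Finset.sum_eq_single (mk3 i i i)]
      · rw [mon_mk3]
      · intro t _ ht
        by_cases h6 : ∀ j', j' ≠ i → t ≠ mk3 i i j'
        · rw [h0 t ht h6, sub_self, zero_mul]
        · push Not at h6
          obtain ⟨j', hj'i, hj'⟩ := h6
          rw [hj', h1 j' hj'i, sub_self, zero_mul]
      · intro h5; exact absurd (Finset.mem_univ _) h5
    rw [h4] at h3
    exact (((hcop (2 * k)).mul_right (hcop (2 * k))).mul_right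
      (hcop (2 * k))).dvd_of_dvd_mul_right h3
  funext t
  by_cases h5 : t = mk3 i i i
  · rw [h5]; exact h2
  · by_cases h6 : ∀ j', j' ≠ i → t ≠ mk3 i i j'
    · exact h0 t h5 h6
    · push Not at h6
      obtain ⟨j', hj'i, hj'⟩ := h6
      rw [hj']; exact h1 j' hj'i

/-- number of quotients -/
private theorem ep_card_Icc (H m : ℕ) (hm : 1 ≤ m) (M : ℕ) (hM : m ≤ M) (hH : 60 * M ≤ 2 * H + 1) :
    ((Finset.Icc (-(H : ℤ) / m) ((H : ℤ) / m)).card : ℝ) ≤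
      (31 / 30 : ℝ) * ((2 * H + 1) / m) := by
  have hm0 : (0 : ℤ) < m := by exact_mod_cast hm
  have hmR : (0 : ℝ) < m := by exact_mod_cast hm
  have h1 : -(H : ℤ) / m ≤ (H : ℤ) / m := Int.ediv_le_ediv hm0 (by omega)
  rw [Int.card_Icc]
  have h2 : (((H : ℤ) / m + 1 - -(H : ℤ) / m).toNat : ℝ)
      = (((H : ℤ) / m + 1 - -(H : ℤ) / m : ℤ) : ℝ) := by
    have h3 : (0 : ℤ) ≤ (H : ℤ) / m + 1 - -(H : ℤ) / m := by omega
    have h4 := Int.toNat_of_nonneg h3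
    exact_mod_cast h4
  rw [h2]
  have h3 : (((H : ℤ) / m : ℤ) : ℝ) ≤ (H : ℝ) / m := by
    rw [le_div_iff₀ hmR]
    have := Int.ediv_mul_le (H : ℤ) hm0.ne'
    exact_mod_cast this
  have h4 : (-(H : ℝ)) / m - 1 ≤ ((-(H : ℤ) / m : ℤ) : ℝ) := by
    have h5 := Int.lt_ediv_add_one_mul_self (-(H : ℤ)) hm0
    have h6 : (-(H : ℝ)) < (((-(H : ℤ) / m : ℤ) : ℝ) + 1) * m := by exact_mod_cast h5
    have h7 : (-(H : ℝ)) / m < (((-(H : ℤ) / m : ℤ) : ℝ) + 1) := by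
      rw [div_lt_iff₀ hmR]; exact h6
    linarith
  push_cast
  have h5 : (2 : ℝ) ≤ (1 / 30 : ℝ) * ((2 * H + 1) / m) := by
    have h6 : (60 : ℝ) ≤ (2 * H + 1) / m := by
      rw [le_div_iff₀ hmR]
      have h7 : (60 * M : ℝ) ≤ 2 * H + 1 := by exact_mod_cast hH
      have h8 : (m : ℝ) ≤ M := by exact_mod_cast hM
      linarith
    linarith
  have h6 : (H : ℝ) / m + 1 - (-(H : ℝ) / m - 1) = (2 * H) / m + 2 := by ring
  have h7 : (2 * H : ℝ) / m ≤ (2 * H + 1) / m := by gcongr; linarith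
  linarith

private theorem ep_count (p k : ℕ) (hp : p.Prime) (x : Fin 4 → ℤ)
    (hx : ∃ i, ¬ (p : ℤ) ∣ x i) (H : ℕ) (hH : 60 * p ^ (2 * k) ≤ 2 * H + 1) :
    (Set.ncard {A : Idx → ℤ | A ∈ box H ∧ EPc p k A x} : ℝ) ≤
      (31 / 30) ^ 20 * (2 * H + 1) ^ 20 / (p : ℝ) ^ (5 * k) := by
  classical
  obtain ⟨i, hi⟩ := hx
  have hp0 : (0 : ℝ) < p := by exact_mod_cast hp.pos
  set Φ : (Idx → ℤ) → (Idx → ℤ) := fun A t => A t / (p : ℤ) ^ (k * epe i t) with hΦ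
  set Bx : Finset (Idx → ℤ) := Fintype.piFinset fun t =>
    Finset.Icc (-(H : ℤ) / ((p ^ (k * epe i t) : ℕ) : ℤ)) ((H : ℤ) / ((p ^ (k * epe i t) : ℕ) : ℤ))
    with hBx
  have h1 : Set.ncard {A : Idx → ℤ | A ∈ box H ∧ EPc p k A x} ≤ Bx.card := by
    rw [← Set.ncard_coe_finset]
    refine Set.ncard_le_ncard_of_injOn Φ ?_ ?_ Bx.finite_toSet
    · intro A hA
      have hA2 := mem_box.mp hA.1
      rw [Finset.mem_coe, hBx, Fintype.mem_piFinset]
      intro t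
      rw [Finset.mem_Icc, hΦ]
      have h3 := abs_le.mp (hA2 t)
      have h4 : (0 : ℤ) < ((p ^ (k * epe i t) : ℕ) : ℤ) := by
        exact_mod_cast pow_pos hp.pos _
      push_cast at h4 ⊢
      exact ⟨Int.ediv_le_ediv h4 h3.1, Int.ediv_le_ediv h4 h3.2⟩
    · intro A hA A' hA' hAA
      exact ep_inj p k hp x i hi A A' hA.2 hA'.2 fun t => congrFun hAA t
  have h2 : (Bx.card : ℝ) ≤ (31 / 30) ^ 20 * (2 * H + 1) ^ 20 / (p : ℝ) ^ (5 * k) := by
    rw [hBx, Fintype.card_piFinset]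
    push_cast
    have h3 : ∏ t : Idx, ((Finset.Icc (-(H : ℤ) / ((p : ℤ) ^ (k * epe i t)))
        ((H : ℤ) / ((p : ℤ) ^ (k * epe i t)))).card : ℝ) ≤
        ∏ t : Idx, ((31 / 30 : ℝ) * ((2 * H + 1) / (p : ℝ) ^ (k * epe i t))) := by
      refine Finset.prod_le_prod (fun t _ => Nat.cast_nonneg _) fun t _ => ?_
      have h4 := ep_card_Icc H (p ^ (k * epe i t)) (Nat.one_le_pow _ _ hp.pos) (p ^ (2 * k))
        (Nat.pow_le_pow_right hp.pos (by
          have := epe_le i t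
          calc k * epe i t ≤ k * 2 := Nat.mul_le_mul_left _ this
            _ = 2 * k := mul_comm _ _)) hH
      push_cast at h4
      exact h4
    refine h3.trans (le_of_eq ?_)
    have hc : (Finset.univ : Finset Idx).card = 20 := by decide
    have h5 : ∏ t : Idx, ((2 * (H : ℝ) + 1) / (p : ℝ) ^ (k * epe i t)) =
        (2 * H + 1) ^ 20 / (p : ℝ) ^ (5 * k) := by
      rw [Finset.prod_div_distrib, Finset.prod_const, Finset.prod_pow_eq_pow_sum,
        ← Finset.mul_sum, sum_epe, hc, mul_comm k 5]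
    rw [Finset.prod_mul_distrib, h5, Finset.prod_const, hc]
    ring
  exact (by exact_mod_cast h1 : (_ : ℝ) ≤ (Bx.card : ℝ)).trans h2

theorem padic_exc (p k : ℕ) (hp : p.Prime) (hk : 1 ≤ k) :
    ∀ᶠ H : ℕ in atTop,
      (Set.ncard {A : Idx → ℤ | A ∈ box H ∧ ∃ x : Fin 4 → ℤ, (∃ i, ¬ (p : ℤ) ∣ x i) ∧
        ((p : ℤ) ^ (2 * k)) ∣ F A x ∧ ∀ j, (p : ℤ) ^ k ∣ D A x j} : ℝ) ≤
        2 / (p : ℝ) ^ k * (2 * H + 1) ^ 20 := by
  classical
  refine Filter.eventually_atTop.mpr ⟨60 * p ^ (2 * k), fun H hH => ?_⟩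
  have hp0 : (0 : ℤ) < p := by exact_mod_cast hp.pos
  have hpR : (0 : ℝ) < p := by exact_mod_cast hp.pos
  set X : Finset (Fin 4 → ℤ) := (Fintype.piFinset fun _ : Fin 4 =>
    Finset.Ico (0 : ℤ) ((p : ℤ) ^ k)).filter fun x => ∃ i, ¬ (p : ℤ) ∣ x i with hX
  have hXcard : (X.card : ℝ) ≤ ((p : ℝ) ^ k) ^ 4 := by
    have h1 : X.card ≤ (p ^ k) ^ 4 := by
      refine (Finset.card_filter_le _ _).trans ?_
      rw [Fintype.card_piFinset]
      simp only [Int.card_Ico, sub_zero, Finset.prod_const, Finset.card_univ, Fintype.card_fin]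
      have : ((p : ℤ) ^ k).toNat = p ^ k := by
        rw [← Nat.cast_pow, Int.toNat_natCast]
      rw [this]
    exact_mod_cast h1
  have hsub : {A : Idx → ℤ | A ∈ box H ∧ ∃ x : Fin 4 → ℤ, (∃ i, ¬ (p : ℤ) ∣ x i) ∧
        ((p : ℤ) ^ (2 * k)) ∣ F A x ∧ ∀ j, (p : ℤ) ^ k ∣ D A x j} ⊆
      ⋃ x ∈ X, {A : Idx → ℤ | A ∈ box H ∧ EPc p k A x} := by
    rintro A ⟨hA, x, ⟨i, hi⟩, hF, hD⟩
    set x' : Fin 4 → ℤ := fun i => x i % (p : ℤ) ^ k with hx'
    have hmod : ∀ i, x i = x' i + (p : ℤ) ^ k * (x i / (p : ℤ) ^ k) := fun i =>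
      (Int.emod_add_mul_ediv _ _).symm
    have hdvd : ∀ i, (p : ℤ) ^ k ∣ x' i - x i := fun i =>
      ⟨-(x i / (p : ℤ) ^ k), by have := hmod i; linear_combination -this⟩
    have hD' : ∀ j, (p : ℤ) ^ k ∣ D A x' j := by
      intro j
      have h1 := D_congr_mod ((p : ℤ) ^ k) A A x' x j (fun m => by simp) hdvd
      have h2 := dvd_add h1 (hD j)
      simpa using h2
    have hF' : (p : ℤ) ^ (2 * k) ∣ F A x' := by
      obtain ⟨r, hr⟩ := F_add_smul A x' (fun i => x i / (p : ℤ) ^ k) ((p : ℤ) ^ k)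
      have h1 : (fun i => x' i + (p : ℤ) ^ k * (x i / (p : ℤ) ^ k)) = x := by
        funext i; exact (hmod i).symm
      rw [h1] at hr
      have h2 : F A x' = F A x - (p : ℤ) ^ k * (∑ j, D A x' j * (x j / (p : ℤ) ^ k))
          - ((p : ℤ) ^ k) ^ 2 * r := by rw [hr]; ring
      rw [h2]
      have h3 : (p : ℤ) ^ (2 * k) = (p : ℤ) ^ k * (p : ℤ) ^ k := by rw [two_mul, pow_add]
      refine dvd_sub (dvd_sub hF ?_) ?_
      · rw [h3]
        exact mul_dvd_mul_left _ (Finset.dvd_sum fun j _ => (hD' j).mul_right _)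
      · rw [h3, ← pow_two]
        exact dvd_mul_right _ _
    have hu : ¬ (p : ℤ) ∣ x' i := by
      intro h1
      apply hi
      have h2 : (p : ℤ) ∣ x' i - x i := (dvd_pow_self _ (by omega)).trans (hdvd i)
      have h3 := dvd_sub h1 h2
      simpa using h3
    refine Set.mem_iUnion₂.mpr ⟨x', ?_, hA, hF', hD'⟩
    rw [hX, Finset.mem_filter, Fintype.mem_piFinset]
    refine ⟨fun i => ?_, i, hu⟩
    rw [Finset.mem_Ico]
    exact ⟨Int.emod_nonneg _ (pow_pos hp0 _).ne', Int.emod_lt_of_pos _ (pow_pos hp0 _)⟩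
  have hfin : ∀ x, {A : Idx → ℤ | A ∈ box H ∧ EPc p k A x}.Finite := fun x =>
    box_finite H fun A => EPc p k A x
  have h1 : (Set.ncard {A : Idx → ℤ | A ∈ box H ∧ ∃ x : Fin 4 → ℤ, (∃ i, ¬ (p : ℤ) ∣ x i) ∧
        ((p : ℤ) ^ (2 * k)) ∣ F A x ∧ ∀ j, (p : ℤ) ^ k ∣ D A x j} : ℝ) ≤
      ∑ x ∈ X, (Set.ncard {A : Idx → ℤ | A ∈ box H ∧ EPc p k A x} : ℝ) := by
    have h2 := Set.ncard_le_ncard hsub (Set.Finite.biUnion X.finite_toSet fun x _ => hfin x)
    have h3 := Finset.set_ncard_biUnion_le X fun x => {A : Idx → ℤ | A ∈ box H ∧ EPc p k A x}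
    exact_mod_cast h2.trans h3
  refine h1.trans ?_
  have h2 : ∑ x ∈ X, (Set.ncard {A : Idx → ℤ | A ∈ box H ∧ EPc p k A x} : ℝ) ≤
      ∑ x ∈ X, ((31 / 30) ^ 20 * (2 * H + 1) ^ 20 / (p : ℝ) ^ (5 * k) : ℝ) := by
    refine Finset.sum_le_sum fun x hx => ep_count p k hp x ?_ H (by omega)
    rw [hX, Finset.mem_filter] at hx
    exact hx.2
  refine h2.trans ?_
  rw [Finset.sum_const, nsmul_eq_mul]
  have h3 : (X.card : ℝ) * ((31 / 30) ^ 20 * (2 * H + 1) ^ 20 / (p : ℝ) ^ (5 * k)) ≤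
      ((p : ℝ) ^ k) ^ 4 * ((31 / 30) ^ 20 * (2 * H + 1) ^ 20 / (p : ℝ) ^ (5 * k)) := by
    gcongr
  refine h3.trans ?_
  have h4 : (p : ℝ) ^ (5 * k) = ((p : ℝ) ^ k) ^ 4 * (p : ℝ) ^ k := by
    rw [← pow_mul, ← pow_add]; congr 1; ring
  have hq : (0 : ℝ) < (p : ℝ) ^ k := pow_pos hpR _
  rw [h4]
  have h5 : ((p : ℝ) ^ k) ^ 4 * ((31 / 30) ^ 20 * (2 * H + 1) ^ 20 / (((p : ℝ) ^ k) ^ 4 * (p : ℝ) ^ k))
      = ((31 / 30) ^ 20) / (p : ℝ) ^ k * (2 * H + 1) ^ 20 := by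
    field_simp
  rw [h5]
  have h6 : ((31 : ℝ) / 30) ^ 20 ≤ 2 := by norm_num
  gcongr

end CubicHP
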