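import Pool.Agent.Lib.MP_e426f4_ag.AlgReal

/-! # CHP-ER: exceptional forms at the real place -/

namespace CubicHP

open Finset Filter

/-- For a fixed point with a coordinate `±1`, few forms of the box have small value and small
derivatives at the point. -/
theorem card_fixed_point (H : ℕ) (eta : Fin 4 → ℝ) (i : Fin 4) (hi : eta i = 1 ∨ eta i = -1)
    (c c0 : ℝ) (hc : 0 ≤ c) (hc0 : 0 ≤ c0) (S : Finset (Idx → ℤ)) (hS : ∀ A ∈ S, A ∈ box H)
    (hD : ∀ A ∈ S, ∀ j, j ≠ i → |D (fun t => (A t : ℝ)) eta j| ≤ c)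
    (hF : ∀ A ∈ S, |F (fun t => (A t : ℝ)) eta| ≤ c0) :
    (S.card : ℝ) ≤ (2 * H + 1) ^ 16 * (2 * c + 1) ^ 3 * (2 * c0 + 1) := by
  classical
  have hi2 : eta i * eta i = 1 := by rcases hi with h | h <;> rw [h] <;> norm_num
  let T : Finset Idx := univ.image fun j => mk3 i i j
  let Pc : (Idx → ℤ) → (Idx → ℤ) := fun A t => if t ∈ T then 0 else A t
  let nn : (Idx → ℤ) → (Fin 4 → ℤ) := fun A j =>
    if j = i then A (mk3 i i i) -
      ⌈-eta i * (F (fun t => (A t : ℝ)) eta - eta i * A (mk3 i i i)) - c0⌉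
    else A (mk3 i i j) - ⌈-(D (fun t => (A t : ℝ)) eta j - A (mk3 i i j)) - c⌉
  let TG : Finset ((Idx → ℤ) × (Fin 4 → ℤ)) :=
    (Fintype.piFinset fun t => if t ∈ T then ({0} : Finset ℤ) else Icc (-(H : ℤ)) H) ×ˢ
    (Fintype.piFinset fun j => if j = i then Icc (0 : ℤ) ⌊2 * c0⌋ else Icc (0 : ℤ) ⌊2 * c⌋)
  -- facts on monomials
  have hinj : ∀ i j j' : Fin 4, mk3 i i j = mk3 i i j' → j = j' := by decide
  have hdm1 : ∀ j, j ≠ i → dmon eta j (mk3 i i j) = 1 := by
    intro j hj
    have h : ∀ (i j : Fin 4), j ≠ i →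
        ((mk3 i i j).1 = (i, i, j) ∨ (mk3 i i j).1 = (j, i, i)) := by decide
    unfold dmon
    rcases h i j hj with h | h <;> rw [h] <;> simp [Ne.symm hj, hi2]
  have hdm0 : ∀ j j', j ≠ i → j' ≠ j → dmon eta j (mk3 i i j') = 0 := by
    intro j j' hj hj'
    have h : ∀ (i j : Fin 4), ((mk3 i i j).1 = (i, i, j) ∨ (mk3 i i j).1 = (j, i, i)) := by decide
    unfold dmon
    rcases h i j' with h | h <;> rw [h] <;> simp [Ne.symm hj, hj']
  have hmon : mon eta (mk3 i i i) = eta i := by
    have h : ∀ (i : Fin 4), (mk3 i i i).1 = (i, i, i) := by decide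
    unfold mon
    rw [h i]
    show eta i * eta i * eta i = eta i
    rw [hi2, one_mul]
  -- rest of D
  have hDrest : ∀ A A' : Idx → ℤ, (∀ t, t ∉ T → A t = A' t) → ∀ j, j ≠ i →
      D (fun t => (A t : ℝ)) eta j - A (mk3 i i j) =
        D (fun t => (A' t : ℝ)) eta j - A' (mk3 i i j) := by
    intro A A' h j hj
    have h1 : D (fun t => (A t : ℝ)) eta j - D (fun t => (A' t : ℝ)) eta j =
        (A (mk3 i i j) : ℝ) - A' (mk3 i i j) := by
      unfold D
      rw [← Finset.sum_sub_distrib, Finset.sum_eq_single (mk3 i i j)]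
      · rw [hdm1 j hj]; ring
      · intro t _ ht
        by_cases htT : t ∈ T
        · obtain ⟨j', -, rfl⟩ := mem_image.1 htT
          have hj' : j' ≠ j := fun h => ht (by rw [h])
          rw [hdm0 j j' hj hj']
          ring
        · show (A t : ℝ) * dmon eta j t - (A' t : ℝ) * dmon eta j t = 0
          rw [h t htT]
          ring
      · intro h; exact absurd (mem_univ _) h
    linarith
  have hFrest : ∀ A A' : Idx → ℤ, (∀ t, t ≠ mk3 i i i → A t = A' t) →
      F (fun t => (A t : ℝ)) eta - eta i * A (mk3 i i i) =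
        F (fun t => (A' t : ℝ)) eta - eta i * A' (mk3 i i i) := by
    intro A A' h
    have h1 : F (fun t => (A t : ℝ)) eta - F (fun t => (A' t : ℝ)) eta =
        eta i * ((A (mk3 i i i) : ℝ) - A' (mk3 i i i)) := by
      unfold F
      rw [← Finset.sum_sub_distrib, Finset.sum_eq_single (mk3 i i i)]
      · rw [hmon]; ring
      · intro t _ ht
        show (A t : ℝ) * mon eta t - (A' t : ℝ) * mon eta t = 0
        rw [h t ht]
        ring
      · intro h; exact absurd (mem_univ _) h
    linarith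
  have hmaps : ∀ A ∈ S, (Pc A, nn A) ∈ TG := by
    intro A hA
    have hbox := mem_box.1 (hS A hA)
    rw [mem_product, Fintype.mem_piFinset, Fintype.mem_piFinset]
    refine ⟨fun t => ?_, fun j => ?_⟩
    · by_cases ht : t ∈ T
      · simp [Pc, ht]
      · simp only [Pc, if_neg ht, Finset.mem_Icc]
        exact abs_le.1 (hbox t)
    · by_cases hj : j = i
      · simp only [nn, if_pos hj, Finset.mem_Icc]
        have h1 := abs_le.1 (hF A hA)
        set Fv := F (fun t => (A t : ℝ)) eta
        set a : ℝ := (A (mk3 i i i) : ℝ) with ha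
        have h2 : |eta i * Fv| ≤ c0 := by
          rw [abs_mul]
          have : |eta i| = 1 := by rcases hi with h | h <;> rw [h] <;> norm_num
          rw [this, one_mul]
          exact hF A hA
        have h3 := abs_le.1 h2
        have h4 : -eta i * (Fv - eta i * a) = a - eta i * Fv := by
          have : -eta i * (Fv - eta i * a) = (eta i * eta i) * a - eta i * Fv := by ring
          rw [this, hi2, one_mul]
        rw [h4]
        constructor
        · rw [sub_nonneg, Int.ceil_le]
          rw [← ha]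
          linarith
        · rw [Int.le_floor]
          push_cast
          have h5 := Int.le_ceil (a - eta i * Fv - c0)
          linarith
      · simp only [nn, if_neg hj, Finset.mem_Icc]
        have h1 := abs_le.1 (hD A hA j hj)
        set Dv := D (fun t => (A t : ℝ)) eta j
        constructor
        · rw [sub_nonneg, Int.ceil_le]
          linarith
        · rw [Int.le_floor]
          push_cast
          have h5 := Int.le_ceil (-(Dv - (A (mk3 i i j) : ℝ)) - c)
          linarith
  have hinjOn : Set.InjOn (fun A => (Pc A, nn A)) (S : Set (Idx → ℤ)) := by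
    intro A _ A' _ h
    simp only [Prod.mk.injEq] at h
    obtain ⟨hP, hn⟩ := h
    have h1 : ∀ t, t ∉ T → A t = A' t := by
      intro t ht
      have := congrFun hP t
      simpa [Pc, ht] using this
    have h2 : ∀ j, j ≠ i → A (mk3 i i j) = A' (mk3 i i j) := by
      intro j hj
      have := congrFun hn j
      simp only [nn, if_neg hj] at this
      rw [hDrest A A' h1 j hj] at this
      linarith
    have h3 : ∀ t, t ≠ mk3 i i i → A t = A' t := by
      intro t ht
      by_cases htT : t ∈ T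
      · obtain ⟨j, -, rfl⟩ := mem_image.1 htT
        exact h2 j fun h => ht (by rw [h])
      · exact h1 t htT
    have h4 : A (mk3 i i i) = A' (mk3 i i i) := by
      have := congrFun hn i
      simp only [nn, if_true] at this
      rw [hFrest A A' h3] at this
      linarith
    funext t
    by_cases ht : t = mk3 i i i
    · rw [ht]; exact h4
    · exact h3 t ht
  have hcard := Finset.card_le_card_of_injOn (fun A => (Pc A, nn A)) hmaps hinjOn
  have hTGcard : TG.card = (2 * H + 1) ^ 16 *
      ((⌊2 * c⌋ + 1).toNat ^ 3 * (⌊2 * c0⌋ + 1).toNat) := by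
    rw [card_product, Fintype.card_piFinset, Fintype.card_piFinset]
    refine congrArg₂ (· * ·) ?_ ?_
    · have h1 : ∀ t : Idx, (if t ∈ T then ({0} : Finset ℤ) else Icc (-(H : ℤ)) H).card =
          if t ∈ T then 1 else (2 * H + 1) := by
        intro t
        split_ifs
        · simp
        · rw [Int.card_Icc]; omega
      simp only [h1]
      rw [Finset.prod_ite, Finset.prod_const_one, one_mul, Finset.prod_const]
      refine congrArg (fun n => (2 * H + 1) ^ n) ?_
      have h2 : ∀ i : Fin 4, (univ.filter fun t : Idx => t ∉ (univ.image fun j => mk3 i i j)).card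
          = 16 := by decide
      exact h2 i
    · rw [← Finset.mul_prod_erase univ _ (mem_univ i), if_pos rfl, mul_comm]
      refine congrArg₂ (· * ·) ?_ ?_
      · have h4 : (univ.erase i).card = 3 := by
          rw [card_erase_of_mem (mem_univ i), card_univ, Fintype.card_fin]
        have h5 : ∀ j ∈ univ.erase i, (if j = i then Icc (0 : ℤ) ⌊2 * c0⌋ else
            Icc (0 : ℤ) ⌊2 * c⌋).card = (⌊2 * c⌋ + 1).toNat := by
          intro j hj
          rw [if_neg (Finset.ne_of_mem_erase hj), Int.card_Icc, sub_zero]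
        rw [Finset.prod_congr rfl h5, Finset.prod_const, h4]
      · rw [Int.card_Icc, sub_zero]
  have hfl : ∀ z : ℝ, 0 ≤ z → (((⌊z⌋ + 1).toNat : ℕ) : ℝ) ≤ z + 1 := by
    intro z hz
    have h1 : (0 : ℤ) ≤ ⌊z⌋ := Int.floor_nonneg.2 hz
    have h2 : (((⌊z⌋ + 1).toNat : ℕ) : ℝ) = ((⌊z⌋ + 1 : ℤ) : ℝ) := by
      have h3 : (((⌊z⌋ + 1).toNat : ℕ) : ℤ) = ⌊z⌋ + 1 := Int.toNat_of_nonneg (by omega)
      exact_mod_cast congrArg (fun n : ℤ => (n : ℝ)) h3
    rw [h2]
    push_cast
    linarith [Int.floor_le z]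
  have h6 : (S.card : ℝ) ≤ (TG.card : ℝ) := by exact_mod_cast hcard
  refine h6.trans ?_
  rw [hTGcard]
  push_cast
  rw [mul_assoc]
  refine mul_le_mul_of_nonneg_left ?_ (by positivity)
  refine mul_le_mul ?_ (hfl _ (by positivity)) (by positivity) (by positivity)
  exact pow_le_pow_left₀ (by positivity) (hfl _ (by positivity)) 3

/-- truncation towards zero -/
theorem exists_trunc (y : ℝ) : ∃ m : ℤ, |(m : ℝ)| ≤ |y| ∧ |y - m| ≤ 1 := by
  rcases le_or_gt 0 y with hy | hy
  · refine ⟨⌊y⌋, ?_, ?_⟩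
    · rw [abs_of_nonneg hy, abs_of_nonneg (by exact_mod_cast Int.floor_nonneg.2 hy)]
      exact Int.floor_le y
    · rw [abs_le]
      constructor <;> linarith [Int.floor_le y, Int.lt_floor_add_one y]
  · refine ⟨⌈y⌉, ?_, ?_⟩
    · rw [abs_of_neg hy]
      have h1 : ⌈y⌉ ≤ 0 := Int.ceil_le.2 (by simpa using hy.le)
      have h2 : (⌈y⌉ : ℝ) ≤ 0 := by exact_mod_cast h1
      rw [abs_of_nonpos h2]
      linarith [Int.le_ceil y]
    · rw [abs_le]
      constructor <;> linarith [Int.le_ceil y, Int.ceil_lt_add_one y]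

/-- CHP-ER: few forms have a real zero at which all derivatives are small. -/
theorem real_exc : ∃ C : ℝ, 0 < C ∧ ∀ bet : ℝ, 0 < bet → bet ≤ 1 → ∀ᶠ H : ℕ in atTop,
    (Set.ncard {A : Idx → ℤ | A ∈ box H ∧ ∃ xi : Fin 4 → ℝ, (∀ i, |xi i| ≤ 1) ∧
      (∃ i, |xi i| = 1) ∧ F (fun t => (A t : ℝ)) xi = 0 ∧
      ∀ j, |D (fun t => (A t : ℝ)) xi j| < bet * H} : ℝ) ≤ C * bet ^ 2 * (2 * H + 1) ^ 20 := by
  classical
  refine ⟨216 * (363 ^ 3 * 169), by norm_num, ?_⟩
  intro bet hb hb1
  filter_upwards [eventually_ge_atTop (⌈1 / bet ^ 2⌉₊ + 1)] with H hH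
  have hHR : 1 ≤ bet ^ 2 * H := by
    have h1 : (1 / bet ^ 2 : ℝ) ≤ H := by
      refine (Nat.le_ceil _).trans ?_
      exact_mod_cast (Nat.le_succ _).trans hH
    rw [div_le_iff₀ (by positivity)] at h1
    linarith
  have hH1 : (1 : ℝ) ≤ H := by
    have : 1 ≤ H := by omega
    exact_mod_cast this
  -- the net
  let R : ℤ := ⌊1 / bet⌋
  have hRnn : 0 ≤ R := Int.floor_nonneg.2 (by positivity)
  let MM : Fin 4 → Finset (Fin 4 → ℤ) := fun i =>
    Fintype.piFinset fun k => if k = i then ({1, -1} : Finset ℤ) else Icc (-R) R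
  let et : Fin 4 → (Fin 4 → ℤ) → (Fin 4 → ℝ) := fun i m k => if k = i then (m k : ℝ) else bet * m k
  let SS : Fin 4 → (Fin 4 → ℤ) → Finset (Idx → ℤ) := fun i m =>
    (box H).filter fun A => (∀ j, j ≠ i → |D (fun t => (A t : ℝ)) (et i m) j| ≤ 181 * (bet * H)) ∧
      |F (fun t => (A t : ℝ)) (et i m)| ≤ 84 * (bet ^ 2 * H)
  have hMM : ∀ i, ((MM i).card : ℝ) ≤ 54 / bet ^ 3 := by
    intro i
    have h1 : (MM i).card ≤ 2 * ((2 * R + 1).toNat) ^ 3 := by
      rw [Fintype.card_piFinset, ← Finset.mul_prod_erase univ _ (mem_univ i), if_pos rfl]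
      refine Nat.mul_le_mul card_le_two ?_
      have h4 : (univ.erase i).card = 3 := by
        rw [card_erase_of_mem (mem_univ i), card_univ, Fintype.card_fin]
      have h5 : ∀ j ∈ univ.erase i, (if j = i then ({1, -1} : Finset ℤ) else
          Icc (-R) R).card = (2 * R + 1).toNat := by
        intro j hj
        rw [if_neg (Finset.ne_of_mem_erase hj), Int.card_Icc]
        congr 1
        ring
      rw [Finset.prod_congr rfl h5, Finset.prod_const, h4]
    have h2 : (((2 * R + 1).toNat : ℕ) : ℝ) ≤ 3 / bet := by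
      have h3 : (((2 * R + 1).toNat : ℕ) : ℤ) = 2 * R + 1 := Int.toNat_of_nonneg (by omega)
      have h4 : (((2 * R + 1).toNat : ℕ) : ℝ) = 2 * (R : ℝ) + 1 := by
        exact_mod_cast congrArg (fun n : ℤ => (n : ℝ)) h3
      rw [h4]
      have h5 : (R : ℝ) ≤ 1 / bet := Int.floor_le _
      have h6 : 1 ≤ 1 / bet := by rw [le_div_iff₀ hb]; linarith
      have h7 : 3 / bet = 3 * (1 / bet) := by ring
      rw [h7]
      linarith
    calc ((MM i).card : ℝ) ≤ ((2 * ((2 * R + 1).toNat) ^ 3 : ℕ) : ℝ) := by exact_mod_cast h1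
      _ = 2 * (((2 * R + 1).toNat : ℕ) : ℝ) ^ 3 := by push_cast; ring
      _ ≤ 2 * (3 / bet) ^ 3 := by
          refine mul_le_mul_of_nonneg_left (pow_le_pow_left₀ (by positivity) h2 3) (by norm_num)
      _ = 54 / bet ^ 3 := by rw [div_pow]; ring
  have hSS : ∀ i, ∀ m ∈ MM i, ((SS i m).card : ℝ) ≤
      363 ^ 3 * 169 * bet ^ 5 * (2 * H + 1) ^ 20 := by
    intro i m hm
    rw [Fintype.mem_piFinset] at hm
    have hmi := hm i
    rw [if_pos rfl] at hmi
    simp only [mem_insert, mem_singleton] at hmi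
    have h1 := card_fixed_point H (et i m) i (by
      rcases hmi with h | h <;> simp [et, h]) (181 * (bet * H)) (84 * (bet ^ 2 * H))
      (by positivity) (by positivity) (SS i m) (fun A hA => (mem_filter.1 hA).1)
      (fun A hA => (mem_filter.1 hA).2.1) (fun A hA => (mem_filter.1 hA).2.2)
    refine h1.trans ?_
    have h2 : 2 * (181 * (bet * H)) + 1 ≤ 363 * (bet * H) := by
      have : bet ^ 2 * H ≤ bet * H := by
        refine mul_le_mul_of_nonneg_right ?_ (by positivity)
        nlinarith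
      linarith
    have h3 : 2 * (84 * (bet ^ 2 * H)) + 1 ≤ 169 * (bet ^ 2 * H) := by linarith
    have h4 : (H : ℝ) ≤ 2 * H + 1 := by linarith
    calc (2 * (H : ℝ) + 1) ^ 16 * (2 * (181 * (bet * H)) + 1) ^ 3 * (2 * (84 * (bet ^ 2 * H)) + 1)
        ≤ (2 * (H : ℝ) + 1) ^ 16 * (363 * (bet * (2 * H + 1))) ^ 3 *
          (169 * (bet ^ 2 * (2 * H + 1))) := by
          refine mul_le_mul (mul_le_mul_of_nonneg_left (pow_le_pow_left₀ (by positivity)
            (h2.trans ?_) 3) (by positivity)) (h3.trans ?_) (by positivity) (by positivity)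
          · have : bet * (H : ℝ) ≤ bet * (2 * H + 1) := mul_le_mul_of_nonneg_left h4 hb.le
            linarith
          · have : bet ^ 2 * (H : ℝ) ≤ bet ^ 2 * (2 * H + 1) :=
              mul_le_mul_of_nonneg_left h4 (by positivity)
            linarith
      _ = 363 ^ 3 * 169 * bet ^ 5 * (2 * H + 1) ^ 20 := by ring
  let U : Finset (Idx → ℤ) := univ.biUnion fun i => (MM i).biUnion fun m => SS i m
  have hsub : {A : Idx → ℤ | A ∈ box H ∧ ∃ xi : Fin 4 → ℝ, (∀ i, |xi i| ≤ 1) ∧
      (∃ i, |xi i| = 1) ∧ F (fun t => (A t : ℝ)) xi = 0 ∧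
      ∀ j, |D (fun t => (A t : ℝ)) xi j| < bet * H} ⊆ (U : Set (Idx → ℤ)) := by
    rintro A ⟨hA, xi, hxi, ⟨i, hxii⟩, hF0, hD⟩
    have hAR : ∀ m, |((A m : ℤ) : ℝ)| ≤ H := by
      intro m
      have := mem_box.1 hA m
      exact_mod_cast this
    choose mk hmk1 hmk2 using fun k => exists_trunc (xi k / bet)
    -- the integer vector of the net
    obtain ⟨s, hs, hsx⟩ : ∃ s : ℤ, (s = 1 ∨ s = -1) ∧ (s : ℝ) = xi i := by
      rcases (abs_eq (by norm_num : (0 : ℝ) ≤ 1)).1 hxii with h | h
      · exact ⟨1, Or.inl rfl, by simp [h]⟩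
      · exact ⟨-1, Or.inr rfl, by simp [h]⟩
    let m : Fin 4 → ℤ := fun k => if k = i then s else mk k
    have hclose : ∀ k, |et i m k - xi k| ≤ bet := by
      intro k
      by_cases hk : k = i
      · simp only [et, m, if_pos hk]
        rw [hsx, hk, sub_self, abs_zero]
        exact hb.le
      · simp only [et, m, if_neg hk]
        have h1 := hmk2 k
        have h2 : bet * (mk k : ℝ) - xi k = -(bet * (xi k / bet - mk k)) := by
          field_simp
          ring
        rw [h2, abs_neg, abs_mul, abs_of_pos hb]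
        calc bet * |xi k / bet - mk k| ≤ bet * 1 := mul_le_mul_of_nonneg_left h1 hb.le
          _ = bet := mul_one _
    rw [mem_coe]
    simp only [U, mem_biUnion, mem_univ, true_and]
    refine ⟨i, m, ?_, ?_⟩
    · rw [Fintype.mem_piFinset]
      intro k
      by_cases hk : k = i
      · simp only [m, if_pos hk, mem_insert, mem_singleton]
        exact hs
      · simp only [m, if_neg hk, Finset.mem_Icc]
        have h1 := hmk1 k
        have h2 : |xi k / bet| ≤ 1 / bet := by
          rw [abs_div, abs_of_pos hb]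
          exact div_le_div_of_nonneg_right (hxi k) hb.le
        have h3 := abs_le.1 (h1.trans h2)
        constructor
        · have : -mk k ≤ R := Int.le_floor.2 (by push_cast; linarith [h3.1])
          linarith
        · exact Int.le_floor.2 h3.2
    · rw [mem_filter]
      refine ⟨hA, fun j _ => ?_, ?_⟩
      · have h1 := D_taylor_real (fun t => (A t : ℝ)) xi (fun k => et i m k - xi k) j H 1 bet hAR
          hxi hclose
        have h2 : (fun k => xi k + (et i m k - xi k)) = et i m := by funext k; ring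
        rw [h2] at h1
        have h3 := abs_le.1 h1
        have h4 := abs_lt.1 (hD j)
        have h5 : 20 * (H : ℝ) * (6 * 1 * bet + 3 * bet ^ 2) ≤ 180 * (bet * H) := by
          have : bet ^ 2 * (H : ℝ) ≤ bet * H := by
            refine mul_le_mul_of_nonneg_right ?_ (by positivity)
            nlinarith
          nlinarith
        rw [abs_le]
        constructor <;> linarith
      · have h1 := F_taylor_real (fun t => (A t : ℝ)) xi (fun k => et i m k - xi k) H 1 bet hAR
          hxi hclose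
        have h2 : (fun k => xi k + (et i m k - xi k)) = et i m := by funext k; ring
        rw [h2, hF0, sub_zero] at h1
        have h3 : |∑ j, D (fun t => (A t : ℝ)) xi j * (et i m j - xi j)| ≤ 4 * (bet ^ 2 * H) := by
          calc |∑ j, D (fun t => (A t : ℝ)) xi j * (et i m j - xi j)|
              ≤ ∑ j, |D (fun t => (A t : ℝ)) xi j * (et i m j - xi j)| :=
                Finset.abs_sum_le_sum_abs _ _
            _ ≤ ∑ _j : Fin 4, (bet * H) * bet := by
                refine Finset.sum_le_sum fun j _ => ?_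
                rw [abs_mul]
                exact mul_le_mul (hD j).le (hclose j) (abs_nonneg _) (by positivity)
            _ = 4 * (bet ^ 2 * H) := by
                rw [Finset.sum_const, card_univ, Fintype.card_fin, nsmul_eq_mul]
                push_cast
                ring
        have h5 : 20 * (H : ℝ) * (3 * 1 * bet ^ 2 + bet ^ 3) ≤ 80 * (bet ^ 2 * H) := by
          have : bet ^ 3 * (H : ℝ) ≤ bet ^ 2 * H := by
            refine mul_le_mul_of_nonneg_right ?_ (by positivity)
            nlinarith [pow_pos hb 2]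
          nlinarith
        have h6 := abs_le.1 h1
        have h7 := abs_le.1 h3
        rw [abs_le]
        constructor <;> linarith
  have h1 : (Set.ncard {A : Idx → ℤ | A ∈ box H ∧ ∃ xi : Fin 4 → ℝ, (∀ i, |xi i| ≤ 1) ∧
      (∃ i, |xi i| = 1) ∧ F (fun t => (A t : ℝ)) xi = 0 ∧
      ∀ j, |D (fun t => (A t : ℝ)) xi j| < bet * H}) ≤ U.card := by
    rw [← Set.ncard_coe_finset]
    exact Set.ncard_le_ncard hsub (U.finite_toSet)
  have h2 : (U.card : ℝ) ≤ ∑ _i : Fin 4, (54 / bet ^ 3) *
      (363 ^ 3 * 169 * bet ^ 5 * (2 * H + 1) ^ 20) := by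
    calc (U.card : ℝ) ≤ ((∑ i : Fin 4, ((MM i).biUnion fun m => SS i m).card : ℕ) : ℝ) := by
          exact_mod_cast card_biUnion_le
      _ = ∑ i : Fin 4, ((((MM i).biUnion fun m => SS i m).card : ℕ) : ℝ) := by push_cast; rfl
      _ ≤ _ := by
          refine Finset.sum_le_sum fun i _ => ?_
          calc ((((MM i).biUnion fun m => SS i m).card : ℕ) : ℝ)
              ≤ ((∑ m ∈ MM i, (SS i m).card : ℕ) : ℝ) := by exact_mod_cast card_biUnion_le
            _ = ∑ m ∈ MM i, ((SS i m).card : ℝ) := by push_cast; rfl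
            _ ≤ ∑ _m ∈ MM i, (363 ^ 3 * 169 * bet ^ 5 * (2 * (H : ℝ) + 1) ^ 20) :=
                Finset.sum_le_sum fun m hm => hSS i m hm
            _ = (MM i).card * (363 ^ 3 * 169 * bet ^ 5 * (2 * (H : ℝ) + 1) ^ 20) := by
                rw [Finset.sum_const, nsmul_eq_mul]
            _ ≤ _ := mul_le_mul_of_nonneg_right (hMM i) (by positivity)
  calc (Set.ncard {A : Idx → ℤ | A ∈ box H ∧ ∃ xi : Fin 4 → ℝ, (∀ i, |xi i| ≤ 1) ∧
      (∃ i, |xi i| = 1) ∧ F (fun t => (A t : ℝ)) xi = 0 ∧
      ∀ j, |D (fun t => (A t : ℝ)) xi j| < bet * H} : ℝ) ≤ U.card := by exact_mod_cast h1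
    _ ≤ _ := h2
    _ = 216 * (363 ^ 3 * 169) * bet ^ 2 * (2 * H + 1) ^ 20 := by
        rw [Finset.sum_const, card_univ, Fintype.card_fin, nsmul_eq_mul]
        push_cast
        field_simp
        ring

end CubicHP
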