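import Pool.Agent.Lib.MP_e426f4_ag.Defs
import Pool.Agent.Lib.MP_e426f4_ag.Basic
import Pool.Agent.Lib.MP_e426f4_ag.Alg
import Pool.Agent.Lib.MP_e426f4_ag.ClassThm
import Pool.Agent.Lib.MP_e426f4_ag.PadicExc
import Pool.Agent.Lib.MP_e426f4_ag.ApproxZero
import Pool.Agent.Lib.MP_e426f4_ag.RealExc

/-! Module GL: global assembly. -/

namespace CubicHP

open Finset Filter Topology

/-- the centre of the cell `a` -/
private noncomputable def glC (R : ℕ) (a : Idx → Fin R) : Idx → ℝ :=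
  fun m => -1 + (2 * (a m : ℝ) + 1) / R

/-- the nonsoluble forms of a class -/
private def glS (R Q : ℕ) (a : Idx → Fin R) (b : Idx → Fin Q) (H : ℕ) : Set (Idx → ℤ) :=
  {A | (∀ m, |(A m : ℝ) - H * glC R a m| ≤ 1 / R * H) ∧ (∀ m, (Q : ℤ) ∣ A m - (b m : ℤ)) ∧
    ¬ Soluble A}

/-- the class has a witness -/
private def glW (w k R Q : ℕ) (bet : ℝ) (a : Idx → Fin R) (b : Idx → Fin Q) : Prop :=
  ∃ (H : ℕ) (A : Idx → ℤ), 1 ≤ H ∧ A ∈ box H ∧ (∀ m, |(A m : ℝ) - H * glC R a m| ≤ 1 / R * H) ∧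
    (∀ m, (Q : ℤ) ∣ A m - (b m : ℤ)) ∧
    (∃ xi : Fin 4 → ℝ, (∀ i, |xi i| ≤ 1) ∧ (∃ i, |xi i| = 1) ∧ F (fun t => (A t : ℝ)) xi = 0 ∧
      ∃ j, bet * H ≤ |D (fun t => (A t : ℝ)) xi j|) ∧
    (∀ p : ℕ, p.Prime → p ≤ w → ∃ x : Fin 4 → ℤ, (∃ i, ¬ (p : ℤ) ∣ x i) ∧
        ((p : ℤ) ^ (2 * k)) ∣ F A x ∧ ∃ j, ¬ ((p : ℤ) ^ k ∣ D A x j))

private theorem gl_D_smul (c : ℝ) (A : Idx → ℝ) (x : Fin 4 → ℝ) (j : Fin 4) :
    D (fun t => c * A t) x j = c * D A x j := by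
  unfold D
  rw [Finset.mul_sum]
  exact Finset.sum_congr rfl fun t _ => by ring

private theorem gl_normalize (A : Idx → ℝ) (x : Fin 4 → ℝ) (hx : x ≠ 0) (hF : F A x = 0) :
    ∃ xi : Fin 4 → ℝ, (∀ i, |xi i| ≤ 1) ∧ (∃ i, |xi i| = 1) ∧ F A xi = 0 := by
  obtain ⟨i, hi⟩ := Finite.exists_max (fun i => |x i|)
  have hpos : 0 < |x i| := by
    obtain ⟨j, hj⟩ := Function.ne_iff.mp hx
    exact lt_of_lt_of_le (abs_pos.mpr hj) (hi j)
  refine ⟨fun m => |x i|⁻¹ * x m, fun m => ?_, ⟨i, ?_⟩, ?_⟩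
  · rw [abs_mul, abs_inv, abs_abs, inv_mul_le_iff₀ hpos, mul_one]
    exact hi m
  · rw [abs_mul, abs_inv, abs_abs]
    exact inv_mul_cancel₀ hpos.ne'
  · rw [F_scale, hF, mul_zero]

private theorem gl_cell (H R : ℕ) (hH : 1 ≤ H) (hR : 1 ≤ R) (z : ℝ) (hz : |z| ≤ H) :
    ∃ a : Fin R, |z - H * (-1 + (2 * (a : ℝ) + 1) / R)| ≤ 1 / R * H := by
  have hH0 : (0 : ℝ) < H := by exact_mod_cast hH
  have hR0 : (0 : ℝ) < R := by exact_mod_cast hR
  rw [abs_le] at hz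
  set t : ℝ := (z / H + 1) * R / 2 with ht
  have ht0 : 0 ≤ t := by
    have : -1 ≤ z / H := by rw [le_div_iff₀ hH0]; linarith
    rw [ht]
    have : 0 ≤ z / H + 1 := by linarith
    positivity
  have ht1 : t ≤ R := by
    have h1 : z / H ≤ 1 := by rw [div_le_iff₀ hH0]; linarith
    rw [ht]
    nlinarith
  have hkey : ∀ a : ℝ, |t - (a + 1 / 2)| ≤ 1 / 2 → |z - H * (-1 + (2 * a + 1) / R)| ≤ 1 / R * H := by
    intro a ha
    have e : z - H * (-1 + (2 * a + 1) / R) = (2 * H / R) * (t - (a + 1 / 2)) := by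
      rw [ht]
      field_simp
      ring
    rw [e, abs_mul, abs_of_pos (by positivity : 0 < 2 * (H : ℝ) / R)]
    calc 2 * (H : ℝ) / R * |t - (a + 1 / 2)| ≤ 2 * (H : ℝ) / R * (1 / 2) :=
          mul_le_mul_of_nonneg_left ha (by positivity)
      _ = 1 / R * H := by ring
  rcases lt_or_ge t R with hlt | hge
  · refine ⟨⟨⌊t⌋₊, (Nat.floor_lt ht0).mpr hlt⟩, hkey _ ?_⟩
    have h1 := Nat.floor_le ht0
    have h2 := Nat.lt_floor_add_one t
    simp only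
    rw [abs_le]
    constructor <;> linarith
  · have htR : t = R := le_antisymm ht1 hge
    refine ⟨⟨R - 1, by omega⟩, hkey _ ?_⟩
    simp only
    rw [Nat.cast_sub hR, htR, abs_le]
    push_cast
    constructor <;> linarith

private theorem gl_S_finite (R Q : ℕ) (a : Idx → Fin R) (b : Idx → Fin Q) (H : ℕ) :
    (glS R Q a b H).Finite := by
  refine finite_of_abs_le _ (∑ m, |(H : ℝ) * glC R a m| + 1 / R * H) ?_
  intro A hA m
  have h1 := hA.1 m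
  have h2 : |(H : ℝ) * glC R a m| ≤ ∑ m, |(H : ℝ) * glC R a m| :=
    Finset.single_le_sum (f := fun m => |(H : ℝ) * glC R a m|) (fun _ _ => abs_nonneg _)
      (Finset.mem_univ m)
  calc |(A m : ℝ)| = |H * glC R a m + ((A m : ℝ) - H * glC R a m)| := by ring_nf
    _ ≤ |(H : ℝ) * glC R a m| + |(A m : ℝ) - H * glC R a m| := abs_add_le _ _
    _ ≤ _ := add_le_add h2 h1

private theorem gl_class (w k R : ℕ) (hk : 1 ≤ k) (hR : 1 ≤ R) (bet : ℝ) (rho0 : ℝ)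
    (hcl : ∀ rho : ℝ, 0 < rho → rho ≤ rho0 → ∀ k : ℕ, 1 ≤ k →
      ∀ A0 : Idx → ℤ,
      (∀ p : ℕ, p.Prime → p ≤ w → ∃ x : Fin 4 → ℤ, (∃ i, ¬ (p : ℤ) ∣ x i) ∧
        ((p : ℤ) ^ (2 * k)) ∣ F A0 x ∧ ∃ j, ¬ ((p : ℤ) ^ k ∣ D A0 x j)) →
      ∀ (AC Ainf : Idx → ℝ) (xi : Fin 4 → ℝ) (j : Fin 4), (∀ m, |Ainf m| ≤ 1) →
      (∀ m, |AC m - Ainf m| ≤ rho) → (∀ i, |xi i| ≤ 1) → (∃ i, |xi i| = 1) →
      F Ainf xi = 0 → bet ≤ |D Ainf xi j| →
      ∀ᶠ H : ℕ in atTop,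
        (Set.ncard {A : Idx → ℤ | (∀ m, |(A m : ℝ) - H * AC m| ≤ rho * H) ∧
          (∀ m, ((primorial w : ℤ) ^ (2 * k)) ∣ A m - A0 m) ∧ ¬ Soluble A} : ℝ) ≤
          30 / w * (2 * rho * H / (primorial w : ℝ) ^ (2 * k)) ^ 20)
    (hrho : (1 : ℝ) / R ≤ rho0) (a : Idx → Fin R) (b : Idx → Fin (primorial w ^ (2 * k)))
    (hW : glW w k R (primorial w ^ (2 * k)) bet a b) :
    ∀ᶠ H : ℕ in atTop, ((glS R (primorial w ^ (2 * k)) a b H).ncard : ℝ) ≤
      30 / w * (2 * (1 / R) * H / (primorial w : ℝ) ^ (2 * k)) ^ 20 := by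
  obtain ⟨H0, A, hH0, hbox, hcell, hres, ⟨xi, hxi, hxi1, hF, j, hD⟩, hp⟩ := hW
  have hR0 : (0 : ℝ) < R := by exact_mod_cast hR
  have hH0' : (0 : ℝ) < H0 := by exact_mod_cast hH0
  have h := hcl (1 / R) (by positivity) hrho k hk A hp (glC R a) (fun t => (H0 : ℝ)⁻¹ * (A t : ℝ)) xi j
    ?_ ?_ hxi hxi1 ?_ ?_
  · refine h.mono fun H hH => ?_
    refine le_trans ?_ hH
    have heq : glS R (primorial w ^ (2 * k)) a b H = {A' : Idx → ℤ | (∀ m, |(A' m : ℝ) - H * glC R a m| ≤ 1 / R * H) ∧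
          (∀ m, ((primorial w : ℤ) ^ (2 * k)) ∣ A' m - A m) ∧ ¬ Soluble A'} := by
      ext A'
      unfold glS
      refine and_congr_right fun _ => and_congr_left fun _ => forall_congr' fun m => ?_
      have h1 := hres m
      push_cast at h1 ⊢
      constructor
      · intro h2
        have := dvd_sub h2 h1
        simpa using this
      · intro h2
        have := dvd_add h2 h1
        simpa using this
    rw [heq]
  · intro m
    have h1 : |A m| ≤ H0 := mem_box.mp hbox m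
    have h2 : |(A m : ℝ)| ≤ H0 := by exact_mod_cast h1
    rw [abs_mul, abs_inv, abs_of_pos hH0', inv_mul_le_iff₀ hH0', mul_one]
    exact h2
  · intro m
    have h1 := hcell m
    have e : glC R a m - (H0 : ℝ)⁻¹ * (A m : ℝ) = -((H0 : ℝ)⁻¹ * ((A m : ℝ) - H0 * glC R a m)) := by
      field_simp
      ring
    rw [e, abs_neg, abs_mul, abs_inv, abs_of_pos hH0', inv_mul_le_iff₀ hH0']
    linarith
  · rw [F_smul, hF, mul_zero]
  · rw [gl_D_smul, abs_mul, abs_inv, abs_of_pos hH0', le_inv_mul_iff₀ hH0']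
    linarith

theorem exceptional_small (eps : ℝ) (he : 0 < eps) : ∀ᶠ H : ℕ in atTop,
    (Set.ncard {A : Idx → ℤ | A ∈ box H ∧ ELS A ∧ ¬ Soluble A} : ℝ) ≤
      eps * (2 * H + 1) ^ 20 := by
  classical
  obtain ⟨C, hC, hreal⟩ := real_exc
  -- w
  obtain ⟨w0, hw0⟩ := exists_nat_gt (120 / eps)
  set w : ℕ := max 2 w0 with hw
  have hw2 : 2 ≤ w := le_max_left _ _
  have hwpos : (0 : ℝ) < w := by
    have : 0 < w := by omega
    exact_mod_cast this
  have hw30 : 30 / (w : ℝ) ≤ eps / 4 := by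
    have h1 : (w0 : ℝ) ≤ w := by exact_mod_cast le_max_right 2 w0
    have h2 : 120 / eps ≤ w := by linarith
    rw [div_le_iff₀ he] at h2
    rw [div_le_iff₀ hwpos]
    linarith
  -- bet
  obtain ⟨bet, hb, hb1, hbC⟩ : ∃ bet : ℝ, 0 < bet ∧ bet ≤ 1 ∧ C * bet ^ 2 ≤ eps / 4 := by
    refine ⟨min 1 (eps / (4 * C)), lt_min one_pos (by positivity), min_le_left _ _, ?_⟩
    have h1 : min 1 (eps / (4 * C)) ≤ 1 := min_le_left _ _
    have h2 : min 1 (eps / (4 * C)) ≤ eps / (4 * C) := min_le_right _ _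
    have h3 : 0 < min 1 (eps / (4 * C)) := lt_min one_pos (by positivity)
    have h4 : (min 1 (eps / (4 * C))) ^ 2 ≤ eps / (4 * C) := by nlinarith
    calc C * (min 1 (eps / (4 * C))) ^ 2 ≤ C * (eps / (4 * C)) := mul_le_mul_of_nonneg_left h4 hC.le
      _ = eps / 4 := by field_simp
  obtain ⟨rho0, hrho0, hrho01, hcl⟩ := class_thm w hw2 bet hb hb1
  -- R
  obtain ⟨R, hR, hRrho⟩ : ∃ R : ℕ, 1 ≤ R ∧ (1 : ℝ) / R ≤ rho0 := by
    obtain ⟨n, hn⟩ := exists_nat_one_div_lt hrho0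
    refine ⟨n + 1, by omega, ?_⟩
    push_cast
    exact hn.le
  have hR0 : (0 : ℝ) < R := by exact_mod_cast hR
  -- k
  obtain ⟨k, hk, hkw⟩ : ∃ k : ℕ, 1 ≤ k ∧ ((w : ℝ) + 1) * (2 / 2 ^ k) ≤ eps / 4 := by
    obtain ⟨n, hn⟩ := exists_pow_lt_of_lt_one (show 0 < eps / (8 * ((w : ℝ) + 1)) by positivity)
      (show (1 / 2 : ℝ) < 1 by norm_num)
    refine ⟨n + 1, by omega, ?_⟩
    rw [div_pow, one_pow, lt_div_iff₀ (by positivity)] at hn
    have h2 : (1 : ℝ) / 2 ^ n * (8 * (w + 1)) < eps := hn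
    have h3 : ((w : ℝ) + 1) * (2 / 2 ^ (n + 1)) = (1 : ℝ) / 2 ^ n * (8 * (w + 1)) / 8 := by
      rw [pow_succ]
      field_simp
    rw [h3]
    linarith
  set Q : ℕ := primorial w ^ (2 * k) with hQ
  have hQpos : 0 < Q := pow_pos (primorial_pos w) _
  have hQ0 : (0 : ℝ) < Q := by exact_mod_cast hQpos
  have hQcast : (primorial w : ℝ) ^ (2 * k) = Q := by rw [hQ]; push_cast; rfl
  -- eventual bounds
  have h1 : ∀ᶠ H : ℕ in atTop, ∀ ab : (Idx → Fin R) × (Idx → Fin Q), glW w k R Q bet ab.1 ab.2 →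
      ((glS R Q ab.1 ab.2 H).ncard : ℝ) ≤ 30 / w * (2 * (1 / R) * H / Q) ^ 20 := by
    rw [Filter.eventually_all]
    intro ab
    by_cases hW : glW w k R Q bet ab.1 ab.2
    · have := gl_class w k R hk hR bet rho0 hcl hRrho ab.1 ab.2 hW
      rw [hQcast] at this
      exact this.mono fun H hH _ => hH
    · exact Filter.Eventually.of_forall fun H h => absurd h hW
  have h2 := hreal bet hb hb1
  set Pr : Finset ℕ := (Finset.range (w + 1)).filter Nat.Prime with hPr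
  have h3 : ∀ᶠ H : ℕ in atTop, ∀ p ∈ Pr, (Set.ncard {A : Idx → ℤ | A ∈ box H ∧ ∃ x : Fin 4 → ℤ,
      (∃ i, ¬ (p : ℤ) ∣ x i) ∧ ((p : ℤ) ^ (2 * k)) ∣ F A x ∧ ∀ j, (p : ℤ) ^ k ∣ D A x j} : ℝ) ≤
        2 / (p : ℝ) ^ k * (2 * H + 1) ^ 20 := by
    rw [Filter.eventually_all_finset]
    intro p hp
    exact padic_exc p k (Finset.mem_filter.mp hp).2 hk
  filter_upwards [h1, h2, h3, Filter.eventually_ge_atTop 1] with H h1 h2 h3 hH
  -- the finsets
  set E : Finset (Idx → ℤ) := (box H).filter (fun A => ELS A ∧ ¬ Soluble A) with hE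
  set ER : Finset (Idx → ℤ) := (box H).filter (fun A => ∃ xi : Fin 4 → ℝ, (∀ i, |xi i| ≤ 1) ∧
      (∃ i, |xi i| = 1) ∧ F (fun t => (A t : ℝ)) xi = 0 ∧
      ∀ j, |D (fun t => (A t : ℝ)) xi j| < bet * H) with hER
  set EP : ℕ → Finset (Idx → ℤ) := fun p => (box H).filter (fun A => ∃ x : Fin 4 → ℤ,
      (∃ i, ¬ (p : ℤ) ∣ x i) ∧ ((p : ℤ) ^ (2 * k)) ∣ F A x ∧ ∀ j, (p : ℤ) ^ k ∣ D A x j) with hEP
  set GW : Finset ((Idx → Fin R) × (Idx → Fin Q)) :=
    Finset.univ.filter (fun ab => glW w k R Q bet ab.1 ab.2) with hGW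
  have hfin : ∀ ab : (Idx → Fin R) × (Idx → Fin Q), (glS R Q ab.1 ab.2 H).Finite := fun ab =>
    gl_S_finite R Q ab.1 ab.2 H
  have hsub : E ⊆ (GW.biUnion fun ab => (hfin ab).toFinset) ∪ ER ∪ (Pr.biUnion EP) := by
    intro A hA
    rw [hE, Finset.mem_filter] at hA
    obtain ⟨hAbox, ⟨hreal0, hpad0⟩, hns⟩ := hA
    by_cases hr : A ∈ ER
    · exact Finset.mem_union_left _ (Finset.mem_union_right _ hr)
    by_cases hpp : ∃ p ∈ Pr, A ∈ EP p
    · exact Finset.mem_union_right _ (Finset.mem_biUnion.mpr hpp)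
    refine Finset.mem_union_left _ (Finset.mem_union_left _ ?_)
    -- the cell
    have hAabs : ∀ m, |(A m : ℝ)| ≤ H := fun m => by
      have := mem_box.mp hAbox m
      exact_mod_cast this
    choose a ha using fun m => gl_cell H R hH hR (A m : ℝ) (hAabs m)
    have hbex : ∀ m, ∃ b : Fin Q, (Q : ℤ) ∣ A m - (b : ℤ) := by
      intro m
      have hQz : (0 : ℤ) < Q := by exact_mod_cast hQpos
      have h0 : 0 ≤ A m % Q := Int.emod_nonneg _ hQz.ne'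
      have h1 : A m % Q < Q := Int.emod_lt_of_pos _ hQz
      refine ⟨⟨(A m % Q).toNat, by omega⟩, ?_⟩
      simp only
      rw [Int.toNat_of_nonneg h0]
      exact Int.dvd_self_sub_emod
    choose b hb' using hbex
    refine Finset.mem_biUnion.mpr ⟨(a, b), ?_, ?_⟩
    · rw [hGW, Finset.mem_filter]
      refine ⟨Finset.mem_univ _, H, A, hH, hAbox, ha, hb', ?_, ?_⟩
      · obtain ⟨x, hx, hFx⟩ := hreal0
        obtain ⟨xi, hxi, hxi1, hFxi⟩ := gl_normalize _ x hx hFx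
        refine ⟨xi, hxi, hxi1, hFxi, ?_⟩
        by_contra hcon
        push Not at hcon
        exact hr (Finset.mem_filter.mpr ⟨hAbox, xi, hxi, hxi1, hFxi, hcon⟩)
      · intro p hp hpw
        have : Fact p.Prime := ⟨hp⟩
        obtain ⟨x, hx1, hx2⟩ := exists_approx_zero p k A (hpad0 p)
        refine ⟨x, hx1, hx2, ?_⟩
        by_contra hcon
        push Not at hcon
        refine hpp ⟨p, ?_, Finset.mem_filter.mpr ⟨hAbox, x, hx1, hx2, hcon⟩⟩
        rw [hPr, Finset.mem_filter, Finset.mem_range]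
        exact ⟨by omega, hp⟩
    · rw [Set.Finite.mem_toFinset]
      exact ⟨ha, hb', hns⟩
  have hcardE : Set.ncard {A : Idx → ℤ | A ∈ box H ∧ ELS A ∧ ¬ Soluble A} = E.card := by
    rw [← Set.ncard_coe_finset]
    congr 1
    ext A
    simp [hE]
  have hcardR : (ER.card : ℝ) ≤ C * bet ^ 2 * (2 * H + 1) ^ 20 := by
    refine le_trans (le_of_eq ?_) h2
    rw [← Set.ncard_coe_finset]
    congr 2
    ext A
    simp [hER]
  have hcardP : ∀ p ∈ Pr, ((EP p).card : ℝ) ≤ 2 / (2 : ℝ) ^ k * (2 * H + 1) ^ 20 := by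
    intro p hp
    have h4 := h3 p hp
    have h5 : ((EP p).card : ℝ) = (Set.ncard {A : Idx → ℤ | A ∈ box H ∧ ∃ x : Fin 4 → ℤ,
      (∃ i, ¬ (p : ℤ) ∣ x i) ∧ ((p : ℤ) ^ (2 * k)) ∣ F A x ∧ ∀ j, (p : ℤ) ^ k ∣ D A x j} : ℝ) := by
      rw [← Set.ncard_coe_finset]
      congr 2
      ext A
      simp [hEP]
    rw [h5]
    refine h4.trans (mul_le_mul_of_nonneg_right ?_ (by positivity))
    have hp2 : (2 : ℝ) ≤ p := by exact_mod_cast (Finset.mem_filter.mp hp).2.two_le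
    exact div_le_div_of_nonneg_left (by norm_num) (by positivity) (pow_le_pow_left₀ (by norm_num) hp2 k)
  have hcardS : ∀ ab ∈ GW, (((hfin ab).toFinset).card : ℝ) ≤ 30 / w * (2 * (1 / R) * H / Q) ^ 20 := by
    intro ab hab
    rw [← Set.ncard_eq_toFinset_card _ (hfin ab)]
    exact h1 ab (Finset.mem_filter.mp hab).2
  rw [hcardE]
  have hc20 : Fintype.card Idx = 20 := by decide
  have hGWcard : (GW.card : ℝ) ≤ (R : ℝ) ^ 20 * (Q : ℝ) ^ 20 := by
    have h6 : GW.card ≤ R ^ 20 * Q ^ 20 := by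
      refine (Finset.card_le_univ _).trans (le_of_eq ?_)
      rw [Fintype.card_prod, Fintype.card_fun, Fintype.card_fun, Fintype.card_fin, Fintype.card_fin, hc20]
    exact_mod_cast h6
  have hsumS : ((GW.biUnion fun ab => (hfin ab).toFinset).card : ℝ) ≤ eps / 4 * (2 * H + 1) ^ 20 := by
    calc ((GW.biUnion fun ab => (hfin ab).toFinset).card : ℝ)
        ≤ ∑ ab ∈ GW, (((hfin ab).toFinset).card : ℝ) := by exact_mod_cast Finset.card_biUnion_le
      _ ≤ ∑ ab ∈ GW, (30 / w * (2 * (1 / R) * H / Q) ^ 20 : ℝ) := Finset.sum_le_sum hcardS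
      _ = (GW.card : ℝ) * (30 / w * (2 * (1 / R) * H / Q) ^ 20) := by rw [Finset.sum_const, nsmul_eq_mul]
      _ ≤ ((R : ℝ) ^ 20 * (Q : ℝ) ^ 20) * (30 / w * (2 * (1 / R) * H / Q) ^ 20) :=
          mul_le_mul_of_nonneg_right hGWcard (by positivity)
      _ = 30 / w * (2 * H) ^ 20 := by
          field_simp
      _ ≤ eps / 4 * (2 * H + 1) ^ 20 := by
          refine mul_le_mul hw30 ?_ (by positivity) (by positivity)
          exact pow_le_pow_left₀ (by positivity) (by linarith) 20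
  have hsumP : ((Pr.biUnion EP).card : ℝ) ≤ eps / 4 * (2 * H + 1) ^ 20 := by
    have hPrc : (Pr.card : ℝ) ≤ (w : ℝ) + 1 := by
      have : Pr.card ≤ w + 1 := by
        refine (Finset.card_filter_le _ _).trans ?_
        rw [Finset.card_range]
      exact_mod_cast this
    calc ((Pr.biUnion EP).card : ℝ) ≤ ∑ p ∈ Pr, ((EP p).card : ℝ) := by
          exact_mod_cast Finset.card_biUnion_le
      _ ≤ ∑ p ∈ Pr, (2 / (2 : ℝ) ^ k * (2 * H + 1) ^ 20 : ℝ) := Finset.sum_le_sum hcardP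
      _ = (Pr.card : ℝ) * (2 / (2 : ℝ) ^ k * (2 * H + 1) ^ 20) := by rw [Finset.sum_const, nsmul_eq_mul]
      _ ≤ ((w : ℝ) + 1) * (2 / (2 : ℝ) ^ k * (2 * H + 1) ^ 20) :=
          mul_le_mul_of_nonneg_right hPrc (by positivity)
      _ = ((w : ℝ) + 1) * (2 / 2 ^ k) * (2 * H + 1) ^ 20 := by ring
      _ ≤ eps / 4 * (2 * H + 1) ^ 20 := mul_le_mul_of_nonneg_right hkw (by positivity)
  have hfinal : (E.card : ℝ) ≤ ((GW.biUnion fun ab => (hfin ab).toFinset).card : ℝ) + (ER.card : ℝ) +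
      ((Pr.biUnion EP).card : ℝ) := by
    have h7 : E.card ≤ (GW.biUnion fun ab => (hfin ab).toFinset).card + ER.card + (Pr.biUnion EP).card := by
      refine (Finset.card_le_card hsub).trans ((Finset.card_union_le _ _).trans ?_)
      exact Nat.add_le_add_right (Finset.card_union_le _ _) _
    exact_mod_cast h7
  have hR' : (ER.card : ℝ) ≤ eps / 4 * (2 * H + 1) ^ 20 :=
    hcardR.trans (mul_le_mul_of_nonneg_right hbC (by positivity))
  have hpos : 0 ≤ (2 * (H : ℝ) + 1) ^ 20 := by positivity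
  nlinarith

end CubicHP
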