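import Pool.Agent.Lib.MP_e426f4_ag.Defs
import Pool.Agent.Lib.MP_e426f4_ag.Basic
import Pool.Agent.Lib.MP_e426f4_ag.Alg

/-! Local points on the reference surface; a rational point gives local points. -/

namespace CubicHP

open Finset

theorem local_Afer (p : ℕ) (hp : p.Prime) : ∃ x : Fin 4 → ℤ, (∃ i, ¬ (p : ℤ) ∣ x i) ∧
    ((p : ℤ) ^ (2 * 1)) ∣ F Afer x ∧ ∃ j, ¬ ((p : ℤ) ^ 1 ∣ D Afer x j) := by
  by_cases h3 : p = 3
  · subst h3
    refine ⟨![1, -1, 1, 0], ⟨0, by norm_num⟩, ?_, ⟨0, ?_⟩⟩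
    · have : F Afer ![1, -1, 1, 0] = -9 := by decide
      rw [this]
      norm_num
    · have : D Afer ![1, -1, 1, 0] 0 = -17 := by decide
      rw [this]
      norm_num
  · refine ⟨![0, 0, 1, -1], ⟨2, ?_⟩, ?_, ⟨2, ?_⟩⟩
    · intro h
      have h1 : (p : ℤ) ∣ 1 := by simpa using h
      have h2 : p ∣ 1 := by exact_mod_cast h1
      exact hp.one_lt.ne' (Nat.dvd_one.mp h2)
    · have : F Afer ![0, 0, 1, -1] = 0 := by decide
      rw [this]
      exact dvd_zero _
    · have : D Afer ![0, 0, 1, -1] 2 = 3 := by decide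
      rw [this, pow_one]
      intro h
      have h2 : p ∣ 3 := by exact_mod_cast h
      exact h3 ((Nat.prime_dvd_prime_iff_eq hp Nat.prime_three).mp h2)

theorem F_map {R S : Type*} [CommRing R] [CommRing S] (f : R →+* S) (A : Idx → R)
    (x : Fin 4 → R) : F (fun t => f (A t)) (fun i => f (x i)) = f (F A x) := by
  unfold F mon
  simp only [map_sum, map_mul]

theorem els_of_soluble (A : Idx → ℤ) (h : Soluble A) : ELS A := by
  obtain ⟨x, hx, hF⟩ := h
  refine ⟨⟨fun i => (x i : ℝ), ?_, ?_⟩, ?_⟩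
  · intro h0
    apply hx
    funext i
    have := congrFun h0 i
    simpa using this
  · have h1 := F_map (Rat.castHom ℝ) (fun t => (A t : ℚ)) x
    rw [hF, map_zero] at h1
    simpa using h1
  · intro p _
    refine ⟨fun i => (x i : ℚ_[p]), ?_, ?_⟩
    · intro h0
      apply hx
      funext i
      have := congrFun h0 i
      simpa using this
    · have h1 := F_map (Rat.castHom ℚ_[p]) (fun t => (A t : ℚ)) x
      rw [hF, map_zero] at h1
      simpa using h1

end CubicHP
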