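import Pool.Agent.Lib.MP_e426f4_ag.Defs
import Pool.Agent.Lib.MP_e426f4_ag.Basic

/-! Module NG1: points which are not well-rounded are orthogonal to a short vector. -/

namespace CubicHP

open Finset

theorem two_coord (u v : Fin 4 → ℝ) : ∃ a b : Fin 4, ∀ (s t : ℝ) (c : Fin 4),
    |s * u c + t * v c| ≤ |s * u a + t * v a| + |s * u b + t * v b| := by
  obtain ⟨⟨a, b⟩, hmax⟩ := Finite.exists_max
    (fun p : Fin 4 × Fin 4 => |u p.1 * v p.2 - u p.2 * v p.1|)
  have hmax' : ∀ c d, |u c * v d - u d * v c| ≤ |u a * v b - u b * v a| := fun c d => hmax (c, d)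
  by_cases h0 : u a * v b - u b * v a = 0
  · have hz : ∀ c d, u c * v d - u d * v c = 0 := by
      intro c d
      have := hmax' c d
      rw [h0, abs_zero] at this
      exact abs_eq_zero.1 (le_antisymm this (abs_nonneg _))
    by_cases hu : u = 0
    · obtain ⟨e, he⟩ := Finite.exists_max (fun c => |v c|)
      refine ⟨e, e, fun s t c => ?_⟩
      have h1 : |t * v c| ≤ |t * v e| := by
        rw [abs_mul, abs_mul]
        exact mul_le_mul_of_nonneg_left (he c) (abs_nonneg _)
      simp only [hu, Pi.zero_apply, mul_zero, zero_add]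
      linarith [abs_nonneg (t * v e)]
    · obtain ⟨e, he⟩ := Finite.exists_max (fun c => |u c|)
      have hue : 0 < |u e| := by
        rw [abs_pos]
        intro h
        apply hu
        funext c
        have := he c
        simp only [h, abs_zero] at this
        exact abs_eq_zero.1 (le_antisymm this (abs_nonneg _))
      refine ⟨e, e, fun s t c => ?_⟩
      have key : u e * (s * u c + t * v c) = u c * (s * u e + t * v e) := by
        linear_combination t * hz e c
      have h2 : |u e| * |s * u c + t * v c| = |u c| * |s * u e + t * v e| := by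
        rw [← abs_mul, key, abs_mul]
      have h3 : |u c| * |s * u e + t * v e| ≤ |u e| * |s * u e + t * v e| :=
        mul_le_mul_of_nonneg_right (he c) (abs_nonneg _)
      have h4 : |s * u c + t * v c| ≤ |s * u e + t * v e| := by
        rw [← h2] at h3
        exact le_of_mul_le_mul_left h3 hue
      linarith [abs_nonneg (s * u e + t * v e)]
  · refine ⟨a, b, fun s t c => ?_⟩
    have hM : 0 < |u a * v b - u b * v a| := abs_pos.2 h0
    have key : (u a * v b - u b * v a) * (s * u c + t * v c) =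
        (u c * v b - u b * v c) * (s * u a + t * v a) +
          (u a * v c - u c * v a) * (s * u b + t * v b) := by
      ring
    have h1 : |u a * v b - u b * v a| * |s * u c + t * v c| ≤
        |u a * v b - u b * v a| * (|s * u a + t * v a| + |s * u b + t * v b|) := by
      rw [← abs_mul, key]
      refine (abs_add_le _ _).trans ?_
      rw [abs_mul, abs_mul, mul_add]
      exact add_le_add (mul_le_mul_of_nonneg_right (hmax' c b) (abs_nonneg _))
        (mul_le_mul_of_nonneg_right (hmax' a c) (abs_nonneg _))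
    exact le_of_mul_le_mul_left h1 hM

theorem coord_of_finrank (U : Submodule ℝ (Fin 4 → ℝ)) (hU : Module.finrank ℝ U ≤ 2) :
    ∃ a b : Fin 4, ∀ u ∈ U, ∀ c, |u c| ≤ |u a| + |u b| := by
  obtain ⟨p, q, hpq⟩ : ∃ p q : Fin 4 → ℝ, ∀ u ∈ U, ∃ s t : ℝ, u = s • p + t • q := by
    let b := Module.finBasis ℝ U
    rcases Nat.lt_or_ge (Module.finrank ℝ U) 1 with h | h
    · refine ⟨0, 0, fun u hu => ⟨0, 0, ?_⟩⟩
      have h0 : Module.finrank ℝ U = 0 := by omega
      have : U = ⊥ := Submodule.finrank_eq_zero.1 h0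
      rw [this, Submodule.mem_bot] at hu
      simp [hu]
    · rcases Nat.lt_or_ge (Module.finrank ℝ U) 2 with h' | h'
      · have h1 : Module.finrank ℝ U = 1 := by omega
        let b1 := Module.finBasisOfFinrankEq ℝ U h1
        refine ⟨(b1 0 : Fin 4 → ℝ), 0, fun u hu => ⟨b1.repr ⟨u, hu⟩ 0, 0, ?_⟩⟩
        have h2 := b1.sum_repr ⟨u, hu⟩
        have h3 := congrArg (fun z : U => (z : Fin 4 → ℝ)) h2
        simp only [Fin.sum_univ_one, Submodule.coe_smul] at h3
        rw [h3]
        simp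
      · have h1 : Module.finrank ℝ U = 2 := by omega
        let b1 := Module.finBasisOfFinrankEq ℝ U h1
        refine ⟨(b1 0 : Fin 4 → ℝ), (b1 1 : Fin 4 → ℝ), fun u hu =>
          ⟨b1.repr ⟨u, hu⟩ 0, b1.repr ⟨u, hu⟩ 1, ?_⟩⟩
        have h2 := b1.sum_repr ⟨u, hu⟩
        have h3 := congrArg (fun z : U => (z : Fin 4 → ℝ)) h2
        simp only [Fin.sum_univ_two, Submodule.coe_add, Submodule.coe_smul] at h3
        exact h3.symm
  obtain ⟨a, b, hab⟩ := two_coord p q
  refine ⟨a, b, fun u hu c => ?_⟩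
  obtain ⟨s, t, rfl⟩ := hpq u hu
  simpa using hab s t c

/-- If no three elements of a family of real vectors are independent, its span is at most a
plane. -/
theorem finrank_span_le_two (S : Set (Fin 4 → ℝ))
    (h : ∀ l : Fin 3 → Fin 4 → ℝ, (∀ k, l k ∈ S) → ¬ LinearIndependent ℝ l) :
    Module.finrank ℝ (Submodule.span ℝ S) ≤ 2 := by
  by_contra hcon
  push Not at hcon
  obtain ⟨b, hbS, hbspan, hbli⟩ := exists_linearIndependent ℝ S
  have hfin : Finite b := hbli.finite
  have : Fintype b := Fintype.ofFinite b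
  have hcard : Fintype.card b = Module.finrank ℝ (Submodule.span ℝ S) := by
    rw [← hbspan]
    exact (finrank_span_set_eq_card hbli).symm ▸ (by simp)
  have h3 : 3 ≤ Fintype.card b := by omega
  obtain ⟨f⟩ : Nonempty (Fin 3 ↪ b) := by
    apply Function.Embedding.nonempty_of_card_le
    simpa using h3
  exact h (fun k => (f k : Fin 4 → ℝ)) (fun k => hbS (f k).2) (hbli.comp f f.injective)

/-- A point which is not well-rounded is orthogonal to a short nonzero vector. -/
theorem short_of_not_good (K : ℝ) (hK : 100 ≤ K) (B : ℕ) (hB : 1 ≤ B) (x : Fin 4 → ℤ)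
    (hx : ∀ i, |(x i : ℝ)| ≤ 2 * B) (h : ¬ Good K B x) :
    ∃ l : Fin 4 → ℤ, l ≠ 0 ∧ ∑ i, l i * x i = 0 ∧
      ∀ i, |(l i : ℝ)| * Real.sqrt K ≤ 24 * (B : ℝ) ^ (1 / 3 : ℝ) := by
  obtain ⟨β, hβ⟩ : ∃ β : ℝ, β = (B : ℝ) ^ (1 / 3 : ℝ) := ⟨_, rfl⟩
  have hB1 : (1 : ℝ) ≤ B := by exact_mod_cast hB
  have hβ0 : 0 < β := by rw [hβ]; positivity
  have hβ1 : 1 ≤ β := by
    rw [hβ]
    exact Real.one_le_rpow hB1 (by norm_num)
  have hβ3 : β ^ 3 = B := by
    rw [hβ, ← Real.rpow_natCast, ← Real.rpow_mul (by positivity)]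
    norm_num
  obtain ⟨s, hs⟩ : ∃ s : ℝ, s = Real.sqrt K := ⟨_, rfl⟩
  have hK0 : 0 ≤ K := by linarith
  have hs2 : s ^ 2 = K := by rw [hs]; exact Real.sq_sqrt hK0
  have hs10 : 10 ≤ s := by
    rw [hs]
    exact Real.le_sqrt_of_sq_le (by norm_num; exact hK)
  have hs3 : 1000 ≤ s ^ 3 := by
    calc (1000 : ℝ) = 10 ^ 3 := by norm_num
      _ ≤ s ^ 3 := pow_le_pow_left₀ (by norm_num) hs10 3
  obtain ⟨R, hR⟩ : ∃ R : ℕ, R = ⌊K * β⌋₊ := ⟨_, rfl⟩
  have hRle : (R : ℝ) ≤ K * β := by rw [hR]; exact Nat.floor_le (by positivity)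
  have hRlt : K * β < (R : ℝ) + 1 := by rw [hR]; exact Nat.lt_floor_add_one _
  obtain ⟨g, hg⟩ : ∃ g : ℕ, g = ⌊s ^ 3 / 5⌋₊ := ⟨_, rfl⟩
  have hgle : (g : ℝ) ≤ s ^ 3 / 5 := by rw [hg]; exact Nat.floor_le (by positivity)
  have hggt : s ^ 3 / 5 < (g : ℝ) + 1 := by rw [hg]; exact Nat.lt_floor_add_one _
  have hg12 : s ^ 3 / 12 ≤ (g : ℝ) := by linarith
  have hg0 : 0 < g := by
    have : (0 : ℝ) < g := lt_of_lt_of_le (by positivity) hg12
    exact_mod_cast this
  -- first pigeonhole
  let L0 : Finset (Fin 4 → ℤ) := Fintype.piFinset fun _ => Icc (0 : ℤ) R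
  have hL0card : L0.card = (R + 1) ^ 4 := by
    simp only [L0, Fintype.card_piFinset, Int.card_Icc, Finset.prod_const, Finset.card_univ,
      Fintype.card_fin]
    congr 1
  have hL0 : ∀ l ∈ L0, ∀ i, 0 ≤ l i ∧ l i ≤ R := by
    intro l hl i
    have := (Fintype.mem_piFinset.1 hl) i
    exact Finset.mem_Icc.1 this
  have hxi : ∀ i, |x i| ≤ 2 * B := by
    intro i
    have := hx i
    exact_mod_cast this
  let T : Finset ℤ := Icc (-(8 * R * B : ℕ) : ℤ) (8 * R * B : ℕ)
  have hTcard : T.card = 16 * R * B + 1 := by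
    simp only [T, Int.card_Icc]
    have : ((8 * R * B : ℕ) : ℤ) + 1 - (-((8 * R * B : ℕ) : ℤ)) = ((16 * R * B + 1 : ℕ) : ℤ) := by
      push_cast
      ring
    rw [this, Int.toNat_natCast]
  have hmap : ∀ l ∈ L0, (∑ i, l i * x i) ∈ T := by
    intro l hl
    have h1 : |∑ i, l i * x i| ≤ (8 * R * B : ℕ) := by
      refine (Finset.abs_sum_le_sum_abs _ _).trans ?_
      have h2 : ∀ i ∈ (univ : Finset (Fin 4)), |l i * x i| ≤ (R : ℤ) * (2 * B) := by
        intro i _
        rw [abs_mul]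
        refine mul_le_mul ?_ (hxi i) (abs_nonneg _) (by positivity)
        rw [abs_of_nonneg (hL0 l hl i).1]
        exact (hL0 l hl i).2
      refine (Finset.sum_le_sum h2).trans ?_
      simp only [Finset.sum_const, Finset.card_univ, Fintype.card_fin]
      push_cast
      apply le_of_eq
      simp only [nsmul_eq_mul]
      push_cast
      ring
    rw [Finset.mem_Icc]
    exact abs_le.1 h1
  have hcount : T.card * g ^ 2 < L0.card := by
    rw [hTcard, hL0card]
    have h1 : (((16 * R * B + 1) * g ^ 2 : ℕ) : ℝ) < (((R + 1) ^ 4 : ℕ) : ℝ) := by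
      push_cast
      have hR0 : (0 : ℝ) ≤ R := by positivity
      have h2 : (16 * (R : ℝ) * B + 1) ≤ 16 * (R + 1) * B := by nlinarith
      have h3 : (g : ℝ) ^ 2 ≤ K ^ 3 / 25 := by
        have h4 : (g : ℝ) ^ 2 ≤ (s ^ 3 / 5) ^ 2 := pow_le_pow_left₀ (by positivity) hgle 2
        have h5 : (s ^ 3 / 5) ^ 2 = K ^ 3 / 25 := by rw [← hs2]; ring
        linarith
      have h6 : (K * β) ^ 3 < ((R : ℝ) + 1) ^ 3 :=
        pow_lt_pow_left₀ hRlt (by positivity) (by norm_num)
      calc (16 * (R : ℝ) * B + 1) * g ^ 2 ≤ (16 * (R + 1) * B) * (K ^ 3 / 25) := by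
            exact mul_le_mul h2 h3 (by positivity) (by positivity)
        _ = (16 / 25) * ((R + 1) * (K * β) ^ 3) := by rw [← hβ3]; ring
        _ ≤ 1 * ((R + 1) * (K * β) ^ 3) := by
            apply mul_le_mul_of_nonneg_right (by norm_num)
            positivity
        _ = (R + 1) * (K * β) ^ 3 := one_mul _
        _ < (R + 1) * (R + 1) ^ 3 := by
            apply mul_lt_mul_of_pos_left h6
            positivity
        _ = ((R : ℝ) + 1) ^ 4 := by ring
    exact_mod_cast h1
  obtain ⟨y, -, hy⟩ := Finset.exists_lt_card_fiber_of_mul_lt_card_of_maps_to hmap hcount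
  let L : Finset (Fin 4 → ℤ) := L0.filter fun l => ∑ i, l i * x i = y
  have hLcard : g ^ 2 < L.card := hy
  have hL : ∀ l ∈ L, l ∈ L0 ∧ ∑ i, l i * x i = y := fun l hl => Finset.mem_filter.1 hl
  obtain ⟨l0, hl0⟩ : ∃ l0, l0 ∈ L := by
    apply Finset.card_pos.1
    omega
  -- span of the differences
  let S : Set (Fin 4 → ℝ) := {v | ∃ l ∈ L, v = fun i => ((l i - l0 i : ℤ) : ℝ)}
  have hS : ∀ l : Fin 3 → Fin 4 → ℝ, (∀ k, l k ∈ S) → ¬ LinearIndependent ℝ l := by
    intro l hl hli
    choose m hm hml using hl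
    apply h
    refine ⟨fun k i => m k i - l0 i, ?_, ?_, ?_⟩
    · have : l = (fun k : Fin 3 => fun i => ((m k i - l0 i : ℤ) : ℝ)) := by
        funext k
        exact hml k
      rw [← this]
      exact hli
    · intro k
      have h1 := (hL _ (hm k)).2
      have h2 := (hL _ hl0).2
      have h3 : ∑ i, (m k i - l0 i) * x i = ∑ i, m k i * x i - ∑ i, l0 i * x i := by
        rw [← Finset.sum_sub_distrib]
        exact Finset.sum_congr rfl fun i _ => by ring
      rw [h3, h1, h2, sub_self]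
    · intro k i
      rw [← hβ]
      refine le_trans ?_ hRle
      have h1 := hL0 _ (hL _ (hm k)).1 i
      have h2 := hL0 _ (hL _ hl0).1 i
      have h3 : |m k i - l0 i| ≤ (R : ℤ) := by
        rw [abs_le]
        constructor <;> linarith [h1.1, h1.2, h2.1, h2.2]
      have h4 : |((m k i - l0 i : ℤ) : ℝ)| ≤ (R : ℝ) := by exact_mod_cast h3
      exact h4
  obtain ⟨a, b, hab⟩ := coord_of_finrank _ (finrank_span_le_two S hS)
  -- second pigeonhole
  let f : (Fin 4 → ℤ) → ℤ × ℤ := fun l => ((g * l a) / (R + 1), (g * l b) / (R + 1))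
  have hf : ∀ l ∈ L, f l ∈ (Icc (0 : ℤ) (g - 1)) ×ˢ (Icc (0 : ℤ) (g - 1)) := by
    intro l hl
    have key : ∀ c, 0 ≤ (g * l c) / ((R : ℤ) + 1) ∧ (g * l c) / ((R : ℤ) + 1) ≤ g - 1 := by
      intro c
      have h1 := hL0 _ (hL _ hl).1 c
      have hgz : (0 : ℤ) < g := by exact_mod_cast hg0
      constructor
      · exact Int.ediv_nonneg (mul_nonneg hgz.le h1.1) (by positivity)
      · have h2 : (g * l c) / ((R : ℤ) + 1) < g := by
          apply Int.ediv_lt_of_lt_mul (by positivity)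
          have : (g : ℤ) * l c ≤ g * R := mul_le_mul_of_nonneg_left h1.2 hgz.le
          nlinarith
        omega
    simp only [Finset.mem_product, Finset.mem_Icc, f]
    exact ⟨key a, key b⟩
  have hcard2 : ((Icc (0 : ℤ) (g - 1)) ×ˢ (Icc (0 : ℤ) (g - 1))).card < L.card := by
    rw [Finset.card_product, Int.card_Icc]
    have : ((g : ℤ) - 1 + 1 - 0).toNat = g := by simp
    rw [this, ← sq]
    exact hLcard
  obtain ⟨l, hl, l', hl', hne, hfl⟩ := Finset.exists_ne_map_eq_of_card_lt_of_maps_to hcard2 hf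
  refine ⟨fun i => l i - l' i, ?_, ?_, ?_⟩
  · intro h0
    apply hne
    funext i
    have := congrFun h0 i
    simp only [Pi.zero_apply] at this
    linarith
  · have h3 : ∑ i, (l i - l' i) * x i = ∑ i, l i * x i - ∑ i, l' i * x i := by
      rw [← Finset.sum_sub_distrib]
      exact Finset.sum_congr rfl fun i _ => by ring
    rw [h3, (hL _ hl).2, (hL _ hl').2, sub_self]
  · -- the difference lies in the span
    have hmem : (fun i => ((l i - l' i : ℤ) : ℝ)) ∈ Submodule.span ℝ S := by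
      have h1 : (fun i => ((l i - l0 i : ℤ) : ℝ)) ∈ Submodule.span ℝ S :=
        Submodule.subset_span ⟨l, hl, rfl⟩
      have h2 : (fun i => ((l' i - l0 i : ℤ) : ℝ)) ∈ Submodule.span ℝ S :=
        Submodule.subset_span ⟨l', hl', rfl⟩
      have h3 := Submodule.sub_mem _ h1 h2
      have h4 : (fun i => ((l i - l' i : ℤ) : ℝ)) =
          (fun i => ((l i - l0 i : ℤ) : ℝ)) - (fun i => ((l' i - l0 i : ℤ) : ℝ)) := by
        funext i
        simp only [Pi.sub_apply]
        push_cast
        ring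
      rw [h4]
      exact h3
    have hbd : ∀ c, (g * l c) / ((R : ℤ) + 1) = (g * l' c) / ((R : ℤ) + 1) →
        (g : ℝ) * |((l c - l' c : ℤ) : ℝ)| ≤ R := by
      intro c hc
      have hR1 : (0 : ℤ) < (R : ℤ) + 1 := by positivity
      have e1 := Int.mul_ediv_add_emod (g * l c) ((R : ℤ) + 1)
      have e2 := Int.mul_ediv_add_emod (g * l' c) ((R : ℤ) + 1)
      have r1 := Int.emod_nonneg (g * l c) hR1.ne'
      have r2 := Int.emod_nonneg (g * l' c) hR1.ne'
      have r3 := Int.emod_lt_of_pos (g * l c) hR1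
      have r4 := Int.emod_lt_of_pos (g * l' c) hR1
      have h5 : |(g : ℤ) * (l c - l' c)| ≤ R := by
        rw [hc] at e1
        have h6 : (g : ℤ) * (l c - l' c) = (g * l c) % ((R : ℤ) + 1) - (g * l' c) % ((R : ℤ) + 1) := by
          linear_combination -e1 + e2
        rw [h6, abs_le]
        constructor <;> linarith
      rw [abs_mul] at h5
      have h7 : ((|(g : ℤ)| * |l c - l' c| : ℤ) : ℝ) ≤ ((R : ℤ) : ℝ) := by exact_mod_cast h5
      push_cast at h7
      rw [Nat.abs_cast] at h7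
      push_cast
      exact h7
    have hfa := congrArg Prod.fst hfl
    have hfb := congrArg Prod.snd hfl
    simp only [f] at hfa hfb
    have ha := hbd a hfa
    have hb := hbd b hfb
    intro i
    have h1 := hab _ hmem i
    rw [← hβ, ← hs]
    have hu0 : 0 ≤ |((l i - l' i : ℤ) : ℝ)| := abs_nonneg _
    have h2 : (g : ℝ) * |((l i - l' i : ℤ) : ℝ)| ≤ 2 * (K * β) := by
      have h3 : (g : ℝ) * |((l i - l' i : ℤ) : ℝ)| ≤
          g * (|((l a - l' a : ℤ) : ℝ)| + |((l b - l' b : ℤ) : ℝ)|) :=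
        mul_le_mul_of_nonneg_left h1 (by positivity)
      linarith [mul_add (g : ℝ) |((l a - l' a : ℤ) : ℝ)| |((l b - l' b : ℤ) : ℝ)|]
    have h4 : s ^ 3 / 12 * |((l i - l' i : ℤ) : ℝ)| ≤ 2 * (K * β) :=
      (mul_le_mul_of_nonneg_right hg12 hu0).trans h2
    have hs0 : 0 < s ^ 2 := by positivity
    have h5 : s ^ 2 * (|((l i - l' i : ℤ) : ℝ)| * s) ≤ s ^ 2 * (24 * β) := by
      rw [← hs2] at h4
      nlinarith
    exact le_of_mul_le_mul_left h5 hs0

end CubicHP
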