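import Pool.Agent.Lib.MP_e426f4_ag.T3Lin

/-! Coefficient vectors and homogeneous polynomials of degree three. -/

namespace CubicHP

open Finset MvPolynomial

/-- the exponent of the monomial of index `t` -/
noncomputable def expo (t : Idx) : Fin 4 →₀ ℕ :=
  Finsupp.single t.1.1 1 + Finsupp.single t.1.2.1 1 + Finsupp.single t.1.2.2 1

/-- the cubic polynomial with coefficient vector `A` -/
noncomputable def toPoly (A : Idx → ℤ) : MvPolynomial (Fin 4) ℤ := ∑ t, monomial (expo t) (A t)

theorem expo_injective : Function.Injective expo := by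
  intro s t h
  have h0 : ∀ i : Fin 4, (if s.1.1 = i then 1 else 0) + (if s.1.2.1 = i then 1 else 0)
      + (if s.1.2.2 = i then 1 else 0) = (if t.1.1 = i then 1 else 0)
      + (if t.1.2.1 = i then 1 else 0) + (if t.1.2.2 = i then 1 else 0) := by
    intro i
    have := DFunLike.congr_fun h i
    simpa [expo, Finsupp.single_apply] using this
  clear h
  revert s t
  decide

theorem coeff_toPoly (A : Idx → ℤ) (t : Idx) : (toPoly A).coeff (expo t) = A t := by
  classical
  rw [toPoly, coeff_sum]
  simp only [coeff_monomial]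
  rw [Finset.sum_eq_single t]
  · simp
  · intro s _ hs
    rw [if_neg]
    intro h
    exact hs (expo_injective h)
  · simp

theorem coeff_toPoly_of_ne (A : Idx → ℤ) (m : Fin 4 →₀ ℕ) (hm : ∀ t, expo t ≠ m) :
    (toPoly A).coeff m = 0 := by
  classical
  rw [toPoly, coeff_sum]
  simp only [coeff_monomial]
  exact Finset.sum_eq_zero fun t _ => if_neg (hm t)

theorem toPoly_injective : Function.Injective toPoly := by
  intro A B h
  funext t
  rw [← coeff_toPoly A t, h, coeff_toPoly]

theorem degree_expo (t : Idx) : Finsupp.degree (expo t) = 3 := by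
  simp [expo]

theorem exists_expo (m : Fin 4 →₀ ℕ) (hm : Finsupp.degree m = 3) : ∃ t, expo t = m := by
  have h4 : m 0 + m 1 + m 2 + m 3 = 3 := by
    rw [Finsupp.degree_eq_sum] at hm
    simpa [Fin.sum_univ_four] using hm
  have key : ∀ a b c d : Fin 4, a.1 + b.1 + c.1 + d.1 = 3 → ∃ t : Idx, ∀ i : Fin 4,
      (if t.1.1 = i then 1 else 0) + (if t.1.2.1 = i then 1 else 0)
      + (if t.1.2.2 = i then 1 else 0) = (![a.1, b.1, c.1, d.1] i) := by
    decide
  obtain ⟨t, ht⟩ := key ⟨m 0, by omega⟩ ⟨m 1, by omega⟩ ⟨m 2, by omega⟩ ⟨m 3, by omega⟩ h4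
  refine ⟨t, ?_⟩
  ext i
  have := ht i
  simp only [expo, Finsupp.add_apply, Finsupp.single_apply]
  rw [this]
  fin_cases i <;> rfl

theorem toPoly_isHomogeneous (A : Idx → ℤ) : (toPoly A).IsHomogeneous 3 := by
  refine IsHomogeneous.sum _ _ _ fun t _ => ?_
  exact isHomogeneous_monomial _ (degree_expo t)

theorem exists_toPoly (f : MvPolynomial (Fin 4) ℤ) (hf : f.IsHomogeneous 3) :
    ∃ A, toPoly A = f := by
  refine ⟨fun t => f.coeff (expo t), ?_⟩
  ext m
  by_cases hm : ∃ t, expo t = m
  · obtain ⟨t, rfl⟩ := hm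
    rw [coeff_toPoly]
  · push Not at hm
    rw [coeff_toPoly_of_ne _ _ hm]
    refine (hf.coeff_eq_zero fun h => ?_).symm
    obtain ⟨t, ht⟩ := exists_expo m h
    exact hm t ht

/-- cubic forms with integer coefficients of size at most `H` -/
def Cubics (H : ℕ) : Set (MvPolynomial (Fin 4) ℤ) :=
  {f | f.IsHomogeneous 3 ∧ ∀ m, |f.coeff m| ≤ H}

theorem toPoly_mem_Cubics (A : Idx → ℤ) (H : ℕ) : toPoly A ∈ Cubics H ↔ A ∈ box H := by
  rw [mem_box]
  constructor
  · intro h m
    have := h.2 (expo m)
    rwa [coeff_toPoly] at this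
  · intro h
    refine ⟨toPoly_isHomogeneous A, fun m => ?_⟩
    by_cases hm : ∃ t, expo t = m
    · obtain ⟨t, rfl⟩ := hm
      rw [coeff_toPoly]
      exact h t
    · push Not at hm
      rw [coeff_toPoly_of_ne _ _ hm]
      simp

theorem prod_expo {R : Type*} [CommRing R] (x : Fin 4 → R) (t : Idx) :
    ((expo t).prod fun i k => x i ^ k) = mon x t := by
  unfold expo mon
  rw [Finsupp.prod_add_index', Finsupp.prod_add_index']
  · simp
  · simp
  · intro a b c; exact pow_add _ _ _
  · simp
  · intro a b c; exact pow_add _ _ _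

theorem aeval_toPoly {R : Type*} [CommRing R] (A : Idx → ℤ) (x : Fin 4 → R) :
    aeval x (toPoly A) = F (fun t => (A t : R)) x := by
  simp only [toPoly, map_sum, aeval_monomial, prod_expo, F]
  simp

theorem monomial_expo (t : Idx) (a : ℤ) :
    monomial (expo t) a = C a * (X t.1.1 * X t.1.2.1 * X t.1.2.2) := by
  simp only [X, monomial_mul, C_mul_monomial, mul_one, expo]

theorem aeval_pderiv_expo {R : Type*} [CommRing R] (x : Fin 4 → R) (t : Idx) (j : Fin 4) (a : ℤ) :
    aeval x (pderiv j (monomial (expo t) a)) = (a : R) * dmon x j t := by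
  have h2 : ∀ i : Fin 4, aeval x (pderiv j (X i : MvPolynomial (Fin 4) ℤ)) =
      if i = j then (1 : R) else 0 := by
    intro i
    rw [pderiv_X]
    by_cases h : i = j
    · subst h; simp
    · rw [if_neg h, Pi.single_eq_of_ne h]; simp
  rw [monomial_expo, pderiv_C_mul]
  simp only [Derivation.leibniz, smul_eq_mul, map_mul, map_add, aeval_X, h2, dmon, aeval_C]
  simp only [algebraMap_int_eq, eq_intCast]
  split_ifs <;> ring

theorem aeval_pderiv_toPoly {R : Type*} [CommRing R] (A : Idx → ℤ) (x : Fin 4 → R) (j : Fin 4) :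
    aeval x (pderiv j (toPoly A)) = D (fun t => (A t : R)) x j := by
  simp only [toPoly, map_sum, aeval_pderiv_expo, D]

end CubicHP
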