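import Pool.Agent.Lib.MP_e426f4_ag.Defs
import Pool.Agent.Lib.MP_e426f4_ag.Basic
import Pool.Agent.Lib.MP_e426f4_ag.Alg

/-! A residue class modulo `5` of smooth surfaces. -/

namespace CubicHP

open Finset

/-- the coefficient vector of the Fermat cubic -/
private def diagv (R : Type*) [CommRing R] (t : Idx) : R :=
  if t.1.1 = t.1.2.1 ∧ t.1.2.1 = t.1.2.2 then 1 else 0

private theorem D_diag {R : Type*} [CommRing R] (y : Fin 4 → R) (j : Fin 4) :
    ∑ t, diagv R t * dmon y j t = 3 * y j ^ 2 := by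
  rw [Finset.sum_eq_single (⟨(j, j, j), le_rfl, le_rfl⟩ : Idx)]
  · simp only [diagv, dmon, and_self, if_true]
    ring
  · rintro ⟨⟨a, b, c⟩, hab, hbc⟩ _ hne
    simp only [diagv, dmon]
    by_cases h : a = b ∧ b = c
    · obtain ⟨rfl, rfl⟩ := h
      have : a ≠ j := by
        rintro rfl
        exact hne rfl
      simp [this]
    · simp [h]
  · intro h
    exact absurd (Finset.mem_univ _) h

theorem smooth_of_congr (A : Idx → ℤ) (h : ∀ m, (5 : ℤ) ∣ A m - Afer m) : Smooth A := by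
  -- the valuation ring
  obtain ⟨B, hB⟩ : ∃ B : ValuationSubring ℂ, (5 : ℂ) ∈ B.nonunits := by
    let S : Subring ℂ := (Int.castRingHom ℂ).range
    have h5 : (5 : ℂ) ∈ S := ⟨5, by simp⟩
    let I : Ideal S := Ideal.span {(⟨5, h5⟩ : S)}
    have hI : I ≠ ⊤ := by
      intro hI
      rw [Ideal.eq_top_iff_one, Ideal.mem_span_singleton] at hI
      obtain ⟨⟨_, ⟨n, rfl⟩⟩, hn⟩ := hI
      have h1 : (1 : ℂ) = 5 * ((n : ℤ) : ℂ) := by
        have := congrArg (Subtype.val) hn
        simpa using this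
      have h2 : (1 : ℤ) = 5 * n := by exact_mod_cast h1
      omega
    obtain ⟨B, _, hB2⟩ := Ideal.image_subset_nonunits_valuationSubring I hI
    exact ⟨B, hB2 ⟨⟨5, h5⟩, Ideal.subset_span rfl, rfl⟩⟩
  intro x hx
  by_contra hcon
  push Not at hcon
  set v := B.valuation with hv
  have hint : ∀ n : ℤ, ((n : ℤ) : ℂ) ∈ B := fun n => intCast_mem B n
  have hv5 : v 5 < 1 := (B.mem_nonunits_iff).mp hB
  -- choose the coordinate of maximal valuation
  obtain ⟨i0, -, hi0⟩ := Finset.exists_max_image (univ : Finset (Fin 4)) (fun i => v (x i))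
    ⟨0, mem_univ _⟩
  have hxi0 : x i0 ≠ 0 := by
    intro h0
    apply hx
    funext i
    have h1 := hi0 i (mem_univ _)
    rw [h0, map_zero] at h1
    have h2 : v (x i) = 0 := le_antisymm h1 zero_le
    exact (Valuation.zero_iff v).mp h2
  set y : Fin 4 → ℂ := fun i => (x i0)⁻¹ * x i with hy
  have hyB : ∀ i, y i ∈ B := by
    intro i
    rw [← B.valuation_le_one_iff]
    have h1 := hi0 i (mem_univ _)
    have hpos : 0 < v (x i0) := (Valuation.pos_iff v).mpr hxi0
    calc v (y i) = (v (x i0))⁻¹ * v (x i) := by simp [hy]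
      _ ≤ (v (x i0))⁻¹ * v (x i0) := by gcongr
      _ = 1 := inv_mul_cancel₀ hpos.ne'
  have hy0 : y i0 = 1 := inv_mul_cancel₀ hxi0
  have hD : D (fun t => (A t : ℂ)) y i0 = 0 := by
    rw [hy, D_scale, hcon, mul_zero]
  -- decomposition
  choose k hk using h
  have hdec : ∀ t, (A t : ℂ) = diagv ℂ t + 5 * ((k t + if t.1 = (0, 0, 1) then 2 else 0 : ℤ) : ℂ) := by
    intro t
    have h1 : A t = Afer t + 5 * k t := by linarith [hk t]
    have h2 : (Afer t : ℤ) = diagv ℤ t + 5 * (if t.1 = (0, 0, 1) then 2 else 0) := by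
      unfold Afer diagv
      by_cases c1 : t.1.1 = t.1.2.1 ∧ t.1.2.1 = t.1.2.2
      · have c2 : ¬ t.1 = (0, 0, 1) := by
          intro c2
          rw [c2] at c1
          exact absurd c1.2 (by decide)
        simp [c2]
      · by_cases c2 : t.1 = (0, 0, 1)
        · simp [c1, c2]
        · simp [c1, c2]
    have h3 : ((diagv ℤ t : ℤ) : ℂ) = diagv ℂ t := by
      unfold diagv; split_ifs <;> simp
    rw [h1, h2]
    push_cast
    rw [h3]
    ring
  have hsum : D (fun t => (A t : ℂ)) y i0 = 3 * y i0 ^ 2 +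
      5 * ∑ t, ((k t + if t.1 = (0, 0, 1) then 2 else 0 : ℤ) : ℂ) * dmon y i0 t := by
    rw [← D_diag, Finset.mul_sum, ← Finset.sum_add_distrib]
    unfold D
    refine Finset.sum_congr rfl fun t _ => ?_
    change (A t : ℂ) * dmon y i0 t = _
    rw [hdec t]
    ring
  rw [hD, hy0] at hsum
  set s := ∑ t, ((k t + if t.1 = (0, 0, 1) then 2 else 0 : ℤ) : ℂ) * dmon y i0 t with hs
  have hsB : s ∈ B := by
    rw [hs]
    refine sum_mem fun t _ => mul_mem (hint _) ?_
    unfold dmon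
    refine add_mem (add_mem ?_ ?_) ?_ <;> split_ifs <;>
      first | exact mul_mem (hyB _) (hyB _) | exact zero_mem _
  have hvs : v s ≤ 1 := (B.valuation_le_one_iff _).mpr hsB
  have h3 : (3 : ℂ) = -(5 * s) := by linear_combination -hsum
  have hv3 : v 3 < 1 := by
    rw [h3, Valuation.map_neg, map_mul]
    calc v 5 * v s ≤ v 5 * 1 := by gcongr
      _ < 1 := by rw [mul_one]; exact hv5
  have hv2 : v 2 ≤ 1 := (B.valuation_le_one_iff _).mpr (by simpa using hint 2)
  have hv6 : v 6 < 1 := by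
    have : (6 : ℂ) = 2 * 3 := by norm_num
    rw [this, map_mul]
    calc v 2 * v 3 ≤ 1 * v 3 := by gcongr
      _ < 1 := by rw [one_mul]; exact hv3
  have h1 : v (6 - 5) < 1 := lt_of_le_of_lt (Valuation.map_sub v 6 5) (max_lt hv6 hv5)
  have h2 : (6 - 5 : ℂ) = 1 := by norm_num
  rw [h2, map_one] at h1
  exact lt_irrefl _ h1

end CubicHP
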