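import Pool.Agent.Lib.MP_e426f4_ag.Basic
import Pool.Agent.Lib.MP_e426f4_ag.ClassThm
import Pool.Agent.Lib.MP_e426f4_ag.CardCl
import Pool.Agent.Lib.MP_e426f4_ag.SmoothCongr
import Pool.Agent.Lib.MP_e426f4_ag.LocalAfer

/-! # A positive proportion of smooth soluble cubic surfaces -/

set_option autoImplicit false

open Finset Filter Topology

namespace CubicHP

private def PosPropI : Idx := ⟨(0, 0, 1), by decide⟩

private noncomputable def PosPropA : Idx → ℝ := fun t => if t = PosPropI then 1 / 2 else 0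

private noncomputable def PosPropXi : Fin 4 → ℝ := fun i => if i = 0 then 1 else 0

private theorem PosProp_F : F PosPropA PosPropXi = 0 := by
  unfold F
  rw [Finset.sum_eq_single PosPropI]
  · simp [PosPropI, mon, PosPropXi]
  · intro b _ hb
    simp [PosPropA, hb]
  · intro h
    exact absurd (Finset.mem_univ _) h

private theorem PosProp_D : D PosPropA PosPropXi 1 = 1 / 2 := by
  unfold D
  rw [Finset.sum_eq_single PosPropI]
  · simp [PosPropI, dmon, PosPropXi, PosPropA]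
  · intro b _ hb
    simp [PosPropA, hb]
  · intro h
    exact absurd (Finset.mem_univ _) h

private theorem PosProp_five : (5 : ℤ) ∣ ((primorial 100 : ℤ) ^ (2 * 1)) := by
  have h : 5 ∣ primorial 100 := (Nat.Prime.dvd_primorial_iff (by norm_num)).mpr (by norm_num)
  have h2 : (5 : ℤ) ∣ (primorial 100 : ℤ) := by exact_mod_cast h
  exact Dvd.dvd.pow h2 (by norm_num)

/-- SM3 (PosProp.lean) -/
theorem positive_proportion : ∃ c : ℝ, 0 < c ∧ ∀ᶠ H : ℕ in atTop,
    c * (2 * H + 1) ^ 20 ≤ (Set.ncard {A : Idx → ℤ | A ∈ box H ∧ Smooth A ∧ Soluble A} : ℝ) := by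
  obtain ⟨rho0, hrho0, hrho01, hclass⟩ := class_thm 100 (by norm_num) (1 / 2) (by norm_num)
    (by norm_num)
  set rho : ℝ := min rho0 (1 / 2) with hrho
  have hr0 : 0 < rho := lt_min hrho0 (by norm_num)
  have hr1 : rho ≤ 1 / 2 := min_le_right _ _
  have hprim : 0 < primorial 100 := primorial_pos 100
  have hloc : ∀ p : ℕ, p.Prime → p ≤ 100 → ∃ x : Fin 4 → ℤ, (∃ i, ¬ (p : ℤ) ∣ x i) ∧
      ((p : ℤ) ^ (2 * 1)) ∣ F Afer x ∧ ∃ j, ¬ ((p : ℤ) ^ 1 ∣ D Afer x j) :=
    fun p hp _ => local_Afer p hp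
  have hA1 : ∀ m, |PosPropA m| ≤ 1 := by
    intro m
    unfold PosPropA
    split_ifs
    · rw [abs_of_pos (by norm_num)]
      norm_num
    · rw [abs_zero]
      norm_num
  have hA2 : ∀ m, |PosPropA m - PosPropA m| ≤ rho := by
    intro m
    rw [sub_self, abs_zero]
    exact hr0.le
  have hx1 : ∀ i, |PosPropXi i| ≤ 1 := by
    intro i
    unfold PosPropXi
    split_ifs <;> simp
  have hx2 : ∃ i, |PosPropXi i| = 1 := ⟨0, by simp [PosPropXi]⟩
  have hD : (1 / 2 : ℝ) ≤ |D PosPropA PosPropXi 1| := by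
    rw [PosProp_D, abs_of_pos (by norm_num)]
  have hN := hclass rho hr0 (min_le_left _ _) 1 le_rfl Afer hloc PosPropA PosPropA PosPropXi 1
    hA1 hA2 hx1 hx2 PosProp_F hD
  set d : Par :=
    { Ainf := PosPropA
      AC := PosPropA
      xi := PosPropXi
      j := 1
      kap := 1
      rho := rho
      W := primorial 100
      P := 1
      Q := primorial 100 ^ (2 * 1)
      A0 := Afer
      x0 := 0 } with hd
  have hQ : 0 < d.Q := pow_pos hprim _
  have hcard := card_Cl d hQ rho (1 / 10) hr0 (by norm_num)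
  have hQr : (d.Q : ℝ) = (primorial 100 : ℝ) ^ (2 * 1) := by
    rw [hd]
    push_cast
    rfl
  have hQ0 : (0 : ℝ) < (primorial 100 : ℝ) ^ (2 * 1) := by
    rw [← hQr]
    exact_mod_cast hQ
  refine ⟨(6 / 10) * (2 * rho / (3 * (primorial 100 : ℝ) ^ (2 * 1))) ^ 20, by positivity, ?_⟩
  filter_upwards [hN, hcard, eventually_ge_atTop 1] with H h1 h2 h3
  obtain ⟨h4, _⟩ := h2
  rw [hQr] at h4
  have hH1 : (1 : ℝ) ≤ H := by exact_mod_cast h3
  set X : ℝ := (2 * rho * H / (primorial 100 : ℝ) ^ (2 * 1)) ^ 20 with hX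
  have hX0 : 0 ≤ X := by positivity
  set N : Set (Idx → ℤ) := {A : Idx → ℤ | (∀ m, |(A m : ℝ) - H * PosPropA m| ≤ rho * H) ∧
          (∀ m, ((primorial 100 : ℤ) ^ (2 * 1)) ∣ A m - Afer m) ∧ ¬ Soluble A} with hNdef
  set S : Set (Idx → ℤ) := {A : Idx → ℤ | A ∈ box H ∧ Smooth A ∧ Soluble A} with hS
  have hsub : d.Cl rho H ⊆ N ∪ S := by
    rintro A ⟨hA, hA'⟩
    have hAQ : ∀ m, ((primorial 100 : ℤ) ^ (2 * 1)) ∣ A m - Afer m := by
      intro m
      have := hA' m
      have e : ((d.Q : ℕ) : ℤ) = (primorial 100 : ℤ) ^ (2 * 1) := by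
        rw [hd]
        push_cast
        rfl
      rwa [e] at this
    by_cases hsol : Soluble A
    · right
      refine ⟨?_, ?_, hsol⟩
      · rw [mem_box]
        intro m
        have h5 : |(A m : ℝ) - H * PosPropA m| ≤ rho * H := hA m
        have h6 : |(H : ℝ) * PosPropA m| ≤ H / 2 := by
          unfold PosPropA
          split_ifs
          · rw [abs_of_nonneg (by positivity)]
            linarith
          · rw [mul_zero, abs_zero]
            positivity
        have h7 : |(A m : ℝ)| ≤ H := by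
          have h8 : (A m : ℝ) = ((A m : ℝ) - H * PosPropA m) + H * PosPropA m := by ring
          rw [h8]
          refine (abs_add_le _ _).trans ?_
          nlinarith
        have h9 : ((|A m| : ℤ) : ℝ) ≤ ((H : ℤ) : ℝ) := by
          rw [Int.cast_abs]
          exact_mod_cast h7
        exact_mod_cast h9
      · exact smooth_of_congr A fun m => PosProp_five.trans (hAQ m)
    · left
      exact ⟨hA, hAQ, hsol⟩
  have hSfin : S.Finite := box_finite H _
  have hNfin : N.Finite := by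
    refine (Cl_finite d rho H).subset ?_
    rintro A ⟨hA, hA', _⟩
    refine ⟨hA, fun m => ?_⟩
    have e : ((d.Q : ℕ) : ℤ) = (primorial 100 : ℤ) ^ (2 * 1) := by
      rw [hd]
      push_cast
      rfl
    rw [e]
    exact hA' m
  have hle : ((d.Cl rho H).ncard : ℝ) ≤ (N.ncard : ℝ) + (S.ncard : ℝ) := by
    have h5 := Set.ncard_le_ncard hsub (hNfin.union hSfin)
    have h6 := Set.ncard_union_le N S
    exact_mod_cast h5.trans h6
  have h1' : (N.ncard : ℝ) ≤ 3 / 10 * X := by
    have h5 : (30 : ℝ) / (100 : ℕ) = 3 / 10 := by norm_num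
    rw [h5] at h1
    exact h1
  have h4' : (1 - 1 / 10) * X ≤ ((d.Cl rho H).ncard : ℝ) := h4
  have hSX : 6 / 10 * X ≤ (S.ncard : ℝ) := by linarith
  refine le_trans ?_ hSX
  have h5 : (2 * (H : ℝ) + 1) ^ 20 ≤ (3 * H) ^ 20 := pow_le_pow_left₀ (by positivity) (by linarith) 20
  have h6 : (2 * rho / (3 * (primorial 100 : ℝ) ^ (2 * 1))) ^ 20 * (3 * (H : ℝ)) ^ 20 = X := by
    rw [hX, ← mul_pow]
    congr 1
    field_simp
  calc (6 / 10) * (2 * rho / (3 * (primorial 100 : ℝ) ^ (2 * 1))) ^ 20 * (2 * (H : ℝ) + 1) ^ 20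
      ≤ (6 / 10) * (2 * rho / (3 * (primorial 100 : ℝ) ^ (2 * 1))) ^ 20 * (3 * H) ^ 20 :=
        mul_le_mul_of_nonneg_left h5 (by positivity)
    _ = 6 / 10 * ((2 * rho / (3 * (primorial 100 : ℝ) ^ (2 * 1))) ^ 20 * (3 * (H : ℝ)) ^ 20) := by
        ring
    _ = 6 / 10 * X := by rw [h6]

end CubicHP
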