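import Pool.Agent.Lib.MP_e426f4_ag.Basic

/-! Symmetry and trilinearity of `T3`. -/

namespace CubicHP

open Finset

variable {R : Type*} [CommRing R]

theorem mk3_swap12 (a b c : Fin 4) : mk3 b a c = mk3 a b c := by
  revert a b c
  decide

theorem mk3_swap23 (a b c : Fin 4) : mk3 a c b = mk3 a b c := by
  revert a b c
  decide

theorem T3_swap12 (l m n : Fin 4 → R) : T3 m l n = T3 l m n := by
  funext t
  unfold T3
  rw [Finset.sum_comm]
  refine Finset.sum_congr rfl fun a _ => Finset.sum_congr rfl fun b _ =>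
    Finset.sum_congr rfl fun c _ => ?_
  rw [mk3_swap12 a b c]
  split_ifs <;> ring

theorem T3_swap23 (l m n : Fin 4 → R) : T3 l n m = T3 l m n := by
  funext t
  unfold T3
  refine Finset.sum_congr rfl fun a _ => ?_
  rw [Finset.sum_comm]
  refine Finset.sum_congr rfl fun b _ => Finset.sum_congr rfl fun c _ => ?_
  rw [mk3_swap23 a b c]
  split_ifs <;> ring

theorem T3_add_left (l l' m n : Fin 4 → R) : T3 (l + l') m n = T3 l m n + T3 l' m n := by
  funext t
  simp only [T3, Pi.add_apply, ← Finset.sum_add_distrib]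
  refine Finset.sum_congr rfl fun a _ => Finset.sum_congr rfl fun b _ =>
    Finset.sum_congr rfl fun c _ => ?_
  split_ifs <;> ring

theorem T3_smul_left (r : R) (l m n : Fin 4 → R) : T3 (r • l) m n = r • T3 l m n := by
  funext t
  simp only [T3, Pi.smul_apply, smul_eq_mul, Finset.mul_sum]
  refine Finset.sum_congr rfl fun a _ => Finset.sum_congr rfl fun b _ =>
    Finset.sum_congr rfl fun c _ => ?_
  split_ifs <;> ring

theorem T3_add_mid (l m m' n : Fin 4 → R) : T3 l (m + m') n = T3 l m n + T3 l m' n := by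
  rw [T3_swap12 (m + m') l n, T3_add_left, T3_swap12 l m n, T3_swap12 l m' n]

theorem T3_smul_mid (r : R) (l m n : Fin 4 → R) : T3 l (r • m) n = r • T3 l m n := by
  rw [T3_swap12 (r • m) l n, T3_smul_left, T3_swap12 l m n]

theorem T3_add_right (l m n n' : Fin 4 → R) : T3 l m (n + n') = T3 l m n + T3 l m n' := by
  rw [T3_swap23 l (n + n') m, T3_add_mid, T3_swap23 l m n, T3_swap23 l m n']

theorem T3_smul_right (r : R) (l m n : Fin 4 → R) : T3 l m (r • n) = r • T3 l m n := by
  rw [T3_swap23 l (r • n) m, T3_smul_mid, T3_swap23 l m n]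

/-- `T3` as a trilinear map. -/
def T3L : (Fin 4 → R) →ₗ[R] (Fin 4 → R) →ₗ[R] (Fin 4 → R) →ₗ[R] (Idx → R) :=
  LinearMap.mk₂ R
    (fun l m =>
      { toFun := fun n => T3 l m n
        map_add' := fun n n' => T3_add_right l m n n'
        map_smul' := fun r n => T3_smul_right r l m n })
    (fun l l' m => LinearMap.ext fun n => T3_add_left l l' m n)
    (fun r l m => LinearMap.ext fun n => T3_smul_left r l m n)
    (fun l m m' => LinearMap.ext fun n => T3_add_mid l m m' n)
    (fun r l m => LinearMap.ext fun n => T3_smul_mid r l m n)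

@[simp] theorem T3L_apply (l m n : Fin 4 → R) : T3L l m n = T3 l m n := rfl

/-- the standard basis vector of index `mk3 a b c` is `T3 (e_a, e_b, e_c)` -/
theorem T3_single (a b c : Fin 4) :
    T3 (Pi.single a (1 : R)) (Pi.single b 1) (Pi.single c 1) = Pi.single (mk3 a b c) 1 := by
  funext t
  unfold T3
  rw [Finset.sum_eq_single a, Finset.sum_eq_single b, Finset.sum_eq_single c]
  · by_cases h : mk3 a b c = t
    · subst h; simp
    · rw [if_neg h, Pi.single_eq_of_ne (Ne.symm h)]
  · intro c' _ hc'; simp [Pi.single_apply, hc']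
  · simp
  · intro b' _ hb'; simp [Pi.single_apply, hb']
  · simp
  · intro a' _ ha'; simp [Pi.single_apply, ha']
  · simp

theorem mk3_idx (t : Idx) : mk3 t.1.1 t.1.2.1 t.1.2.2 = t := by
  revert t
  decide

/-- every coefficient vector is a combination of the `T3 (e_a, e_b, e_c)` -/
theorem eq_sum_T3 (A : Idx → R) :
    A = ∑ t : Idx, A t • T3 (Pi.single t.1.1 (1 : R)) (Pi.single t.1.2.1 1)
      (Pi.single t.1.2.2 1) := by
  funext s
  simp only [T3_single, mk3_idx, Finset.sum_apply, Pi.smul_apply, smul_eq_mul, Pi.single_apply,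
    mul_ite, mul_one, mul_zero]
  simp

end CubicHP
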